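import Mathlib
import Pool.Agent.Work.MP_c04246_lc.HDefs3
import Pool.Agent.Work.MP_c04246_lc.R.RDefs

set_option autoImplicit false

/-! Derivations by cedents. -/

namespace Pool.Agent.Work.MP_c04246_lc.Q

open Fml

open Classical in
/-- the clause as a cedent of literals -/
noncomputable def clC {p n : ℕ} (B : List (Fin n × Bool)) : Finset (Fml p (Fin n)) :=
  (B.map litF).toFinset

/-- Every cedent of `pi` belongs to `A` or follows from earlier ones by a `K`-local rule. -/
def CDer {p : ℕ} {V : Type} (K : ℕ) (A : Set (Finset (Fml p V))) (pi : List (Finset (Fml p V))) :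
    Prop :=
  ∀ i : Fin pi.length, pi.get i ∈ A ∨ ∃ (k : ℕ) (P : Fin k → Fin pi.length),
    (∀ a, P a < i) ∧ CRule K (fun a => pi.get (P a)) (pi.get i)

/-- number of symbols of a cedent -/
def csize {p : ℕ} {V : Type} (G : Finset (Fml p V)) : ℕ := 1 + ∑ b ∈ G, Fml.size b

/-- All subformulas which are disjunctions or conjunctions contain at most `w` variables. -/
def Small {p : ℕ} {V : Type} (w : ℕ) (b : Fml p V) : Prop :=
  ∀ (c : Bool) (a a' : Fml p V), .bin c a a' ∈ subs b → (vars (.bin c a a')).card ≤ w

end Pool.Agent.Work.MP_c04246_lc.Q
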