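import Mathlib
import Pool.Agent.Work.MP_c04246_lc.R.RDefs

set_option autoImplicit false

/-! Degree of functions on the cube; derivations from lines which are disjunctions of Boolean
functions. -/

namespace Pool.Agent.Work.MP_c04246_lc.Q

section deg

variable (p : ℕ) [Fact p.Prime] {n : ℕ}

/-- the monomial of the variables in `t` -/
def mon (t : Finset (Fin n)) : (Fin n → Bool) → ZMod p :=
  fun x => if ∀ i ∈ t, x i = true then 1 else 0

/-- functions on `{0,1}^n` with values in the field of `p` elements which are linear combinations of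
products of at most `d` variables -/
def Dg (n d : ℕ) : Submodule (ZMod p) ((Fin n → Bool) → ZMod p) :=
  Submodule.span (ZMod p) {f | ∃ t : Finset (Fin n), t.card ≤ d ∧ f = mon p t}

/-- indicator function -/
def ind (b : (Fin n → Bool) → Bool) : (Fin n → Bool) → ZMod p := fun x => if b x then 1 else 0

/-- the Boolean function `b` has degree at most `d` -/
def BD (d : ℕ) (b : (Fin n → Bool) → Bool) : Prop := ind p b ∈ Dg p n d

/-- the finite valued function `f` has degree at most `d`: all events `f x = z` have -/
def FD (d : ℕ) {T : Type} [DecidableEq T] (f : (Fin n → Bool) → T) : Prop :=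
  ∀ z, BD p d (fun x => decide (f x = z))

end deg

section ded

variable {X : Type}

/-- One inference with conclusion `B` and at most `w` premises from `A`. The members `e ∈ E` are the
active ones of the premises, the members of `B0` are the active ones of the conclusion. -/
def Stp (w : ℕ) (A : Set (List (X → Bool))) (B : List (X → Bool)) : Prop :=
  ∃ (P : List (List (X → Bool))) (E B0 : List (X → Bool)), P.length ≤ w ∧ (∀ L ∈ P, L ∈ A) ∧
    E.length ≤ w ∧ B0.length ≤ w ∧ (∀ b ∈ B0, b ∈ B) ∧ (∀ L ∈ P, ∀ e ∈ L, e ∈ B ∨ e ∈ E) ∧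
    ∀ x, (∀ L ∈ P, ∃ e ∈ L, e ∈ E ∧ e x = true) → ∃ b ∈ B0, b x = true

/-- Derivation (latest line first) from the lines in `A`; all derived lines satisfy `Lg`. -/
inductive Ded (w : ℕ) (Lg : List (X → Bool) → Prop) (A : Set (List (X → Bool))) :
    List (List (X → Bool)) → Prop
  | nil : Ded w Lg A []
  | cons (B : List (X → Bool)) (π : List (List (X → Bool))) : Ded w Lg A π →
      Stp w (A ∪ {L | L ∈ π}) B → Lg B → Ded w Lg A (B :: π)

/-- There is a derivation from `A` with at most `N` lines, among them all lines in `C`. -/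
def Drv (w : ℕ) (Lg : List (X → Bool) → Prop) (A : Set (List (X → Bool))) (N : ℕ)
    (C : Set (List (X → Bool))) : Prop :=
  ∃ π, Ded w Lg A π ∧ π.length ≤ N ∧ ∀ L ∈ C, L ∈ π

end ded

/-- legal lines: at most `W` members, all of degree at most `D` -/
def Leg (p : ℕ) [Fact p.Prime] {n : ℕ} (D W : ℕ) (L : List ((Fin n → Bool) → Bool)) : Prop :=
  L.length ≤ W ∧ ∀ b ∈ L, BD p D b

end Pool.Agent.Work.MP_c04246_lc.Q
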