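import Mathlib
import Pool.Agent.Work.MP_c04246_lc.Q.Base

set_option autoImplicit false
set_option linter.unusedSectionVars false

/-! Degree calculus. -/

namespace Pool.Agent.Work.MP_c04246_lc.Q

open Finset

variable {p : ℕ} [Fact p.Prime] {n : ℕ}

theorem Dg_mono {a b : ℕ} (h : a ≤ b) : Dg p n a ≤ Dg p n b := by
  apply Submodule.span_mono
  rintro f ⟨t, ht, rfl⟩
  exact ⟨t, ht.trans h, rfl⟩

theorem mon_mem {t : Finset (Fin n)} {d : ℕ} (h : t.card ≤ d) : mon p t ∈ Dg p n d :=
  Submodule.subset_span ⟨t, h, rfl⟩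

theorem one_mem_Dg (d : ℕ) : (1 : (Fin n → Bool) → ZMod p) ∈ Dg p n d := by
  have : (1 : (Fin n → Bool) → ZMod p) = mon p ∅ := by
    ext x; simp [mon]
  rw [this]
  exact mon_mem (by simp)

theorem const_mem_Dg (d : ℕ) (c : ZMod p) : (fun _ => c : (Fin n → Bool) → ZMod p) ∈ Dg p n d := by
  have : (fun _ => c : (Fin n → Bool) → ZMod p) = c • 1 := by ext x; simp
  rw [this]
  exact Submodule.smul_mem _ _ (one_mem_Dg d)

theorem mon_mul (s t : Finset (Fin n)) : mon p s * mon p t = mon p (s ∪ t) := by
  ext x
  simp only [mon, Pi.mul_apply]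
  by_cases h1 : ∀ i ∈ s, x i = true
  · by_cases h2 : ∀ i ∈ t, x i = true
    · have h3 : ∀ i ∈ s ∪ t, x i = true := by
        intro i hi
        rcases Finset.mem_union.1 hi with h | h
        · exact h1 i h
        · exact h2 i h
      rw [if_pos h1, if_pos h2, if_pos h3, one_mul]
    · rw [if_neg h2, mul_zero, if_neg]
      intro h3
      exact h2 fun i hi => h3 i (Finset.mem_union_right _ hi)
  · rw [if_neg h1, zero_mul, if_neg]
    intro h3
    exact h1 fun i hi => h3 i (Finset.mem_union_left _ hi)

theorem mul_mem_Dg {a b : ℕ} {f g : (Fin n → Bool) → ZMod p} (hf : f ∈ Dg p n a)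
    (hg : g ∈ Dg p n b) : f * g ∈ Dg p n (a + b) := by
  unfold Dg at hf
  induction hf using Submodule.span_induction with
  | mem f hf =>
    obtain ⟨s, hs, rfl⟩ := hf
    unfold Dg at hg
    induction hg using Submodule.span_induction with
    | mem g hg =>
      obtain ⟨t, ht, rfl⟩ := hg
      rw [mon_mul]
      exact mon_mem ((Finset.card_union_le _ _).trans (by omega))
    | zero => rw [mul_zero]; exact Submodule.zero_mem _
    | add g g' _ _ h1 h2 => rw [mul_add]; exact Submodule.add_mem _ h1 h2
    | smul c g _ h => rw [mul_smul_comm]; exact Submodule.smul_mem _ _ h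
  | zero => rw [zero_mul]; exact Submodule.zero_mem _
  | add f f' _ _ h1 h2 => rw [add_mul]; exact Submodule.add_mem _ h1 h2
  | smul c f _ h => rw [smul_mul_assoc]; exact Submodule.smul_mem _ _ h

theorem pow_mem_Dg {a : ℕ} {f : (Fin n → Bool) → ZMod p} (hf : f ∈ Dg p n a) (k : ℕ) :
    f ^ k ∈ Dg p n (k * a) := by
  induction k with
  | zero => rw [pow_zero]; exact one_mem_Dg _
  | succ k ih =>
    rw [pow_succ]
    have := mul_mem_Dg ih hf
    have e : (k + 1) * a = k * a + a := by ring
    rwa [e]

theorem prod_mem_Dg {ι : Type} (s : Finset ι) {a : ℕ} {f : ι → (Fin n → Bool) → ZMod p}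
    (hf : ∀ i ∈ s, f i ∈ Dg p n a) : ∏ i ∈ s, f i ∈ Dg p n (s.card * a) := by
  classical
  induction s using Finset.induction_on with
  | empty => rw [Finset.prod_empty]; exact one_mem_Dg _
  | insert i s hi ih =>
    rw [Finset.prod_insert hi, Finset.card_insert_of_notMem hi]
    have := mul_mem_Dg (hf i (by simp)) (ih fun j hj => hf j (by simp [hj]))
    have e : (s.card + 1) * a = a + s.card * a := by ring
    rwa [e]

theorem BD_mono {a b : ℕ} (h : a ≤ b) {f : (Fin n → Bool) → Bool} (hf : BD p a f) : BD p b f :=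
  Dg_mono h hf

theorem BD_const (d : ℕ) (c : Bool) : BD p d (fun _ => c : (Fin n → Bool) → Bool) :=
  const_mem_Dg d (if c then 1 else 0)

theorem BD_var (i : Fin n) : BD p 1 (fun x => x i) := by
  have : ind p (fun x : Fin n → Bool => x i) = mon p {i} := by
    ext x; simp [ind, mon]
  unfold BD
  rw [this]
  exact mon_mem (by simp)

theorem BD_not {d : ℕ} {f : (Fin n → Bool) → Bool} (hf : BD p d f) :
    BD p d (fun x => !(f x)) := by
  have : ind p (fun x => !(f x)) = 1 - ind p f := by
    ext x
    by_cases h : f x <;> simp [ind, h]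
  unfold BD
  rw [this]
  exact Submodule.sub_mem _ (one_mem_Dg d) hf

theorem FD_mono {a b : ℕ} (h : a ≤ b) {T : Type} [DecidableEq T] {f : (Fin n → Bool) → T}
    (hf : FD p a f) : FD p b f := fun z => BD_mono h (hf z)

theorem FD_const (d : ℕ) {T : Type} [DecidableEq T] (c : T) :
    FD p d (fun _ => c : (Fin n → Bool) → T) := fun z => BD_const d (decide (c = z))

theorem BD_of_FD {d : ℕ} {T : Type} [DecidableEq T] [Fintype T] {f : (Fin n → Bool) → T}
    (hf : FD p d f) (P : T → Bool) : BD p d (fun x => P (f x)) := by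
  have : ind p (fun x => P (f x)) =
      ∑ z ∈ univ.filter (fun z => P z = true), ind p (fun x => decide (f x = z)) := by
    ext x
    rw [Finset.sum_apply]
    simp only [ind, decide_eq_true_eq]
    rw [Finset.sum_ite_eq]
    by_cases h : P (f x) <;> simp [h]
  unfold BD
  rw [this]
  exact Submodule.sum_mem _ fun z _ => hf z

theorem FD_map {d : ℕ} {T T' : Type} [DecidableEq T] [Fintype T] [DecidableEq T']
    {f : (Fin n → Bool) → T} (hf : FD p d f) (u : T → T') : FD p d (fun x => u (f x)) :=
  fun z => BD_of_FD hf (fun y => decide (u y = z))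

theorem FD_comp {a b : ℕ} {T T' : Type} [DecidableEq T] [Fintype T] [DecidableEq T']
    {f : (Fin n → Bool) → T} {g : T → (Fin n → Bool) → T'} (hf : FD p a f)
    (hg : ∀ z, FD p b (g z)) : FD p (a + b) (fun x => g (f x) x) := by
  intro z'
  have : ind p (fun x => decide (g (f x) x = z')) =
      ∑ z, ind p (fun x => decide (f x = z)) * ind p (fun x => decide (g z x = z')) := by
    ext x
    rw [Finset.sum_apply]
    simp only [ind, decide_eq_true_eq, Pi.mul_apply, ite_mul, one_mul, zero_mul]
    rw [Finset.sum_ite_eq]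
    simp
  unfold BD
  rw [this]
  exact Submodule.sum_mem _ fun z _ => mul_mem_Dg (hf z) (hg z z')

theorem FD_pair {a b : ℕ} {T T' : Type} [DecidableEq T] [Fintype T] [DecidableEq T']
    [Fintype T'] {f : (Fin n → Bool) → T} {g : (Fin n → Bool) → T'} (hf : FD p a f)
    (hg : FD p b g) : FD p (a + b) (fun x => (f x, g x)) :=
  FD_comp (g := fun z x => (z, g x)) hf fun z => FD_map hg fun y => (z, y)

theorem FD_bool {d : ℕ} {f : (Fin n → Bool) → Bool} (hf : BD p d f) : FD p d f := by
  intro z
  cases z
  · simpa using BD_not hf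
  · simpa using hf

theorem BD_and {a b : ℕ} {f g : (Fin n → Bool) → Bool} (hf : BD p a f) (hg : BD p b g) :
    BD p (a + b) (fun x => f x && g x) :=
  BD_of_FD (FD_pair (FD_bool hf) (FD_bool hg)) fun z => z.1 && z.2

theorem BD_list {d : ℕ} (L : List ((Fin n → Bool) → Bool)) (hL : ∀ e ∈ L, BD p d e)
    (P : List Bool → Bool) : BD p (L.length * d) (fun x => P (L.map fun e => e x)) := by
  induction L generalizing P with
  | nil => exact BD_const _ (P [])
  | cons a L ih =>
    have h1 : FD p (d + L.length * d) (fun x => (fun (z : Bool) (y : Fin n → Bool) =>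
        P (z :: L.map fun e => e y)) (a x) x) :=
      FD_comp (g := fun (z : Bool) (y : Fin n → Bool) => P (z :: L.map fun e => e y))
        (FD_bool (hL a (by simp)))
        (fun z => FD_bool (ih (fun e he => hL e (by simp [he])) fun l => P (z :: l)))
    have h2 := BD_of_FD h1 id
    rw [List.length_cons]
    have e : (L.length + 1) * d = d + L.length * d := by ring
    rw [e]
    exact h2

section field

variable {K : Type} [Field K] [Fintype K] [DecidableEq K] [Algebra (ZMod p) K]

/-- all coordinates of the function with values in the extension field have degree at most `d` -/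
def KD (p : ℕ) [Fact p.Prime] {n : ℕ} {K : Type} [Field K] [Algebra (ZMod p) K] (d : ℕ)
    (f : (Fin n → Bool) → K) : Prop :=
  ∀ l : K →ₗ[ZMod p] ZMod p, (fun x => l (f x)) ∈ Dg p n d

theorem KD_add {d : ℕ} {f g : (Fin n → Bool) → K} (hf : KD p d f) (hg : KD p d g) :
    KD p d (fun x => f x + g x) := by
  intro l
  have : (fun x => l (f x + g x)) = (fun x => l (f x)) + fun x => l (g x) := by
    ext x; simp
  rw [this]
  exact Submodule.add_mem _ (hf l) (hg l)

theorem KD_mul {d : ℕ} {f : (Fin n → Bool) → K} (hf : KD p d f) (c : K) :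
    KD p d (fun x => c * f x) := by
  intro l
  exact hf (l ∘ₗ LinearMap.mulLeft (ZMod p) c)

theorem KD_ind {d : ℕ} {b : (Fin n → Bool) → Bool} (hb : BD p d b) :
    KD p d (fun x => if b x then (1 : K) else 0) := by
  intro l
  have : (fun x => l (if b x then (1 : K) else 0)) = (l 1) • ind p b := by
    ext x
    by_cases h : b x <;> simp [ind, h]
  rw [this]
  exact Submodule.smul_mem _ _ hb

theorem KD_mono {a b : ℕ} (h : a ≤ b) {f : (Fin n → Bool) → K} (hf : KD p a f) : KD p b f :=
  fun l => Dg_mono h (hf l)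

theorem KD_zero (d : ℕ) : KD p d (fun _ => (0 : K) : (Fin n → Bool) → K) := by
  intro l
  simpa using const_mem_Dg d (0 : ZMod p)

theorem FD_of_KD {d : ℕ} {f : (Fin n → Bool) → K} (hf : KD p d f) :
    FD p (Module.finrank (ZMod p) K * ((p - 1) * d)) f := by
  intro z
  let b := Module.finBasis (ZMod p) K
  have hp := (Fact.out : p.Prime)
  have : ind p (fun x => decide (f x = z)) =
      ∏ i, (1 - ((fun x => b.coord i (f x)) - fun _ => b.coord i z) ^ (p - 1)) := by
    ext x
    rw [Finset.prod_apply]
    simp only [ind, decide_eq_true_eq, Pi.sub_apply, Pi.one_apply, Pi.pow_apply]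
    by_cases h : f x = z
    · rw [if_pos h, h]
      symm
      apply Finset.prod_eq_one
      intro i _
      rw [sub_self, zero_pow (by have := hp.two_le; omega), sub_zero]
    · rw [if_neg h]
      have : ∃ i, b.coord i (f x) ≠ b.coord i z := by
        by_contra hc
        push Not at hc
        exact h (b.ext_elem fun i => by simpa using hc i)
      obtain ⟨i, hi⟩ := this
      symm
      apply Finset.prod_eq_zero (Finset.mem_univ i)
      rw [ZMod.pow_card_sub_one_eq_one (sub_ne_zero.2 hi), sub_self]
  unfold BD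
  rw [this]
  have h2 := prod_mem_Dg (p := p) (n := n) (Finset.univ : Finset (Fin (Module.finrank (ZMod p) K)))
    (a := (p - 1) * d)
    (f := fun i => 1 - ((fun x => b.coord i (f x)) - fun _ => b.coord i z) ^ (p - 1))
    (fun i _ => Submodule.sub_mem _ (one_mem_Dg _)
      (pow_mem_Dg (Submodule.sub_mem _ (hf (b.coord i)) (const_mem_Dg d _)) (p - 1)))
  simpa using h2

end field

end Pool.Agent.Work.MP_c04246_lc.Q
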