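import Mathlib
import Pool.Agent.Work.MP_c04246_lc.Q.Base

set_option autoImplicit false

namespace Pool.Agent.Work.MP_c04246_lc.Q

variable {X : Type} {w : ℕ} {Lg : List (X → Bool) → Prop} {A A' C C' : Set (List (X → Bool))}

/-! ### inferences -/

theorem Stp.mono {B : List (X → Bool)} (h : Stp w A B) (hA : A ⊆ A') : Stp w A' B := by
  obtain ⟨P, E, B0, h1, h2, h3, h4, h5, h6, h7⟩ := h
  exact ⟨P, E, B0, h1, fun L hL => hA (h2 L hL), h3, h4, h5, h6, h7⟩

open Classical in
/-- general inference: every premise `q.1` comes with its list `q.2` of active members -/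
theorem stpL {B B0 : List (X → Bool)} (Q : List (List (X → Bool) × List (X → Bool)))
    (hQ : Q.length ≤ w) (hA : ∀ q ∈ Q, q.1 ∈ A) (hE : (Q.map fun q => q.2.length).sum ≤ w)
    (hB0 : B0.length ≤ w) (hB : ∀ b ∈ B0, b ∈ B) (h : ∀ q ∈ Q, ∀ e ∈ q.1, e ∈ B ∨ e ∈ q.2)
    (hs : ∀ x, (∀ q ∈ Q, ∃ e ∈ q.2, e x = true) → ∃ b ∈ B0, b x = true) : Stp w A B := by
  refine ⟨Q.map Prod.fst, (Q.flatMap Prod.snd).filter (fun e => decide (e ∉ B)), B0, by simpa,
    ?_, ?_, hB0, hB, ?_, ?_⟩
  · intro L hL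
    obtain ⟨q, hq, rfl⟩ := List.mem_map.1 hL
    exact hA q hq
  · refine (List.length_filter_le _ _).trans ?_
    rw [List.length_flatMap]
    exact hE
  · intro L hL e he
    obtain ⟨q, hq, rfl⟩ := List.mem_map.1 hL
    by_cases hb : e ∈ B
    · exact Or.inl hb
    · right
      rw [List.mem_filter]
      refine ⟨List.mem_flatMap.2 ⟨q, hq, ((h q hq e he).resolve_left hb)⟩, by simpa using hb⟩
  · intro x hx
    apply hs
    intro q hq
    obtain ⟨e, he, he2, hx2⟩ := hx q.1 (List.mem_map.2 ⟨q, hq, rfl⟩)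
    rw [List.mem_filter] at he2
    have hnb : e ∉ B := by simpa using he2.2
    exact ⟨e, (h q hq e he).resolve_left hnb, hx2⟩

theorem stp0 {B : List (X → Bool)} (hw : 1 ≤ w) (b : X → Bool) (hb : b ∈ B)
    (h : ∀ x, b x = true) : Stp w A B :=
  stpL (B0 := [b]) [] (by simp) (by simp) (by simp) (by simpa using hw)
    (by simpa using hb) (by simp) (fun x _ => ⟨b, by simp, h x⟩)

theorem stp1 {B B0 L E : List (X → Bool)} (hw : 1 ≤ w) (hL : L ∈ A) (hE : E.length ≤ w)
    (hB0 : B0.length ≤ w) (hB : ∀ b ∈ B0, b ∈ B) (h : ∀ e ∈ L, e ∈ B ∨ e ∈ E)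
    (hs : ∀ x, (∃ e ∈ E, e x = true) → ∃ b ∈ B0, b x = true) : Stp w A B :=
  stpL (B0 := B0) [(L, E)] (by simpa using hw) (by simpa using hL) (by simpa using hE) hB0 hB
    (by simpa using h) (fun x hx => hs x (by simpa using hx))

theorem stp2 {B B0 L1 E1 L2 E2 : List (X → Bool)} (hw : 2 ≤ w) (hL1 : L1 ∈ A) (hL2 : L2 ∈ A)
    (hE : E1.length + E2.length ≤ w) (hB0 : B0.length ≤ w) (hB : ∀ b ∈ B0, b ∈ B)
    (h1 : ∀ e ∈ L1, e ∈ B ∨ e ∈ E1) (h2 : ∀ e ∈ L2, e ∈ B ∨ e ∈ E2)
    (hs : ∀ x, (∃ e ∈ E1, e x = true) → (∃ e ∈ E2, e x = true) → ∃ b ∈ B0, b x = true) :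
    Stp w A B :=
  stpL (B0 := B0) [(L1, E1), (L2, E2)] (by simpa using hw) (by simp [hL1, hL2])
    (by simpa using hE) hB0 hB
    (by
      intro q hq
      simp only [List.mem_cons, List.not_mem_nil, or_false] at hq
      rcases hq with rfl | rfl
      · exact h1
      · exact h2)
    (fun x hx => hs x (hx (L1, E1) (by simp)) (hx (L2, E2) (by simp)))

/-! ### derivations -/

theorem Ded.mono {π : List (List (X → Bool))} (h : Ded w Lg A π) (hA : A ⊆ A') :
    Ded w Lg A' π := by
  induction h with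
  | nil => exact Ded.nil
  | cons B π _ hs hB ih =>
    exact Ded.cons B π ih (hs.mono (Set.union_subset_union_left _ hA)) hB

theorem Ded.append {π π' : List (List (X → Bool))} (h : Ded w Lg A π) (hC : ∀ L ∈ C, L ∈ π)
    (h' : Ded w Lg (A ∪ C) π') : Ded w Lg A (π' ++ π) := by
  induction h' with
  | nil => exact h
  | cons B π' _ hs hB ih =>
    refine Ded.cons B (π' ++ π) ih (hs.mono ?_) hB
    rintro L ((hL | hL) | hL)
    · exact Or.inl hL
    · exact Or.inr (List.mem_append_right _ (hC L hL))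
    · exact Or.inr (List.mem_append_left _ hL)

theorem Drv.mono {N N' : ℕ} (h : Drv w Lg A N C) (hA : A ⊆ A') (hN : N ≤ N') (hC : C' ⊆ C) :
    Drv w Lg A' N' C' := by
  obtain ⟨π, h1, h2, h3⟩ := h
  exact ⟨π, h1.mono hA, h2.trans hN, fun L hL => h3 L (hC hL)⟩

theorem Drv.nil : Drv w Lg A 0 ∅ := ⟨[], Ded.nil, by simp, by simp⟩

theorem Drv.trans {N N' : ℕ} (h : Drv w Lg A N C) (h' : Drv w Lg (A ∪ C) N' C') :
    Drv w Lg A (N + N') (C ∪ C') := by
  obtain ⟨π, h1, h2, h3⟩ := h
  obtain ⟨π', h1', h2', h3'⟩ := h'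
  refine ⟨π' ++ π, h1.append h3 h1', by rw [List.length_append]; omega, ?_⟩
  rintro L (hL | hL)
  · exact List.mem_append_right _ (h3 L hL)
  · exact List.mem_append_left _ (h3' L hL)

/-- composition, keeping only the new lines -/
theorem Drv.comp {N N' : ℕ} (h : Drv w Lg A N C) (h' : Drv w Lg (A ∪ C) N' C') :
    Drv w Lg A (N + N') C' :=
  (h.trans h').mono subset_rfl le_rfl Set.subset_union_right

/-- families of derivations -/
theorem Drv.fam {ι : Type} (l : List ι) (c : ι → Set (List (X → Bool))) {N : ℕ}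
    (h : ∀ i ∈ l, Drv w Lg A N (c i)) : Drv w Lg A (l.length * N) {L | ∃ i ∈ l, L ∈ c i} := by
  induction l with
  | nil => exact Drv.nil.mono subset_rfl (by simp) (by intro L hL; simp at hL)
  | cons a l ih =>
    have h1 := h a (by simp)
    have h2 := ih fun i hi => h i (by simp [hi])
    refine (h1.trans (h2.mono Set.subset_union_left le_rfl subset_rfl)).mono subset_rfl ?_ ?_
    · rw [List.length_cons]; ring_nf; omega
    · rintro L ⟨i, hi, hL⟩
      rcases List.mem_cons.1 hi with rfl | hi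
      · exact Or.inl hL
      · exact Or.inr ⟨i, hi, hL⟩

/-- families of derivations indexed by a finite type -/
theorem Drv.famT {ι : Type} [Fintype ι] (c : ι → Set (List (X → Bool))) {N : ℕ}
    (h : ∀ i, Drv w Lg A N (c i)) : Drv w Lg A (Fintype.card ι * N) {L | ∃ i, L ∈ c i} := by
  have := Drv.fam (Finset.univ : Finset ι).toList c (N := N) (fun i _ => h i)
  refine this.mono subset_rfl (by simp) ?_
  rintro L ⟨i, hi⟩
  exact ⟨i, by simp, hi⟩

theorem Drv.step {B : List (X → Bool)} (h : Stp w A B) (hB : Lg B) : Drv w Lg A 1 {B} :=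
  ⟨[B], Ded.cons B [] Ded.nil (h.mono Set.subset_union_left) hB, by simp, by simp⟩

theorem Drv.weaken {L B : List (X → Bool)} (hw : 1 ≤ w) (hL : L ∈ A) (h : ∀ e ∈ L, e ∈ B)
    (hB : Lg B) : Drv w Lg A 1 {B} :=
  Drv.step (stp1 (L := L) (E := []) (B0 := []) hw hL (by simp) (by simp) (by simp)
    (fun e he => Or.inl (h e he)) (by simp)) hB

/-- elimination of the members of `M` one by one -/
theorem Drv.elim {L Γ M : List (X → Bool)} (hw : 1 ≤ w) (hL : L ∈ A) (h : ∀ e ∈ L, e ∈ Γ ∨ e ∈ M)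
    (hLg : ∀ M', M' <:+ M → Lg (Γ ++ M'))
    (hs : ∀ e M', (e :: M') <:+ M → Stp w (A ∪ {Γ ++ e :: M'}) (Γ ++ M')) :
    Drv w Lg A (M.length + 1) {Γ} := by
  have key : ∀ M', M' <:+ M → Drv w Lg A (M.length - M'.length + 1) {Γ ++ M'} := by
    intro M' hM'
    obtain ⟨T, rfl⟩ := hM'
    induction T using List.reverseRecOn generalizing M' with
    | nil =>
      refine (Drv.weaken hw hL (B := Γ ++ M') ?_ (hLg _ (by simp))).mono subset_rfl (by simp)
        subset_rfl
      intro e he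
      simpa using h e he
    | append_singleton T a ih =>
      have e1 : T ++ [a] ++ M' = T ++ (a :: M') := by simp
      rw [e1] at h hLg hs
      have h1 := ih (a :: M') h hLg hs
      have h2 : Drv w Lg (A ∪ {Γ ++ a :: M'}) 1 {Γ ++ M'} := by
        refine Drv.step (hs a M' (List.suffix_append _ _)) (hLg M' ?_)
        exact (List.suffix_cons a M').trans (List.suffix_append _ _)
      refine (h1.comp h2).mono subset_rfl ?_ subset_rfl
      rw [e1]
      simp only [List.length_append, List.length_cons]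
      omega
  have := key [] (List.nil_suffix)
  simpa using this

/-- Replacement of the members of `M`, each of which implies a few members of `Γ`. -/
theorem Drv.sub {L Γ M : List (X → Bool)} (hw : 1 ≤ w) (hL : L ∈ A) (h : ∀ e ∈ L, e ∈ Γ ∨ e ∈ M)
    (hLg : ∀ M', M' <:+ M → Lg (Γ ++ M'))
    (hs : ∀ e ∈ M, ∃ B0 : List (X → Bool), B0.length ≤ w ∧ (∀ b ∈ B0, b ∈ Γ) ∧
      ∀ x, e x = true → ∃ b ∈ B0, b x = true) :
    Drv w Lg A (M.length + 1) {Γ} := by
  refine Drv.elim hw hL h hLg fun e M' hM' => ?_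
  obtain ⟨B0, h1, h2, h3⟩ := hs e (hM'.subset (by simp))
  refine stp1 (L := Γ ++ e :: M') (E := [e]) (B0 := B0) hw (by simp) (by simpa using hw) h1
    (fun b hb => List.mem_append_left _ (h2 b hb)) ?_ ?_
  · intro f hf
    simp only [List.mem_append, List.mem_cons, List.not_mem_nil, or_false] at hf ⊢
    tauto
  · intro x hx
    exact h3 x (by simpa using hx)

/-- Cuts on all members of `M`. -/
theorem Drv.cutall {L Γ M : List (X → Bool)} (hw : 2 ≤ w) (hL : L ∈ A)
    (h : ∀ e ∈ L, e ∈ Γ ∨ e ∈ M) (hLg : ∀ M', M' <:+ M → Lg (Γ ++ M'))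
    (hs : ∀ e ∈ M, ∃ L' ∈ A, ∃ e' : X → Bool, (∀ f ∈ L', f ∈ Γ ∨ f = e') ∧
      ∀ x, ¬ (e x = true ∧ e' x = true)) :
    Drv w Lg A (M.length + 1) {Γ} := by
  refine Drv.elim (by omega) hL h hLg fun e M' hM' => ?_
  obtain ⟨L', hL', e', h1, h2⟩ := hs e (hM'.subset (by simp))
  refine stp2 (L1 := Γ ++ e :: M') (E1 := [e]) (L2 := L') (E2 := [e']) (B0 := []) hw (by simp)
    (Or.inl hL') (by simpa using hw) (by simp) (by simp) ?_ ?_ ?_
  · intro f hf
    simp only [List.mem_append, List.mem_cons, List.not_mem_nil, or_false] at hf ⊢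
    tauto
  · intro f hf
    simp only [List.mem_append, List.mem_cons, List.not_mem_nil, or_false]
    rcases h1 f hf with h | h
    · exact Or.inl (Or.inl h)
    · exact Or.inr h
  · intro x hx hx'
    exact absurd ⟨by simpa using hx, by simpa using hx'⟩ (h2 x)

/-- case distinction over all values of a finite valued function -/
theorem Drv.fan {T : Type} [Fintype T] [DecidableEq T] (Φ : X → T) {Γ : List (X → Bool)}
    (hw : 2 ≤ w) (hΓ : Lg Γ)
    (hLg : ∀ S : Finset T, Lg (Γ ++ [fun x => decide (Φ x ∉ S)]))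
    (hs : ∀ z, ∃ L ∈ A, ∀ f ∈ L, f ∈ Γ ∨ f = fun x => decide (Φ x ≠ z)) :
    Drv w Lg A (Fintype.card T + 2) {Γ} := by
  classical
  have key : ∀ S : Finset T,
      Drv w Lg A (S.card + 1) {Γ ++ [fun x => decide (Φ x ∉ S)]} := by
    intro S
    induction S using Finset.induction_on with
    | empty =>
      refine (Drv.step (stp0 (by omega) (fun x => decide (Φ x ∉ (∅ : Finset T))) (by simp) (by simp))
        (hLg ∅)).mono subset_rfl (by simp) subset_rfl
    | insert a S ha ih =>
      obtain ⟨L, hL, h1⟩ := hs a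
      refine (ih.comp (Drv.step (B := Γ ++ [fun x => decide (Φ x ∉ insert a S)])
        (stp2 (L1 := Γ ++ [fun x => decide (Φ x ∉ S)]) (E1 := [fun x => decide (Φ x ∉ S)])
        (L2 := L) (E2 := [fun x => decide (Φ x ≠ a)])
        (B0 := [fun x => decide (Φ x ∉ insert a S)]) hw (by simp) (Or.inl hL)
        (by simpa using hw) (by simp; omega) (by simp) ?_ ?_ ?_) (hLg _))).mono subset_rfl
        (by rw [Finset.card_insert_of_notMem ha]) subset_rfl
      · intro f hf
        simp only [List.mem_append, List.mem_cons, List.not_mem_nil, or_false] at hf ⊢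
        tauto
      · intro f hf
        simp only [List.mem_append, List.mem_cons, List.not_mem_nil, or_false]
        rcases h1 f hf with h | h
        · exact Or.inl (Or.inl h)
        · exact Or.inr h
      · intro x hx hx'
        simp only [List.mem_cons, List.not_mem_nil, or_false, exists_eq_left,
          decide_eq_true_eq, Finset.mem_insert, not_or] at hx hx' ⊢
        exact ⟨hx', hx⟩
  have h1 := key Finset.univ
  refine (h1.comp (Drv.step (B := Γ) (stp1 (L := Γ ++ [fun x => decide (Φ x ∉ (Finset.univ : Finset T))])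
    (E := [fun x => decide (Φ x ∉ (Finset.univ : Finset T))]) (B0 := []) (by omega) (by simp)
    (by simp; omega) (by simp) (by simp) ?_ ?_) hΓ)).mono subset_rfl
    (by rw [Finset.card_univ]) subset_rfl
  · intro f hf
    simpa using hf
  · intro x hx
    simp at hx

end Pool.Agent.Work.MP_c04246_lc.Q
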