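import Mathlib
import Pool.Agent.Work.MP_c04246_lc.Q.Calc

set_option autoImplicit false

/-! Refutation of a surjection of `Y` onto `Y × Y`. -/

namespace Pool.Agent.Work.MP_c04246_lc.Q

/-- lines with at most `W` members, all of them allowed -/
def LgA {X : Type} (AL : (X → Bool) → Prop) (W : ℕ) (L : List (X → Bool)) : Prop :=
  L.length ≤ W ∧ ∀ b ∈ L, AL b

/-- the value `z` is attained -/
noncomputable def SL {X Y Z : Type} [Fintype Y] [DecidableEq Z] (D : X → Y → Z) (z : Z) :
    List (X → Bool) := (Finset.univ : Finset Y).toList.map fun y => fun x => decide (D x y = z)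

section

variable {X Y : Type} [Fintype Y] [DecidableEq Y]

/-- the function coded by `y` -/
def FF (E : X → Y → Y × Y) (x : X) : ℕ → Y → ℕ → Y
  | 0, y, _ => y
  | h + 1, y, j => if j < 2 ^ h then FF E x h (E x y).1 j else FF E x h (E x y).2 (j - 2 ^ h)

/-- `y` does not code the part of `g` below the node `u` of height `h` -/
def NC (E : X → Y → Y × Y) (g : ℕ → X → Y) (h u : ℕ) (y : Y) : List (X → Bool) :=
  (List.range (2 ^ h)).map fun j => fun x => decide (FF E x h y j ≠ g (u * 2 ^ h + j) x)

variable {w W : ℕ} {AL : (X → Bool) → Prop}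

theorem dfs (E : X → Y → Y × Y) (g : ℕ → X → Y) (hw : 4 ≤ w) (k : ℕ)
    (hA1 : ∀ y z, AL (fun x => decide (E x y = z)))
    (hA2 : ∀ y z, AL (fun x => decide (E x y ≠ z)))
    (hA3 : ∀ h ≤ k, ∀ y j i, AL (fun x => decide (FF E x h y j ≠ g i x)))
    (hA4 : ∀ i (S : Finset Y), AL (fun x => decide (g i x ∉ S))) (h : ℕ) (hk : h ≤ k) :
    ∀ (u : ℕ) (Γ : List (X → Bool)) (A : Set (List (X → Bool))), (∀ z, SL E z ∈ A) →
      (∀ y, (Γ ++ NC E g h u y) ∈ A) → (∀ b ∈ Γ, AL b) →
      Γ.length + 2 * 2 ^ h + Fintype.card Y + 2 ≤ W →
      Drv w (LgA AL W) A ((Fintype.card Y + 1) ^ (h + 3) * 2 ^ (h + 2)) {Γ} := by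
  induction h with
  | zero =>
    intro u Γ A hS hN hΓ hW
    have h1 : Drv w (LgA AL W) A (Fintype.card Y + 2) {Γ} := by
      refine Drv.fan (g u) (by omega) ⟨by omega, hΓ⟩ (fun S => ⟨?_, ?_⟩) fun z => ⟨_, hN z, ?_⟩
      · rw [List.length_append]
        simp
        omega
      · intro b hb
        simp only [List.mem_append, List.mem_cons, List.not_mem_nil, or_false] at hb
        rcases hb with hb | rfl
        · exact hΓ b hb
        · exact hA4 u S
      · intro f hf
        simp only [NC, pow_zero, List.range_one, List.map_cons, List.map_nil, mul_one, add_zero,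
          List.mem_append, List.mem_cons, List.not_mem_nil, or_false] at hf
        rcases hf with hf | rfl
        · exact Or.inl hf
        · right
          funext x
          simp [FF, eq_comm]
    refine h1.mono subset_rfl ?_ subset_rfl
    have : Fintype.card Y + 1 ≤ (Fintype.card Y + 1) ^ (0 + 3) := Nat.le_self_pow (by norm_num) _
    have h3 : 1 ≤ Fintype.card Y + 1 := by omega
    calc Fintype.card Y + 2 ≤ (Fintype.card Y + 1) * 4 := by omega
      _ ≤ (Fintype.card Y + 1) ^ (0 + 3) * 2 ^ (0 + 2) := by
        apply Nat.mul_le_mul this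
        norm_num
  | succ h ih =>
    intro u Γ A hS hN hΓ hW
    have ih := ih (by omega)
    set q := Fintype.card Y with hq
    have hpow : (2 : ℕ) ^ (h + 1) = 2 * 2 ^ h := by rw [pow_succ]; ring
    have hlen : ∀ v y, (NC E g h v y).length = 2 ^ h := by intro v y; simp [NC]
    have hlen' : ∀ v y, (NC E g (h + 1) v y).length = 2 ^ (h + 1) := by intro v y; simp [NC]
    have hal : ∀ v y, ∀ b ∈ NC E g h v y, AL b := by
      intro v y b hb
      simp only [NC, List.mem_map, List.mem_range] at hb
      obtain ⟨j, hj, rfl⟩ := hb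
      exact hA3 h (by omega) y j _
    have hal' : ∀ v y, ∀ b ∈ NC E g (h + 1) v y, AL b := by
      intro v y b hb
      simp only [NC, List.mem_map, List.mem_range] at hb
      obtain ⟨j, hj, rfl⟩ := hb
      exact hA3 (h + 1) hk y j _
    -- the lines for pairs
    have c1 : ∀ z : Y × Y, Drv w (LgA AL W) A (q * (2 ^ (h + 1) + 1) + (q + 1))
        {Γ ++ NC E g h (2 * u) z.1 ++ NC E g h (2 * u + 1) z.2} := by
      intro z
      set Γ2 := Γ ++ NC E g h (2 * u) z.1 ++ NC E g h (2 * u + 1) z.2 with hΓ2
      have hΓ2l : Γ2.length = Γ.length + 2 ^ (h + 1) := by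
        rw [hΓ2, List.length_append, List.length_append, hlen, hlen, hpow]; ring
      have hΓ2a : ∀ b ∈ Γ2, AL b := by
        intro b hb
        rw [hΓ2, List.mem_append, List.mem_append] at hb
        rcases hb with (hb | hb) | hb
        · exact hΓ b hb
        · exact hal _ _ b hb
        · exact hal _ _ b hb
      have d1 : ∀ y : Y, Drv w (LgA AL W) A (2 ^ (h + 1) + 1)
          {Γ2 ++ [fun x => decide (E x y ≠ z)]} := by
        intro y
        have hM := hlen' u y
        rw [← hM]
        refine Drv.sub (by omega) (hN y) ?_ ?_ ?_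
        · intro e he
          rw [List.mem_append] at he
          rcases he with he | he
          · left
            rw [hΓ2]
            simp [he]
          · exact Or.inr he
        · intro M' hM'
          have := hM'.length_le
          refine ⟨?_, ?_⟩
          · rw [List.length_append, List.length_append, hΓ2l]
            simp only [List.length_cons, List.length_nil]
            omega
          · intro b hb
            simp only [List.mem_append, List.mem_cons, List.not_mem_nil, or_false] at hb
            rcases hb with (hb | rfl) | hb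
            · exact hΓ2a b hb
            · exact hA2 y z
            · exact hal' _ _ b (hM'.subset hb)
        · intro e he
          simp only [NC, List.mem_map, List.mem_range] at he
          obtain ⟨j, hj, rfl⟩ := he
          by_cases hj2 : j < 2 ^ h
          · refine ⟨[fun x => decide (E x y ≠ z),
              fun x => decide (FF E x h z.1 j ≠ g (2 * u * 2 ^ h + j) x)], by simp; omega, ?_, ?_⟩
            · intro b hb
              simp only [List.mem_cons, List.not_mem_nil, or_false] at hb
              rcases hb with rfl | rfl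
              · simp
              · rw [List.mem_append, hΓ2, List.mem_append, List.mem_append]
                left; left; right
                simp only [NC, List.mem_map, List.mem_range]
                exact ⟨j, hj2, rfl⟩
            · intro x hx
              by_cases hE : E x y = z
              · refine ⟨fun x => decide (FF E x h z.1 j ≠ g (2 * u * 2 ^ h + j) x), by simp, ?_⟩
                simp only [FF, if_pos hj2, decide_eq_true_eq, hE] at hx
                simp only [decide_eq_true_eq]
                have e1 : u * 2 ^ (h + 1) + j = 2 * u * 2 ^ h + j := by rw [hpow]; ring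
                rwa [e1] at hx
              · exact ⟨fun x => decide (E x y ≠ z), by simp, by simpa using hE⟩
          · refine ⟨[fun x => decide (E x y ≠ z),
              fun x => decide (FF E x h z.2 (j - 2 ^ h) ≠
                g ((2 * u + 1) * 2 ^ h + (j - 2 ^ h)) x)], by simp; omega, ?_, ?_⟩
            · intro b hb
              simp only [List.mem_cons, List.not_mem_nil, or_false] at hb
              rcases hb with rfl | rfl
              · simp
              · rw [List.mem_append, hΓ2, List.mem_append, List.mem_append]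
                left; right
                simp only [NC, List.mem_map, List.mem_range]
                exact ⟨j - 2 ^ h, by omega, rfl⟩
            · intro x hx
              by_cases hE : E x y = z
              · refine ⟨fun x => decide (FF E x h z.2 (j - 2 ^ h) ≠
                  g ((2 * u + 1) * 2 ^ h + (j - 2 ^ h)) x), by simp, ?_⟩
                simp only [FF, if_neg hj2, decide_eq_true_eq, hE] at hx
                simp only [decide_eq_true_eq]
                have e1 : u * 2 ^ (h + 1) + j = (2 * u + 1) * 2 ^ h + (j - 2 ^ h) := by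
                  rw [hpow]
                  have : (2 * u + 1) * 2 ^ h = u * (2 * 2 ^ h) + 2 ^ h := by ring
                  omega
                rwa [e1] at hx
              · exact ⟨fun x => decide (E x y ≠ z), by simp, by simpa using hE⟩
      have d2 := Drv.famT (fun y : Y => ({Γ2 ++ [fun x => decide (E x y ≠ z)]} :
        Set (List (X → Bool)))) d1
      refine d2.comp ?_
      have hM : (SL E z).length = q := by simp [SL, hq]
      rw [← hM]
      refine Drv.cutall (by omega) (L := SL E z) (M := SL E z) (Or.inl (hS z))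
        (fun e he => Or.inr he) ?_ ?_
      · intro M' hM'
        have := hM'.length_le
        refine ⟨?_, ?_⟩
        · rw [List.length_append, hΓ2l]
          omega
        · intro b hb
          rw [List.mem_append] at hb
          rcases hb with hb | hb
          · exact hΓ2a b hb
          · have := hM'.subset hb
            simp only [SL, List.mem_map, Finset.mem_toList, Finset.mem_univ, true_and] at this
            obtain ⟨y, rfl⟩ := this
            exact hA1 y z
      · intro e he
        simp only [SL, List.mem_map, Finset.mem_toList, Finset.mem_univ, true_and] at he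
        obtain ⟨y, rfl⟩ := he
        refine ⟨Γ2 ++ [fun x => decide (E x y ≠ z)], Or.inr ⟨y, rfl⟩,
          fun x => decide (E x y ≠ z), ?_, ?_⟩
        · intro f hf
          simpa using hf
        · intro x hx
          simp only [decide_eq_true_eq] at hx
          exact hx.2 hx.1
    have c2 := Drv.famT (fun z : Y × Y =>
      ({Γ ++ NC E g h (2 * u) z.1 ++ NC E g h (2 * u + 1) z.2} : Set (List (X → Bool)))) c1
    have c3 : ∀ y : Y, Drv w (LgA AL W) (A ∪ {L | ∃ z : Y × Y, L ∈
        ({Γ ++ NC E g h (2 * u) z.1 ++ NC E g h (2 * u + 1) z.2} : Set (List (X → Bool)))})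
        ((q + 1) ^ (h + 3) * 2 ^ (h + 2)) {Γ ++ NC E g h (2 * u) y} := by
      intro y
      refine ih (2 * u + 1) (Γ ++ NC E g h (2 * u) y) _ (fun z => Or.inl (hS z))
        (fun y1 => Or.inr ⟨(y, y1), rfl⟩) ?_ ?_
      · intro b hb
        rw [List.mem_append] at hb
        rcases hb with hb | hb
        · exact hΓ b hb
        · exact hal _ _ b hb
      · rw [List.length_append, hlen]
        omega
    have c4 := Drv.famT _ c3
    have c5 := ih (2 * u) Γ ((A ∪ {L | ∃ z : Y × Y, L ∈
        ({Γ ++ NC E g h (2 * u) z.1 ++ NC E g h (2 * u + 1) z.2} : Set (List (X → Bool)))}) ∪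
        {L | ∃ y : Y, L ∈ ({Γ ++ NC E g h (2 * u) y} : Set (List (X → Bool)))})
        (fun z => Or.inl (Or.inl (hS z))) (fun y => Or.inr ⟨y, rfl⟩) hΓ (by omega)
    refine (c2.comp (c4.comp c5)).mono subset_rfl ?_ subset_rfl
    rw [Fintype.card_prod, ← hq]
    set P := (2 : ℕ) ^ h with hP
    have e1 : (2 : ℕ) ^ (h + 2) = 4 * P := by rw [hP, pow_add]; ring
    have e2 : (2 : ℕ) ^ (h + 1 + 2) = 8 * P := by
      have : h + 1 + 2 = h + 3 := by ring
      rw [this, hP, pow_add]; ring
    have e3 : (q + 1) ^ (h + 1 + 3) = (q + 1) ^ (h + 3) * (q + 1) := by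
      rw [show h + 1 + 3 = (h + 3) + 1 by ring, pow_succ]
    rw [e1, e2, e3, hpow]
    set R := (q + 1) ^ (h + 3) with hR
    have hR3 : (q + 1) ^ 3 ≤ R := Nat.pow_le_pow_right (by omega) (by omega)
    have hP1 : 1 ≤ P := Nat.one_le_two_pow
    have h5 : q * q * (q * (2 * P + 1) + (q + 1)) ≤ (q + 1) ^ 3 * (4 * P) := by
      have : q * (2 * P + 1) + (q + 1) ≤ (q + 1) * (4 * P) := by nlinarith
      calc q * q * (q * (2 * P + 1) + (q + 1)) ≤ ((q + 1) * (q + 1)) * ((q + 1) * (4 * P)) :=
            Nat.mul_le_mul (Nat.mul_le_mul (by omega) (by omega)) this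
        _ = (q + 1) ^ 3 * (4 * P) := by ring
    calc q * q * (q * (2 * P + 1) + (q + 1)) + (q * (R * (4 * P)) + R * (4 * P))
        ≤ R * (4 * P) + (q * (R * (4 * P)) + R * (4 * P)) :=
          Nat.add_le_add_right (h5.trans (Nat.mul_le_mul_right _ hR3)) _
      _ ≤ R * (q + 1) * (8 * P) := by nlinarith [Nat.zero_le (R * P), Nat.zero_le (q * R * P)]

/-- Refutation of a surjection of `Y` onto `Y × Y`. -/
theorem diag [Nonempty Y] (E : X → Y → Y × Y) (hw : 4 ≤ w) (k : ℕ) (fl : Y → Y)
    (hfl : ∀ y, fl y ≠ y) (hk : Fintype.card Y ≤ 2 ^ k)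
    (hA1 : ∀ y z, AL (fun x => decide (E x y = z)))
    (hA2 : ∀ y z, AL (fun x => decide (E x y ≠ z)))
    (hA3 : ∀ h ≤ k, ∀ y y' j i, AL (fun x => decide (FF E x h y j ≠ fl (FF E x k y' i))))
    (hA4 : ∀ y i (S : Finset Y), AL (fun x => decide (fl (FF E x k y i) ∉ S)))
    (A : Set (List (X → Bool))) (hA : ∀ z, SL E z ∈ A)
    (hW : 2 * 2 ^ k + Fintype.card Y + 2 ≤ W) :
    Drv w (LgA AL W) A (Fintype.card Y + (Fintype.card Y + 1) ^ (k + 3) * 2 ^ (k + 2)) {[]} := by
  classical
  let en := Fintype.equivFin Y
  let dec : ℕ → Y := fun i => if hi : i < Fintype.card Y then en.symm ⟨i, hi⟩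
    else Classical.arbitrary Y
  let g : ℕ → X → Y := fun i x => fl (FF E x k (dec i) i)
  have h1 : ∀ y : Y, Drv w (LgA AL W) A 1 {NC E g k 0 y} := by
    intro y
    refine Drv.step (stp0 (by omega)
      (fun x => decide (FF E x k y (en y).1 ≠ g (0 * 2 ^ k + (en y).1) x)) ?_ ?_) ⟨?_, ?_⟩
    · simp only [NC, List.mem_map, List.mem_range]
      exact ⟨(en y).1, lt_of_lt_of_le (en y).2 hk, rfl⟩
    · intro x
      have : dec (en y).1 = y := by
        simp [dec]
      simp only [g, zero_mul, zero_add, this, decide_eq_true_eq]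
      exact (hfl _).symm
    · simp only [NC, List.length_map, List.length_range]
      omega
    · intro b hb
      simp only [NC, List.mem_map, List.mem_range] at hb
      obtain ⟨j, hj, rfl⟩ := hb
      exact hA3 k le_rfl y _ j _
  have h2 := Drv.famT _ h1
  rw [mul_one] at h2
  refine h2.comp ?_
  exact dfs E g hw k hA1 hA2 (fun h hh y j i => hA3 h hh y _ j _) (fun i S => hA4 _ _ S) k
    le_rfl 0 [] _ (fun z => Or.inl (hA z)) (fun y => Or.inr ⟨y, by simp⟩) (by simp) (by simpa)

end

end Pool.Agent.Work.MP_c04246_lc.Q
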