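import Mathlib
import Pool.Agent.Work.MP_c04246_lc.Q.Diag
import Pool.Agent.Work.MP_c04246_lc.Q.Deg

set_option autoImplicit false
set_option linter.unusedSectionVars false

/-! Amplification of surjections, and the refutation of the dual weak pigeonhole principle. -/

namespace Pool.Agent.Work.MP_c04246_lc.Q

section

variable {X Y : Type} [Fintype Y] [DecidableEq Y] {w W : ℕ} {AL : (X → Bool) → Prop}

theorem SL_length {Z : Type} [DecidableEq Z] (D : X → Y → Z) (z : Z) :
    (SL D z).length = Fintype.card Y := by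
  simp [SL]

theorem mem_SL {Z : Type} [DecidableEq Z] {D : X → Y → Z} {z : Z} {b : X → Bool} :
    b ∈ SL D z ↔ ∃ y, (fun x => decide (D x y = z)) = b := by
  simp [SL]

/-- all values of `D` are attained -/
def SLs {Z : Type} [DecidableEq Z] (D : X → Y → Z) : Set (List (X → Bool)) := {L | ∃ z, L ∈ ({SL D z} : Set (List (X → Bool)))}

theorem post {Z Z' : Type} [DecidableEq Z] [DecidableEq Z'] [Fintype Z'] (D : X → Y → Z)
    (φ : Z → Z') (hφ : Function.Surjective φ) (hw : 1 ≤ w)
    (hA1 : ∀ y z, AL (fun x => decide (D x y = z)))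
    (hA2 : ∀ y z, AL (fun x => decide (φ (D x y) = z)))
    (hW : 2 * Fintype.card Y ≤ W) (A : Set (List (X → Bool))) (hA : SLs D ⊆ A) :
    Drv w (LgA AL W) A (Fintype.card Z' * (Fintype.card Y + 1)) (SLs fun x y => φ (D x y)) := by
  refine Drv.famT (fun z' => ({SL (fun x y => φ (D x y)) z'} : Set (List (X → Bool)))) fun z' => ?_
  obtain ⟨z, rfl⟩ := hφ z'
  rw [← SL_length D z]
  refine Drv.sub (L := SL D z) (M := SL D z) hw (hA ⟨z, rfl⟩) (fun e he => Or.inr he) ?_ ?_
  · intro M' hM'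
    have := hM'.length_le
    rw [SL_length] at this
    refine ⟨?_, ?_⟩
    · rw [List.length_append, SL_length]
      omega
    · intro b hb
      rw [List.mem_append] at hb
      rcases hb with hb | hb
      · obtain ⟨y, rfl⟩ := mem_SL.1 hb
        exact hA2 y _
      · obtain ⟨y, rfl⟩ := mem_SL.1 (hM'.subset hb)
        exact hA1 y _
  · intro e he
    obtain ⟨y, rfl⟩ := mem_SL.1 he
    refine ⟨[fun x => decide (φ (D x y) = φ z)], by simpa using hw, ?_, ?_⟩
    · intro b hb
      simp only [List.mem_cons, List.not_mem_nil, or_false] at hb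
      rw [hb]
      exact mem_SL.2 ⟨y, rfl⟩
    · intro x hx
      simp only [decide_eq_true_eq] at hx
      simp [hx]

variable {C : Type} [DecidableEq C]

/-- iteration of `D` -/
def EE (D : X → Y → Y × C) (x : X) : (t : ℕ) → Y → Y × (Fin t → C)
  | 0, y => (y, Fin.elim0)
  | t + 1, y => ((EE D x t (D x y).1).1, Fin.cons (D x y).2 (EE D x t (D x y).1).2)

theorem amp1 (D : X → Y → Y × C) (hw : 2 ≤ w) (k : ℕ)
    (hA1 : ∀ y z, AL (fun x => decide (D x y = z)))
    (hA2 : ∀ t ≤ k, ∀ y z, AL (fun x => decide (EE D x t y = z)))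
    (hA3 : ∀ t ≤ k, ∀ y z, AL (fun x => decide (EE D x t y ≠ z)))
    (hW : 2 * Fintype.card Y + 1 ≤ W) (A : Set (List (X → Bool))) (hA : SLs D ⊆ A) (t : ℕ)
    (ht : t ≤ k) : ∀ τ, Drv w (LgA AL W) A (1 + t * (Fintype.card Y + 1) ^ 2)
      {SL (fun x y => EE D x t y) τ} := by
  induction t with
  | zero =>
    rintro ⟨y', v⟩
    refine (Drv.step (stp0 (by omega) (fun x => decide (EE D x 0 y' = (y', v)))
      (mem_SL.2 ⟨y', rfl⟩) ?_) ⟨?_, ?_⟩).mono subset_rfl (by simp) subset_rfl
    · intro x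
      simp only [EE, decide_eq_true_eq, Prod.mk.injEq, true_and]
      exact Subsingleton.elim _ _
    · rw [SL_length]; omega
    · intro b hb
      obtain ⟨y, rfl⟩ := mem_SL.1 hb
      exact hA2 0 (by omega) y _
  | succ t ih =>
    rintro ⟨y2, v⟩
    have ih := ih (by omega) (y2, Fin.tail v)
    set q := Fintype.card Y with hq
    set Γ := SL (fun x y => EE D x (t + 1) y) (y2, v) with hΓ
    have hΓl : Γ.length = q := SL_length _ _
    have hΓa : ∀ b ∈ Γ, AL b := by
      intro b hb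
      obtain ⟨y, rfl⟩ := mem_SL.1 hb
      exact hA2 (t + 1) ht y _
    have d1 : ∀ y1 : Y, Drv w (LgA AL W) A (q + 1)
        {Γ ++ [fun x => decide (EE D x t y1 ≠ (y2, Fin.tail v))]} := by
      intro y1
      have hM := SL_length D (y1, v 0)
      rw [hq, ← hM]
      refine Drv.sub (L := SL D (y1, v 0)) (M := SL D (y1, v 0)) (by omega) (hA ⟨_, rfl⟩)
        (fun e he => Or.inr he) ?_ ?_
      · intro M' hM'
        have := hM'.length_le
        rw [SL_length] at this
        refine ⟨?_, ?_⟩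
        · rw [List.length_append, List.length_append, hΓl]
          simp only [List.length_cons, List.length_nil]
          omega
        · intro b hb
          simp only [List.mem_append, List.mem_cons, List.not_mem_nil, or_false] at hb
          rcases hb with (hb | rfl) | hb
          · exact hΓa b hb
          · exact hA3 t (by omega) _ _
          · obtain ⟨y, rfl⟩ := mem_SL.1 (hM'.subset hb)
            exact hA1 y _
      · intro e he
        obtain ⟨y, rfl⟩ := mem_SL.1 he
        refine ⟨[fun x => decide (EE D x t y1 ≠ (y2, Fin.tail v)),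
          fun x => decide (EE D x (t + 1) y = (y2, v))], by simpa using hw, ?_, ?_⟩
        · intro b hb
          simp only [List.mem_cons, List.not_mem_nil, or_false] at hb
          rw [List.mem_append]
          rcases hb with rfl | rfl
          · right; simp
          · left; exact mem_SL.2 ⟨y, rfl⟩
        · intro x hx
          simp only [decide_eq_true_eq] at hx
          by_cases hE : EE D x t y1 = (y2, Fin.tail v)
          · refine ⟨fun x => decide (EE D x (t + 1) y = (y2, v)), by simp, ?_⟩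
            simp only [EE, decide_eq_true_eq, hx, hE, Prod.mk.injEq, true_and]
            exact Fin.cons_self_tail v
          · exact ⟨fun x => decide (EE D x t y1 ≠ (y2, Fin.tail v)), by simp, by simpa using hE⟩
    have d2 := Drv.famT _ d1
    have d3 : Drv w (LgA AL W) ((A ∪ {SL (fun x y => EE D x t y) (y2, Fin.tail v)}) ∪
        {L | ∃ y1 : Y, L ∈ ({Γ ++ [fun x => decide (EE D x t y1 ≠ (y2, Fin.tail v))]} :
          Set (List (X → Bool)))}) (q + 1) {Γ} := by
      have hM := SL_length (fun x y => EE D x t y) (y2, Fin.tail v)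
      rw [hq, ← hM]
      refine Drv.cutall hw (L := SL (fun x y => EE D x t y) (y2, Fin.tail v))
        (M := SL (fun x y => EE D x t y) (y2, Fin.tail v)) (Or.inl (Or.inr rfl))
        (fun e he => Or.inr he) ?_ ?_
      · intro M' hM'
        have := hM'.length_le
        rw [SL_length] at this
        refine ⟨?_, ?_⟩
        · rw [List.length_append, hΓl]
          omega
        · intro b hb
          rw [List.mem_append] at hb
          rcases hb with hb | hb
          · exact hΓa b hb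
          · obtain ⟨y, rfl⟩ := mem_SL.1 (hM'.subset hb)
            exact hA2 t (by omega) y _
      · intro e he
        obtain ⟨y, rfl⟩ := mem_SL.1 he
        refine ⟨Γ ++ [fun x => decide (EE D x t y ≠ (y2, Fin.tail v))], Or.inr ⟨y, rfl⟩,
          fun x => decide (EE D x t y ≠ (y2, Fin.tail v)), ?_, ?_⟩
        · intro f hf
          simpa using hf
        · intro x hx
          simp only [decide_eq_true_eq] at hx
          exact hx.2 hx.1
    refine (ih.comp ((d2.mono Set.subset_union_left le_rfl subset_rfl).comp d3)).mono subset_rfl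
      ?_ subset_rfl
    rw [← hq]
    nlinarith

theorem amp (D : X → Y → Y × C) [Fintype C] (hw : 2 ≤ w) (k : ℕ)
    (hA1 : ∀ y z, AL (fun x => decide (D x y = z)))
    (hA2 : ∀ t ≤ k, ∀ y z, AL (fun x => decide (EE D x t y = z)))
    (hA3 : ∀ t ≤ k, ∀ y z, AL (fun x => decide (EE D x t y ≠ z)))
    (hW : 2 * Fintype.card Y + 1 ≤ W) (A : Set (List (X → Bool))) (hA : SLs D ⊆ A) :
    Drv w (LgA AL W) A (Fintype.card (Y × (Fin k → C)) * (1 + k * (Fintype.card Y + 1) ^ 2))
      (SLs fun x y => EE D x k y) :=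
  Drv.famT _ (amp1 D hw k hA1 hA2 hA3 hW A hA k le_rfl)

end

theorem exists_surj {α β : Type} [Fintype α] [Fintype β] [Nonempty β]
    (h : Fintype.card β ≤ Fintype.card α) : ∃ f : α → β, Function.Surjective f := by
  obtain ⟨e⟩ := Function.Embedding.nonempty_of_card_le h
  exact ⟨Function.invFun e, Function.invFun_surjective e.injective⟩

section

variable {p : ℕ} [Fact p.Prime] {n : ℕ} {Y : Type} [Fintype Y] [DecidableEq Y]

theorem FD_EE {δ : ℕ} (D : (Fin n → Bool) → Y → Y × Bool) (hD : ∀ y, FD p δ fun x => D x y)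
    (t : ℕ) : ∀ y, FD p (t * δ) fun x => EE D x t y := by
  induction t with
  | zero => intro y; exact FD_const _ _
  | succ t ih =>
    intro y
    have h := FD_comp (g := fun (z : Y × Bool) (x : Fin n → Bool) =>
      (((EE D x t z.1).1, Fin.cons z.2 (EE D x t z.1).2) : Y × (Fin (t + 1) → Bool)))
      (hD y) (b := t * δ) (fun z => FD_map (ih z.1)
        (fun τ : Y × (Fin t → Bool) => ((τ.1, Fin.cons z.2 τ.2) : Y × (Fin (t + 1) → Bool))))
    have e : (t + 1) * δ = δ + t * δ := by ring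
    rw [e]
    exact h

theorem FD_FF {δ : ℕ} (E : (Fin n → Bool) → Y → Y × Y) (hE : ∀ y, FD p δ fun x => E x y)
    (h : ℕ) : ∀ y j, FD p (h * δ) fun x => FF E x h y j := by
  induction h with
  | zero => intro y j; exact FD_const _ _
  | succ h ih =>
    intro y j
    have e : (h + 1) * δ = δ + h * δ := by ring
    rw [e]
    have h := FD_comp (g := fun (z : Y × Y) (x : Fin n → Bool) =>
      if j < 2 ^ h then FF E x h z.1 j else FF E x h z.2 (j - 2 ^ h))
      (hE y) (b := h * δ) (fun z => by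
        by_cases hj : j < 2 ^ h
        · simp only [if_pos hj]; exact ih _ _
        · simp only [if_neg hj]; exact ih _ _)
    exact h

/-- Refutation of the dual weak pigeonhole principle for functions of low degree. -/
theorem wphp {R : Type} [Fintype R] [DecidableEq R] {δ : ℕ} (D : (Fin n → Bool) → Y → R)
    (hD : ∀ y, FD p δ fun x => D x y) {w W k d : ℕ} (hw : 4 ≤ w)
    (hR : 2 * Fintype.card Y ≤ Fintype.card R) (hY : 2 ≤ Fintype.card Y)
    (hk : Fintype.card Y ≤ 2 ^ k) (hd : 2 * k ^ 2 * δ ≤ d) (hW : 3 * 2 ^ k + 2 ≤ W)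
    (A : Set (List ((Fin n → Bool) → Bool))) (hA : SLs D ⊆ A) :
    Drv w (LgA (BD p d) W) A (2 ^ ((k + 4) ^ 2)) {[]} := by
  classical
  have hk1 : 1 ≤ k := by
    rcases Nat.eq_zero_or_pos k with h | h
    · rw [h] at hk; simp at hk; omega
    · exact h
  have : Nonempty Y := Fintype.card_pos_iff.1 (by omega)
  obtain ⟨φ, hφ⟩ := exists_surj (α := R) (β := Y × Bool) (by
    rw [Fintype.card_prod, Fintype.card_bool]; omega)
  obtain ⟨ψ, hψ⟩ := exists_surj (α := Y × (Fin k → Bool)) (β := Y × Y) (by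
    rw [Fintype.card_prod, Fintype.card_prod, Fintype.card_fun, Fintype.card_bool,
      Fintype.card_fin]
    exact Nat.mul_le_mul_left _ hk)
  set D1 : (Fin n → Bool) → Y → Y × Bool := fun x y => φ (D x y) with hD1
  set E : (Fin n → Bool) → Y → Y × Y := fun x y => ψ (EE D1 x k y) with hE
  have f1 : ∀ y, FD p δ fun x => D1 x y := fun y => FD_map (hD y) φ
  have f2 : ∀ t y, FD p (t * δ) fun x => EE D1 x t y := fun t y => FD_EE D1 f1 t y
  have f3 : ∀ y, FD p (k * δ) fun x => E x y := fun y => FD_map (f2 k y) ψ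
  have f4 : ∀ h y j, FD p (h * (k * δ)) fun x => FF E x h y j := fun h y j => FD_FF E f3 h y j
  have g1 : k * δ ≤ d := by
    refine le_trans ?_ hd
    apply Nat.mul_le_mul_right
    nlinarith
  have g0 : δ ≤ d := (Nat.le_mul_of_pos_left δ hk1).trans g1
  have g2 : ∀ t ≤ k, t * δ ≤ d := fun t ht => (Nat.mul_le_mul_right _ ht).trans g1
  have g3 : ∀ h ≤ k, h * (k * δ) + k * (k * δ) ≤ d := by
    intro h hh
    refine le_trans ?_ hd
    have : h * (k * δ) ≤ k * (k * δ) := Nat.mul_le_mul_right _ hh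
    calc h * (k * δ) + k * (k * δ) ≤ k * (k * δ) + k * (k * δ) := Nat.add_le_add_right this _
      _ = 2 * k ^ 2 * δ := by ring
  set q := Fintype.card Y with hq
  obtain ⟨fl, hfl⟩ : ∃ fl : Y → Y, ∀ y, fl y ≠ y := by
    have : Nontrivial Y := Fintype.one_lt_card_iff_nontrivial.1 (by omega)
    choose fl hfl using fun y : Y => exists_ne y
    exact ⟨fl, hfl⟩
  have s1 := post (w := w) (W := W) (AL := BD p d) D φ hφ (by omega)
    (fun y z => BD_mono g0 (hD y z)) (fun y z => BD_mono g0 (f1 y z)) (by omega) A hA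
  have s2 := amp (w := w) (W := W) (AL := BD p d) D1 (by omega) k
    (fun y z => BD_mono g0 (f1 y z)) (fun t ht y z => BD_mono (g2 t ht) (f2 t y z))
    (fun t ht y z => by
      have := BD_of_FD (FD_mono (g2 t ht) (f2 t y)) (fun τ => decide (τ ≠ z))
      exact this) (by omega) (A ∪ SLs D1) Set.subset_union_right
  have s3 := post (w := w) (W := W) (AL := BD p d) (fun x y => EE D1 x k y) ψ hψ (by omega)
    (fun y z => BD_mono (g2 k le_rfl) (f2 k y z)) (fun y z => BD_mono g1 (f3 y z)) (by omega)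
    ((A ∪ SLs D1) ∪ SLs fun x y => EE D1 x k y) Set.subset_union_right
  have s4 := diag (w := w) (W := W) (AL := BD p d) E hw k fl hfl hk
    (fun y z => BD_mono g1 (f3 y z))
    (fun y z => BD_of_FD (FD_mono g1 (f3 y)) (fun τ => decide (τ ≠ z)))
    (fun h hh y y' j i => BD_mono (g3 h hh) (BD_of_FD (FD_pair (f4 h y j) (f4 k y' i))
      (fun τ => decide (τ.1 ≠ fl τ.2))))
    (fun y i S => BD_mono ((Nat.le_add_left _ _).trans (g3 0 (by omega)))
      (BD_of_FD (f4 k y i) (fun τ => decide (fl τ ∉ S))))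
    (((A ∪ SLs D1) ∪ SLs fun x y => EE D1 x k y) ∪ SLs E) (fun z => Or.inr ⟨z, rfl⟩) (by omega)
  refine (s1.comp (s2.comp (s3.comp s4))).mono subset_rfl ?_ subset_rfl
  simp only [Fintype.card_prod, Fintype.card_bool, Fintype.card_fun, Fintype.card_fin, ← hq]
  have hq1 : q + 1 ≤ 2 ^ (k + 1) := by
    rw [pow_succ]
    have : 1 ≤ 2 ^ k := Nat.one_le_two_pow
    omega
  have t1 : q * 2 * (q + 1) ≤ 2 ^ (2 * k + 2) := by
    calc q * 2 * (q + 1) ≤ 2 ^ k * 2 * 2 ^ (k + 1) :=
          Nat.mul_le_mul (Nat.mul_le_mul_right _ hk) hq1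
      _ = 2 ^ (2 * k + 2) := by
        rw [← pow_succ, ← pow_add]
        ring_nf
  have t2 : q * 2 ^ k * (1 + k * (q + 1) ^ 2) ≤ 2 ^ (5 * k + 3) := by
    have h1 : 1 + k * (q + 1) ^ 2 ≤ 2 ^ (3 * k + 3) := by
      have h2 : (q + 1) ^ 2 ≤ 2 ^ (2 * k + 2) := by
        calc (q + 1) ^ 2 ≤ (2 ^ (k + 1)) ^ 2 := Nat.pow_le_pow_left hq1 2
          _ = 2 ^ (2 * k + 2) := by rw [← pow_mul]; ring_nf
      have h3 : k + 1 ≤ 2 ^ k := Nat.lt_two_pow_self
      calc 1 + k * (q + 1) ^ 2 ≤ 2 ^ (2 * k + 2) + k * 2 ^ (2 * k + 2) :=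
            Nat.add_le_add Nat.one_le_two_pow (Nat.mul_le_mul_left _ h2)
        _ = (k + 1) * 2 ^ (2 * k + 2) := by ring
        _ ≤ 2 ^ k * 2 ^ (2 * k + 2) := Nat.mul_le_mul_right _ h3
        _ = 2 ^ (3 * k + 2) := by rw [← pow_add]; ring_nf
        _ ≤ 2 ^ (3 * k + 3) := Nat.pow_le_pow_right (by norm_num) (by omega)
    calc q * 2 ^ k * (1 + k * (q + 1) ^ 2) ≤ 2 ^ k * 2 ^ k * 2 ^ (3 * k + 3) :=
          Nat.mul_le_mul (Nat.mul_le_mul_right _ hk) h1
      _ = 2 ^ (5 * k + 3) := by rw [← pow_add, ← pow_add]; ring_nf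
  have t3 : q * q * (q + 1) ≤ 2 ^ (3 * k + 1) := by
    calc q * q * (q + 1) ≤ 2 ^ k * 2 ^ k * 2 ^ (k + 1) :=
          Nat.mul_le_mul (Nat.mul_le_mul hk hk) hq1
      _ = 2 ^ (3 * k + 1) := by rw [← pow_add, ← pow_add]; ring_nf
  have t4 : (q + 1) ^ (k + 3) * 2 ^ (k + 2) ≤ 2 ^ (k ^ 2 + 5 * k + 5) := by
    calc (q + 1) ^ (k + 3) * 2 ^ (k + 2) ≤ (2 ^ (k + 1)) ^ (k + 3) * 2 ^ (k + 2) :=
          Nat.mul_le_mul_right _ (Nat.pow_le_pow_left hq1 _)
      _ = 2 ^ (k ^ 2 + 5 * k + 5) := by rw [← pow_mul, ← pow_add]; ring_nf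
  have u1 : (2 : ℕ) ^ (2 * k + 2) ≤ 2 ^ (k ^ 2 + 5 * k + 5) :=
    Nat.pow_le_pow_right (by norm_num) (by nlinarith)
  have u2 : (2 : ℕ) ^ (5 * k + 3) ≤ 2 ^ (k ^ 2 + 5 * k + 5) :=
    Nat.pow_le_pow_right (by norm_num) (by nlinarith)
  have u3 : (2 : ℕ) ^ (3 * k + 1) ≤ 2 ^ (k ^ 2 + 5 * k + 5) :=
    Nat.pow_le_pow_right (by norm_num) (by nlinarith)
  have u4 : q ≤ 2 ^ (k ^ 2 + 5 * k + 5) :=
    hk.trans (Nat.pow_le_pow_right (by norm_num) (by nlinarith))
  have u5 : (2 : ℕ) ^ ((k + 4) ^ 2) ≥ 2 ^ (k ^ 2 + 5 * k + 5) * 2 ^ 3 := by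
    rw [ge_iff_le, ← pow_add]
    exact Nat.pow_le_pow_right (by norm_num) (by nlinarith)
  omega

end

end Pool.Agent.Work.MP_c04246_lc.Q
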