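import Mathlib
import Pool.Agent.Work.MP_c04246_lc.Q.Amp

set_option autoImplicit false
set_option linter.unusedSectionVars false

/-! Hashing by multilinear polynomials. -/

namespace Pool.Agent.Work.MP_c04246_lc.Q

section

variable {K : Type} [Field K]

/-- The multilinear polynomial with the coefficients `h (u * 2 ^ s), ..., h (u * 2 ^ s + 2 ^ s - 1)`
at the point `ρ 0, ..., ρ (s - 1)`. -/
def TT (ρ h : ℕ → K) : ℕ → ℕ → K
  | 0, u => h u
  | s + 1, u => TT ρ h s (2 * u) + ρ s * TT ρ h s (2 * u + 1)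

theorem TT_congr {ρ ρ' h h' : ℕ → K} (s : ℕ) (h1 : ∀ t < s, ρ t = ρ' t) (h2 : ∀ u, h u = h' u) :
    ∀ u, TT ρ h s u = TT ρ' h' s u := by
  induction s with
  | zero => intro u; exact h2 u
  | succ s ih =>
    intro u
    have ih := ih fun t ht => h1 t (by omega)
    simp only [TT, ih, h1 s (by omega)]

theorem hybrid (ρ h : ℕ → K) (l j : ℕ) (hj : j < 2 ^ l) (h1 : h j ≠ 0) (h2 : TT ρ h l 0 = 0) :
    ∃ s < l, TT ρ h s (j / 2 ^ s) ≠ 0 ∧ TT ρ h (s + 1) (j / 2 ^ (s + 1)) = 0 := by
  by_contra hc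
  push Not at hc
  have key : ∀ s ≤ l, TT ρ h s (j / 2 ^ s) ≠ 0 := by
    intro s
    induction s with
    | zero => intro _; simpa [TT] using h1
    | succ s ih => intro hs; exact hc s (by omega) (ih (by omega))
  have := key l le_rfl
  rw [Nat.div_eq_of_lt hj] at this
  exact this h2

theorem root (ρ h : ℕ → K) (s j : ℕ) (h1 : TT ρ h s (j / 2 ^ s) ≠ 0)
    (h2 : TT ρ h (s + 1) (j / 2 ^ (s + 1)) = 0) :
    ρ s = - TT ρ h s (2 * (j / 2 ^ (s + 1))) / TT ρ h s (2 * (j / 2 ^ (s + 1)) + 1) := by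
  set u := j / 2 ^ (s + 1) with hu
  have e1 : u = j / 2 ^ s / 2 := by rw [hu, pow_succ, Nat.div_div_eq_div_mul]
  simp only [TT] at h2
  have h3 : TT ρ h s (2 * u + 1) ≠ 0 := by
    intro h0
    rw [h0, mul_zero, add_zero] at h2
    rcases Nat.mod_two_eq_zero_or_one (j / 2 ^ s) with h | h
    · have : j / 2 ^ s = 2 * u := by omega
      rw [this] at h1
      exact h1 h2
    · have : j / 2 ^ s = 2 * u + 1 := by omega
      rw [this] at h1
      exact h1 h0
  rw [eq_div_iff h3]
  linear_combination h2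

end

section

variable {K : Type} [Field K] [DecidableEq K] {X : Type} {w : ℕ}
  {Lg : List (X → Bool) → Prop} {A : Set (List (X → Bool))}

/-- `0` and `1` as elements of the field -/
def bK (K : Type) [Field K] (b : Bool) : K := if b then 1 else 0

theorem hashdown (ρ : ℕ → K) (hit : ℕ → X → Bool) (Γ : List (X → Bool)) (hw : 2 ≤ w)
    (hΓ : ∀ u, ∃ B0 : List (X → Bool), B0.length + 1 ≤ w ∧ (∀ b ∈ B0, b ∈ Γ) ∧
      ∀ x, hit u x = true → ∃ b ∈ B0, b x = true) (l : ℕ)
    (hLg : ∀ s ≤ l, ∀ u, Lg (Γ ++ [fun x => decide (TT ρ (fun v => bK K (hit v x)) s u = 0)]))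
    (s : ℕ) (hs : s ≤ l) : ∀ u, Drv w Lg A (2 ^ (s + 1) - 1)
      {Γ ++ [fun x => decide (TT ρ (fun v => bK K (hit v x)) s u = 0)]} := by
  induction s with
  | zero =>
    intro u
    obtain ⟨B0, h1, h2, h3⟩ := hΓ u
    refine (Drv.step ?_ (hLg 0 (by omega) u)).mono subset_rfl (by norm_num) subset_rfl
    refine stpL (B0 := B0 ++ [fun x => decide (TT ρ (fun v => bK K (hit v x)) 0 u = 0)]) []
      (by simp) (by simp) (by simp) (by simpa using h1) ?_ (by simp) ?_
    · intro b hb
      simp only [List.mem_append, List.mem_cons, List.not_mem_nil, or_false] at hb ⊢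
      rcases hb with hb | hb
      · exact Or.inl (h2 b hb)
      · exact Or.inr hb
    · intro x _
      by_cases hx : hit u x = true
      · obtain ⟨b, hb, hbx⟩ := h3 x hx
        exact ⟨b, by simp [hb], hbx⟩
      · exact ⟨fun x => decide (TT ρ (fun v => bK K (hit v x)) 0 u = 0), by simp,
          by simp [TT, bK, hx]⟩
  | succ s ih =>
    intro u
    have ih := ih (by omega)
    have h1 := ih (2 * u)
    have h2 := ih (2 * u + 1)
    have h3 : Drv w Lg (A ∪ {Γ ++ [fun x => decide (TT ρ (fun v => bK K (hit v x)) s (2 * u) = 0)]} ∪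
        {Γ ++ [fun x => decide (TT ρ (fun v => bK K (hit v x)) s (2 * u + 1) = 0)]}) 1
        {Γ ++ [fun x => decide (TT ρ (fun v => bK K (hit v x)) (s + 1) u = 0)]} := by
      refine Drv.step (stp2
        (L1 := Γ ++ [fun x => decide (TT ρ (fun v => bK K (hit v x)) s (2 * u) = 0)])
        (E1 := [fun x => decide (TT ρ (fun v => bK K (hit v x)) s (2 * u) = 0)])
        (L2 := Γ ++ [fun x => decide (TT ρ (fun v => bK K (hit v x)) s (2 * u + 1) = 0)])
        (E2 := [fun x => decide (TT ρ (fun v => bK K (hit v x)) s (2 * u + 1) = 0)])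
        (B0 := [fun x => decide (TT ρ (fun v => bK K (hit v x)) (s + 1) u = 0)]) hw
        (Or.inl (Or.inr rfl)) (Or.inr rfl) (by simpa using hw) (by simp; omega) (by simp)
        ?_ ?_ ?_) (hLg (s + 1) hs u)
      · intro f hf
        simp only [List.mem_append, List.mem_cons, List.not_mem_nil, or_false] at hf ⊢
        tauto
      · intro f hf
        simp only [List.mem_append, List.mem_cons, List.not_mem_nil, or_false] at hf ⊢
        tauto
      · intro x hx hx'
        simp only [List.mem_cons, List.not_mem_nil, or_false, exists_eq_left,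
          decide_eq_true_eq] at hx hx' ⊢
        simp only [TT, hx, hx', mul_zero, add_zero]
    refine (h1.comp ((h2.mono Set.subset_union_left le_rfl subset_rfl).comp h3)).mono subset_rfl
      ?_ subset_rfl
    have : (2 : ℕ) ^ (s + 1 + 1) = 2 * 2 ^ (s + 1) := by rw [pow_succ]; ring
    have : 1 ≤ (2 : ℕ) ^ (s + 1) := Nat.one_le_two_pow
    omega

end

section

variable {p : ℕ} [Fact p.Prime] {n : ℕ} {K : Type} [Field K] [Fintype K] [DecidableEq K]
  [Algebra (ZMod p) K]

theorem KD_TT {d : ℕ} (ρ : ℕ → K) (hit : ℕ → (Fin n → Bool) → Bool) (hh : ∀ u, BD p d (hit u))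
    (s : ℕ) : ∀ u, KD p d fun x => TT ρ (fun v => bK K (hit v x)) s u := by
  induction s with
  | zero => intro u; exact KD_ind (hh u)
  | succ s ih => intro u; exact KD_add (ih _) (KD_mul (ih _) _)

theorem FD_TT {d : ℕ} (ρ : ℕ → K) (hit : ℕ → (Fin n → Bool) → Bool) (hh : ∀ u, BD p d (hit u))
    (s u : ℕ) : FD p (Module.finrank (ZMod p) K * (p - 1) * d)
      fun x => TT ρ (fun v => bK K (hit v x)) s u := by
  rw [mul_assoc]
  exact FD_of_KD (KD_TT ρ hit hh s u)

end

end Pool.Agent.Work.MP_c04246_lc.Q
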