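import Mathlib
import Pool.Agent.Work.MP_c04246_lc.Q.Hash

set_option autoImplicit false
set_option linter.unusedSectionVars false

/-! Approximate values of formulas. -/

namespace Pool.Agent.Work.MP_c04246_lc.Q

open Fml

section

variable {p : ℕ} {V : Type} {K : Type} [Field K] [DecidableEq K]

/-- The hash value of a list of Boolean values at the point `ρ`. -/
def hsh (l : ℕ) (ρ : ℕ → K) (L : List Bool) : Bool :=
  decide (TT ρ (fun u => bK K (L.getD u false)) l 0 ≠ 0)

/-- The approximate value of a formula, and the list of the approximate values of its arguments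
when it is regarded as a merged `bin c`. -/
def VV (l : ℕ) (ρ : ℕ → ℕ → K) (x : V → Bool) : Fml p V → Bool × (Bool → List Bool)
  | .var i => (x i, fun _ => [x i])
  | .cst b => (b, fun _ => [b])
  | .neg a => (!(VV l ρ x a).1, fun _ => [!(VV l ρ x a).1])
  | .bin c a b =>
      (hsh l (ρ (depth (.bin c a b)))
          (((VV l ρ x a).2 c ++ (VV l ρ x b).2 c).map fun v => v == c) == c,
        fun c' => if c' = c then (VV l ρ x a).2 c ++ (VV l ρ x b).2 c
          else [hsh l (ρ (depth (.bin c a b)))
            (((VV l ρ x a).2 c ++ (VV l ρ x b).2 c).map fun v => v == c) == c])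
  | .mod i _ f => (decide ((∑ j, if (VV l ρ x (f j)).1 then (1 : ZMod p) else 0) = i),
      fun _ => [decide ((∑ j, if (VV l ρ x (f j)).1 then (1 : ZMod p) else 0) = i)])

/-- approximate value -/
def val (l : ℕ) (ρ : ℕ → ℕ → K) (x : V → Bool) (φ : Fml p V) : Bool := (VV l ρ x φ).1

/-- approximate values of the arguments of the formula regarded as a merged `bin c` -/
def lvs (l : ℕ) (ρ : ℕ → ℕ → K) (x : V → Bool) (c : Bool) (φ : Fml p V) : List Bool :=
  (VV l ρ x φ).2 c

/-- the argument with the number `u` exists and has the value `c` -/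
def hit (l : ℕ) (ρ : ℕ → ℕ → K) (c : Bool) (φ : Fml p V) (u : ℕ) (x : V → Bool) : Bool :=
  ((lvs l ρ x c φ).map fun v => v == c).getD u false

/-- number of arguments of the formula regarded as a merged `bin c` -/
def nl (c : Bool) : Fml p V → ℕ
  | .var _ => 1
  | .cst _ => 1
  | .neg _ => 1
  | .bin c' a b => if c = c' then nl c a + nl c b else 1
  | .mod _ _ _ => 1

/-- the formula is of the form `bin c a b` -/
def isB (c : Bool) : Fml p V → Prop
  | .bin c' _ _ => c' = c
  | _ => False

variable (l : ℕ) (ρ : ℕ → ℕ → K) (x : V → Bool)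

theorem length_lvs (c : Bool) (φ : Fml p V) : (lvs l ρ x c φ).length = nl c φ := by
  induction φ with
  | var i => simp [lvs, VV, nl]
  | cst b => simp [lvs, VV, nl]
  | neg a ih => simp [lvs, VV, nl]
  | bin c' a b iha ihb =>
    by_cases h : c = c'
    · subst h
      simp only [lvs, VV, nl, if_true, List.length_append] at iha ihb ⊢
      rw [iha, ihb]
    · simp [lvs, VV, nl, h]
  | mod i k f ih => simp [lvs, VV, nl]

theorem nl_le_size (c : Bool) (φ : Fml p V) : nl c φ ≤ Fml.size φ := by
  induction φ with
  | var i => simp [nl, Fml.size]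
  | cst b => simp [nl, Fml.size]
  | neg a ih => simp [nl, Fml.size]
  | bin c' a b iha ihb =>
    simp only [nl, Fml.size]
    split_ifs <;> omega
  | mod i k f ih => simp [nl, Fml.size]

theorem lvs_not_isB {c : Bool} {φ : Fml p V} (h : ¬ isB c φ) :
    lvs l ρ x c φ = [val l ρ x φ] := by
  cases φ with
  | var i => rfl
  | cst b => rfl
  | neg a => rfl
  | bin c' a b =>
    have : ¬ c = c' := fun h' => h h'.symm
    simp [lvs, val, VV, this]
  | mod i k f => rfl

theorem lvs_bin (c : Bool) (a b : Fml p V) :
    lvs l ρ x c (.bin c a b) = lvs l ρ x c a ++ lvs l ρ x c b := by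
  simp [lvs, VV]

theorem val_bin (c : Bool) (a b : Fml p V) : val l ρ x (.bin c a b) =
    (hsh l (ρ (depth (.bin c a b))) ((lvs l ρ x c (.bin c a b)).map fun v => v == c) == c) := by
  simp [lvs, val, VV]

theorem hit_bin (c : Bool) (a b : Fml p V) (u : ℕ) : hit l ρ c (.bin c a b) u x =
    if u < nl c a then hit l ρ c a u x else hit l ρ c b (u - nl c a) x := by
  unfold hit
  rw [lvs_bin, List.map_append]
  by_cases h : u < nl c a
  · rw [if_pos h, List.getD_append]
    rw [List.length_map, length_lvs]; exact h
  · rw [if_neg h, List.getD_append_right]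
    · rw [List.length_map, length_lvs]
    · rw [List.length_map, length_lvs]; omega

theorem hit_lt {c : Bool} {φ : Fml p V} {u : ℕ} (h : hit l ρ c φ u x = true) : u < nl c φ := by
  by_contra hc
  unfold hit at h
  rw [List.getD_eq_default] at h
  · simp at h
  · rw [List.length_map, length_lvs]; omega

theorem hit_not_isB {c : Bool} {φ : Fml p V} (hφ : ¬ isB c φ) {u : ℕ}
    (h : hit l ρ c φ u x = true) : (val l ρ x φ == c) = true := by
  unfold hit at h
  rw [lvs_not_isB l ρ x hφ] at h
  cases u with
  | zero => simpa using h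
  | succ u => simp at h

theorem hit_not_isB_zero {c : Bool} {φ : Fml p V} (hφ : ¬ isB c φ)
    (h : (val l ρ x φ == c) = true) : hit l ρ c φ 0 x = true := by
  unfold hit
  rw [lvs_not_isB l ρ x hφ]
  simpa using h

/-- the block does not have the value `c` iff the hash value is `0` -/
theorem val_bin_iff (c : Bool) (a b : Fml p V) :
    (!(val l ρ x (.bin c a b) == c)) =
      decide (TT (ρ (depth (.bin c a b))) (fun v => bK K (hit l ρ c (.bin c a b) v x)) l 0 = 0) := by
  rw [val_bin]
  have : hsh l (ρ (depth (.bin c a b))) ((lvs l ρ x c (.bin c a b)).map fun v => v == c) =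
      decide (TT (ρ (depth (.bin c a b))) (fun v => bK K (hit l ρ c (.bin c a b) v x)) l 0 ≠ 0) :=
    rfl
  rw [this]
  by_cases h : TT (ρ (depth (.bin c a b))) (fun v => bK K (hit l ρ c (.bin c a b) v x)) l 0 = 0
  · cases c <;> simp [h]
  · cases c <;> simp [h]

theorem resp_val_of_not_bin {φ : Fml p V} (h : ∀ c, ¬ isB c φ) : Resp (val l ρ x) φ := by
  cases φ with
  | var i => trivial
  | cst b => rfl
  | neg a => rfl
  | bin c a b => exact absurd rfl (h c)
  | mod i k f => rfl

/-- independence of the higher levels -/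
theorem VV_congr {ρ ρ' : ℕ → ℕ → K} (φ : Fml p V) :
    ((∀ j ≤ dpt none φ, ρ j = ρ' j) → (VV l ρ x φ).1 = (VV l ρ' x φ).1) ∧
    ∀ c, (∀ j ≤ dpt (some (some c)) φ, ρ j = ρ' j) → (VV l ρ x φ).2 c = (VV l ρ' x φ).2 c := by
  induction φ with
  | var i => exact ⟨fun _ => rfl, fun _ _ => rfl⟩
  | cst b => exact ⟨fun _ => rfl, fun _ _ => rfl⟩
  | neg a ih =>
    have h : dpt none a ≤ 1 + dpt (some none) a := by
      cases a <;> simp [dpt] <;> omega
    constructor
    · intro hj
      have := ih.1 fun j hj' => hj j (by simp only [dpt]; simp; omega)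
      simp only [VV, this]
    · intro c hj
      have := ih.1 fun j hj' => hj j (by simp only [dpt]; simp; omega)
      simp only [VV, this]
  | bin c a b iha ihb =>
    have key : (∀ j ≤ dpt none (.bin c a b), ρ j = ρ' j) →
        (VV l ρ x (.bin c a b)).1 = (VV l ρ' x (.bin c a b)).1 := by
      intro hj
      have h1 := iha.2 c fun j hj' => hj j (by simp only [dpt]; simp; omega)
      have h2 := ihb.2 c fun j hj' => hj j (by simp only [dpt]; simp; omega)
      simp only [VV, h1, h2, hj (depth (.bin c a b)) le_rfl]
    refine ⟨key, fun c' hj => ?_⟩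
    by_cases hc : c' = c
    · subst hc
      have h1 := iha.2 c' fun j hj' => hj j (by simp only [dpt]; simp; omega)
      have h2 := ihb.2 c' fun j hj' => hj j (by simp only [dpt]; simp; omega)
      simp only [VV, if_true, h1, h2]
    · have := key fun j hj' => hj j (by
        simp only [dpt] at hj' ⊢
        have h3 : ¬ (some (some c') : Option (Option Bool)) = some (some c) := by simpa using hc
        rw [if_neg h3]
        simpa using hj')
      simp only [VV, if_neg hc] at this ⊢
      rw [this]
  | mod i k f ih =>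
    have key : (∀ j ≤ dpt none (.mod i k f), ρ j = ρ' j) → ∀ t, (VV l ρ x (f t)).1 =
        (VV l ρ' x (f t)).1 := by
      intro hj t
      apply (ih t).1
      intro j hj'
      apply hj
      simp only [dpt]
      have := Finset.le_sup (f := fun j => dpt none (f j)) (Finset.mem_univ t)
      omega
    constructor
    · intro hj
      simp only [VV, key hj]
    · intro c hj
      simp only [VV, key fun j hj' => hj j (by simpa [dpt] using hj')]

theorem hit_congr {ρ ρ' : ℕ → ℕ → K} {c : Bool} (a b : Fml p V)
    (h : ∀ j < depth (.bin c a b), ρ j = ρ' j) (u : ℕ) :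
    hit l ρ c (.bin c a b) u x = hit l ρ' c (.bin c a b) u x := by
  unfold hit lvs
  rw [(VV_congr l x (.bin c a b)).2 c fun j hj => h j (by
    simp only [depth, dpt] at hj ⊢
    simp at hj ⊢
    omega)]

end

section

variable {p : ℕ} [Fact p.Prime] {n : ℕ} {K : Type} [Field K] [Fintype K] [DecidableEq K]
  [Algebra (ZMod p) K]

theorem ind_sum_mem {d k : ℕ} (b : Fin k → (Fin n → Bool) → Bool) (hb : ∀ j, BD p d (b j))
    (i : ZMod p) : BD p ((p - 1) * d)
      (fun x => decide ((∑ j, if b j x then (1 : ZMod p) else 0) = i)) := by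
  have hp := (Fact.out : p.Prime)
  have h1 : (fun x => ∑ j, if b j x then (1 : ZMod p) else 0) ∈ Dg p n d := by
    have : (fun x => ∑ j, if b j x then (1 : ZMod p) else 0) = ∑ j, ind p (b j) := by
      ext x
      rw [Finset.sum_apply]
      rfl
    rw [this]
    exact Submodule.sum_mem _ fun j _ => hb j
  have h2 : ind p (fun x => decide ((∑ j, if b j x then (1 : ZMod p) else 0) = i)) =
      1 - ((fun x => ∑ j, if b j x then (1 : ZMod p) else 0) - fun _ => i) ^ (p - 1) := by
    ext x
    simp only [ind, decide_eq_true_eq, Pi.sub_apply, Pi.one_apply, Pi.pow_apply]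
    by_cases h : (∑ j, if b j x then (1 : ZMod p) else 0) = i
    · rw [if_pos h, h, sub_self, zero_pow (by have := hp.two_le; omega), sub_zero]
    · rw [if_neg h, ZMod.pow_card_sub_one_eq_one (sub_ne_zero.2 h), sub_self]
  unfold BD
  rw [h2]
  exact Submodule.sub_mem _ (one_mem_Dg _)
    (pow_mem_Dg (Submodule.sub_mem _ h1 (const_mem_Dg d i)) (p - 1))

/-- degrees of the approximate values -/
theorem BD_val (l : ℕ) (ρ : ℕ → ℕ → K) (φ : Fml p (Fin n)) :
    (BD p ((Module.finrank (ZMod p) K * (p - 1)) ^ dpt none φ) fun x => val l ρ x φ) ∧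
    ∀ c u, BD p ((Module.finrank (ZMod p) K * (p - 1)) ^ dpt (some (some c)) φ)
      (hit l ρ c φ u) := by
  have hp := (Fact.out : p.Prime)
  set M := Module.finrank (ZMod p) K * (p - 1) with hM
  have hfr : 1 ≤ Module.finrank (ZMod p) K := Module.finrank_pos
  have hM1 : 1 ≤ M := by
    rw [hM]
    have : 1 ≤ p - 1 := by have := hp.two_le; omega
    exact Nat.mul_le_mul hfr this
  have hM2 : p - 1 ≤ M := by
    rw [hM]
    exact Nat.le_mul_of_pos_left _ hfr
  -- the second part follows from the first one if the formula is not a block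
  have aux : ∀ (φ : Fml p (Fin n)) (e : ℕ) (c : Bool), ¬ isB c φ →
      (BD p e fun x => val l ρ x φ) → ∀ u, BD p e (hit l ρ c φ u) := by
    intro φ e c hc h u
    cases u with
    | zero =>
      have e1 : hit l ρ c φ 0 = fun x => val l ρ x φ == c := by
        funext x
        unfold hit
        rw [lvs_not_isB l ρ x hc]
        simp
      rw [e1]
      exact BD_of_FD (FD_bool h) (fun z => z == c)
    | succ u =>
      have e1 : hit l ρ c φ (u + 1) = fun _ => false := by
        funext x
        unfold hit
        rw [lvs_not_isB l ρ x hc]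
        simp
      rw [e1]
      exact BD_const _ _
  induction φ with
  | var i =>
    have h1 : BD p (M ^ 0) fun x => val l ρ x (.var i : Fml p (Fin n)) := by
      rw [pow_zero]; exact BD_var i
    exact ⟨h1, fun c u => aux _ _ c (by simp [isB]) h1 u⟩
  | cst b =>
    have h1 : BD p (M ^ 0) fun x => val l ρ x (.cst b : Fml p (Fin n)) := BD_const _ b
    exact ⟨h1, fun c u => aux _ _ c (by simp [isB]) h1 u⟩
  | neg a ih =>
    have h0 : dpt none a ≤ 1 + dpt (some none) a := by
      cases a <;> simp [dpt] <;> omega
    have h1 : BD p (M ^ (1 + dpt (some none) a)) fun x => val l ρ x (.neg a : Fml p (Fin n)) :=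
      BD_not (BD_mono (Nat.pow_le_pow_right hM1 h0) ih.1)
    refine ⟨by simpa [dpt] using h1, fun c u => ?_⟩
    have e : dpt (some (some c)) (.neg a : Fml p (Fin n)) = 1 + dpt (some none) a := by
      simp [dpt]
    rw [e]
    exact aux _ _ c (by simp [isB]) h1 u
  | bin c a b iha ihb =>
    set m := max (dpt (some (some c)) a) (dpt (some (some c)) b) with hm
    have h1 : ∀ u, BD p (M ^ m) (hit l ρ c (.bin c a b) u) := by
      intro u
      by_cases hu : u < nl c a
      · have e1 : hit l ρ c (.bin c a b) u = hit l ρ c a u := by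
          funext x; rw [hit_bin, if_pos hu]
        rw [e1]
        exact BD_mono (Nat.pow_le_pow_right hM1 (le_max_left _ _)) (iha.2 c u)
      · have e1 : hit l ρ c (.bin c a b) u = hit l ρ c b (u - nl c a) := by
          funext x; rw [hit_bin, if_neg hu]
        rw [e1]
        exact BD_mono (Nat.pow_le_pow_right hM1 (le_max_right _ _)) (ihb.2 c _)
    have h2 : BD p (M ^ (1 + m)) fun x => val l ρ x (.bin c a b : Fml p (Fin n)) := by
      have h3 := FD_TT (p := p) (ρ (depth (.bin c a b))) (hit l ρ c (.bin c a b)) h1 l 0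
      have h4 := BD_of_FD h3 (fun z => (decide (z ≠ 0)) == c)
      have e1 : Module.finrank (ZMod p) K * (p - 1) * M ^ m = M ^ (1 + m) := by
        rw [← hM, pow_add, pow_one]
      rw [e1] at h4
      have e2 : (fun x => val l ρ x (.bin c a b : Fml p (Fin n))) = fun x => (decide
          (TT (ρ (depth (.bin c a b))) (fun v => bK K (hit l ρ c (.bin c a b) v x)) l 0 ≠ 0)) ==
            c := by
        funext x
        rw [val_bin]
        rfl
      rw [e2]
      exact h4
    refine ⟨by simpa [dpt] using h2, fun c' u => ?_⟩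
    by_cases hc : c' = c
    · subst hc
      have e : dpt (some (some c')) (.bin c' a b : Fml p (Fin n)) = m := by
        simp [dpt, hm]
      rw [e]
      exact h1 u
    · have e : dpt (some (some c')) (.bin c a b : Fml p (Fin n)) = 1 + m := by
        have h3 : ¬ (some (some c') : Option (Option Bool)) = some (some c) := by simpa using hc
        simp only [dpt, if_neg h3, hm]
      rw [e]
      exact aux _ _ c' (by simpa [isB] using fun h => hc h.symm) h2 u
  | mod i k f ih =>
    set m := Finset.univ.sup (fun j => dpt none (f j)) with hm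
    have h1 : ∀ j, BD p (M ^ m) fun x => val l ρ x (f j) := fun j =>
      BD_mono (Nat.pow_le_pow_right hM1
        (Finset.le_sup (f := fun j => dpt none (f j)) (Finset.mem_univ j))) (ih j).1
    have h2 : BD p (M ^ (1 + m)) fun x => val l ρ x (.mod i k f : Fml p (Fin n)) := by
      have h3 := ind_sum_mem (fun j x => val l ρ x (f j)) h1 i
      refine BD_mono ?_ h3
      rw [pow_add, pow_one]
      exact Nat.mul_le_mul_right _ hM2
    refine ⟨by simpa [dpt, hm] using h2, fun c u => ?_⟩
    have e : dpt (some (some c)) (.mod i k f : Fml p (Fin n)) = 1 + m := by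
      simp [dpt, hm]
    rw [e]
    exact aux _ _ c (by simp [isB]) h2 u

end

end Pool.Agent.Work.MP_c04246_lc.Q
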