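import Mathlib
import Pool.Agent.Work.MP_c04246_lc.Q.Val

set_option autoImplicit false
set_option linter.unusedSectionVars false

/-! From a derivation to the disjunction of the bad events, for a fixed seed. -/

namespace Pool.Agent.Work.MP_c04246_lc.Q

open Fml

section subs

variable {p : ℕ} {V : Type}

theorem self_mem_subs (φ : Fml p V) : φ ∈ subs φ := by
  cases φ <;> simp [subs]

theorem subs_trans {φ ψ : Fml p V} (h : ψ ∈ subs φ) : subs ψ ⊆ subs φ := by
  induction φ with
  | var i =>
    simp only [subs, Finset.mem_singleton] at h
    rw [h]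
  | cst b =>
    simp only [subs, Finset.mem_singleton] at h
    rw [h]
  | neg a ih =>
    simp only [subs, Finset.mem_insert] at h
    rcases h with rfl | h
    · exact subset_rfl
    · intro χ hχ
      simp only [subs, Finset.mem_insert]
      exact Or.inr (ih h hχ)
  | bin c a b iha ihb =>
    simp only [subs, Finset.mem_insert, Finset.mem_union] at h
    rcases h with rfl | h | h
    · exact subset_rfl
    · intro χ hχ
      simp only [subs, Finset.mem_insert, Finset.mem_union]
      exact Or.inr (Or.inl (iha h hχ))
    · intro χ hχ
      simp only [subs, Finset.mem_insert, Finset.mem_union]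
      exact Or.inr (Or.inr (ihb h hχ))
  | mod i k f ih =>
    simp only [subs, Finset.mem_insert, Finset.mem_biUnion, Finset.mem_univ, true_and] at h
    rcases h with rfl | ⟨j, h⟩
    · exact subset_rfl
    · intro χ hχ
      simp only [subs, Finset.mem_insert, Finset.mem_biUnion, Finset.mem_univ, true_and]
      exact Or.inr ⟨j, ih j h hχ⟩

open Classical in
theorem card_subs_le (φ : Fml p V) : (subs φ).card ≤ Fml.size φ := by
  induction φ with
  | var i => simp [subs, Fml.size]
  | cst b => simp [subs, Fml.size]
  | neg a ih =>
    simp only [subs, Fml.size]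
    exact (Finset.card_insert_le _ _).trans (by omega)
  | bin c a b iha ihb =>
    simp only [subs, Fml.size]
    refine (Finset.card_insert_le _ _).trans (Nat.add_le_add_right
      ((Finset.card_union_le _ _).trans (Nat.add_le_add iha ihb)) 1)
  | mod i k f ih =>
    simp only [subs, Fml.size]
    refine (Finset.card_insert_le _ _).trans (Nat.add_le_add_right
      (Finset.card_biUnion_le.trans (Finset.sum_le_sum fun j _ => ih j)) 1)

theorem dpt_none_le (r : Option (Option Bool)) (φ : Fml p V) : dpt none φ ≤ 1 + dpt r φ := by
  cases φ with
  | var i => simp [dpt]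
  | cst b => simp [dpt]
  | neg a => simp only [dpt]; split_ifs <;> simp_all
  | bin c a b => simp only [dpt]; split_ifs <;> simp_all
  | mod i k f => simp [dpt]

/-- the depth of a subformula -/
theorem dpt_subs {φ ψ : Fml p V} (h : ψ ∈ subs φ) : dpt none ψ ≤ dpt none φ := by
  have key : ∀ φ : Fml p V, ∀ r, ψ ∈ subs φ → dpt none ψ ≤ dpt none φ ∧
      (r ≠ none → ψ ≠ φ → dpt none ψ ≤ 1 + dpt r φ) := by
    intro φ
    induction φ with
    | var i =>
      intro r h
      simp only [subs, Finset.mem_singleton] at h
      rw [h]; exact ⟨le_rfl, fun _ h => absurd rfl h⟩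
    | cst b =>
      intro r h
      simp only [subs, Finset.mem_singleton] at h
      rw [h]; exact ⟨le_rfl, fun _ h => absurd rfl h⟩
    | neg a ih =>
      intro r h
      simp only [subs, Finset.mem_insert] at h
      have h1 : ∀ h : ψ ∈ subs a, dpt none ψ ≤ 1 + dpt (some none) a := fun h =>
        ((ih (some none) h).1).trans (dpt_none_le _ _)
      constructor
      · rcases h with rfl | h
        · exact le_rfl
        · have := h1 h
          simpa [dpt] using this
      · intro hr hne
        have := h1 (h.resolve_left hne)
        simp only [dpt]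
        omega
    | bin c a b iha ihb =>
      intro r h
      simp only [subs, Finset.mem_insert, Finset.mem_union] at h
      have h1 : ∀ h : ψ ∈ subs a ∨ ψ ∈ subs b, dpt none ψ ≤
          1 + max (dpt (some (some c)) a) (dpt (some (some c)) b) := by
        rintro (h | h)
        · have := ((iha (some (some c)) h).1).trans (dpt_none_le (some (some c)) _)
          omega
        · have := ((ihb (some (some c)) h).1).trans (dpt_none_le (some (some c)) _)
          omega
      constructor
      · rcases h with rfl | h
        · exact le_rfl
        · have := h1 h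
          simpa [dpt] using this
      · intro hr hne
        have := h1 (h.resolve_left hne)
        simp only [dpt]
        omega
    | mod i k f ih =>
      intro r h
      simp only [subs, Finset.mem_insert, Finset.mem_biUnion, Finset.mem_univ, true_and] at h
      have h1 : (∃ j, ψ ∈ subs (f j)) → dpt none ψ ≤ Finset.univ.sup fun j => dpt none (f j) := by
        rintro ⟨j, h⟩
        exact ((ih j none h).1).trans
          (Finset.le_sup (f := fun j => dpt none (f j)) (Finset.mem_univ j))
      constructor
      · rcases h with rfl | h
        · exact le_rfl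
        · have := h1 h
          simp only [dpt]
          omega
      · intro hr hne
        have := h1 (h.resolve_left hne)
        simp only [dpt]
        omega
  exact (key φ none h).1

end subs

section

variable {p : ℕ} [Fact p.Prime] {n : ℕ} {K : Type} [Field K] [Fintype K] [DecidableEq K]
  [Algebra (ZMod p) K]

/-- bad event: the argument with the number `u` has the value `c`, but the block does not -/
def badA (l : ℕ) (ρ : ℕ → ℕ → K) (c : Bool) (φ : Fml p (Fin n)) (u : ℕ) (x : Fin n → Bool) : Bool :=
  hit l ρ c φ u x && !(val l ρ x φ == c)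

/-- the list of the bad events -/
def badL (l : ℕ) (ρ : ℕ → ℕ → K) (G : List (Bool × Fml p (Fin n))) :
    List ((Fin n → Bool) → Bool) :=
  G.flatMap fun g => (List.range (2 ^ l)).map fun u => badA l ρ g.1 g.2 u

theorem length_badL (l : ℕ) (ρ : ℕ → ℕ → K) (G : List (Bool × Fml p (Fin n))) :
    (badL l ρ G).length = G.length * 2 ^ l := by
  simp [badL, List.length_flatMap]

theorem mem_badL {l : ℕ} {ρ : ℕ → ℕ → K} {G : List (Bool × Fml p (Fin n))} {c : Bool}
    {φ : Fml p (Fin n)} {u : ℕ} (h : (c, φ) ∈ G) (hu : u < 2 ^ l) :
    badA l ρ c φ u ∈ badL l ρ G := by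
  rw [badL, List.mem_flatMap]
  exact ⟨(c, φ), h, List.mem_map.2 ⟨u, List.mem_range.2 hu, rfl⟩⟩

theorem badA_not_isB {l : ℕ} {ρ : ℕ → ℕ → K} {c : Bool} {φ : Fml p (Fin n)} (h : ¬ isB c φ)
    (u : ℕ) (x : Fin n → Bool) : badA l ρ c φ u x = false := by
  unfold badA
  by_cases hh : hit l ρ c φ u x = true
  · rw [hit_not_isB l ρ x h hh]
    simp
  · simp [hh]

variable (l : ℕ) (ρ : ℕ → ℕ → K) (G : List (Bool × Fml p (Fin n))) {d w W : ℕ}
  {A : Set (List ((Fin n → Bool) → Bool))}


end

end Pool.Agent.Work.MP_c04246_lc.Q
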