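import Mathlib
import Pool.Agent.Work.MP_c04246_lc.Q.Sim

set_option autoImplicit false
set_option linter.unusedSectionVars false

/-! The approximate values obey the truth tables, up to the bad events. -/

namespace Pool.Agent.Work.MP_c04246_lc.Q

open Fml

variable {p : ℕ} [Fact p.Prime] {n : ℕ} {K : Type} [Field K] [Fintype K] [DecidableEq K]
  [Algebra (ZMod p) K]

variable (l : ℕ) (ρ : ℕ → ℕ → K) (G : List (Bool × Fml p (Fin n))) {d w W D : ℕ}
  {A : Set (List ((Fin n → Bool) → Bool))}

/-- the base of the degree bounds -/
noncomputable def MM (p : ℕ) (K : Type) [Field K] [Algebra (ZMod p) K] : ℕ :=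
  Module.finrank (ZMod p) K * (p - 1)

theorem MM_pos : 1 ≤ MM p K := by
  have hp := (Fact.out : p.Prime)
  have hfr : 1 ≤ Module.finrank (ZMod p) K := Module.finrank_pos
  have : 1 ≤ p - 1 := by have := hp.two_le; omega
  exact Nat.mul_le_mul hfr this

theorem BD_val' {φ : Fml p (Fin n)} (h : dpt none φ ≤ d) :
    BD p (MM p K ^ d) fun x => val l ρ x φ :=
  BD_mono (Nat.pow_le_pow_right MM_pos h) (BD_val l ρ φ).1

theorem BD_hit' {φ : Fml p (Fin n)} (h : dpt none φ ≤ d) (c : Bool) (u : ℕ) :
    BD p (MM p K ^ d) (hit l ρ c φ u) := by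
  by_cases hc : isB c φ
  · refine BD_mono (Nat.pow_le_pow_right MM_pos ?_) ((BD_val l ρ φ).2 c u)
    refine le_trans ?_ h
    cases φ with
    | bin c' a b =>
      simp only [isB] at hc
      subst hc
      simp [dpt]
    | _ => simp [isB] at hc
  · cases u with
    | zero =>
      have e1 : hit l ρ c φ 0 = fun x => val l ρ x φ == c := by
        funext x
        unfold hit
        rw [lvs_not_isB l ρ x hc]
        simp
      rw [e1]
      exact BD_of_FD (FD_bool (BD_val' l ρ h)) (fun z => z == c)
    | succ u =>
      have e1 : hit l ρ c φ (u + 1) = fun _ => false := by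
        funext x
        unfold hit
        rw [lvs_not_isB l ρ x hc]
        simp
      rw [e1]
      exact BD_const _ _

theorem BD_badA {φ : Fml p (Fin n)} (h : dpt none φ ≤ d) (hD : 3 * MM p K ^ d ≤ D) (c : Bool)
    (u : ℕ) : BD p D (badA l ρ c φ u) := by
  refine BD_mono ?_ (BD_and (BD_hit' l ρ h c u)
    (BD_of_FD (FD_bool (BD_val' l ρ h)) (fun z => !(z == c))))
  omega

theorem badL_legal (hG : ∀ g ∈ G, dpt none g.2 ≤ d) (hD : 3 * MM p K ^ d ≤ D) :
    ∀ b ∈ badL l ρ G, BD p D b := by
  intro b hb
  rw [badL, List.mem_flatMap] at hb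
  obtain ⟨g, hg, hb⟩ := hb
  obtain ⟨u, _, rfl⟩ := List.mem_map.1 hb
  exact BD_badA l ρ (hG g hg) hD g.1 u

/-- if the formula has the value `c`, then some argument has -/
theorem down {φ : Fml p (Fin n)} (hφ : dpt none φ ≤ d) (c : Bool)
    (Γ : List ((Fin n → Bool) → Bool)) (hw : 2 ≤ w)
    (hΓ : ∀ u, ∃ B0 : List ((Fin n → Bool) → Bool), B0.length + 1 ≤ w ∧ (∀ b ∈ B0, b ∈ Γ) ∧
      ∀ x, hit l ρ c φ u x = true → ∃ b ∈ B0, b x = true)
    (hD : 3 * MM p K ^ d ≤ D) (hW : Γ.length + 1 ≤ W) (hΓa : ∀ b ∈ Γ, BD p D b) :
    Drv w (LgA (BD p D) W) A (2 ^ (l + 1)) {Γ ++ [fun x => !(val l ρ x φ == c)]} := by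
  have hlen : ∀ b : (Fin n → Bool) → Bool, (Γ ++ [b]).length ≤ W := by
    intro b
    rw [List.length_append]
    simpa using hW
  have hMd : MM p K ^ d ≤ D := by omega
  by_cases hc : isB c φ
  · cases φ with
    | bin c' a b =>
      simp only [isB] at hc
      subst hc
      have hh : ∀ u, BD p (MM p K ^ (dpt (some (some c')) (.bin c' a b : Fml p (Fin n))))
        (hit l ρ c' (.bin c' a b) u) := fun u => (BD_val l ρ (.bin c' a b)).2 c' u
      have h1 := hashdown (Lg := LgA (BD p D) W) (A := A) (ρ (depth (.bin c' a b)))
        (hit l ρ c' (.bin c' a b)) Γ hw hΓ l (fun s _ u => by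
          refine ⟨hlen _, ?_⟩
          intro b' hb'
          simp only [List.mem_append, List.mem_cons, List.not_mem_nil, or_false] at hb'
          rcases hb' with hb' | rfl
          · exact hΓa b' hb'
          · have h2 := FD_TT (p := p) (ρ (depth (.bin c' a b))) (hit l ρ c' (.bin c' a b)) hh s u
            refine BD_mono ?_ (BD_of_FD h2 fun z => decide (z = 0))
            refine le_trans ?_ hMd
            have e1 : Module.finrank (ZMod p) K * (p - 1) *
                MM p K ^ (dpt (some (some c')) (.bin c' a b : Fml p (Fin n))) =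
                MM p K ^ (1 + dpt (some (some c')) (.bin c' a b : Fml p (Fin n))) := by
              rw [pow_add, pow_one]
              rfl
            rw [e1]
            apply Nat.pow_le_pow_right MM_pos
            refine le_trans ?_ hφ
            simp [dpt]) l le_rfl 0
      have e2 : (fun x => !(val l ρ x (.bin c' a b : Fml p (Fin n)) == c')) = fun x =>
          decide (TT (ρ (depth (.bin c' a b)))
            (fun v => bK K (hit l ρ c' (.bin c' a b) v x)) l 0 = 0) := by
        funext x
        exact val_bin_iff l ρ x c' a b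
      rw [e2]
      exact h1.mono subset_rfl (Nat.sub_le _ _) subset_rfl
    | _ => simp [isB] at hc
  · obtain ⟨B0, h1, h2, h3⟩ := hΓ 0
    refine (Drv.step (stpL (B0 := B0 ++ [fun x => !(val l ρ x φ == c)]) [] (by simp) (by simp)
      (by simp) (by simpa using h1) ?_ (by simp) ?_) ⟨hlen _, ?_⟩).mono subset_rfl
      Nat.one_le_two_pow subset_rfl
    · intro b hb
      simp only [List.mem_append, List.mem_cons, List.not_mem_nil, or_false] at hb ⊢
      rcases hb with hb | hb
      · exact Or.inl (h2 b hb)
      · exact Or.inr hb
    · intro x _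
      by_cases hx : (val l ρ x φ == c) = true
      · obtain ⟨b, hb, hbx⟩ := h3 x (hit_not_isB_zero l ρ x hc hx)
        exact ⟨b, by simp [hb], hbx⟩
      · exact ⟨fun x => !(val l ρ x φ == c), by simp, by simpa using hx⟩
    · intro b hb
      simp only [List.mem_append, List.mem_cons, List.not_mem_nil, or_false] at hb
      rcases hb with hb | rfl
      · exact hΓa b hb
      · exact BD_mono hMd (BD_of_FD (FD_bool (BD_val' l ρ hφ)) (fun z => !(z == c)))

open Classical in
/-- the approximate values obey the truth table of the outermost connective -/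
noncomputable def rsp (l : ℕ) (ρ : ℕ → ℕ → K) (φ : Fml p (Fin n)) (x : Fin n → Bool) : Bool :=
  decide (Resp (val l ρ x) φ)

theorem rsp_bin (c : Bool) (a b : Fml p (Fin n)) (x : Fin n → Bool) :
    rsp l ρ (.bin c a b) x = (val l ρ x (.bin c a b) ==
      if c then (val l ρ x a || val l ρ x b) else (val l ρ x a && val l ρ x b)) := by
  unfold rsp Resp
  rw [Bool.eq_iff_iff]
  simp

theorem BD_rsp {c : Bool} {a b : Fml p (Fin n)} (h : dpt none (.bin c a b) ≤ d)
    (hD : 3 * MM p K ^ d ≤ D) : BD p D (rsp l ρ (.bin c a b)) := by
  have ha : dpt none a ≤ d := (dpt_subs (by simp [subs, self_mem_subs])).trans h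
  have hb : dpt none b ≤ d := (dpt_subs (by simp [subs, self_mem_subs])).trans h
  have h1 := BD_of_FD (FD_pair (FD_bool (BD_val' l ρ h)) (FD_pair (FD_bool (BD_val' l ρ ha))
    (FD_bool (BD_val' l ρ hb))))
    (fun z => z.1 == if c then (z.2.1 || z.2.2) else (z.2.1 && z.2.2))
  have e1 : rsp l ρ (.bin c a b) = fun x => (val l ρ x (.bin c a b) ==
      if c then (val l ρ x a || val l ρ x b) else (val l ρ x a && val l ρ x b)) := by
    funext x
    exact rsp_bin l ρ c a b x
  rw [e1]
  exact BD_mono (by omega) h1

theorem tt_aux : ∀ c va vb vg : Bool,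
    ((va == c) = true ∨ (vb == c) = true ∨ (!vg == c) = true) →
    ((vg == c) = true ∨ (!va == c) = true) → ((vg == c) = true ∨ (!vb == c) = true) →
    (vg == if c = true then va || vb else va && vb) = true := by decide

/-- the truth table of a block, up to bad events -/
theorem resp_line (hG : ∀ g ∈ G, dpt none g.2 ≤ d) {c : Bool} {a b : Fml p (Fin n)}
    (hg : (c, .bin c a b) ∈ G) (ha : isB c a → (c, a) ∈ G) (hb : isB c b → (c, b) ∈ G)
    (hnl : nl c (.bin c a b) ≤ 2 ^ l) (hw : 7 ≤ w) (hD : 3 * MM p K ^ d ≤ D)
    (hW : G.length * 2 ^ l + 3 ≤ W) :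
    Drv w (LgA (BD p D) W) A (3 * 2 ^ (l + 1) + 1) {rsp l ρ (.bin c a b) :: badL l ρ G} := by
  have hdg : dpt none (.bin c a b) ≤ d := hG _ hg
  have hda : dpt none a ≤ d := (dpt_subs (by simp [subs, self_mem_subs])).trans hdg
  have hdb : dpt none b ≤ d := (dpt_subs (by simp [subs, self_mem_subs])).trans hdg
  have hMd : MM p K ^ d ≤ D := by omega
  have hnl' : nl c (.bin c a b) = nl c a + nl c b := by simp [nl]
  have hf : ∀ φ : Fml p (Fin n), dpt none φ ≤ d → BD p D fun x => val l ρ x φ == c := fun φ h =>
    BD_mono hMd (BD_of_FD (FD_bool (BD_val' l ρ h)) (fun z => z == c))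
  have hbl := badL_legal l ρ G hG hD
  have hlen := length_badL l ρ G
  -- first line
  have X1 : Drv w (LgA (BD p D) W) A (2 ^ (l + 1))
      {((fun x => val l ρ x a == c) :: (fun x => val l ρ x b == c) :: badL l ρ G) ++
        [fun x => !(val l ρ x (.bin c a b) == c)]} := by
    refine down l ρ hdg c _ (by omega) ?_ hD ?_ ?_
    · intro u
      by_cases hu : u < nl c a
      · by_cases hca : isB c a
        · refine ⟨[fun x => val l ρ x a == c, badA l ρ c a u], by simp; omega, ?_, ?_⟩
          · intro e he
            simp only [List.mem_cons, List.not_mem_nil, or_false] at he ⊢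
            rcases he with rfl | rfl
            · simp
            · exact Or.inr (Or.inr (mem_badL (ha hca) (by omega)))
          · intro x hx
            rw [hit_bin, if_pos hu] at hx
            by_cases hv : (val l ρ x a == c) = true
            · exact ⟨_, List.mem_cons_self, hv⟩
            · refine ⟨badA l ρ c a u, by simp, ?_⟩
              unfold badA
              rw [hx]
              simpa using hv
        · refine ⟨[fun x => val l ρ x a == c], by simp; omega, by simp, ?_⟩
          intro x hx
          rw [hit_bin, if_pos hu] at hx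
          exact ⟨_, List.mem_cons_self, hit_not_isB l ρ x hca hx⟩
      · by_cases hu2 : u - nl c a < nl c b
        · by_cases hcb : isB c b
          · refine ⟨[fun x => val l ρ x b == c, badA l ρ c b (u - nl c a)], by simp; omega, ?_, ?_⟩
            · intro e he
              simp only [List.mem_cons, List.not_mem_nil, or_false] at he ⊢
              rcases he with rfl | rfl
              · simp
              · exact Or.inr (Or.inr (mem_badL (hb hcb) (by omega)))
            · intro x hx
              rw [hit_bin, if_neg hu] at hx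
              by_cases hv : (val l ρ x b == c) = true
              · exact ⟨_, List.mem_cons_self, hv⟩
              · refine ⟨badA l ρ c b (u - nl c a), by simp, ?_⟩
                unfold badA
                rw [hx]
                simpa using hv
          · refine ⟨[fun x => val l ρ x b == c], by simp; omega, by simp, ?_⟩
            intro x hx
            rw [hit_bin, if_neg hu] at hx
            exact ⟨_, List.mem_cons_self, hit_not_isB l ρ x hcb hx⟩
        · refine ⟨[], by simp; omega, by simp, ?_⟩
          intro x hx
          have := hit_lt l ρ x hx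
          omega
    · simp only [List.length_cons, hlen]
      omega
    · intro e he
      simp only [List.mem_cons] at he
      rcases he with rfl | rfl | he
      · exact hf a hda
      · exact hf b hdb
      · exact hbl e he
  -- second and third line
  have X2 : ∀ φ : Fml p (Fin n), dpt none φ ≤ d → (∀ u, u < nl c φ → ∃ v < 2 ^ l, ∀ x,
      hit l ρ c φ u x = true → hit l ρ c (.bin c a b) v x = true) →
      Drv w (LgA (BD p D) W) A (2 ^ (l + 1))
        {((fun x => val l ρ x (.bin c a b) == c) :: badL l ρ G) ++
          [fun x => !(val l ρ x φ == c)]} := by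
    intro φ hdφ hφ
    refine down l ρ hdφ c _ (by omega) ?_ hD ?_ ?_
    · intro u
      by_cases hu : u < nl c φ
      · obtain ⟨v, hv, hv2⟩ := hφ u hu
        refine ⟨[fun x => val l ρ x (.bin c a b) == c, badA l ρ c (.bin c a b) v], by simp; omega,
          ?_, ?_⟩
        · intro e he
          simp only [List.mem_cons, List.not_mem_nil, or_false] at he ⊢
          rcases he with rfl | rfl
          · simp
          · exact Or.inr (mem_badL hg hv)
        · intro x hx
          have hx := hv2 x hx
          by_cases hv : (val l ρ x (.bin c a b) == c) = true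
          · exact ⟨_, List.mem_cons_self, hv⟩
          · refine ⟨badA l ρ c (.bin c a b) v, by simp, ?_⟩
            unfold badA
            rw [hx]
            simpa using hv
      · refine ⟨[], by simp; omega, by simp, ?_⟩
        intro x hx
        exact absurd (hit_lt l ρ x hx) hu
    · simp only [List.length_cons, hlen]
      omega
    · intro e he
      simp only [List.mem_cons] at he
      rcases he with rfl | he
      · exact hf _ hdg
      · exact hbl e he
  have X2a := X2 a hda fun u hu => ⟨u, by omega, fun x hx => by rwa [hit_bin, if_pos hu]⟩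
  have X2b := X2 b hdb fun u hu => ⟨nl c a + u, by omega, fun x hx => by
    rw [hit_bin, if_neg (by omega)]
    rwa [Nat.add_sub_cancel_left]⟩
  have X3 : Drv w (LgA (BD p D) W) (((A ∪
      {((fun x => val l ρ x a == c) :: (fun x => val l ρ x b == c) :: badL l ρ G) ++
        [fun x => !(val l ρ x (.bin c a b) == c)]}) ∪
      {((fun x => val l ρ x (.bin c a b) == c) :: badL l ρ G) ++
          [fun x => !(val l ρ x a == c)]}) ∪
      {((fun x => val l ρ x (.bin c a b) == c) :: badL l ρ G) ++
          [fun x => !(val l ρ x b == c)]}) 1 {rsp l ρ (.bin c a b) :: badL l ρ G} := by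
    refine Drv.step (stpL (B0 := [rsp l ρ (.bin c a b)])
      [(((fun x => val l ρ x a == c) :: (fun x => val l ρ x b == c) :: badL l ρ G) ++
        [fun x => !(val l ρ x (.bin c a b) == c)],
        [fun x => val l ρ x a == c, fun x => val l ρ x b == c,
          fun x => !(val l ρ x (.bin c a b) == c)]),
       (((fun x => val l ρ x (.bin c a b) == c) :: badL l ρ G) ++ [fun x => !(val l ρ x a == c)],
        [fun x => val l ρ x (.bin c a b) == c, fun x => !(val l ρ x a == c)]),
       (((fun x => val l ρ x (.bin c a b) == c) :: badL l ρ G) ++ [fun x => !(val l ρ x b == c)],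
        [fun x => val l ρ x (.bin c a b) == c, fun x => !(val l ρ x b == c)])]
      (by simp; omega) ?_ (by simp; omega) (by simp; omega) (by simp) ?_ ?_) ⟨?_, ?_⟩
    · intro q hq
      simp only [List.mem_cons, List.not_mem_nil, or_false] at hq
      rcases hq with rfl | rfl | rfl
      · exact Or.inl (Or.inl (Or.inr rfl))
      · exact Or.inl (Or.inr rfl)
      · exact Or.inr rfl
    · intro q hq e he
      simp only [List.mem_cons, List.not_mem_nil, or_false] at hq
      rcases hq with rfl | rfl | rfl
      · simp only [List.mem_append, List.mem_cons, List.not_mem_nil, or_false] at he ⊢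
        tauto
      · simp only [List.mem_append, List.mem_cons, List.not_mem_nil, or_false] at he ⊢
        tauto
      · simp only [List.mem_append, List.mem_cons, List.not_mem_nil, or_false] at he ⊢
        tauto
    · intro x hx
      have h1 := hx _ List.mem_cons_self
      have h2 := hx _ (List.mem_cons_of_mem _ List.mem_cons_self)
      have h3 := hx _ (List.mem_cons_of_mem _ (List.mem_cons_of_mem _ List.mem_cons_self))
      refine ⟨rsp l ρ (.bin c a b), by simp, ?_⟩
      rw [rsp_bin]
      simp only [List.mem_cons, List.not_mem_nil, or_false, exists_eq_or_imp, exists_eq_left]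
        at h1 h2 h3
      exact tt_aux c _ _ _ h1 h2 h3
    · simp only [List.length_cons, hlen]
      omega
    · intro e he
      simp only [List.mem_cons] at he
      rcases he with rfl | he
      · exact BD_rsp l ρ hdg hD
      · exact hbl e he
  refine (X1.comp ((X2a.mono Set.subset_union_left le_rfl subset_rfl).comp
    ((X2b.mono (Set.subset_union_left.trans Set.subset_union_left) le_rfl subset_rfl).comp
      X3))).mono subset_rfl ?_ subset_rfl
  omega

end Pool.Agent.Work.MP_c04246_lc.Q
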