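import Mathlib
import Pool.Agent.Work.MP_c04246_lc.Q.Res

set_option autoImplicit false
set_option linter.unusedSectionVars false

/-! For a fixed seed, the refutation yields the disjunction of the bad events. -/

namespace Pool.Agent.Work.MP_c04246_lc.Q

open Fml

variable {p : ℕ} [Fact p.Prime] {n : ℕ} {K : Type} [Field K] [Fintype K] [DecidableEq K]
  [Algebra (ZMod p) K]

/-- the literal `(i, b)`: the variable `i` has the value `b` -/
def litA (t : Fin n × Bool) (x : Fin n → Bool) : Bool := x t.1 == t.2

/-- the clause as a line -/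
def litL (C : List (Fin n × Bool)) : List ((Fin n → Bool) → Bool) := C.map litA

/-- the clause as a formula -/
def clF (C : List (Fin n × Bool)) : Fml p (Fin n) := disj (C.map litF)

section

variable (l : ℕ) (ρ : ℕ → ℕ → K)

theorem val_litF (t : Fin n × Bool) (x : Fin n → Bool) :
    val l ρ x (litF t : Fml p (Fin n)) = litA t x := by
  obtain ⟨i, b⟩ := t
  cases b <;> simp [litF, litA, val, VV]

theorem not_isB_litF (t : Fin n × Bool) (c : Bool) : ¬ isB c (litF t : Fml p (Fin n)) := by
  obtain ⟨i, b⟩ := t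
  cases b <;> simp [litF, isB]

theorem lvs_clF (C : List (Fin n × Bool)) (x : Fin n → Bool) :
    lvs l ρ x true (clF C : Fml p (Fin n)) = (C.map fun t => litA t x) ++ [false] := by
  induction C with
  | nil => rfl
  | cons t C ih =>
    have e1 : (clF (t :: C) : Fml p (Fin n)) = .bin true (litF t) (clF C) := rfl
    rw [e1, lvs_bin, ih, lvs_not_isB l ρ x (not_isB_litF t true), val_litF]
    simp

theorem nl_clF (C : List (Fin n × Bool)) : nl true (clF C : Fml p (Fin n)) = C.length + 1 := by
  induction C with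
  | nil => rfl
  | cons t C ih =>
    have e1 : (clF (t :: C) : Fml p (Fin n)) = .bin true (litF t) (clF C) := rfl
    have e2 : nl true (litF t : Fml p (Fin n)) = 1 := by
      obtain ⟨i, b⟩ := t
      cases b <;> simp [litF, nl]
    rw [e1]
    simp only [nl, if_true, ih, e2, List.length_cons]
    omega

theorem litA_hit {C : List (Fin n × Bool)} {j : ℕ} (hj : j < C.length) (x : Fin n → Bool)
    (h : litA C[j] x = true) : hit l ρ true (clF C : Fml p (Fin n)) j x = true := by
  unfold hit
  rw [lvs_clF]
  rw [List.map_append, List.getD_append _ _ _ _ (by simpa using hj)]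
  rw [List.getD_eq_getElem _ _ (by simpa using hj)]
  simpa using h

end

theorem BD_litA (t : Fin n × Bool) : BD p 1 (litA t) :=
  BD_of_FD (FD_bool (BD_var t.1)) (fun z => z == t.2)

variable (l : ℕ) (ρ : ℕ → ℕ → K) (G : List (Bool × Fml p (Fin n))) {d w W D : ℕ}
  {A : Set (List ((Fin n → Bool) → Bool))}

/-- the line for the formula `φ` -/
def ln (l : ℕ) (ρ : ℕ → ℕ → K) (G : List (Bool × Fml p (Fin n))) (φ : Fml p (Fin n)) :
    List ((Fin n → Bool) → Bool) := (fun x => val l ρ x φ) :: badL l ρ G

theorem ln_legal (hG : ∀ g ∈ G, dpt none g.2 ≤ d) (hD : 3 * MM p K ^ d ≤ D)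
    {φ : Fml p (Fin n)} (hφ : dpt none φ ≤ d) (hW : G.length * 2 ^ l + 1 ≤ W) :
    LgA (BD p D) W (ln l ρ G φ) := by
  constructor
  · simp only [ln, List.length_cons, length_badL]
    omega
  · intro b hb
    simp only [ln, List.mem_cons] at hb
    rcases hb with rfl | hb
    · exact BD_mono (by omega) (BD_val' l ρ hφ)
    · exact badL_legal l ρ G hG hD b hb

theorem clause_line (hG : ∀ g ∈ G, dpt none g.2 ≤ d) (hD : 3 * MM p K ^ d ≤ D)
    (C : List (Fin n × Bool)) (hC : litL C ∈ A)
    (hg : ∀ c a b, (clF C : Fml p (Fin n)) = .bin c a b → (c, .bin c a b) ∈ G)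
    (hd : dpt none (clF C : Fml p (Fin n)) ≤ d)
    (hl : C.length ≤ 2 ^ l) (hw : 2 ≤ w) (hW : (G.length + 1) * 2 ^ l + 1 ≤ W) :
    Drv w (LgA (BD p D) W) A (2 ^ l + 1) {ln l ρ G (clF C)} := by
  have hlen : (litL C).length = C.length := by simp [litL]
  have hM1 : 1 ≤ D := by
    have : 1 ≤ MM p K ^ d := Nat.one_le_pow _ _ MM_pos
    omega
  have hW' : G.length * 2 ^ l + 1 + 2 ^ l ≤ W := by
    have : (G.length + 1) * 2 ^ l = G.length * 2 ^ l + 2 ^ l := by ring
    omega
  have h1 := ln_legal l ρ G hG hD hd (W := G.length * 2 ^ l + 1) le_rfl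
  refine (Drv.sub (L := litL C) (M := litL C) (by omega) hC (fun e he => Or.inr he) ?_ ?_).mono
    subset_rfl (by rw [hlen]; omega) subset_rfl
  · intro M' hM'
    have h2 := hM'.length_le
    rw [hlen] at h2
    constructor
    · rw [List.length_append]
      have := h1.1
      omega
    · intro b hb
      rw [List.mem_append] at hb
      rcases hb with hb | hb
      · exact h1.2 b hb
      · have := hM'.subset hb
        simp only [litL, List.mem_map] at this
        obtain ⟨t, _, rfl⟩ := this
        exact BD_mono hM1 (BD_litA t)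
  · intro e he
    simp only [litL, List.mem_map] at he
    obtain ⟨t, ht, rfl⟩ := he
    obtain ⟨j, hj, rfl⟩ := List.mem_iff_getElem.1 ht
    refine ⟨[fun x => val l ρ x (clF C : Fml p (Fin n)), badA l ρ true (clF C : Fml p (Fin n)) j],
      by simp; omega, ?_, ?_⟩
    · intro b hb
      simp only [List.mem_cons, List.not_mem_nil, or_false] at hb
      rcases hb with rfl | rfl
      · exact List.mem_cons_self
      · apply List.mem_cons_of_mem
        have hg' : (true, (clF C : Fml p (Fin n))) ∈ G := by
          cases C with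
          | nil => simp at hj
          | cons t C => exact hg true (litF t) (clF C) rfl
        exact mem_badL hg' (by omega)
    · intro x hx
      have hx := litA_hit (p := p) l ρ hj x hx
      by_cases hv : val l ρ x (clF C : Fml p (Fin n)) = true
      · exact ⟨_, List.mem_cons_self, hv⟩
      · refine ⟨badA l ρ true (clF C : Fml p (Fin n)) j, by simp, ?_⟩
        unfold badA
        rw [hx]
        simpa using hv

open Classical in
theorem inf_line (hG : ∀ g ∈ G, dpt none g.2 ≤ d) (hD : 3 * MM p K ^ d ≤ D) {κ : ℕ}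
    {P : Finset (Fml p (Fin n))} {φ : Fml p (Fin n)} (h : LocInf κ P φ)
    (hP : ∀ ψ ∈ P, ln l ρ G ψ ∈ A)
    (hR : ∀ c a b, (.bin c a b ∈ subs φ ∨ ∃ ψ ∈ P, .bin c a b ∈ subs ψ) →
      (rsp l ρ (.bin c a b) :: badL l ρ G) ∈ A)
    (hd : dpt none φ ≤ d) (hw : 2 * κ ≤ w) (hw1 : 1 ≤ w) (hW : G.length * 2 ^ l + 1 ≤ W) :
    Drv w (LgA (BD p D) W) A 1 {ln l ρ G φ} := by
  obtain ⟨hPc, C, hC, hCs, hs⟩ := h
  refine Drv.step ?_ (ln_legal l ρ G hG hD hd hW)
  set C' := C.filter (fun χ => ∃ c a b, χ = .bin c a b) with hC'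
  have hcc : C'.card ≤ C.card := Finset.card_filter_le _ _
  refine stpL (B0 := [fun x => val l ρ x φ])
    ((P.toList.map fun ψ => (ln l ρ G ψ, [fun x => val l ρ x ψ])) ++
      (C'.toList.map fun χ => (rsp l ρ χ :: badL l ρ G, [rsp l ρ χ])))
    ?_ ?_ ?_ (by simpa using hw1) ?_ ?_ ?_
  · rw [List.length_append, List.length_map, List.length_map, Finset.length_toList,
      Finset.length_toList]
    omega
  · intro q hq
    rw [List.mem_append, List.mem_map, List.mem_map] at hq
    rcases hq with ⟨ψ, hψ, rfl⟩ | ⟨χ, hχ, rfl⟩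
    · exact hP ψ (by simpa using hψ)
    · rw [Finset.mem_toList, hC', Finset.mem_filter] at hχ
      obtain ⟨h1, c, a, b, rfl⟩ := hχ
      exact hR c a b (hCs _ h1)
  · have h1 : (((P.toList.map fun ψ => (ln l ρ G ψ, [fun x => val l ρ x ψ])) ++
      (C'.toList.map fun χ => (rsp l ρ χ :: badL l ρ G, [rsp l ρ χ]))).map
        fun q => q.2.length).sum = P.card + C'.card := by
      simp [Function.comp_def]
    rw [h1]
    omega
  · intro b hb
    simp only [List.mem_cons, List.not_mem_nil, or_false] at hb
    rw [hb]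
    exact List.mem_cons_self
  · intro q hq e he
    rw [List.mem_append, List.mem_map, List.mem_map] at hq
    rcases hq with ⟨ψ, hψ, rfl⟩ | ⟨χ, hχ, rfl⟩
    · simp only [ln, List.mem_cons, List.not_mem_nil, or_false] at he ⊢
      tauto
    · simp only [ln, List.mem_cons, List.not_mem_nil, or_false] at he ⊢
      tauto
  · intro x hx
    refine ⟨fun x => val l ρ x φ, by simp, ?_⟩
    apply hs (val l ρ x)
    · intro χ hχ
      by_cases hb : ∃ c a b, χ = Fml.bin c a b
      · have h1 : χ ∈ C' := by rw [hC', Finset.mem_filter]; exact ⟨hχ, hb⟩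
        have h2 := hx (rsp l ρ χ :: badL l ρ G, [rsp l ρ χ])
          (by
            rw [List.mem_append, List.mem_map, List.mem_map]
            exact Or.inr ⟨χ, by simpa using h1, rfl⟩)
        simp only [List.mem_cons, List.not_mem_nil, or_false, exists_eq_left] at h2
        simpa [rsp] using h2
      · apply resp_val_of_not_bin
        intro c hc
        cases χ with
        | bin c' a b => exact hb ⟨c', a, b, rfl⟩
        | _ => exact hc
    · intro ψ hψ
      have h2 := hx (ln l ρ G ψ, [fun x => val l ρ x ψ])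
        (by
          rw [List.mem_append, List.mem_map, List.mem_map]
          exact Or.inl ⟨ψ, by simpa using hψ, rfl⟩)
      simpa using h2

end Pool.Agent.Work.MP_c04246_lc.Q
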