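import Mathlib
import Pool.Agent.Work.MP_c04246_lc.Q.Line

set_option autoImplicit false
set_option linter.unusedSectionVars false

/-! For a fixed seed, the refutation yields the disjunction of the bad events. -/

namespace Pool.Agent.Work.MP_c04246_lc.Q

open Fml

theorem size_subs {p : ℕ} {V : Type} {φ ψ : Fml p V} (h : ψ ∈ subs φ) :
    Fml.size ψ ≤ Fml.size φ := by
  induction φ with
  | var i => simp only [subs, Finset.mem_singleton] at h; rw [h]
  | cst b => simp only [subs, Finset.mem_singleton] at h; rw [h]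
  | neg a ih =>
    simp only [subs, Finset.mem_insert] at h
    rcases h with rfl | h
    · exact le_rfl
    · exact (ih h).trans (by simp [Fml.size])
  | bin c a b iha ihb =>
    simp only [subs, Finset.mem_insert, Finset.mem_union] at h
    rcases h with rfl | h | h
    · exact le_rfl
    · refine (iha h).trans ?_
      simp only [Fml.size]; omega
    · refine (ihb h).trans ?_
      simp only [Fml.size]; omega
  | mod i k f ih =>
    simp only [subs, Finset.mem_insert, Finset.mem_biUnion, Finset.mem_univ, true_and] at h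
    rcases h with rfl | ⟨j, h⟩
    · exact le_rfl
    · refine (ih j h).trans ?_
      simp only [Fml.size]
      have := Finset.single_le_sum (f := fun j => Fml.size (f j)) (fun _ _ => Nat.zero_le _)
        (Finset.mem_univ j)
      omega

variable {p : ℕ} [Fact p.Prime] {n : ℕ} {K : Type} [Field K] [Fintype K] [DecidableEq K]
  [Algebra (ZMod p) K]

theorem seed_line (l : ℕ) (ρ : ℕ → ℕ → K) (G : List (Bool × Fml p (Fin n))) {d w W D κ : ℕ}
    (F : Set (List (Fin n × Bool))) (π : List (Fml p (Fin n)))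
    (hder : IsDer κ {φ | ∃ C ∈ F, φ = clF C} π) (hbot : (.cst false : Fml p (Fin n)) ∈ π)
    (hd : ∀ φ ∈ π, depth φ ≤ d) (hsz : ∀ φ ∈ π, Fml.size φ ≤ 2 ^ l)
    (hG1 : ∀ φ ∈ π, ∀ c a b, .bin c a b ∈ subs φ → (c, .bin c a b) ∈ G)
    (hG2 : ∀ g ∈ G, ∃ φ ∈ π, ∃ a b, g.2 = .bin g.1 a b ∧ g.2 ∈ subs φ)
    (hw : 7 ≤ w) (hκ : 2 * κ ≤ w) (hD : 3 * MM p K ^ d ≤ D)
    (hW : (G.length + 1) * 2 ^ l + 2 ≤ W) :
    Drv w (LgA (BD p D) W) {L | ∃ C ∈ F, L = litL C}
      (G.length * (3 * 2 ^ (l + 1) + 1) + π.length * (2 ^ l + 1) + 1) {badL l ρ G} := by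
  have h2l : 1 ≤ 2 ^ l := Nat.one_le_two_pow
  have hW' : G.length * 2 ^ l + 2 ^ l + 2 ≤ W := by
    have : (G.length + 1) * 2 ^ l = G.length * 2 ^ l + 2 ^ l := by ring
    omega
  have hGd : ∀ g ∈ G, dpt none g.2 ≤ d := by
    intro g hg
    obtain ⟨φ, hφ, a, b, _, hs⟩ := hG2 g hg
    exact (dpt_subs hs).trans (hd φ hφ)
  set A : Set (List ((Fin n → Bool) → Bool)) := {L | ∃ C ∈ F, L = litL C} with hA
  set R : Set (List ((Fin n → Bool) → Bool)) :=
    {L | ∃ g ∈ G, L ∈ ({rsp l ρ g.2 :: badL l ρ G} : Set (List ((Fin n → Bool) → Bool)))} with hR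
  have s1 : Drv w (LgA (BD p D) W) A (G.length * (3 * 2 ^ (l + 1) + 1)) R := by
    refine Drv.fam G (fun g => ({rsp l ρ g.2 :: badL l ρ G} :
      Set (List ((Fin n → Bool) → Bool)))) fun g hg => ?_
    obtain ⟨φ, hφ, a, b, e, hs⟩ := hG2 g hg
    obtain ⟨c, g'⟩ := g
    simp only at e hs
    subst e
    have hblk : ∀ c' ψ, ψ ∈ subs φ → isB c' ψ → (c', ψ) ∈ G := by
      intro c' ψ hψ hb
      cases ψ with
      | bin c2 a2 b2 =>
        simp only [isB] at hb
        subst hb
        exact hG1 φ hφ c2 a2 b2 hψ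
      | _ => exact absurd hb (by simp [isB])
    refine resp_line l ρ G hGd hg
      (hblk c a (subs_trans hs (by simp [subs, self_mem_subs])))
      (hblk c b (subs_trans hs (by simp [subs, self_mem_subs])))
      ((nl_le_size _ _).trans ((size_subs hs).trans (hsz φ hφ))) hw hD (by omega)
  have s2 : ∀ i ≤ π.length, Drv w (LgA (BD p D) W) (A ∪ R) (i * (2 ^ l + 1))
      {L | ∃ j : Fin π.length, j.1 < i ∧ L = ln l ρ G (π.get j)} := by
    intro i
    induction i with
    | zero =>
      intro _
      refine Drv.nil.mono subset_rfl (Nat.zero_le _) ?_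
      rintro L ⟨j, hj, _⟩
      exact absurd hj (by omega)
    | succ i ih =>
      intro hi
      have ih := ih (by omega)
      have hmem : π.get ⟨i, by omega⟩ ∈ π := List.get_mem _ _
      have s3 : Drv w (LgA (BD p D) W) ((A ∪ R) ∪
          {L | ∃ j : Fin π.length, j.1 < i ∧ L = ln l ρ G (π.get j)}) (2 ^ l + 1)
          {ln l ρ G (π.get ⟨i, by omega⟩)} := by
        rcases hder ⟨i, by omega⟩ with ⟨C, hC, e⟩ | ⟨P, hP, hinf⟩
        · rw [e]
          have hszC := hsz _ hmem
          rw [e] at hszC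
          have hnl := (nl_le_size true (clF C : Fml p (Fin n))).trans hszC
          rw [nl_clF] at hnl
          refine clause_line l ρ G hGd hD C (Or.inl (Or.inl ⟨C, hC, rfl⟩)) ?_ ?_ (by omega)
            (by omega) ?_
          · intro c a b e2
            refine hG1 _ hmem c a b ?_
            rw [e, ← e2]
            exact self_mem_subs _
          · rw [← e]; exact hd _ hmem
          · have : (G.length + 1) * 2 ^ l = G.length * 2 ^ l + 2 ^ l := by ring
            omega
        · refine (inf_line l ρ G hGd hD hinf ?_ ?_ (hd _ hmem) hκ (by omega) (by omega)).mono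
            subset_rfl (by omega) subset_rfl
          · intro ψ hψ
            obtain ⟨j, hj, rfl⟩ := hP ψ hψ
            exact Or.inr ⟨j, hj, rfl⟩
          · intro c a b hs
            left; right
            have hg : (c, (.bin c a b : Fml p (Fin n))) ∈ G := by
              rcases hs with hs | ⟨ψ, hψ, hs⟩
              · exact hG1 _ hmem c a b hs
              · obtain ⟨j, hj, rfl⟩ := hP ψ hψ
                exact hG1 _ (List.get_mem _ _) c a b hs
            exact ⟨(c, .bin c a b), hg, rfl⟩
      refine (ih.trans s3).mono subset_rfl (by ring_nf; omega) ?_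
      rintro L ⟨j, hj, rfl⟩
      by_cases hj2 : j.1 < i
      · exact Or.inl ⟨j, hj2, rfl⟩
      · right
        have : j = ⟨i, by omega⟩ := Fin.ext (by simp only; omega)
        rw [this]
        rfl
  have s4 : Drv w (LgA (BD p D) W) ((A ∪ R) ∪
      {L | ∃ j : Fin π.length, j.1 < π.length ∧ L = ln l ρ G (π.get j)}) 1 {badL l ρ G} := by
    obtain ⟨j, hj, e⟩ := List.mem_iff_getElem.1 hbot
    refine Drv.step (stp1 (L := ln l ρ G (.cst false))
      (E := [fun x => val l ρ x (.cst false : Fml p (Fin n))]) (B0 := []) (by omega) ?_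
      (by simp; omega) (by simp) (by simp) ?_ ?_) ⟨?_, badL_legal l ρ G hGd hD⟩
    · right
      refine ⟨⟨j, hj⟩, hj, ?_⟩
      rw [← e]
      rfl
    · intro e he
      simp only [ln, List.mem_cons, List.not_mem_nil, or_false] at he ⊢
      tauto
    · intro x hx
      simp [val, VV] at hx
    · rw [length_badL]; omega
  refine (s1.comp ((s2 π.length le_rfl).comp s4)).mono subset_rfl ?_ subset_rfl
  omega

end Pool.Agent.Work.MP_c04246_lc.Q
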