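import Mathlib
import Pool.Agent.Work.MP_c04246_lc.Q.Seed

set_option autoImplicit false
set_option linter.unusedSectionVars false

/-! Bad seeds are compressible. -/

namespace Pool.Agent.Work.MP_c04246_lc.Q

open Fml

variable {p : ℕ} [Fact p.Prime] {n : ℕ} {K : Type} [Field K] [Fintype K] [DecidableEq K]
  [Algebra (ZMod p) K]

/-- the seed as a family of vectors of length `l`, one for every level -/
def rho (l m : ℕ) (r : Fin (m + 1) → K) (j s : ℕ) : K :=
  if h : s < l ∧ j * l + s < m + 1 then r ⟨j * l + s, h.2⟩ else 0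

theorem rho_eq (l m : ℕ) (r : Fin (m + 1) → K) (j s : ℕ) (hs : s < l) (h : j * l + s < m + 1) :
    rho l m r j s = r ⟨j * l + s, h⟩ := dif_pos ⟨hs, h⟩

theorem rho_insert (l m : ℕ) (r : Fin (m + 1) → K) (z : K) (J S : ℕ) (hS : S < l)
    (h : J * l + S < m + 1) (j s : ℕ) (hne : ¬ (j = J ∧ s = S)) :
    rho l m (Fin.insertNth ⟨J * l + S, h⟩ z (Fin.removeNth ⟨J * l + S, h⟩ r) : Fin (m + 1) → K) j s =
      rho l m r j s := by
  unfold rho
  by_cases hc : s < l ∧ j * l + s < m + 1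
  · rw [dif_pos hc, dif_pos hc]
    have hp : (⟨j * l + s, hc.2⟩ : Fin (m + 1)) ≠ ⟨J * l + S, h⟩ := by
      intro e
      rw [Fin.mk.injEq] at e
      apply hne
      have hl : 0 < l := by omega
      have e1 : (j * l + s) / l = j := by
        rw [mul_comm, Nat.mul_add_div hl, Nat.div_eq_of_lt hc.1, add_zero]
      have e2 : (J * l + S) / l = J := by
        rw [mul_comm, Nat.mul_add_div hl, Nat.div_eq_of_lt hS, add_zero]
      have : j = J := by rw [← e1, ← e2, e]
      subst this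
      exact ⟨rfl, by omega⟩
    obtain ⟨k, hk⟩ := Fin.exists_succAbove_eq hp
    rw [← hk, Fin.insertNth_apply_succAbove]
    rfl
  · rw [dif_neg hc, dif_neg hc]

/-- codes of bad seeds: a block, the number of an argument, a coordinate, the other coordinates -/
abbrev YY (p n : ℕ) (K : Type) (l m : ℕ) (G : List (Bool × Fml p (Fin n))) : Type :=
  (Fin G.length × Fin (2 ^ l) × Fin l) × (Fin m → K)

/-- the coordinate of the seed -/
def pos (l m : ℕ) (G : List (Bool × Fml p (Fin n))) (g : Fin G.length) (s : Fin l) : Fin (m + 1) :=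
  if h : dpt none (G.get g).2 * l + s.1 < m + 1 then ⟨dpt none (G.get g).2 * l + s.1, h⟩ else 0

/-- the seed coded by `y` -/
noncomputable def decd (l m : ℕ) (G : List (Bool × Fml p (Fin n))) (x : Fin n → Bool)
    (y : YY p n K l m G) : Fin (m + 1) → K :=
  let r0 : Fin (m + 1) → K := Fin.insertNth (pos l m G y.1.1 y.1.2.2) 0 y.2
  let T := TT (rho l m r0 (dpt none (G.get y.1.1).2))
    (fun v => bK K (hit l (rho l m r0) (G.get y.1.1).1 (G.get y.1.1).2 v x)) y.1.2.2.1
  Fin.insertNth (pos l m G y.1.1 y.1.2.2)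
    (- T (2 * (y.1.2.1.1 / 2 ^ (y.1.2.2.1 + 1))) /
      T (2 * (y.1.2.1.1 / 2 ^ (y.1.2.2.1 + 1)) + 1)) y.2

theorem FD_decd (l m d : ℕ) (G : List (Bool × Fml p (Fin n)))
    (hG : ∀ g ∈ G, dpt none g.2 ≤ d ∧ ∃ a b, g.2 = .bin g.1 a b) (y : YY p n K l m G) :
    FD p (2 * MM p K ^ d) fun x => decd l m G x y := by
  obtain ⟨⟨g, i, s⟩, rest⟩ := y
  obtain ⟨h1, a, b, e⟩ := hG (G.get g) (List.get_mem _ _)
  set r0 : Fin (m + 1) → K := Fin.insertNth (pos l m G g s) 0 rest with hr0
  have hh : ∀ v, BD p (MM p K ^ (dpt (some (some (G.get g).1)) (G.get g).2))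
      (hit l (rho l m r0) (G.get g).1 (G.get g).2 v) := fun v =>
    (BD_val l (rho l m r0) (G.get g).2).2 _ v
  have h2 : ∀ t u, FD p (MM p K ^ d) fun x => TT (rho l m r0 (dpt none (G.get g).2))
      (fun v => bK K (hit l (rho l m r0) (G.get g).1 (G.get g).2 v x)) t u := by
    intro t u
    refine FD_mono ?_ (FD_TT _ _ hh t u)
    have e1 : Module.finrank (ZMod p) K * (p - 1) *
        MM p K ^ (dpt (some (some (G.get g).1)) (G.get g).2) =
        MM p K ^ (1 + dpt (some (some (G.get g).1)) (G.get g).2) := by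
      rw [pow_add, pow_one]
      rfl
    rw [e1]
    apply Nat.pow_le_pow_right MM_pos
    refine le_trans ?_ h1
    rw [e]
    simp [dpt]
  have h3 := FD_map (FD_pair (h2 s.1 (2 * (i.1 / 2 ^ (s.1 + 1))))
    (h2 s.1 (2 * (i.1 / 2 ^ (s.1 + 1)) + 1)))
    (fun z => (Fin.insertNth (pos l m G g s) (- z.1 / z.2) rest : Fin (m + 1) → K))
  have e3 : 2 * MM p K ^ d = MM p K ^ d + MM p K ^ d := by ring
  rw [e3]
  exact h3

/-- A bad seed is coded. -/
theorem bad_coded (l m d : ℕ) (hm : m + 1 = (d + 1) * l) (G : List (Bool × Fml p (Fin n)))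
    (hG : ∀ g ∈ G, dpt none g.2 ≤ d ∧ ∃ a b, g.2 = .bin g.1 a b) (r : Fin (m + 1) → K)
    (g : Fin G.length) (i : Fin (2 ^ l)) (x : Fin n → Bool)
    (h : badA l (rho l m r) (G.get g).1 (G.get g).2 i.1 x = true) :
    ∃ s : Fin l, decd l m G x ((g, i, s), Fin.removeNth (pos l m G g s) r) = r := by
  obtain ⟨h1, a, b, e⟩ := hG (G.get g) (List.get_mem _ _)
  set c := (G.get g).1 with hc
  set φ := (G.get g).2 with hφ
  set J := dpt none φ with hJ
  unfold badA at h
  rw [Bool.and_eq_true] at h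
  obtain ⟨h2, h3⟩ := h
  have h4 : TT (rho l m r J) (fun v => bK K (hit l (rho l m r) c φ v x)) l 0 = 0 := by
    have h5 := h3
    rw [e, val_bin_iff] at h5
    have h6 := of_decide_eq_true h5
    rw [hJ, e]
    exact h6
  have h5 : bK K (hit l (rho l m r) c φ i.1 x) ≠ 0 := by
    rw [h2]; simp [bK]
  obtain ⟨s, hs, h6, h7⟩ := hybrid (rho l m r J) (fun v => bK K (hit l (rho l m r) c φ v x)) l i.1
    i.2 h5 h4
  have h8 := root _ _ s i.1 h6 h7
  have hps : J * l + s < m + 1 := by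
    rw [hm]
    have : J * l ≤ d * l := Nat.mul_le_mul_right _ h1
    have : (d + 1) * l = d * l + l := by ring
    omega
  refine ⟨⟨s, hs⟩, ?_⟩
  have hpos : pos l m G g ⟨s, hs⟩ = ⟨J * l + s, hps⟩ := dif_pos hps
  set r0 : Fin (m + 1) → K := Fin.insertNth ⟨J * l + s, hps⟩ 0
    (Fin.removeNth ⟨J * l + s, hps⟩ r) with hr0
  have hrho : ∀ j t, ¬ (j = J ∧ t = s) → rho l m r0 j t = rho l m r j t := fun j t hne =>
    rho_insert l m r 0 J s hs hps j t hne
  have hhit : ∀ v, hit l (rho l m r0) c φ v x = hit l (rho l m r) c φ v x := by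
    intro v
    rw [e]
    apply hit_congr
    intro j hj
    funext t
    apply hrho
    rintro ⟨rfl, _⟩
    rw [hJ, e] at hj
    exact absurd hj (lt_irrefl _)
  have hTT : ∀ u, TT (rho l m r0 J) (fun v => bK K (hit l (rho l m r0) c φ v x)) s u =
      TT (rho l m r J) (fun v => bK K (hit l (rho l m r) c φ v x)) s u := by
    intro u
    apply TT_congr
    · intro t ht
      apply hrho
      rintro ⟨_, rfl⟩
      omega
    · intro v
      rw [hhit]
  have h9 : decd l m G x ((g, i, ⟨s, hs⟩), Fin.removeNth (pos l m G g ⟨s, hs⟩) r) =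
      (Fin.insertNth (pos l m G g ⟨s, hs⟩) (rho l m r J s)
        (Fin.removeNth (pos l m G g ⟨s, hs⟩) r) : Fin (m + 1) → K) := by
    unfold decd
    simp only [hpos]
    rw [← hr0, hTT, hTT, ← h8]
  rw [h9, rho_eq l m r J s hs hps, hpos]
  exact Fin.insertNth_self_removeNth _ _

/-- For every seed, the disjunction of the bad events yields that the seed is coded. -/
theorem coded_line (l m d : ℕ) (hm : m + 1 = (d + 1) * l) (G : List (Bool × Fml p (Fin n)))
    (hG : ∀ g ∈ G, dpt none g.2 ≤ d ∧ ∃ a b, g.2 = .bin g.1 a b) (r : Fin (m + 1) → K)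
    {w W D : ℕ} {A : Set (List ((Fin n → Bool) → Bool))} (hw : l ≤ w) (hw1 : 1 ≤ w)
    (hD : 3 * MM p K ^ d ≤ D) (hA : badL l (rho l m r) G ∈ A)
    (hW : Fintype.card (YY p n K l m G) + G.length * 2 ^ l ≤ W) :
    Drv w (LgA (BD p D) W) A (G.length * 2 ^ l + 1)
      {SL (fun x (y : YY p n K l m G) => decd l m G x y) r} := by
  classical
  rw [← length_badL l (rho l m r) G]
  refine Drv.sub (L := badL l (rho l m r) G) (M := badL l (rho l m r) G) hw1 hA
    (fun e he => Or.inr he) ?_ ?_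
  · intro M' hM'
    have h2 := hM'.length_le
    rw [length_badL] at h2
    constructor
    · rw [List.length_append, SL_length]
      omega
    · intro b hb
      rw [List.mem_append] at hb
      rcases hb with hb | hb
      · obtain ⟨y, rfl⟩ := mem_SL.1 hb
        exact BD_mono (by omega) (FD_decd l m d G hG y r)
      · exact badL_legal l (rho l m r) G (fun g hg => (hG g hg).1) hD b (hM'.subset hb)
  · intro e he
    rw [badL, List.mem_flatMap] at he
    obtain ⟨g, hg, he⟩ := he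
    obtain ⟨u, hu, rfl⟩ := List.mem_map.1 he
    rw [List.mem_range] at hu
    obtain ⟨j, hj, rfl⟩ := List.mem_iff_getElem.1 hg
    refine ⟨(List.finRange l).map fun s => fun x => decide (decd l m G x
      ((⟨j, hj⟩, ⟨u, hu⟩, s), Fin.removeNth (pos l m G ⟨j, hj⟩ s) r) = r), by simpa using hw,
      ?_, ?_⟩
    · intro b hb
      obtain ⟨s, _, rfl⟩ := List.mem_map.1 hb
      exact mem_SL.2 ⟨_, rfl⟩
    · intro x hx
      obtain ⟨s, hs⟩ := bad_coded l m d hm G hG r ⟨j, hj⟩ ⟨u, hu⟩ x hx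
      refine ⟨_, List.mem_map.2 ⟨s, List.mem_finRange s, rfl⟩, ?_⟩
      simpa using hs

end Pool.Agent.Work.MP_c04246_lc.Q
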