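import Mathlib
import Pool.Agent.Work.MP_c04246_lc.Q.Comp

set_option autoImplicit false
set_option linter.unusedSectionVars false

/-! The semantic refutation. -/

namespace Pool.Agent.Work.MP_c04246_lc.Q

open Fml

variable {p : ℕ} [Fact p.Prime] {n : ℕ} {K : Type} [Field K] [Fintype K] [DecidableEq K]
  [Algebra (ZMod p) K]

theorem asm (K : Type) [Field K] [Fintype K] [DecidableEq K] [Algebra (ZMod p) K]
    (l m : ℕ) (hl : 1 ≤ l) (G : List (Bool × Fml p (Fin n))) {d w W D κ k : ℕ}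
    (hm : m + 1 = (d + 1) * l) (F : Set (List (Fin n × Bool))) (π : List (Fml p (Fin n)))
    (hder : IsDer κ {φ | ∃ C ∈ F, φ = clF C} π) (hbot : (.cst false : Fml p (Fin n)) ∈ π)
    (hd : ∀ φ ∈ π, depth φ ≤ d) (hsz : ∀ φ ∈ π, Fml.size φ ≤ 2 ^ l)
    (hG1 : ∀ φ ∈ π, ∀ c a b, .bin c a b ∈ subs φ → (c, .bin c a b) ∈ G)
    (hG2 : ∀ g ∈ G, ∃ φ ∈ π, ∃ a b, g.2 = .bin g.1 a b ∧ g.2 ∈ subs φ)
    (hw : 7 ≤ w) (hwl : l ≤ w) (hκ : 2 * κ ≤ w)
    (hD1 : 3 * MM p K ^ d ≤ D) (hD2 : 2 * k ^ 2 * (2 * MM p K ^ d) ≤ D)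
    (hW1 : (G.length + 1) * 2 ^ l + 2 ≤ W) (hW2 : 3 * 2 ^ k + 2 ≤ W)
    (hW3 : 2 ^ k + G.length * 2 ^ l ≤ W)
    (hk : Fintype.card (YY p n K l m G) ≤ 2 ^ k)
    (hR : 2 * (G.length * 2 ^ l * l) ≤ Fintype.card K) :
    Drv w (LgA (BD p D) W) {L | ∃ C ∈ F, L = litL C}
      (Fintype.card K ^ (m + 1) * ((G.length * (3 * 2 ^ (l + 1) + 1) + π.length * (2 ^ l + 1) + 1) +
        (G.length * 2 ^ l + 1)) + 2 ^ ((k + 4) ^ 2)) {[]} := by
  classical
  have hGG : ∀ g ∈ G, dpt none g.2 ≤ d ∧ ∃ a b, g.2 = .bin g.1 a b := by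
    intro g hg
    obtain ⟨φ, hφ, a, b, e, hs⟩ := hG2 g hg
    exact ⟨(dpt_subs hs).trans (hd φ hφ), a, b, e⟩
  have hK1 : 1 ≤ Fintype.card K ^ (m + 1) := Nat.one_le_pow _ _ Fintype.card_pos
  have hseed : ∀ r : Fin (m + 1) → K, Drv w (LgA (BD p D) W) {L | ∃ C ∈ F, L = litL C}
      (G.length * (3 * 2 ^ (l + 1) + 1) + π.length * (2 ^ l + 1) + 1) {badL l (rho l m r) G} :=
    fun r => seed_line l (rho l m r) G F π hder hbot hd hsz hG1 hG2 hw hκ hD1 hW1
  by_cases hG0 : G.length = 0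
  · have e : badL l (rho l m (fun _ => 0 : Fin (m + 1) → K)) G = [] := by
      rw [List.length_eq_zero_iff.1 hG0]; rfl
    have h1 := hseed fun _ => 0
    rw [e] at h1
    refine h1.mono subset_rfl ?_ subset_rfl
    generalize G.length * (3 * 2 ^ (l + 1) + 1) + π.length * (2 ^ l + 1) + 1 = a
    generalize G.length * 2 ^ l + 1 = b
    calc a ≤ 1 * (a + b) := by omega
      _ ≤ Fintype.card K ^ (m + 1) * (a + b) := Nat.mul_le_mul_right _ hK1
      _ ≤ _ := Nat.le_add_right _ _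
  · have hY : Fintype.card (YY p n K l m G) = G.length * 2 ^ l * l * Fintype.card K ^ m := by
      simp only [Fintype.card_prod, Fintype.card_fin, Fintype.card_fun]
      ring
    have h1 : ∀ r : Fin (m + 1) → K, Drv w (LgA (BD p D) W) {L | ∃ C ∈ F, L = litL C}
        ((G.length * (3 * 2 ^ (l + 1) + 1) + π.length * (2 ^ l + 1) + 1) +
        (G.length * 2 ^ l + 1)) {SL (fun x (y : YY p n K l m G) => decd l m G x y) r} := fun r =>
      (hseed r).comp (coded_line l m d hm G hGG r hwl (by omega) hD1 (Or.inr rfl) (by omega))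
    have h2 := Drv.famT _ h1
    rw [Fintype.card_fun, Fintype.card_fin] at h2
    have hKm : 1 ≤ Fintype.card K ^ m := Nat.one_le_pow _ _ Fintype.card_pos
    refine h2.comp (wphp (Y := YY p n K l m G) (R := Fin (m + 1) → K)
      (fun x y => decd l m G x y) (FD_decd l m d G hGG) (by omega) ?_ ?_ hk hD2 hW2 _
      Set.subset_union_right)
    · rw [hY, Fintype.card_fun, Fintype.card_fin, pow_succ]
      calc 2 * (G.length * 2 ^ l * l * Fintype.card K ^ m)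
          = Fintype.card K ^ m * (2 * (G.length * 2 ^ l * l)) := by ring
        _ ≤ _ := Nat.mul_le_mul_left _ hR
    · rw [hY]
      have h3 : 2 ≤ 2 ^ l := by
        calc 2 = 2 ^ 1 := by norm_num
          _ ≤ 2 ^ l := Nat.pow_le_pow_right (by norm_num) hl
      calc 2 = 1 * 2 * 1 * 1 := by norm_num
        _ ≤ G.length * 2 ^ l * l * Fintype.card K ^ m :=
          Nat.mul_le_mul (Nat.mul_le_mul (Nat.mul_le_mul (by omega) h3) hl) hKm

end Pool.Agent.Work.MP_c04246_lc.Q
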