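import Mathlib
import Pool.Agent.Work.MP_c04246_lc.Q.Base

set_option autoImplicit false

/-! Resolution over polynomials. -/

namespace Pool.Agent.Work.MP_c04246_lc.Q

/-- One inference of resolution over polynomials, with premises from `A`. Polynomials are identified
with the functions on `{0,1}^n` given by them; a line `f_1, ..., f_k` is the disjunction of
`f_1 = 0`, ..., `f_k = 0`. -/
inductive Inf (p : ℕ) [Fact p.Prime] {n : ℕ} (D : ℕ) (A : Set (List ((Fin n → Bool) → ZMod p))) :
    List ((Fin n → Bool) → ZMod p) → Prop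
  | ax : Inf p D A [0]
  | weak (L B : List ((Fin n → Bool) → ZMod p)) : L ∈ A → (∀ f ∈ L, f ∈ B) → Inf p D A B
  | add (f g : (Fin n → Bool) → ZMod p) (L : List ((Fin n → Bool) → ZMod p)) :
      f :: L ∈ A → g :: L ∈ A → Inf p D A ((f + g) :: L)
  | mul (f g : (Fin n → Bool) → ZMod p) (L : List ((Fin n → Bool) → ZMod p)) :
      f :: L ∈ A → g ∈ Dg p n D → Inf p D A ((f * g) :: L)
  | split (f g : (Fin n → Bool) → ZMod p) (L : List ((Fin n → Bool) → ZMod p)) :
      (f * g) :: L ∈ A → Inf p D A (f :: g :: L)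
  | unit (L : List ((Fin n → Bool) → ZMod p)) : 1 :: L ∈ A → Inf p D A L

/-- the polynomial which vanishes iff the variable `t.1` has the value `t.2` -/
def litP (p : ℕ) {n : ℕ} (t : Fin n × Bool) : (Fin n → Bool) → ZMod p :=
  fun x => if x t.1 = t.2 then 0 else 1

/-- Every member of `σ` is a list of polynomials of degree at most `D` which follows from clauses of
`F` and earlier members by one inference. -/
def IsRes (p : ℕ) [Fact p.Prime] {n : ℕ} (D : ℕ) (F : Set (List (Fin n × Bool)))
    (σ : List (List ((Fin n → Bool) → ZMod p))) : Prop :=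
  ∀ i : Fin σ.length, (∀ f ∈ σ.get i, f ∈ Dg p n D) ∧
    Inf p D ({L | ∃ C ∈ F, L = C.map (litP p)} ∪ {L | ∃ j < i, σ.get j = L}) (σ.get i)

end Pool.Agent.Work.MP_c04246_lc.Q
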