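import Mathlib
import Pool.Agent.Work.MP_c04246_lc.Q.SDefs
import Pool.Agent.Work.MP_c04246_lc.Q.Asm

set_option autoImplicit false
set_option linter.unusedSectionVars false

/-! From semantic inferences to the rules of resolution over polynomials. -/

namespace Pool.Agent.Work.MP_c04246_lc.Q

variable {p : ℕ} [Fact p.Prime] {n : ℕ}

/-- Any Boolean function of some Boolean functions of low degree has low degree. -/
theorem BD_of_atoms {D : ℕ} (E : List ((Fin n → Bool) → Bool)) (hE : ∀ e ∈ E, BD p D e)
    (b : (Fin n → Bool) → Bool) (hb : ∀ x y, (∀ e ∈ E, e x = e y) → b x = b y) :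
    BD p (E.length * D) b := by
  classical
  have h := BD_list E hE (fun v => if hv : ∃ x, (E.map fun e => e x) = v then b hv.choose else false)
  have e1 : (fun x => (fun v => if hv : ∃ x, (E.map fun e => e x) = v then b hv.choose else false)
      (E.map fun e => e x)) = b := by
    funext x
    have hv : ∃ y, (E.map fun e => e y) = E.map fun e => e x := ⟨x, rfl⟩
    simp only
    rw [dif_pos hv]
    apply hb
    have h1 := hv.choose_spec
    intro e he
    obtain ⟨j, hj, rfl⟩ := List.mem_iff_getElem.1 he
    have h2 := congrArg (fun l : List Bool => l[j]?) h1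
    simpa [hj] using h2
  rw [e1] at h
  exact h

/-- derivations with the rules of resolution over polynomials, latest line first -/
inductive SD (p : ℕ) [Fact p.Prime] {n : ℕ} (D W : ℕ) (A : Set (List ((Fin n → Bool) → ZMod p))) :
    List (List ((Fin n → Bool) → ZMod p)) → Prop
  | nil : SD p D W A []
  | cons (B : List ((Fin n → Bool) → ZMod p)) (π : List (List ((Fin n → Bool) → ZMod p))) :
      SD p D W A π → Inf p D (A ∪ {L | L ∈ π}) B → B.length ≤ W → (∀ f ∈ B, f ∈ Dg p n D) →
      SD p D W A (B :: π)

theorem Inf.mono {D : ℕ} {A A' : Set (List ((Fin n → Bool) → ZMod p))}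
    {B : List ((Fin n → Bool) → ZMod p)} (h : Inf p D A B) (hA : A ⊆ A') : Inf p D A' B := by
  cases h with
  | ax => exact Inf.ax
  | weak L _ h1 h2 => exact Inf.weak L B (hA h1) h2
  | add f g L h1 h2 => exact Inf.add f g L (hA h1) (hA h2)
  | mul f g L h1 h2 => exact Inf.mul f g L (hA h1) h2
  | split f g L h1 => exact Inf.split f g L (hA h1)
  | unit _ h1 => exact Inf.unit B (hA h1)

/-- `N` steps suffice to get `C` from `A` -/
def SDr (p : ℕ) [Fact p.Prime] {n : ℕ} (D W : ℕ) (A : Set (List ((Fin n → Bool) → ZMod p)))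
    (N : ℕ) (C : Set (List ((Fin n → Bool) → ZMod p))) : Prop :=
  ∃ π, SD p D W A π ∧ π.length ≤ N ∧ ∀ L ∈ C, L ∈ π

variable {D W : ℕ} {A A' C C' : Set (List ((Fin n → Bool) → ZMod p))}

theorem SD.mono {π : List (List ((Fin n → Bool) → ZMod p))} (h : SD p D W A π) (hA : A ⊆ A') :
    SD p D W A' π := by
  induction h with
  | nil => exact SD.nil
  | cons B π _ hs h1 h2 ih =>
    exact SD.cons B π ih (hs.mono (Set.union_subset_union_left _ hA)) h1 h2

theorem SD.append {π π' : List (List ((Fin n → Bool) → ZMod p))} (h : SD p D W A π)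
    (hC : ∀ L ∈ C, L ∈ π) (h' : SD p D W (A ∪ C) π') : SD p D W A (π' ++ π) := by
  induction h' with
  | nil => exact h
  | cons B π' _ hs h1 h2 ih =>
    refine SD.cons B (π' ++ π) ih (hs.mono ?_) h1 h2
    rintro L ((hL | hL) | hL)
    · exact Or.inl hL
    · exact Or.inr (List.mem_append_right _ (hC L hL))
    · exact Or.inr (List.mem_append_left _ hL)

theorem SDr.mono {N N' : ℕ} (h : SDr p D W A N C) (hA : A ⊆ A') (hN : N ≤ N') (hC : C' ⊆ C) :
    SDr p D W A' N' C' := by
  obtain ⟨π, h1, h2, h3⟩ := h
  exact ⟨π, h1.mono hA, h2.trans hN, fun L hL => h3 L (hC hL)⟩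

theorem SDr.nil : SDr p D W A 0 ∅ := ⟨[], SD.nil, by simp, by simp⟩

theorem SDr.trans {N N' : ℕ} (h : SDr p D W A N C) (h' : SDr p D W (A ∪ C) N' C') :
    SDr p D W A (N + N') (C ∪ C') := by
  obtain ⟨π, h1, h2, h3⟩ := h
  obtain ⟨π', h1', h2', h3'⟩ := h'
  refine ⟨π' ++ π, h1.append h3 h1', by rw [List.length_append]; omega, ?_⟩
  rintro L (hL | hL)
  · exact List.mem_append_right _ (h3 L hL)
  · exact List.mem_append_left _ (h3' L hL)

theorem SDr.comp {N N' : ℕ} (h : SDr p D W A N C) (h' : SDr p D W (A ∪ C) N' C') :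
    SDr p D W A (N + N') C' :=
  (h.trans h').mono subset_rfl le_rfl Set.subset_union_right

theorem SDr.step {B : List ((Fin n → Bool) → ZMod p)} (h : Inf p D A B) (h1 : B.length ≤ W)
    (h2 : ∀ f ∈ B, f ∈ Dg p n D) : SDr p D W A 1 {B} :=
  ⟨[B], SD.cons B [] SD.nil (h.mono Set.subset_union_left) h1 h2, by simp, by simp⟩

/-- the polynomial which vanishes iff the Boolean function is true -/
def pe (p : ℕ) [Fact p.Prime] {n : ℕ} (b : (Fin n → Bool) → Bool) : (Fin n → Bool) → ZMod p :=
  fun x => if b x then 0 else 1

theorem pe_mem {b : (Fin n → Bool) → Bool} (h : BD p D b) : pe p b ∈ Dg p n D := by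
  have : pe p b = 1 - ind p b := by
    ext x
    by_cases hb : b x <;> simp [pe, ind, hb]
  rw [this]
  exact Submodule.sub_mem _ (one_mem_Dg D) h

/-- the line of the polynomials -/
def pl (p : ℕ) [Fact p.Prime] {n : ℕ} (L : List ((Fin n → Bool) → Bool)) :
    List ((Fin n → Bool) → ZMod p) := L.map (pe p)

/-- members of the first list can be merged into one polynomial -/
theorem merge (M : List ((Fin n → Bool) → Bool)) (Γ : List ((Fin n → Bool) → ZMod p))
    (F : (Fin n → Bool) → ZMod p) (hF : F ∈ Dg p n D) (hFm : ∀ e ∈ M, pe p e * F = F)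
    (hM : ∀ e ∈ M, pe p e ∈ Dg p n D) (hΓ : ∀ f ∈ Γ, f ∈ Dg p n D)
    (hW : M.length + Γ.length + 1 ≤ W) :
    SDr p D W (A ∪ {pl p M ++ F :: Γ}) (2 * M.length + 1) {F :: Γ} := by
  induction M generalizing A with
  | nil =>
    refine (SDr.step (Inf.weak (pl p [] ++ F :: Γ) _ (Or.inr rfl) (by simp [pl]))
      (by simpa using hW) ?_).mono subset_rfl (by simp) subset_rfl
    intro f hf
    rw [List.mem_cons] at hf
    rcases hf with rfl | hf
    · exact hF
    · exact hΓ f hf
  | cons e M ih =>
    have ih := ih (A := A ∪ {pl p (e :: M) ++ F :: Γ}) (fun e he => hFm e (by simp [he]))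
      (fun e he => hM e (by simp [he]))
      (by simp only [List.length_cons] at hW; omega)
    simp only [List.length_cons] at hW
    have hall : ∀ f ∈ pl p M ++ F :: Γ, f ∈ Dg p n D := by
      intro f hf
      rw [List.mem_append, List.mem_cons] at hf
      rcases hf with hf | rfl | hf
      · simp only [pl, List.mem_map] at hf
        obtain ⟨e', he', rfl⟩ := hf
        exact hM e' (by simp [he'])
      · exact hF
      · exact hΓ f hf
    have h1 : SDr p D W (A ∪ {pl p (e :: M) ++ F :: Γ}) 1 {F :: (pl p M ++ F :: Γ)} := by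
      have := Inf.mul (p := p) (D := D) (A := A ∪ {pl p (e :: M) ++ F :: Γ}) (pe p e) F
        (pl p M ++ F :: Γ) (Or.inr rfl) hF
      rw [hFm e (by simp)] at this
      refine SDr.step this ?_ ?_
      · simp only [List.length_cons, List.length_append, pl, List.length_map]
        omega
      · intro f hf
        rw [List.mem_cons] at hf
        rcases hf with rfl | hf
        · exact hF
        · exact hall f hf
    have h2 : SDr p D W ((A ∪ {pl p (e :: M) ++ F :: Γ}) ∪ {F :: (pl p M ++ F :: Γ)}) 1
        {pl p M ++ F :: Γ} := by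
      refine SDr.step (Inf.weak _ _ (Or.inr rfl) ?_) ?_ hall
      · intro f hf
        simp only [List.mem_cons, List.mem_append] at hf ⊢
        tauto
      · simp only [List.length_cons, List.length_append, pl, List.length_map]
        omega
    refine ((h1.comp h2).comp ih).mono subset_rfl ?_ subset_rfl
    simp only [List.length_cons]
    omega

open Classical in
/-- a semantic inference by the rules -/
theorem Stp.syn {w : ℕ} {A : Set (List ((Fin n → Bool) → Bool))}
    {B : List ((Fin n → Bool) → Bool)} (h : Stp w A B) (hA : ∀ L ∈ A, ∀ e ∈ L, BD p D e)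
    (hB : ∀ e ∈ B, BD p D e) (hW : B.length ≤ W) :
    SDr p (w * D + D) (W + w + 2) (pl p '' A) (2 * (w + 2) ^ 2) {pl p B} := by
  obtain ⟨P, E, B0, h1, h2, h3, h4, h5, h6, h7⟩ := h
  -- discard the members of `E` which do not occur in premises
  set E' := E.filter (fun e => ∃ L ∈ P, e ∈ L) with hE'
  have hE'l : E'.length ≤ w := (List.length_filter_le _ _).trans h3
  have hE'd : ∀ e ∈ E', BD p D e := by
    intro e he
    rw [hE', List.mem_filter] at he
    obtain ⟨L, hL, heL⟩ := of_decide_eq_true he.2
    exact hA L (h2 L hL) e heL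
  have hdeg : ∀ b : (Fin n → Bool) → Bool, (∀ x y, (∀ e ∈ E', e x = e y) → b x = b y) →
      BD p (w * D + D) b := fun b hb =>
    BD_mono ((Nat.mul_le_mul_right D hE'l).trans (Nat.le_add_right _ _)) (BD_of_atoms E' hE'd b hb)
  have hDD : D ≤ w * D + D := Nat.le_add_left _ _
  have hBp : ∀ f ∈ pl p B, f ∈ Dg p n (w * D + D) := by
    intro f hf
    simp only [pl, List.mem_map] at hf
    obtain ⟨e, he, rfl⟩ := hf
    exact Dg_mono hDD (pe_mem (hB e he))
  -- the merged premise
  let al : List ((Fin n → Bool) → Bool) → (Fin n → Bool) → Bool := fun L x =>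
    decide (∃ e ∈ L, e ∈ E ∧ e x = true)
  have hal : ∀ L ∈ P, ∀ x y, (∀ e ∈ E', e x = e y) → al L x = al L y := by
    intro L hL x y hxy
    simp only [al, decide_eq_decide]
    constructor
    · rintro ⟨e, he, he2, hx⟩
      refine ⟨e, he, he2, ?_⟩
      rw [← hxy e (by rw [hE', List.mem_filter]; exact ⟨he2, by simpa using ⟨L, hL, he⟩⟩)]
      exact hx
    · rintro ⟨e, he, he2, hx⟩
      refine ⟨e, he, he2, ?_⟩
      rw [hxy e (by rw [hE', List.mem_filter]; exact ⟨he2, by simpa using ⟨L, hL, he⟩⟩)]
      exact hx
  have s1 : ∀ L ∈ P, SDr p (w * D + D) (W + w + 2) (pl p '' A) (2 * w + 2)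
      {pe p (al L) :: pl p B} := by
    intro L hL
    set M := E.filter (fun e => e ∈ L) with hM
    have hMl : M.length ≤ w := (List.length_filter_le _ _).trans h3
    have hF : pe p (al L) ∈ Dg p n (w * D + D) := pe_mem (hdeg _ (hal L hL))
    have hMd : ∀ e ∈ M, pe p e ∈ Dg p n (w * D + D) := by
      intro e he
      rw [hM, List.mem_filter] at he
      exact Dg_mono hDD (pe_mem (hA L (h2 L hL) e (by simpa using he.2)))
    have t1 : SDr p (w * D + D) (W + w + 2) (pl p '' A) 1
        {pl p M ++ pe p (al L) :: pl p B} := by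
      refine SDr.step (Inf.weak (pl p L) _ ⟨L, h2 L hL, rfl⟩ ?_) ?_ ?_
      · intro f hf
        simp only [pl, List.mem_map] at hf
        obtain ⟨e, he, rfl⟩ := hf
        rw [List.mem_append, List.mem_cons]
        rcases h6 L hL e he with heB | heE
        · right; right
          exact List.mem_map.2 ⟨e, heB, rfl⟩
        · left
          refine List.mem_map.2 ⟨e, ?_, rfl⟩
          rw [hM, List.mem_filter]
          exact ⟨heE, by simpa using he⟩
      · simp only [List.length_append, pl, List.length_map, List.length_cons]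
        omega
      · intro f hf
        rw [List.mem_append, List.mem_cons] at hf
        rcases hf with hf | rfl | hf
        · simp only [pl, List.mem_map] at hf
          obtain ⟨e, he, rfl⟩ := hf
          exact hMd e he
        · exact hF
        · exact hBp f hf
    have t2 := merge (D := w * D + D) (W := W + w + 2) (A := pl p '' A) M (pl p B) (pe p (al L))
      hF (by
        intro e he
        rw [hM, List.mem_filter] at he
        have he2 : e ∈ L := by simpa using he.2
        ext x
        simp only [Pi.mul_apply, pe]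
        by_cases hx : e x = true
        · have : al L x = true := by
            simp only [al, decide_eq_true_eq]
            exact ⟨e, he2, he.1, hx⟩
          simp [this]
        · simp [hx]) hMd hBp (by simp only [pl, List.length_map]; omega)
    exact (t1.comp t2).mono subset_rfl (by omega) subset_rfl
  -- conjunction of the merged premises
  let be : List (List ((Fin n → Bool) → Bool)) → (Fin n → Bool) → Bool := fun Q x =>
    decide (∀ L ∈ Q, al L x = true)
  have hbe : ∀ Q, (∀ L ∈ Q, L ∈ P) → pe p (be Q) ∈ Dg p n (w * D + D) := by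
    intro Q hQ
    refine pe_mem (hdeg _ ?_)
    intro x y hxy
    simp only [be, decide_eq_decide]
    constructor
    · intro h L hL
      rw [← hal L (hQ L hL) x y hxy]
      exact h L hL
    · intro h L hL
      rw [hal L (hQ L hL) x y hxy]
      exact h L hL
  have hlen1 : ∀ f : (Fin n → Bool) → ZMod p, (f :: pl p B).length ≤ W + w + 2 := by
    intro f
    simp only [pl, List.length_map, List.length_cons]
    omega
  have hmem1 : ∀ f : (Fin n → Bool) → ZMod p, f ∈ Dg p n (w * D + D) →
      ∀ g ∈ f :: pl p B, g ∈ Dg p n (w * D + D) := by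
    intro f hf g hg
    rw [List.mem_cons] at hg
    rcases hg with rfl | hg
    · exact hf
    · exact hBp g hg
  have s2 : ∀ Q : List (List ((Fin n → Bool) → Bool)), (∀ L ∈ Q, L ∈ P) →
      SDr p (w * D + D) (W + w + 2) (pl p '' A) (2 + Q.length * (2 * w + 4))
        {pe p (be Q) :: pl p B} := by
    intro Q
    induction Q with
    | nil =>
      intro hQ
      have e0 : pe p (be []) = (0 : (Fin n → Bool) → ZMod p) := by
        ext x; simp [pe, be]
      rw [e0]
      have z0 : (0 : (Fin n → Bool) → ZMod p) ∈ Dg p n (w * D + D) := Submodule.zero_mem _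
      have t1 : SDr p (w * D + D) (W + w + 2) (pl p '' A) 1
          {[(0 : (Fin n → Bool) → ZMod p)]} :=
        SDr.step Inf.ax (by simp) (by intro f hf; rw [List.mem_singleton] at hf; rw [hf]; exact z0)
      have t2 : SDr p (w * D + D) (W + w + 2)
          (pl p '' A ∪ {[(0 : (Fin n → Bool) → ZMod p)]}) 1
          {(0 : (Fin n → Bool) → ZMod p) :: pl p B} :=
        SDr.step (Inf.weak [0] _ (Or.inr rfl) (by simp)) (hlen1 0) (hmem1 0 z0)
      exact (t1.comp t2).mono subset_rfl (by simp) subset_rfl
    | cons L Q ih =>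
      intro hQ
      have ih := ih fun L hL => hQ L (by simp [hL])
      have hLP := hQ L (by simp)
      have u1 := s1 L hLP
      have hb1 := hbe Q fun L hL => hQ L (by simp [hL])
      have hb2 := hbe (L :: Q) hQ
      have hal1 : pe p (al L) ∈ Dg p n (w * D + D) := pe_mem (hdeg _ (hal L hLP))
      have e1 : pe p (be (L :: Q)) = pe p (be Q) + pe p (al L) * (1 - pe p (be Q)) := by
        ext x
        have : be (L :: Q) x = (al L x && be Q x) := by
          simp only [be, List.mem_cons, forall_eq_or_imp]
          rw [Bool.eq_iff_iff]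
          simp
        simp only [pe, Pi.add_apply, Pi.mul_apply, Pi.sub_apply, Pi.one_apply, this]
        by_cases ha : al L x = true <;> by_cases hb : be Q x = true <;> simp [ha, hb]
      have hpr : pe p (al L) * (1 - pe p (be Q)) ∈ Dg p n (w * D + D) := by
        have : pe p (al L) * (1 - pe p (be Q)) = pe p (be (L :: Q)) - pe p (be Q) := by
          rw [e1]; ring
        rw [this]
        exact Submodule.sub_mem _ hb2 hb1
      have t1 : SDr p (w * D + D) (W + w + 2)
          (pl p '' A ∪ {pe p (al L) :: pl p B}) 1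
          {(pe p (al L) * (1 - pe p (be Q))) :: pl p B} :=
        SDr.step (Inf.mul _ _ _ (Or.inr rfl) (Submodule.sub_mem _ (one_mem_Dg _) hb1)) (hlen1 _)
          (hmem1 _ hpr)
      have t2 : SDr p (w * D + D) (W + w + 2)
          ((pl p '' A ∪ {(pe p (al L) * (1 - pe p (be Q))) :: pl p B}) ∪
            {pe p (be Q) :: pl p B}) 1 {pe p (be (L :: Q)) :: pl p B} := by
        rw [e1]
        refine SDr.step (Inf.add _ _ _ (Or.inr rfl) (Or.inl (Or.inr rfl))) (hlen1 _)
          (hmem1 _ ?_)
        rw [← e1]
        exact hb2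
      have t3 := (u1.comp t1).comp ((ih.mono Set.subset_union_left le_rfl subset_rfl).comp t2)
      refine t3.mono subset_rfl ?_ subset_rfl
      simp only [List.length_cons]
      ring_nf
      omega
  -- the conclusion as one polynomial
  let ga : List ((Fin n → Bool) → Bool) → (Fin n → Bool) → Bool := fun Q x =>
    decide (∃ b ∈ Q, b x = true)
  have hga : ∀ Q : List ((Fin n → Bool) → Bool), Q <:+ B0 → pe p (ga Q) ∈ Dg p n (w * D + D) := by
    intro Q hQ
    refine pe_mem (BD_mono ?_ (BD_of_atoms Q (fun e he => hB e (h5 e (hQ.subset he))) (ga Q) ?_))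
    · exact (Nat.mul_le_mul_right D (hQ.length_le.trans h4)).trans (Nat.le_add_right _ _)
    · intro x y hxy
      simp only [ga, decide_eq_decide]
      constructor
      · rintro ⟨e, he, hx⟩; exact ⟨e, he, by rw [← hxy e he]; exact hx⟩
      · rintro ⟨e, he, hx⟩; exact ⟨e, he, by rw [hxy e he]; exact hx⟩
  have s3 : SDr p (w * D + D) (W + w + 2) (pl p '' A ∪ {pe p (be P) :: pl p B}) 1
      {pe p (ga B0) :: pl p B} := by
    have := Inf.mul (p := p) (D := w * D + D) (A := pl p '' A ∪ {pe p (be P) :: pl p B})
      (pe p (be P)) (pe p (ga B0)) (pl p B) (Or.inr rfl) (hga B0 (List.suffix_refl _))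
    have e1 : pe p (be P) * pe p (ga B0) = pe p (ga B0) := by
      ext x
      simp only [Pi.mul_apply, pe]
      by_cases hx : be P x = true
      · have : ga B0 x = true := by
          simp only [be, al, decide_eq_true_eq] at hx
          simp only [ga, decide_eq_true_eq]
          exact h7 x hx
        simp [this]
      · simp [hx]
    rw [e1] at this
    exact SDr.step this (hlen1 _) (hmem1 _ (hga B0 (List.suffix_refl _)))
  have s4 : ∀ Q : List ((Fin n → Bool) → Bool), Q <:+ B0 →
      ∀ A' : Set (List ((Fin n → Bool) → ZMod p)), pe p (ga Q) :: pl p B ∈ A' →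
      SDr p (w * D + D) (W + w + 2) A' (2 * Q.length + 1) {pl p B} := by
    intro Q
    induction Q with
    | nil =>
      intro _ A' hA'
      have e1 : pe p (ga []) = (1 : (Fin n → Bool) → ZMod p) := by
        ext x; simp [pe, ga]
      rw [e1] at hA'
      refine (SDr.step (Inf.unit _ hA') ?_ hBp).mono subset_rfl (by simp) subset_rfl
      simp only [pl, List.length_map]
      omega
    | cons b Q ih =>
      intro hQ A' hA'
      have hQ' : Q <:+ B0 := (List.suffix_cons b Q).trans hQ
      have hbB : b ∈ B := h5 b (hQ.subset (by simp))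
      have hbp : pe p b ∈ pl p B := List.mem_map.2 ⟨b, hbB, rfl⟩
      have e1 : pe p (ga (b :: Q)) = pe p b * pe p (ga Q) := by
        ext x
        have : ga (b :: Q) x = (b x || ga Q x) := by
          simp only [ga, List.mem_cons, exists_eq_or_imp]
          rw [Bool.eq_iff_iff]
          simp
        simp only [pe, Pi.mul_apply, this]
        by_cases ha : b x = true <;> by_cases hb : ga Q x = true <;> simp [ha, hb]
      rw [e1] at hA'
      have t1 : SDr p (w * D + D) (W + w + 2) A' 1 {pe p b :: pe p (ga Q) :: pl p B} := by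
        refine SDr.step (Inf.split _ _ _ hA') ?_ ?_
        · simp only [pl, List.length_map, List.length_cons]
          omega
        · intro f hf
          rw [List.mem_cons] at hf
          rcases hf with rfl | hf
          · exact hBp _ hbp
          · exact hmem1 _ (hga Q hQ') f hf
      have t2 : SDr p (w * D + D) (W + w + 2) (A' ∪ {pe p b :: pe p (ga Q) :: pl p B}) 1
          {pe p (ga Q) :: pl p B} := by
        refine SDr.step (Inf.weak _ _ (Or.inr rfl) ?_) (hlen1 _) (hmem1 _ (hga Q hQ'))
        intro f hf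
        simp only [List.mem_cons] at hf ⊢
        rcases hf with rfl | rfl | hf
        · exact Or.inr hbp
        · exact Or.inl rfl
        · exact Or.inr hf
      have t3 := ih hQ' ((A' ∪ {pe p b :: pe p (ga Q) :: pl p B}) ∪ {pe p (ga Q) :: pl p B})
        (Or.inr rfl)
      have t4 := t1.comp (t2.comp t3)
      refine t4.mono subset_rfl ?_ subset_rfl
      simp only [List.length_cons]
      omega
  have s5 := (s2 P fun L hL => hL).comp (s3.comp (s4 B0 (List.suffix_refl _) _ (Or.inr rfl)))
  refine s5.mono subset_rfl ?_ subset_rfl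
  have : P.length * (2 * w + 4) ≤ w * (2 * w + 4) := Nat.mul_le_mul_right _ h1
  nlinarith

/-- all semantic derivations by the rules -/
theorem Ded.syn {w : ℕ} {A : Set (List ((Fin n → Bool) → Bool))}
    (hA : ∀ L ∈ A, ∀ e ∈ L, BD p D e) {π : List (List ((Fin n → Bool) → Bool))}
    (h : Ded w (LgA (BD p D) W) A π) :
    SDr p (w * D + D) (W + w + 2) (pl p '' A) (π.length * (2 * (w + 2) ^ 2))
      (pl p '' {L | L ∈ π}) ∧ ∀ L ∈ π, ∀ e ∈ L, BD p D e := by
  induction h with
  | nil => exact ⟨SDr.nil.mono subset_rfl (by simp) (by simp), by simp⟩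
  | cons B π _ hs hB ih =>
    obtain ⟨ih1, ih2⟩ := ih
    have h1 := hs.syn (D := D) (W := W) (p := p) (by
      rintro L (hL | hL) e he
      · exact hA L hL e he
      · exact ih2 L hL e he) hB.2 hB.1
    rw [Set.image_union] at h1
    refine ⟨(ih1.trans h1).mono subset_rfl ?_ ?_, ?_⟩
    · rw [List.length_cons]; ring_nf; omega
    · rintro L ⟨L', hL', rfl⟩
      rcases List.mem_cons.1 hL' with rfl | hL'
      · exact Or.inr rfl
      · exact Or.inl ⟨L', hL', rfl⟩
    · intro L hL e he
      rcases List.mem_cons.1 hL with rfl | hL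
      · exact hB.2 e he
      · exact ih2 L hL e he

end Pool.Agent.Work.MP_c04246_lc.Q
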