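import Mathlib
import Pool.Agent.Work.MP_c04246_lc.Q.Syn

set_option autoImplicit false
set_option linter.unusedSectionVars false

/-! The collapse theorem. -/

namespace Pool.Agent.Work.MP_c04246_lc.Q

open Fml

section blocks

variable {p : ℕ} {n : ℕ}

/-- a block together with its connective -/
def toB : Fml p (Fin n) → Option (Bool × Fml p (Fin n))
  | .bin c a b => some (c, .bin c a b)
  | _ => none

/-- all blocks occurring in the lines -/
noncomputable def blocks (π : List (Fml p (Fin n))) : List (Bool × Fml p (Fin n)) :=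
  (π.flatMap fun φ => (subs φ).toList).filterMap toB

theorem length_blocks (π : List (Fml p (Fin n))) :
    (blocks π).length ≤ (π.map Fml.size).sum := by
  refine (List.length_filterMap_le _ _).trans ?_
  rw [List.length_flatMap]
  induction π with
  | nil => simp
  | cons φ π ih =>
    simp only [List.map_cons, List.sum_cons, Finset.length_toList] at ih ⊢
    exact Nat.add_le_add (card_subs_le φ) ih

theorem blocks1 (π : List (Fml p (Fin n))) : ∀ φ ∈ π, ∀ c a b, .bin c a b ∈ subs φ →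
    (c, (.bin c a b : Fml p (Fin n))) ∈ blocks π := by
  intro φ hφ c a b h
  rw [blocks, List.mem_filterMap]
  exact ⟨.bin c a b, List.mem_flatMap.2 ⟨φ, hφ, by simpa using h⟩, rfl⟩

theorem blocks2 (π : List (Fml p (Fin n))) : ∀ g ∈ blocks π, ∃ φ ∈ π, ∃ a b,
    g.2 = .bin g.1 a b ∧ g.2 ∈ subs φ := by
  intro g hg
  rw [blocks, List.mem_filterMap] at hg
  obtain ⟨χ, hχ, e⟩ := hg
  obtain ⟨φ, hφ, h⟩ := List.mem_flatMap.1 hχ
  cases χ with
  | bin c a b =>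
    simp only [toB, Option.some.injEq] at e
    subst e
    exact ⟨φ, hφ, a, b, rfl, by simpa using h⟩
  | _ => simp [toB] at e

end blocks

/-- from the reversed list to `IsRes` -/
theorem SD.isRes {p : ℕ} [Fact p.Prime] {n D W : ℕ} {F : Set (List (Fin n × Bool))}
    {π : List (List ((Fin n → Bool) → ZMod p))}
    (h : SD p D W {L | ∃ C ∈ F, L = C.map (litP p)} π) :
    IsRes p D F π.reverse ∧ ∀ L ∈ π, L.length ≤ W := by
  induction h with
  | nil => exact ⟨fun i => absurd i.2 (by simp), by simp⟩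
  | cons B π _ hs h1 h2 ih =>
    obtain ⟨ih1, ih2⟩ := ih
    refine ⟨?_, ?_⟩
    · rw [List.reverse_cons]
      intro i
      have hi : i.1 < π.reverse.length + 1 := by
        have := i.2
        simpa using this
      rcases Nat.lt_succ_iff_lt_or_eq.1 hi with hlt | heq
      · have e1 : (π.reverse ++ [B]).get i = π.reverse.get ⟨i.1, hlt⟩ := by
          simp only [List.get_eq_getElem]
          rw [List.getElem_append_left hlt]
        rw [e1]
        obtain ⟨k1, k2⟩ := ih1 ⟨i.1, hlt⟩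
        refine ⟨k1, k2.mono ?_⟩
        rintro L (hL | ⟨j, hj, rfl⟩)
        · exact Or.inl hL
        · right
          refine ⟨⟨j.1, by have := j.2; simp at this ⊢; omega⟩, hj, ?_⟩
          simp only [List.get_eq_getElem]
          rw [List.getElem_append_left j.2]
      · have e1 : (π.reverse ++ [B]).get i = B := by
          simp only [List.get_eq_getElem]
          rw [List.getElem_append_right (by omega)]
          simp [heq]
        rw [e1]
        refine ⟨h2, hs.mono ?_⟩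
        rintro L (hL | hL)
        · exact Or.inl hL
        · right
          have hL' : L ∈ π.reverse := List.mem_reverse.2 hL
          obtain ⟨j, hj, rfl⟩ := List.mem_iff_getElem.1 hL'
          refine ⟨⟨j, by simp at hj ⊢; omega⟩, ?_, ?_⟩
          · rw [Fin.lt_def]
            simp only
            omega
          · simp only [List.get_eq_getElem]
            rw [List.getElem_append_left hj]
    · intro L hL
      rcases List.mem_cons.1 hL with rfl | hL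
      · exact h1
      · exact ih2 L hL

theorem pl_litL {p : ℕ} [Fact p.Prime] {n : ℕ} (C : List (Fin n × Bool)) :
    pl p (litL C) = C.map (litP p) := by
  rw [pl, litL, List.map_map]
  apply List.map_congr_left
  intro t _
  funext x
  simp only [Function.comp, pe, litA, litP, beq_iff_eq]

theorem Inf.monoD {p : ℕ} [Fact p.Prime] {n D D' : ℕ} {A : Set (List ((Fin n → Bool) → ZMod p))}
    {B : List ((Fin n → Bool) → ZMod p)} (h : Inf p D A B) (hD : D ≤ D') : Inf p D' A B := by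
  cases h with
  | ax => exact Inf.ax
  | weak L _ h1 h2 => exact Inf.weak L B h1 h2
  | add f g L h1 h2 => exact Inf.add f g L h1 h2
  | mul f g L h1 h2 => exact Inf.mul f g L h1 (Dg_mono hD h2)
  | split f g L h1 => exact Inf.split f g L h1
  | unit _ h1 => exact Inf.unit B h1

/-- the refutation with explicit parameters -/
theorem collapse0 (p : ℕ) [Fact p.Prime] (κ d n l : ℕ) (hl : 1 ≤ l)
    (F : Set (List (Fin n × Bool))) (π : List (Fml p (Fin n)))
    (hder : IsDer κ {φ | ∃ C ∈ F, φ = clF C} π) (hbot : (.cst false : Fml p (Fin n)) ∈ π)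
    (hd : ∀ φ ∈ π, depth φ ≤ d) (hsz : (π.map Fml.size).sum < 2 ^ l) :
    ∃ σ : List (List ((Fin n → Bool) → ZMod p)),
      IsRes p ((2 * κ + l + 8) * (4 * (4 * p * (d + 1) * l ^ 2) ^ 2 * (4 * p * l) ^ d)) F σ ∧
      [] ∈ σ ∧
      σ.length ≤ 2 ^ ((4 * p * (d + 1) * l ^ 2 + 4) ^ 2 + 1) * (2 * (2 * κ + l + 9) ^ 2) ∧
      ∀ L ∈ σ, L.length ≤ 3 * 2 ^ (4 * p * (d + 1) * l ^ 2) + (2 * κ + l + 11) := by
  classical
  have hp := (Fact.out : p.Prime)
  have hp2 := hp.two_le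
  set a := 3 * l + 1 with ha
  let K := GaloisField p a
  have hKf : Fintype K := Fintype.ofFinite K
  have hcard : Fintype.card K = p ^ a := by
    rw [← Nat.card_eq_fintype_card]
    exact GaloisField.card p a (by omega)
  have hfr : Module.finrank (ZMod p) K = a := GaloisField.finrank p (by omega)
  set k := 4 * p * (d + 1) * l ^ 2 with hk
  set G := blocks π with hG
  have hGl : G.length < 2 ^ l := lt_of_le_of_lt (length_blocks π) hsz
  obtain ⟨m, hm⟩ : ∃ m, m + 1 = (d + 1) * l := by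
    refine ⟨(d + 1) * l - 1, ?_⟩
    have : 1 ≤ (d + 1) * l := Nat.mul_le_mul (by omega : 1 ≤ d + 1) hl
    omega
  have hsz' : ∀ φ ∈ π, Fml.size φ ≤ 2 ^ l := by
    intro φ hφ
    have h1 : Fml.size φ ≤ (π.map Fml.size).sum :=
      List.single_le_sum (by simp) _ (List.mem_map.2 ⟨φ, hφ, rfl⟩)
    omega
  have hπl : π.length < 2 ^ l := by
    refine lt_of_le_of_lt ?_ hsz
    have h1 : ∀ ρ : List (Fml p (Fin n)), ρ.length ≤ (ρ.map Fml.size).sum := by
      intro ρ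
      induction ρ with
      | nil => simp
      | cons φ ρ ih =>
        have : 1 ≤ Fml.size φ := by cases φ <;> simp [Fml.size]
        simp only [List.length_cons, List.map_cons, List.sum_cons]
        omega
    exact h1 π
  have hl2 : l < 2 ^ l := Nat.lt_two_pow_self
  have h2l : 2 ≤ 2 ^ l := by
    calc 2 = 2 ^ 1 := by norm_num
      _ ≤ 2 ^ l := Nat.pow_le_pow_right (by norm_num) hl
  -- the field is large
  have hR : 2 * (G.length * 2 ^ l * l) ≤ Fintype.card K := by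
    rw [hcard]
    calc 2 * (G.length * 2 ^ l * l) ≤ 2 * (2 ^ l * 2 ^ l * 2 ^ l) := by
          apply Nat.mul_le_mul_left
          exact Nat.mul_le_mul (Nat.mul_le_mul_right _ hGl.le) hl2.le
      _ = 2 ^ a := by rw [ha, ← pow_add, ← pow_add, ← pow_succ']; ring_nf
      _ ≤ p ^ a := Nat.pow_le_pow_left hp2 a
  -- the number of seeds
  have hall : a * (m + 1) * p ≤ k := by
    rw [hm, hk, ha]
    have : 3 * l + 1 ≤ 4 * l := by omega
    calc (3 * l + 1) * ((d + 1) * l) * p ≤ 4 * l * ((d + 1) * l) * p :=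
          Nat.mul_le_mul_right _ (Nat.mul_le_mul_right _ this)
      _ = 4 * p * (d + 1) * l ^ 2 := by ring
  have hRk : Fintype.card K ^ (m + 1) ≤ 2 ^ k := by
    rw [hcard, ← pow_mul]
    calc p ^ (a * (m + 1)) ≤ (2 ^ p) ^ (a * (m + 1)) :=
          Nat.pow_le_pow_left (Nat.lt_two_pow_self).le _
      _ = 2 ^ (a * (m + 1) * p) := by rw [← pow_mul]; ring_nf
      _ ≤ 2 ^ k := Nat.pow_le_pow_right (by norm_num) hall
  have hKp : 1 ≤ Fintype.card K := Fintype.card_pos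
  have hYk : Fintype.card (YY p n K l m G) ≤ 2 ^ k := by
    have hY : Fintype.card (YY p n K l m G) = G.length * 2 ^ l * l * Fintype.card K ^ m := by
      simp only [Fintype.card_prod, Fintype.card_fin, Fintype.card_fun]
      ring
    rw [hY]
    refine le_trans ?_ hRk
    rw [pow_succ, mul_comm]
    apply Nat.mul_le_mul_left
    omega
  -- degrees
  have hMM : MM p K ≤ 4 * p * l := by
    have e : MM p K = a * (p - 1) := by
      unfold MM
      rw [hfr]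
    rw [e, ha]
    calc (3 * l + 1) * (p - 1) ≤ 4 * l * p := Nat.mul_le_mul (by omega) (by omega)
      _ = 4 * p * l := by ring
  have hMMd : MM p K ^ d ≤ (4 * p * l) ^ d := Nat.pow_le_pow_left hMM d
  have hkl : 8 * l ≤ k := by
    rw [hk]
    have h1 : l ≤ l ^ 2 := by nlinarith
    calc 8 * l = 4 * 2 * 1 * l := by ring
      _ ≤ 4 * p * (d + 1) * l ^ 2 :=
        Nat.mul_le_mul (Nat.mul_le_mul (Nat.mul_le_mul_left _ hp2) (by omega)) h1
  have hk1 : 8 ≤ k := by omega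
  set D := 4 * k ^ 2 * (4 * p * l) ^ d with hD
  have hD1 : 3 * MM p K ^ d ≤ D := by
    rw [hD]
    apply Nat.mul_le_mul _ hMMd
    nlinarith
  have hD2 : 2 * k ^ 2 * (2 * MM p K ^ d) ≤ D := by
    rw [hD]
    calc 2 * k ^ 2 * (2 * MM p K ^ d) = 4 * k ^ 2 * MM p K ^ d := by ring
      _ ≤ _ := Nat.mul_le_mul_left _ hMMd
  set w := 2 * κ + l + 7 with hw
  set W := 3 * 2 ^ k + 2 with hW
  have h2lk : 2 ^ l * 2 ^ l ≤ 2 ^ k := by
    rw [← pow_add]
    exact Nat.pow_le_pow_right (by norm_num) (by omega)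
  have hGG : (G.length + 1) * 2 ^ l ≤ 2 ^ l * 2 ^ l := Nat.mul_le_mul_right _ (by omega)
  have hGG2 : G.length * 2 ^ l ≤ 2 ^ l * 2 ^ l := Nat.mul_le_mul_right _ (by omega)
  have hmain := asm (p := p) (n := n) K l m hl G (d := d) (w := w) (W := W) (D := D) (κ := κ)
    (k := k) hm F π hder hbot hd hsz' (blocks1 π) (blocks2 π) (by omega) (by omega) (by omega)
    hD1 hD2 (by omega) le_rfl (by omega) hYk hR
  obtain ⟨π', h1, h2, h3⟩ := hmain
  have hAd : ∀ L ∈ {L | ∃ C ∈ F, L = litL C}, ∀ e ∈ L, BD p D e := by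
    rintro L ⟨C, _, rfl⟩ e he
    simp only [litL, List.mem_map] at he
    obtain ⟨t, _, rfl⟩ := he
    refine BD_mono ?_ (BD_litA t)
    have : 1 ≤ MM p K ^ d := Nat.one_le_pow _ _ MM_pos
    omega
  obtain ⟨h4, _⟩ := h1.syn hAd
  obtain ⟨π'', g1, g2, g3⟩ := h4
  have eA : pl p '' {L | ∃ C ∈ F, L = litL C} = {L | ∃ C ∈ F, L = C.map (litP p)} := by
    ext L
    constructor
    · rintro ⟨L', ⟨C, hC, rfl⟩, rfl⟩
      exact ⟨C, hC, pl_litL C⟩
    · rintro ⟨C, hC, rfl⟩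
      exact ⟨litL C, ⟨C, hC, rfl⟩, pl_litL C⟩
  rw [eA] at g1
  obtain ⟨g4, g5⟩ := g1.isRes
  have eD : w * D + D = (2 * κ + l + 8) * D := by rw [hw]; ring
  rw [eD] at g4
  refine ⟨π''.reverse, g4, ?_, ?_, ?_⟩
  · rw [List.mem_reverse]
    exact g3 _ ⟨[], h3 [] rfl, rfl⟩
  · rw [List.length_reverse]
    refine g2.trans ?_
    have e2 : w + 2 = 2 * κ + l + 9 := by rw [hw]
    rw [e2]
    apply Nat.mul_le_mul_right
    refine h2.trans ?_
    -- count
    have c1 : (G.length * (3 * 2 ^ (l + 1) + 1) + π.length * (2 ^ l + 1) + 1) +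
        (G.length * 2 ^ l + 1) ≤ 2 ^ (2 * l + 4) := by
      have e3 : (2 : ℕ) ^ (2 * l + 4) = 16 * (2 ^ l * 2 ^ l) := by
        rw [pow_add, two_mul, pow_add]; ring
      have e4 : (2 : ℕ) ^ (l + 1) = 2 * 2 ^ l := by rw [pow_succ]; ring
      rw [e3, e4]
      set P := (2 : ℕ) ^ l with hP
      have f1 : G.length * (3 * (2 * P) + 1) ≤ P * (3 * (2 * P) + 1) :=
        Nat.mul_le_mul_right _ hGl.le
      have f2 : π.length * (P + 1) ≤ P * (P + 1) := Nat.mul_le_mul_right _ hπl.le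
      have f3 : G.length * P ≤ P * P := hGG2
      nlinarith
    have c2 : Fintype.card K ^ (m + 1) * ((G.length * (3 * 2 ^ (l + 1) + 1) +
        π.length * (2 ^ l + 1) + 1) + (G.length * 2 ^ l + 1)) ≤ 2 ^ ((k + 4) ^ 2) := by
      calc _ ≤ 2 ^ k * 2 ^ (2 * l + 4) := Nat.mul_le_mul hRk c1
        _ = 2 ^ (k + (2 * l + 4)) := by rw [← pow_add]
        _ ≤ 2 ^ ((k + 4) ^ 2) := Nat.pow_le_pow_right (by norm_num) (by nlinarith)
    calc _ ≤ 2 ^ ((k + 4) ^ 2) + 2 ^ ((k + 4) ^ 2) := Nat.add_le_add_right c2 _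
      _ = 2 ^ ((k + 4) ^ 2 + 1) := by rw [pow_succ]; ring
  · intro L hL
    have := g5 L (List.mem_reverse.1 hL)
    omega

theorem num1 (p κ d l : ℕ) (hp : 2 ≤ p) (hl : 1 ≤ l) :
    (2 * κ + l + 8) * (4 * (4 * p * (d + 1) * l ^ 2) ^ 2 * (4 * p * l) ^ d) ≤
      (64 * p ^ 2 * (2 * κ + 9) * l) ^ (d + 5) := by
  have h1 : d + 1 ≤ 2 ^ d := Nat.lt_two_pow_self
  have h2 : (d + 1) ^ 2 ≤ 4 ^ d := by
    calc (d + 1) ^ 2 ≤ (2 ^ d) ^ 2 := Nat.pow_le_pow_left h1 2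
      _ = 4 ^ d := by rw [← pow_mul, mul_comm, pow_mul]; norm_num
  have h3 : 2 * κ + l + 8 ≤ (2 * κ + 9) * l := by nlinarith
  set C := 64 * p ^ 2 * (2 * κ + 9) with hC
  have h4 : 16 * p ≤ C := by
    rw [hC]
    nlinarith [Nat.zero_le (p ^ 2 * κ)]
  have hC1 : 1 ≤ C := by omega
  calc (2 * κ + l + 8) * (4 * (4 * p * (d + 1) * l ^ 2) ^ 2 * (4 * p * l) ^ d)
      ≤ ((2 * κ + 9) * l) * (4 * (4 * p * (d + 1) * l ^ 2) ^ 2 * (4 * p * l) ^ d) :=
        Nat.mul_le_mul_right _ h3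
    _ = C * l ^ 5 * ((d + 1) ^ 2 * (4 * p * l) ^ d) := by rw [hC]; ring
    _ ≤ C * l ^ 5 * (4 ^ d * (4 * p * l) ^ d) :=
        Nat.mul_le_mul_left _ (Nat.mul_le_mul_right _ h2)
    _ = C * l ^ 5 * (16 * p * l) ^ d := by rw [← mul_pow]; ring_nf
    _ ≤ C ^ 5 * l ^ 5 * (C * l) ^ d := by
        apply Nat.mul_le_mul
        · exact Nat.mul_le_mul_right _ (Nat.le_self_pow (by norm_num) _)
        · exact Nat.pow_le_pow_left (Nat.mul_le_mul_right _ h4) _
    _ = (C * l) ^ (d + 5) := by rw [← mul_pow, ← pow_add]; ring_nf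

theorem num2 (p κ d l : ℕ) (hp : 2 ≤ p) (hl : 1 ≤ l) :
    2 ^ ((4 * p * (d + 1) * l ^ 2 + 4) ^ 2 + 1) * (2 * (2 * κ + l + 9) ^ 2) ≤
      2 ^ (64 * p ^ 2 * (2 * κ + 9) * (d + 1) ^ 2 * l ^ 4) := by
  set k := 4 * p * (d + 1) * l ^ 2 with hk
  have h0 : (2 * κ + l + 9) ^ 2 ≤ 2 ^ (2 * (2 * κ + l + 9)) := by
    calc (2 * κ + l + 9) ^ 2 ≤ (2 ^ (2 * κ + l + 9)) ^ 2 :=
          Nat.pow_le_pow_left (Nat.lt_two_pow_self).le 2
      _ = 2 ^ (2 * (2 * κ + l + 9)) := by rw [← pow_mul]; ring_nf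
  have hQ : 1 ≤ (d + 1) ^ 2 * l ^ 4 := Nat.mul_le_mul (Nat.one_le_pow _ _ (by omega))
    (Nat.one_le_pow _ _ hl)
  have hl4 : l ≤ (d + 1) ^ 2 * l ^ 4 := by
    calc l ≤ l ^ 4 := Nat.le_self_pow (by norm_num) _
      _ ≤ (d + 1) ^ 2 * l ^ 4 := Nat.le_mul_of_pos_left _ (by positivity)
  have hk2 : k ^ 2 = 16 * p ^ 2 * ((d + 1) ^ 2 * l ^ 4) := by rw [hk]; ring
  set Q := (d + 1) ^ 2 * l ^ 4 with hQd
  have hk4 : 4 ≤ k := by
    rw [hk]
    calc 4 = 4 * 1 * 1 * 1 := by norm_num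
      _ ≤ 4 * p * (d + 1) * l ^ 2 := Nat.mul_le_mul (Nat.mul_le_mul (Nat.mul_le_mul_left _
        (by omega)) (by omega)) (Nat.one_le_pow _ _ hl)
  have hexp : (k + 4) ^ 2 + 1 + (1 + 2 * (2 * κ + l + 9)) ≤
      64 * p ^ 2 * (2 * κ + 9) * (d + 1) ^ 2 * l ^ 4 := by
    have e : 64 * p ^ 2 * (2 * κ + 9) * (d + 1) ^ 2 * l ^ 4 = 64 * p ^ 2 * (2 * κ + 9) * Q := by
      rw [hQd]; ring
    rw [e]
    have i1 : (k + 4) ^ 2 ≤ 4 * k ^ 2 := by nlinarith
    have i2 : 4 * k ^ 2 = 64 * p ^ 2 * Q := by rw [hk2]; ring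
    have i3 : 1 + (1 + 2 * (2 * κ + l + 9)) ≤ (4 * κ + 22) * Q := by nlinarith
    have i4 : 64 * p ^ 2 + (4 * κ + 22) ≤ 64 * p ^ 2 * (2 * κ + 9) := by
      have : 4 ≤ p ^ 2 := by nlinarith
      nlinarith [Nat.mul_le_mul this (le_refl κ)]
    calc (k + 4) ^ 2 + 1 + (1 + 2 * (2 * κ + l + 9))
        = (k + 4) ^ 2 + (1 + (1 + 2 * (2 * κ + l + 9))) := by ring
      _ ≤ 64 * p ^ 2 * Q + (4 * κ + 22) * Q := Nat.add_le_add (i1.trans i2.le) i3
      _ = (64 * p ^ 2 + (4 * κ + 22)) * Q := by ring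
      _ ≤ _ := Nat.mul_le_mul_right _ i4
  calc 2 ^ ((k + 4) ^ 2 + 1) * (2 * (2 * κ + l + 9) ^ 2)
      ≤ 2 ^ ((k + 4) ^ 2 + 1) * (2 * 2 ^ (2 * (2 * κ + l + 9))) :=
        Nat.mul_le_mul_left _ (Nat.mul_le_mul_left _ h0)
    _ = 2 ^ ((k + 4) ^ 2 + 1 + (1 + 2 * (2 * κ + l + 9))) := by
        rw [pow_add _ ((k + 4) ^ 2 + 1), pow_add 2 1, pow_one]
    _ ≤ _ := Nat.pow_le_pow_right (by norm_num) hexp

theorem num3 (p κ d l : ℕ) (hp : 2 ≤ p) (hl : 1 ≤ l) :
    3 * 2 ^ (4 * p * (d + 1) * l ^ 2) + (2 * κ + l + 11) ≤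
      2 ^ (64 * p ^ 2 * (2 * κ + 9) * (d + 1) * l ^ 2) := by
  set k := 4 * p * (d + 1) * l ^ 2 with hk
  have h0 : 2 * κ + l + 11 ≤ 2 ^ (2 * κ + l + 11) := (Nat.lt_two_pow_self).le
  have h1 : (2 : ℕ) ^ k ≤ 2 ^ (k + (2 * κ + l + 11)) :=
    Nat.pow_le_pow_right (by norm_num) (by omega)
  have h2 : (2 : ℕ) ^ (2 * κ + l + 11) ≤ 2 ^ (k + (2 * κ + l + 11)) :=
    Nat.pow_le_pow_right (by norm_num) (by omega)
  have h3 : (2 : ℕ) ^ (k + (2 * κ + l + 11) + 2) = 4 * 2 ^ (k + (2 * κ + l + 11)) := by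
    rw [pow_add _ _ 2]; ring
  have hQ : 1 ≤ (d + 1) * l ^ 2 := Nat.mul_le_mul (by omega : 1 ≤ d + 1) (Nat.one_le_pow _ _ hl)
  have hlQ : l ≤ (d + 1) * l ^ 2 := by
    calc l ≤ l ^ 2 := Nat.le_self_pow (by norm_num) _
      _ ≤ (d + 1) * l ^ 2 := Nat.le_mul_of_pos_left _ (by positivity)
  have hexp : k + (2 * κ + l + 11) + 2 ≤ 64 * p ^ 2 * (2 * κ + 9) * (d + 1) * l ^ 2 := by
    have e : 64 * p ^ 2 * (2 * κ + 9) * (d + 1) * l ^ 2 =
      64 * p ^ 2 * (2 * κ + 9) * ((d + 1) * l ^ 2) := by ring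
    have e2 : k = 4 * p * ((d + 1) * l ^ 2) := by rw [hk]; ring
    rw [e, e2]
    set Q := (d + 1) * l ^ 2 with hQd
    have i3 : 2 * κ + l + 11 + 2 ≤ (2 * κ + 14) * Q := by nlinarith
    have i4 : 4 * p + (2 * κ + 14) ≤ 64 * p ^ 2 * (2 * κ + 9) := by
      have h5 : p ≤ p ^ 2 := Nat.le_self_pow (by norm_num) _
      have : 4 ≤ p ^ 2 := by nlinarith
      nlinarith [Nat.mul_le_mul this (le_refl κ)]
    calc 4 * p * Q + (2 * κ + l + 11) + 2 = 4 * p * Q + (2 * κ + l + 11 + 2) := by ring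
      _ ≤ 4 * p * Q + (2 * κ + 14) * Q := Nat.add_le_add_left i3 _
      _ = (4 * p + (2 * κ + 14)) * Q := by ring
      _ ≤ _ := Nat.mul_le_mul_right _ i4
  calc 3 * 2 ^ k + (2 * κ + l + 11) ≤ 2 ^ (k + (2 * κ + l + 11) + 2) := by omega
    _ ≤ _ := Nat.pow_le_pow_right (by norm_num) hexp

/-- The collapse theorem. -/
theorem collapse (p : ℕ) [Fact p.Prime] (κ : ℕ) : ∃ C : ℕ, ∀ (d n S : ℕ)
    (F : Set (List (Fin n × Bool))) (π : List (Fml p (Fin n))),
    IsDer κ {φ | ∃ B ∈ F, φ = clF B} π → (.cst false : Fml p (Fin n)) ∈ π →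
    (∀ φ ∈ π, depth φ ≤ d) → (π.map Fml.size).sum ≤ S →
    ∃ σ : List (List ((Fin n → Bool) → ZMod p)),
      IsRes p ((C * (Nat.log 2 S + 1)) ^ (d + 5)) F σ ∧ [] ∈ σ ∧
      σ.length ≤ 2 ^ (C * (d + 1) ^ 2 * (Nat.log 2 S + 1) ^ 4) ∧
      ∀ L ∈ σ, L.length ≤ 2 ^ (C * (d + 1) * (Nat.log 2 S + 1) ^ 2) := by
  have hp := (Fact.out : p.Prime)
  refine ⟨64 * p ^ 2 * (2 * κ + 9), fun d n S F π hder hbot hd hsz => ?_⟩
  have hl : 1 ≤ Nat.log 2 S + 1 := by omega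
  have hsz' : (π.map Fml.size).sum < 2 ^ (Nat.log 2 S + 1) :=
    lt_of_le_of_lt hsz (Nat.lt_pow_succ_log_self (by norm_num) S)
  obtain ⟨σ, h1, h2, h3, h4⟩ := collapse0 p κ d n _ hl F π hder hbot hd hsz'
  refine ⟨σ, ?_, h2, h3.trans (num2 p κ d _ hp.two_le hl),
    fun L hL => (h4 L hL).trans (num3 p κ d _ hp.two_le hl)⟩
  have hle := num1 p κ d (Nat.log 2 S + 1) hp.two_le hl
  intro i
  obtain ⟨g1, g2⟩ := h1 i
  refine ⟨fun f hf => Dg_mono hle (g1 f hf), ?_⟩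
  exact g2.monoD hle

end Pool.Agent.Work.MP_c04246_lc.Q
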