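import Mathlib
import Pool.Agent.Work.MP_c04246_lc.Q.Final

set_option autoImplicit false
set_option linter.unusedSectionVars false

/-! The collapse theorem, also for proofs of tautologies in disjunctive normal form. -/

namespace Pool.Agent.Work.MP_c04246_lc.Q

open Fml

variable {p n : ℕ}

theorem LocInf.mono {κ κ' : ℕ} {P : Finset (Fml p (Fin n))} {φ : Fml p (Fin n)}
    (h : LocInf κ P φ) (hκ : κ ≤ κ') : LocInf κ' P φ := by
  obtain ⟨h1, C, h2, h3, h4⟩ := h
  exact ⟨h1.trans hκ, C, h2.trans hκ, h3, h4⟩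

theorem IsDer.mono {κ κ' : ℕ} {A : Set (Fml p (Fin n))} {π : List (Fml p (Fin n))}
    (h : IsDer κ A π) (hκ : κ ≤ κ') : IsDer κ' A π := by
  intro i
  rcases h i with h | ⟨P, hP, h⟩
  · exact Or.inl h
  · exact Or.inr ⟨P, hP, LocInf.mono h hκ⟩

theorem IsDer.snoc {κ : ℕ} {A : Set (Fml p (Fin n))} {π : List (Fml p (Fin n))}
    (h : IsDer κ A π) {φ : Fml p (Fin n)}
    (hφ : φ ∈ A ∨ ∃ P : Finset (Fml p (Fin n)), (∀ b ∈ P, b ∈ π) ∧ LocInf κ P φ) :
    IsDer κ A (π ++ [φ]) := by
  intro i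
  have hi : i.1 < π.length + 1 := by
    have := i.2
    simpa using this
  rcases Nat.lt_succ_iff_lt_or_eq.1 hi with hlt | heq
  · have e1 : (π ++ [φ]).get i = π.get ⟨i.1, hlt⟩ := by
      simp only [List.get_eq_getElem]
      rw [List.getElem_append_left hlt]
    rw [e1]
    rcases h ⟨i.1, hlt⟩ with h | ⟨P, hP, h⟩
    · exact Or.inl h
    · refine Or.inr ⟨P, fun b hb => ?_, h⟩
      obtain ⟨j, hj, rfl⟩ := hP b hb
      refine ⟨⟨j.1, by have := j.2; rw [List.length_append]; omega⟩, hj, ?_⟩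
      simp only [List.get_eq_getElem]
      rw [List.getElem_append_left j.2]
  · have e1 : (π ++ [φ]).get i = φ := by
      simp only [List.get_eq_getElem]
      rw [List.getElem_append_right (by omega)]
      simp [heq]
    rw [e1]
    rcases hφ with h | ⟨P, hP, h⟩
    · exact Or.inl h
    · refine Or.inr ⟨P, fun b hb => ?_, h⟩
      obtain ⟨j, hj, rfl⟩ := List.mem_iff_getElem.1 (hP b hb)
      refine ⟨⟨j, by simp; omega⟩, ?_, ?_⟩
      · rw [Fin.lt_def]
        simp only
        omega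
      · simp only [List.get_eq_getElem]
        rw [List.getElem_append_left hj]

/-- the disjunction of the negated clauses -/
def dnf (F : List (List (Fin n × Bool))) : Fml p (Fin n) := disj (F.map fun B => neg (clF B))

open Classical in
theorem dnf_to_bot {κ d : ℕ} (A : Set (Fml p (Fin n))) (T : ℕ) :
    ∀ (F : List (List (Fin n × Bool))) (π : List (Fml p (Fin n))), (∀ B ∈ F, clF B ∈ A) →
    IsDer (κ + 2) A π → dnf F ∈ π → (∀ φ ∈ π, depth φ ≤ d) →
    depth (dnf F : Fml p (Fin n)) ≤ d → Fml.size (dnf F : Fml p (Fin n)) ≤ T →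
    ∃ π' : List (Fml p (Fin n)), IsDer (κ + 2) A π' ∧ (.cst false : Fml p (Fin n)) ∈ π' ∧
      (∀ φ ∈ π', depth φ ≤ d) ∧
      (π'.map Fml.size).sum ≤ (π.map Fml.size).sum + F.length * (2 * T) := by
  intro F
  induction F with
  | nil =>
    intro π _ h1 h2 h3 _ _
    exact ⟨π, h1, h2, h3, by simp⟩
  | cons B F ih =>
    intro π hA h1 h2 h3 h4 h5
    have e1 : (dnf (B :: F) : Fml p (Fin n)) = .bin true (neg (clF B)) (dnf F) := rfl
    have hs1 : (clF B : Fml p (Fin n)) ∈ subs (dnf (B :: F) : Fml p (Fin n)) := by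
      rw [e1]
      simp [subs, self_mem_subs]
    have hs2 : (dnf F : Fml p (Fin n)) ∈ subs (dnf (B :: F) : Fml p (Fin n)) := by
      rw [e1]
      simp [subs, self_mem_subs]
    have hd1 : depth (clF B : Fml p (Fin n)) ≤ d := (dpt_subs hs1).trans h4
    have hd2 : depth (dnf F : Fml p (Fin n)) ≤ d := (dpt_subs hs2).trans h4
    have hz1 : Fml.size (clF B : Fml p (Fin n)) ≤ T := (size_subs hs1).trans h5
    have hz2 : Fml.size (dnf F : Fml p (Fin n)) ≤ T := (size_subs hs2).trans h5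
    have k1 : IsDer (κ + 2) A (π ++ [clF B]) := IsDer.snoc h1 (Or.inl (hA B (by simp)))
    have k2 : IsDer (κ + 2) A ((π ++ [clF B]) ++ [dnf F]) := by
      refine IsDer.snoc k1 (Or.inr ⟨{dnf (B :: F), clF B}, ?_, ?_⟩)
      · intro b hb
        rw [Finset.mem_insert, Finset.mem_singleton] at hb
        rcases hb with rfl | rfl
        · exact List.mem_append_left _ h2
        · simp
      · refine ⟨(Finset.card_le_two).trans (by omega), {dnf (B :: F), neg (clF B)},
          (Finset.card_le_two).trans (by omega), ?_, ?_⟩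
        · intro c hc
          right
          refine ⟨dnf (B :: F), by simp, ?_⟩
          rw [Finset.mem_insert, Finset.mem_singleton] at hc
          rcases hc with rfl | rfl
          · exact self_mem_subs _
          · rw [e1]
            simp [subs]
        · intro v hv hP
          have r1 := hv (dnf (B :: F)) (by simp)
          have r2 := hv (neg (clF B)) (by simp)
          have r3 := hP (dnf (B :: F)) (by simp)
          have r4 := hP (clF B) (by simp)
          rw [e1] at r1 r3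
          simp only [Resp] at r1 r2
          rw [r3, r2, r4] at r1
          simpa using r1.symm
    obtain ⟨π', g1, g2, g3, g4⟩ := ih ((π ++ [clF B]) ++ [dnf F])
      (fun B' hB' => hA B' (by simp [hB'])) k2 (by simp) (by
        intro φ hφ
        simp only [List.mem_append, List.mem_cons, List.not_mem_nil, or_false] at hφ
        rcases hφ with (hφ | rfl) | rfl
        · exact h3 φ hφ
        · exact hd1
        · exact hd2) hd2 hz2
    refine ⟨π', g1, g2, g3, g4.trans ?_⟩
    simp only [List.map_append, List.map_cons, List.map_nil, List.sum_append, List.sum_cons,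
      List.sum_nil, List.length_cons]
    have : (F.length + 1) * (2 * T) = F.length * (2 * T) + 2 * T := by ring
    omega

theorem length_le_size_dnf (F : List (List (Fin n × Bool))) :
    F.length ≤ Fml.size (dnf F : Fml p (Fin n)) := by
  induction F with
  | nil => simp
  | cons B F ih =>
    have e1 : (dnf (B :: F) : Fml p (Fin n)) = .bin true (neg (clF B)) (dnf F) := rfl
    rw [e1]
    simp only [Fml.size, List.length_cons]
    omega

theorem IsRes.mono {p : ℕ} [Fact p.Prime] {n D D' : ℕ} {F : Set (List (Fin n × Bool))}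
    {σ : List (List ((Fin n → Bool) → ZMod p))} (h : IsRes p D F σ) (hD : D ≤ D') :
    IsRes p D' F σ := by
  intro i
  obtain ⟨g1, g2⟩ := h i
  exact ⟨fun f hf => Dg_mono hD (g1 f hf), g2.monoD hD⟩

/-- The collapse theorem for refutations and for proofs. -/
theorem collapse' (p : ℕ) [Fact p.Prime] (κ : ℕ) : ∃ C : ℕ, ∀ (d n S : ℕ)
    (F : List (List (Fin n × Bool))) (π : List (Fml p (Fin n))),
    IsDer κ {φ | ∃ B ∈ F, φ = clF B} π →
    ((.cst false : Fml p (Fin n)) ∈ π ∨ (dnf F : Fml p (Fin n)) ∈ π) →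
    (∀ φ ∈ π, depth φ ≤ d) → (π.map Fml.size).sum ≤ S →
    ∃ σ : List (List ((Fin n → Bool) → ZMod p)),
      IsRes p ((C * (Nat.log 2 S + 1)) ^ (d + 5)) {B | B ∈ F} σ ∧ [] ∈ σ ∧
      σ.length ≤ 2 ^ (C * (d + 1) ^ 2 * (Nat.log 2 S + 1) ^ 4) ∧
      ∀ L ∈ σ, L.length ≤ 2 ^ (C * (d + 1) * (Nat.log 2 S + 1) ^ 2) := by
  obtain ⟨C, hC⟩ := collapse p (κ + 2)
  refine ⟨C * 256, fun d n S F π hder hfin hd hsz => ?_⟩
  set l := Nat.log 2 S + 1 with hl
  have hl1 : 1 ≤ l := by omega
  -- a refutation of size at most `3 S ^ 2`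
  obtain ⟨π', h1, h2, h3, h4⟩ : ∃ π' : List (Fml p (Fin n)),
      IsDer (κ + 2) {φ | ∃ B ∈ {B | B ∈ F}, φ = clF B} π' ∧ (.cst false : Fml p (Fin n)) ∈ π' ∧
      (∀ φ ∈ π', depth φ ≤ d) ∧ (π'.map Fml.size).sum ≤ 3 * S ^ 2 := by
    rcases hfin with hbot | hdnf
    · refine ⟨π, IsDer.mono hder (by omega), hbot, hd, hsz.trans ?_⟩
      nlinarith
    · have h5 : Fml.size (dnf F : Fml p (Fin n)) ≤ S :=
        (List.single_le_sum (by simp) _ (List.mem_map.2 ⟨_, hdnf, rfl⟩)).trans hsz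
      obtain ⟨π', g1, g2, g3, g4⟩ := dnf_to_bot (κ := κ) (d := d)
        {φ | ∃ B ∈ {B | B ∈ F}, φ = clF B} S F π (fun B hB => ⟨B, hB, rfl⟩)
        (IsDer.mono hder (by omega)) hdnf hd (hd _ hdnf) h5
      refine ⟨π', g1, g2, g3, g4.trans ?_⟩
      have h6 : F.length ≤ S := (length_le_size_dnf F).trans h5
      have h7 : F.length * (2 * S) ≤ S * (2 * S) := Nat.mul_le_mul_right _ h6
      nlinarith
  obtain ⟨σ, k1, k2, k3, k4⟩ := hC d n (3 * S ^ 2) {B | B ∈ F} π' h1 h2 h3 h4
  set l' := Nat.log 2 (3 * S ^ 2) + 1 with hl'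
  have hll : l' ≤ 4 * l := by
    have h8 : S < 2 ^ l := Nat.lt_pow_succ_log_self (by norm_num) S
    have h9 : 3 * S ^ 2 < 2 ^ (2 * l + 2) := by
      have : S ^ 2 < (2 ^ l) ^ 2 := Nat.pow_lt_pow_left h8 (by norm_num)
      calc 3 * S ^ 2 < 4 * (2 ^ l) ^ 2 := by omega
        _ = 2 ^ (2 * l + 2) := by rw [← pow_mul, pow_add, mul_comm l 2]; ring
    have h10 : Nat.log 2 (3 * S ^ 2) < 2 * l + 2 := by
      apply Nat.log_lt_of_lt_pow' _ h9
      omega
    omega
  refine ⟨σ, IsRes.mono k1 ?_, k2, k3.trans ?_, fun L hL => (k4 L hL).trans ?_⟩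
  · apply Nat.pow_le_pow_left
    calc C * l' ≤ C * (4 * l) := Nat.mul_le_mul_left _ hll
      _ ≤ C * 256 * l := by nlinarith [Nat.zero_le (C * l)]
  · apply Nat.pow_le_pow_right (by norm_num)
    calc C * (d + 1) ^ 2 * l' ^ 4 ≤ C * (d + 1) ^ 2 * (4 * l) ^ 4 :=
          Nat.mul_le_mul_left _ (Nat.pow_le_pow_left hll 4)
      _ = C * 256 * (d + 1) ^ 2 * l ^ 4 := by ring
  · apply Nat.pow_le_pow_right (by norm_num)
    calc C * (d + 1) * l' ^ 2 ≤ C * (d + 1) * (4 * l) ^ 2 :=
          Nat.mul_le_mul_left _ (Nat.pow_le_pow_left hll 2)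
      _ = C * 16 * (d + 1) * l ^ 2 := by ring
      _ ≤ C * 256 * (d + 1) * l ^ 2 := by
          apply Nat.mul_le_mul_right
          apply Nat.mul_le_mul_right
          omega

end Pool.Agent.Work.MP_c04246_lc.Q
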