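import Mathlib
import Pool.Agent.Work.MP_c04246_lc.Q.CDefs
import Pool.Agent.Work.MP_c04246_lc.Q.Taut

set_option autoImplicit false
set_option linter.unusedSectionVars false

/-! For a fixed seed, a refutation by cedents yields the disjunction of the bad events. -/

namespace Pool.Agent.Work.MP_c04246_lc.Q

open Fml

variable {p : ℕ} [Fact p.Prime] {n : ℕ} {K : Type} [Field K] [Fintype K] [DecidableEq K]
  [Algebra (ZMod p) K]

variable (l : ℕ) (ρ : ℕ → ℕ → K) (G : List (Bool × Fml p (Fin n))) {d w W D : ℕ}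
  {A : Set (List ((Fin n → Bool) → Bool))}

/-- the line for the cedent -/
noncomputable def lnC (Γ : Finset (Fml p (Fin n))) : List ((Fin n → Bool) → Bool) :=
  (Γ.toList.map fun φ => fun x => val l ρ x φ) ++ badL l ρ G

theorem lnC_legal (hG : ∀ g ∈ G, dpt none g.2 ≤ d) (hD : 3 * MM p K ^ d ≤ D)
    {Γ : Finset (Fml p (Fin n))} (hΓ : ∀ φ ∈ Γ, dpt none φ ≤ d)
    (hW : Γ.card + G.length * 2 ^ l ≤ W) : LgA (BD p D) W (lnC l ρ G Γ) := by
  constructor
  · rw [lnC, List.length_append, List.length_map, Finset.length_toList, length_badL]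
    exact hW
  · intro b hb
    rw [lnC, List.mem_append, List.mem_map] at hb
    rcases hb with ⟨φ, hφ, rfl⟩ | hb
    · exact BD_mono (by omega) (BD_val' l ρ (hΓ φ (by simpa using hφ)))
    · exact badL_legal l ρ G hG hD b hb

open Classical in
theorem inf_lineC (hG : ∀ g ∈ G, dpt none g.2 ≤ d) (hD : 3 * MM p K ^ d ≤ D) {κ k : ℕ}
    {P : Fin k → Finset (Fml p (Fin n))} {Γ : Finset (Fml p (Fin n))} (h : CRule κ P Γ)
    (hP : ∀ i, lnC l ρ G (P i) ∈ A)
    (hR : ∀ c a b, (∃ φ, (φ ∈ Γ ∨ ∃ i, φ ∈ P i) ∧ .bin c a b ∈ subs φ) →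
      (rsp l ρ (.bin c a b) :: badL l ρ G) ∈ A)
    (hd : ∀ φ ∈ Γ, dpt none φ ≤ d) (hw : κ ^ 2 + 2 * κ ≤ w)
    (hW : Γ.card + G.length * 2 ^ l ≤ W) :
    Drv w (LgA (BD p D) W) A 1 {lnC l ρ G Γ} := by
  obtain ⟨hk, hPc, C, Δ, hC, hΔ, hΔΓ, hCs, hs⟩ := h
  refine Drv.step ?_ (lnC_legal l ρ G hG hD hd hW)
  set C' := C.filter (fun χ => ∃ c a b, χ = .bin c a b) with hC'
  have hcc : C'.card ≤ C.card := Finset.card_filter_le _ _
  refine stpL (B0 := Δ.toList.map fun φ => fun x => val l ρ x φ)
    (((List.finRange k).map fun i => (lnC l ρ G (P i),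
        (P i \ Γ).toList.map fun φ => fun x => val l ρ x φ)) ++
      (C'.toList.map fun χ => (rsp l ρ χ :: badL l ρ G, [rsp l ρ χ])))
    ?_ ?_ ?_ ?_ ?_ ?_ ?_
  · rw [List.length_append, List.length_map, List.length_map, Finset.length_toList,
      List.length_finRange]
    nlinarith
  · intro q hq
    rw [List.mem_append, List.mem_map, List.mem_map] at hq
    rcases hq with ⟨i, _, rfl⟩ | ⟨χ, hχ, rfl⟩
    · exact hP i
    · rw [Finset.mem_toList, hC', Finset.mem_filter] at hχ
      obtain ⟨h1, c, a, b, rfl⟩ := hχ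
      exact hR c a b (hCs _ h1)
  · rw [List.map_append, List.sum_append, List.map_map, List.map_map]
    have h1 : ((List.finRange k).map
        ((fun q : List ((Fin n → Bool) → Bool) × List ((Fin n → Bool) → Bool) => q.2.length) ∘
          fun i => (lnC l ρ G (P i), (P i \ Γ).toList.map fun φ => fun x => val l ρ x φ))).sum ≤
        k * κ := by
      refine (List.sum_le_card_nsmul _ κ ?_).trans (by simp)
      intro x hx
      obtain ⟨i, _, rfl⟩ := List.mem_map.1 hx
      simpa using hPc i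
    have h2 : (C'.toList.map
        ((fun q : List ((Fin n → Bool) → Bool) × List ((Fin n → Bool) → Bool) => q.2.length) ∘
          fun χ => (rsp l ρ χ :: badL l ρ G, [rsp l ρ χ]))).sum ≤ κ := by
      have : (C'.toList.map
        ((fun q : List ((Fin n → Bool) → Bool) × List ((Fin n → Bool) → Bool) => q.2.length) ∘
          fun χ => (rsp l ρ χ :: badL l ρ G, [rsp l ρ χ]))).sum = C'.card := by
        simp [Function.comp_def]
      rw [this]
      omega
    have h3 : k * κ ≤ κ ^ 2 := by rw [pow_two]; exact Nat.mul_le_mul_right _ hk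
    omega
  · rw [List.length_map, Finset.length_toList]
    nlinarith
  · intro b hb
    obtain ⟨φ, hφ, rfl⟩ := List.mem_map.1 hb
    rw [lnC, List.mem_append, List.mem_map]
    exact Or.inl ⟨φ, by simpa using hΔΓ (by simpa using hφ), rfl⟩
  · intro q hq e he
    rw [List.mem_append, List.mem_map, List.mem_map] at hq
    rcases hq with ⟨i, _, rfl⟩ | ⟨χ, hχ, rfl⟩
    · simp only [lnC, List.mem_append, List.mem_map, Finset.mem_toList, Finset.mem_sdiff]
        at he ⊢
      rcases he with ⟨φ, hφ, rfl⟩ | he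
      · by_cases hφΓ : φ ∈ Γ
        · exact Or.inl (Or.inl ⟨φ, hφΓ, rfl⟩)
        · exact Or.inr ⟨φ, ⟨hφ, hφΓ⟩, rfl⟩
      · exact Or.inl (Or.inr he)
    · simp only [lnC, List.mem_append, List.mem_cons, List.not_mem_nil, or_false] at he ⊢
      tauto
  · intro x hx
    by_contra hcon
    push Not at hcon
    have hΔf : ∀ a ∈ Δ, val l ρ x a = false := by
      intro a ha
      have := hcon (fun x => val l ρ x a) (List.mem_map.2 ⟨a, by simpa using ha, rfl⟩)
      simpa using this
    have hres : ∀ χ ∈ C, Resp (val l ρ x) χ := by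
      intro χ hχ
      by_cases hb : ∃ c a b, χ = Fml.bin c a b
      · have h1 : χ ∈ C' := by rw [hC', Finset.mem_filter]; exact ⟨hχ, hb⟩
        have h2 := hx (rsp l ρ χ :: badL l ρ G, [rsp l ρ χ])
          (by
            rw [List.mem_append, List.mem_map, List.mem_map]
            exact Or.inr ⟨χ, by simpa using h1, rfl⟩)
        simp only [List.mem_cons, List.not_mem_nil, or_false, exists_eq_left] at h2
        simpa [rsp] using h2
      · apply resp_val_of_not_bin
        intro c hc
        cases χ with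
        | bin c' a b => exact hb ⟨c', a, b, rfl⟩
        | _ => exact hc
    obtain ⟨i, hi⟩ := hs (val l ρ x) hres hΔf
    obtain ⟨e, he, hex⟩ := hx (lnC l ρ G (P i),
      (P i \ Γ).toList.map fun φ => fun x => val l ρ x φ) (by
        rw [List.mem_append, List.mem_map]
        exact Or.inl ⟨i, List.mem_finRange i, rfl⟩)
    obtain ⟨φ, hφ, rfl⟩ := List.mem_map.1 he
    have h4 := hi φ (by simpa using hφ)
    exact absurd hex (by simp only [h4]; decide)

open Classical in
theorem seed_lineC {κ : ℕ} (F : Set (List (Fin n × Bool))) (π : List (Finset (Fml p (Fin n))))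
    (hder : CDer κ {Γ | ∃ B ∈ F, Γ = clC B ∨ Γ = {clF B}} π) (hbot : ∅ ∈ π)
    (hd : ∀ Γ ∈ π, ∀ φ ∈ Γ, depth φ ≤ d) (hsz : ∀ Γ ∈ π, csize Γ ≤ 2 ^ l)
    (hG1 : ∀ Γ ∈ π, ∀ φ ∈ Γ, ∀ c a b, .bin c a b ∈ subs φ → (c, .bin c a b) ∈ G)
    (hG2 : ∀ g ∈ G, ∃ Γ ∈ π, ∃ φ ∈ Γ, ∃ a b, g.2 = .bin g.1 a b ∧ g.2 ∈ subs φ)
    (hw : 7 ≤ w) (hκ : κ ^ 2 + 2 * κ ≤ w) (hD : 3 * MM p K ^ d ≤ D)
    (hW : (G.length + 1) * 2 ^ l + 2 ≤ W) :
    Drv w (LgA (BD p D) W) {L | ∃ C ∈ F, L = litL C}
      (G.length * (3 * 2 ^ (l + 1) + 1) + π.length * (2 ^ l + 1)) {badL l ρ G} := by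
  have h2l : 1 ≤ 2 ^ l := Nat.one_le_two_pow
  have hW' : G.length * 2 ^ l + 2 ^ l + 2 ≤ W := by
    have : (G.length + 1) * 2 ^ l = G.length * 2 ^ l + 2 ^ l := by ring
    omega
  have hszf : ∀ Γ ∈ π, ∀ φ ∈ Γ, Fml.size φ ≤ 2 ^ l := by
    intro Γ hΓ φ hφ
    have h1 := hsz Γ hΓ
    have h2 := Finset.single_le_sum (f := fun b => Fml.size b) (fun _ _ => Nat.zero_le _) hφ
    simp only [csize] at h1
    omega
  have hcard : ∀ Γ ∈ π, Γ.card ≤ 2 ^ l := by
    intro Γ hΓ
    have h1 := hsz Γ hΓ
    have h2 : Γ.card ≤ ∑ b ∈ Γ, Fml.size b := by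
      rw [Finset.card_eq_sum_ones]
      apply Finset.sum_le_sum
      intro b _
      cases b <;> simp [Fml.size]
    simp only [csize] at h1
    omega
  have hGd : ∀ g ∈ G, dpt none g.2 ≤ d := by
    intro g hg
    obtain ⟨Γ, hΓ, φ, hφ, a, b, _, hs⟩ := hG2 g hg
    exact (dpt_subs hs).trans (hd Γ hΓ φ hφ)
  set A : Set (List ((Fin n → Bool) → Bool)) := {L | ∃ C ∈ F, L = litL C} with hA
  set R : Set (List ((Fin n → Bool) → Bool)) :=
    {L | ∃ g ∈ G, L ∈ ({rsp l ρ g.2 :: badL l ρ G} : Set (List ((Fin n → Bool) → Bool)))} with hR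
  have s1 : Drv w (LgA (BD p D) W) A (G.length * (3 * 2 ^ (l + 1) + 1)) R := by
    refine Drv.fam G (fun g => ({rsp l ρ g.2 :: badL l ρ G} :
      Set (List ((Fin n → Bool) → Bool)))) fun g hg => ?_
    obtain ⟨Γ, hΓ, φ, hφ, a, b, e, hs⟩ := hG2 g hg
    obtain ⟨c, g'⟩ := g
    simp only at e hs
    subst e
    have hblk : ∀ c' ψ, ψ ∈ subs φ → isB c' ψ → (c', ψ) ∈ G := by
      intro c' ψ hψ hb
      cases ψ with
      | bin c2 a2 b2 =>
        simp only [isB] at hb
        subst hb
        exact hG1 Γ hΓ φ hφ c2 a2 b2 hψ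
      | _ => exact absurd hb (by simp [isB])
    refine resp_line l ρ G hGd hg
      (hblk c a (subs_trans hs (by simp [subs, self_mem_subs])))
      (hblk c b (subs_trans hs (by simp [subs, self_mem_subs])))
      ((nl_le_size _ _).trans ((size_subs hs).trans (hszf Γ hΓ φ hφ))) hw hD (by omega)
  have s2 : ∀ i ≤ π.length, Drv w (LgA (BD p D) W) (A ∪ R) (i * (2 ^ l + 1))
      {L | ∃ j : Fin π.length, j.1 < i ∧ L = lnC l ρ G (π.get j)} := by
    intro i
    induction i with
    | zero =>
      intro _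
      refine Drv.nil.mono subset_rfl (Nat.zero_le _) ?_
      rintro L ⟨j, hj, _⟩
      exact absurd hj (by omega)
    | succ i ih =>
      intro hi
      have ih := ih (by omega)
      have hmem : π.get ⟨i, by omega⟩ ∈ π := List.get_mem _ _
      have s3 : Drv w (LgA (BD p D) W) ((A ∪ R) ∪
          {L | ∃ j : Fin π.length, j.1 < i ∧ L = lnC l ρ G (π.get j)}) (2 ^ l + 1)
          {lnC l ρ G (π.get ⟨i, by omega⟩)} := by
        rcases hder ⟨i, by omega⟩ with ⟨C, hC, e⟩ | ⟨k, P, hP, hinf⟩
        · rcases e with e | e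
          · -- clause as a cedent of literals
            have hleg := lnC_legal l ρ G hGd hD (Γ := π.get ⟨i, by omega⟩) (W := W)
              (fun φ hφ => hd _ hmem φ hφ) (by have := hcard _ hmem; omega)
            refine (Drv.weaken (L := litL C) (by omega) (Or.inl (Or.inl ⟨C, hC, rfl⟩)) ?_
              hleg).mono subset_rfl (by omega) subset_rfl
            intro f hf
            simp only [litL, List.mem_map] at hf
            obtain ⟨t, ht, rfl⟩ := hf
            rw [lnC, List.mem_append, List.mem_map]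
            left
            refine ⟨litF t, ?_, ?_⟩
            · rw [e, Finset.mem_toList, clC, List.mem_toFinset]
              exact List.mem_map.2 ⟨t, ht, rfl⟩
            · funext x
              exact val_litF l ρ t x
          · have e' : lnC l ρ G (π.get ⟨i, by omega⟩) = ln l ρ G (clF C) := by
              rw [e, lnC, Finset.toList_singleton]
              rfl
            have hmemC : (clF C : Fml p (Fin n)) ∈ π.get ⟨i, by omega⟩ := by rw [e]; simp
            rw [e']
            have hszC := hszf _ hmem _ hmemC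
            have hnl := (nl_le_size true (clF C : Fml p (Fin n))).trans hszC
            rw [nl_clF] at hnl
            refine clause_line l ρ G hGd hD C (Or.inl (Or.inl ⟨C, hC, rfl⟩)) ?_ ?_ (by omega)
              (by omega) ?_
            · intro c a b e2
              refine hG1 _ hmem _ hmemC c a b ?_
              rw [← e2]
              exact self_mem_subs _
            · exact hd _ hmem _ hmemC
            · have : (G.length + 1) * 2 ^ l = G.length * 2 ^ l + 2 ^ l := by ring
              omega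
        · refine (inf_lineC l ρ G hGd hD hinf ?_ ?_ (hd _ hmem) hκ
            (by have := hcard _ hmem; omega)).mono subset_rfl (by omega) subset_rfl
          · intro j
            exact Or.inr ⟨P j, hP j, rfl⟩
          · intro c a b hs
            left; right
            have hg : (c, (.bin c a b : Fml p (Fin n))) ∈ G := by
              obtain ⟨φ, hφ | ⟨j, hφ⟩, hs⟩ := hs
              · exact hG1 _ hmem φ hφ c a b hs
              · exact hG1 _ (List.get_mem _ _) φ hφ c a b hs
            exact ⟨(c, .bin c a b), hg, rfl⟩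
      refine (ih.trans s3).mono subset_rfl (by ring_nf; omega) ?_
      rintro L ⟨j, hj, rfl⟩
      by_cases hj2 : j.1 < i
      · exact Or.inl ⟨j, hj2, rfl⟩
      · right
        have : j = ⟨i, by omega⟩ := Fin.ext (by simp only; omega)
        rw [this]
        rfl
  obtain ⟨j, hj, e⟩ := List.mem_iff_getElem.1 hbot
  refine (s1.comp (s2 π.length le_rfl)).mono subset_rfl le_rfl ?_
  intro L hL
  rw [Set.mem_singleton_iff] at hL
  refine ⟨⟨j, hj⟩, hj, ?_⟩
  rw [hL]
  have : π.get ⟨j, hj⟩ = ∅ := e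
  rw [this, lnC]
  simp

end Pool.Agent.Work.MP_c04246_lc.Q
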