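import Mathlib
import Pool.Agent.Work.MP_c04246_lc.Q.CSeed

set_option autoImplicit false
set_option linter.unusedSectionVars false

/-! The collapse for derivations by cedents. -/

namespace Pool.Agent.Work.MP_c04246_lc.Q

open Fml

variable {p : ℕ} [Fact p.Prime] {n : ℕ}

theorem asmC (K : Type) [Field K] [Fintype K] [DecidableEq K] [Algebra (ZMod p) K]
    (l m : ℕ) (hl : 1 ≤ l) (G : List (Bool × Fml p (Fin n))) {d w W D k N : ℕ}
    (hm : m + 1 = (d + 1) * l) (A : Set (List ((Fin n → Bool) → Bool)))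
    (hGG : ∀ g ∈ G, dpt none g.2 ≤ d ∧ ∃ a b, g.2 = .bin g.1 a b)
    (hseed : ∀ r : Fin (m + 1) → K, Drv w (LgA (BD p D) W) A N {badL l (rho l m r) G})
    (hw : 7 ≤ w) (hwl : l ≤ w)
    (hD1 : 3 * MM p K ^ d ≤ D) (hD2 : 2 * k ^ 2 * (2 * MM p K ^ d) ≤ D)
    (hW2 : 3 * 2 ^ k + 2 ≤ W)
    (hW3 : 2 ^ k + G.length * 2 ^ l ≤ W)
    (hk : Fintype.card (YY p n K l m G) ≤ 2 ^ k)
    (hR : 2 * (G.length * 2 ^ l * l) ≤ Fintype.card K) :
    Drv w (LgA (BD p D) W) A (Fintype.card K ^ (m + 1) * (N + (G.length * 2 ^ l + 1)) +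
      2 ^ ((k + 4) ^ 2)) {[]} := by
  classical
  have hK1 : 1 ≤ Fintype.card K ^ (m + 1) := Nat.one_le_pow _ _ Fintype.card_pos
  by_cases hG0 : G.length = 0
  · have e : badL l (rho l m (fun _ => 0 : Fin (m + 1) → K)) G = [] := by
      rw [List.length_eq_zero_iff.1 hG0]; rfl
    have h1 := hseed fun _ => 0
    rw [e] at h1
    refine h1.mono subset_rfl ?_ subset_rfl
    generalize G.length * 2 ^ l + 1 = b
    calc N ≤ 1 * (N + b) := by omega
      _ ≤ Fintype.card K ^ (m + 1) * (N + b) := Nat.mul_le_mul_right _ hK1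
      _ ≤ _ := Nat.le_add_right _ _
  · have hY : Fintype.card (YY p n K l m G) = G.length * 2 ^ l * l * Fintype.card K ^ m := by
      simp only [Fintype.card_prod, Fintype.card_fin, Fintype.card_fun]
      ring
    have h1 : ∀ r : Fin (m + 1) → K, Drv w (LgA (BD p D) W) A
        (N + (G.length * 2 ^ l + 1)) {SL (fun x (y : YY p n K l m G) => decd l m G x y) r} :=
      fun r => (hseed r).comp (coded_line l m d hm G hGG r hwl (by omega) hD1 (Or.inr rfl)
        (by omega))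
    have h2 := Drv.famT _ h1
    rw [Fintype.card_fun, Fintype.card_fin] at h2
    have hKm : 1 ≤ Fintype.card K ^ m := Nat.one_le_pow _ _ Fintype.card_pos
    refine h2.comp (wphp (Y := YY p n K l m G) (R := Fin (m + 1) → K)
      (fun x y => decd l m G x y) (FD_decd l m d G hGG) (by omega) ?_ ?_ hk hD2 hW2 _
      Set.subset_union_right)
    · rw [hY, Fintype.card_fun, Fintype.card_fin, pow_succ]
      calc 2 * (G.length * 2 ^ l * l * Fintype.card K ^ m)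
          = Fintype.card K ^ m * (2 * (G.length * 2 ^ l * l)) := by ring
        _ ≤ _ := Nat.mul_le_mul_left _ hR
    · rw [hY]
      have h3 : 2 ≤ 2 ^ l := by
        calc 2 = 2 ^ 1 := by norm_num
          _ ≤ 2 ^ l := Nat.pow_le_pow_right (by norm_num) hl
      calc 2 = 1 * 2 * 1 * 1 := by norm_num
        _ ≤ G.length * 2 ^ l * l * Fintype.card K ^ m :=
          Nat.mul_le_mul (Nat.mul_le_mul (Nat.mul_le_mul (by omega) h3) hl) hKm

/-- all formulas in the cedents -/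
noncomputable def flat {p n : ℕ} (π : List (Finset (Fml p (Fin n)))) : List (Fml p (Fin n)) :=
  π.flatMap fun Γ => Γ.toList

theorem mem_flat {π : List (Finset (Fml p (Fin n)))} {φ : Fml p (Fin n)} :
    φ ∈ flat π ↔ ∃ Γ ∈ π, φ ∈ Γ := by
  simp [flat, List.mem_flatMap]

theorem size_flat (π : List (Finset (Fml p (Fin n)))) :
    ((flat π).map Fml.size).sum + π.length ≤ (π.map csize).sum := by
  induction π with
  | nil => simp [flat]
  | cons Γ π ih =>
    have e : flat (Γ :: π) = Γ.toList ++ flat π := rfl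
    rw [e, List.map_append, List.sum_append, List.map_cons, List.sum_cons, List.length_cons,
      Finset.sum_map_toList, csize]
    have e2 : Γ.sum Fml.size = ∑ b ∈ Γ, Fml.size b := rfl
    rw [← e2]
    generalize Γ.sum Fml.size = s
    omega

/-- the refutation with explicit parameters -/
theorem collapse0C (p : ℕ) [Fact p.Prime] (κ d n l : ℕ) (hl : 1 ≤ l)
    (F : Set (List (Fin n × Bool))) (π : List (Finset (Fml p (Fin n))))
    (hder : CDer κ {Γ | ∃ B ∈ F, Γ = clC B ∨ Γ = {clF B}} π) (hbot : ∅ ∈ π)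
    (hd : ∀ Γ ∈ π, ∀ φ ∈ Γ, depth φ ≤ d) (hsz : (π.map csize).sum < 2 ^ l) :
    ∃ σ : List (List ((Fin n → Bool) → ZMod p)),
      IsRes p ((κ ^ 2 + 2 * κ + l + 8) * (4 * (4 * p * (d + 1) * l ^ 2) ^ 2 * (4 * p * l) ^ d)) F σ ∧
      [] ∈ σ ∧
      σ.length ≤ 2 ^ ((4 * p * (d + 1) * l ^ 2 + 4) ^ 2 + 1) * (2 * (κ ^ 2 + 2 * κ + l + 9) ^ 2) ∧
      ∀ L ∈ σ, L.length ≤ 3 * 2 ^ (4 * p * (d + 1) * l ^ 2) + (κ ^ 2 + 2 * κ + l + 11) := by
  classical
  have hp := (Fact.out : p.Prime)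
  have hp2 := hp.two_le
  set a := 3 * l + 1 with ha
  let K := GaloisField p a
  have hKf : Fintype K := Fintype.ofFinite K
  have hcard : Fintype.card K = p ^ a := by
    rw [← Nat.card_eq_fintype_card]
    exact GaloisField.card p a (by omega)
  have hfr : Module.finrank (ZMod p) K = a := GaloisField.finrank p (by omega)
  set k := 4 * p * (d + 1) * l ^ 2 with hk
  set G := blocks (flat π) with hG
  have hflat := size_flat π
  have hGl : G.length < 2 ^ l := lt_of_le_of_lt (length_blocks (flat π)) (by omega)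
  have hπl : π.length < 2 ^ l := by omega
  obtain ⟨m, hm⟩ : ∃ m, m + 1 = (d + 1) * l := by
    refine ⟨(d + 1) * l - 1, ?_⟩
    have : 1 ≤ (d + 1) * l := Nat.mul_le_mul (by omega : 1 ≤ d + 1) hl
    omega
  have hsz' : ∀ Γ ∈ π, csize Γ ≤ 2 ^ l := by
    intro Γ hΓ
    have h1 : csize Γ ≤ (π.map csize).sum :=
      List.single_le_sum (by simp) _ (List.mem_map.2 ⟨Γ, hΓ, rfl⟩)
    omega
  have hG1 : ∀ Γ ∈ π, ∀ φ ∈ Γ, ∀ c a b, .bin c a b ∈ subs φ →
      (c, (.bin c a b : Fml p (Fin n))) ∈ G := fun Γ hΓ φ hφ =>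
    blocks1 (flat π) φ (mem_flat.2 ⟨Γ, hΓ, hφ⟩)
  have hG2 : ∀ g ∈ G, ∃ Γ ∈ π, ∃ φ ∈ Γ, ∃ a b, g.2 = .bin g.1 a b ∧ g.2 ∈ subs φ := by
    intro g hg
    obtain ⟨φ, hφ, a, b, e, hs⟩ := blocks2 (flat π) g hg
    obtain ⟨Γ, hΓ, hφ⟩ := mem_flat.1 hφ
    exact ⟨Γ, hΓ, φ, hφ, a, b, e, hs⟩
  have hGG0 : ∀ g ∈ G, dpt none g.2 ≤ d ∧ ∃ a b, g.2 = .bin g.1 a b := by
    intro g hg
    obtain ⟨Γ, hΓ, φ, hφ, a, b, e, hs⟩ := hG2 g hg
    exact ⟨(dpt_subs hs).trans (hd Γ hΓ φ hφ), a, b, e⟩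
  have hl2 : l < 2 ^ l := Nat.lt_two_pow_self
  have h2l : 2 ≤ 2 ^ l := by
    calc 2 = 2 ^ 1 := by norm_num
      _ ≤ 2 ^ l := Nat.pow_le_pow_right (by norm_num) hl
  -- the field is large
  have hR : 2 * (G.length * 2 ^ l * l) ≤ Fintype.card K := by
    rw [hcard]
    calc 2 * (G.length * 2 ^ l * l) ≤ 2 * (2 ^ l * 2 ^ l * 2 ^ l) := by
          apply Nat.mul_le_mul_left
          exact Nat.mul_le_mul (Nat.mul_le_mul_right _ hGl.le) hl2.le
      _ = 2 ^ a := by rw [ha, ← pow_add, ← pow_add, ← pow_succ']; ring_nf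
      _ ≤ p ^ a := Nat.pow_le_pow_left hp2 a
  -- the number of seeds
  have hall : a * (m + 1) * p ≤ k := by
    rw [hm, hk, ha]
    have : 3 * l + 1 ≤ 4 * l := by omega
    calc (3 * l + 1) * ((d + 1) * l) * p ≤ 4 * l * ((d + 1) * l) * p :=
          Nat.mul_le_mul_right _ (Nat.mul_le_mul_right _ this)
      _ = 4 * p * (d + 1) * l ^ 2 := by ring
  have hRk : Fintype.card K ^ (m + 1) ≤ 2 ^ k := by
    rw [hcard, ← pow_mul]
    calc p ^ (a * (m + 1)) ≤ (2 ^ p) ^ (a * (m + 1)) :=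
          Nat.pow_le_pow_left (Nat.lt_two_pow_self).le _
      _ = 2 ^ (a * (m + 1) * p) := by rw [← pow_mul]; ring_nf
      _ ≤ 2 ^ k := Nat.pow_le_pow_right (by norm_num) hall
  have hKp : 1 ≤ Fintype.card K := Fintype.card_pos
  have hYk : Fintype.card (YY p n K l m G) ≤ 2 ^ k := by
    have hY : Fintype.card (YY p n K l m G) = G.length * 2 ^ l * l * Fintype.card K ^ m := by
      simp only [Fintype.card_prod, Fintype.card_fin, Fintype.card_fun]
      ring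
    rw [hY]
    refine le_trans ?_ hRk
    rw [pow_succ, mul_comm]
    apply Nat.mul_le_mul_left
    omega
  -- degrees
  have hMM : MM p K ≤ 4 * p * l := by
    have e : MM p K = a * (p - 1) := by
      unfold MM
      rw [hfr]
    rw [e, ha]
    calc (3 * l + 1) * (p - 1) ≤ 4 * l * p := Nat.mul_le_mul (by omega) (by omega)
      _ = 4 * p * l := by ring
  have hMMd : MM p K ^ d ≤ (4 * p * l) ^ d := Nat.pow_le_pow_left hMM d
  have hkl : 8 * l ≤ k := by
    rw [hk]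
    have h1 : l ≤ l ^ 2 := by nlinarith
    calc 8 * l = 4 * 2 * 1 * l := by ring
      _ ≤ 4 * p * (d + 1) * l ^ 2 :=
        Nat.mul_le_mul (Nat.mul_le_mul (Nat.mul_le_mul_left _ hp2) (by omega)) h1
  have hk1 : 8 ≤ k := by omega
  set D := 4 * k ^ 2 * (4 * p * l) ^ d with hD
  have hD1 : 3 * MM p K ^ d ≤ D := by
    rw [hD]
    apply Nat.mul_le_mul _ hMMd
    nlinarith
  have hD2 : 2 * k ^ 2 * (2 * MM p K ^ d) ≤ D := by
    rw [hD]
    calc 2 * k ^ 2 * (2 * MM p K ^ d) = 4 * k ^ 2 * MM p K ^ d := by ring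
      _ ≤ _ := Nat.mul_le_mul_left _ hMMd
  set w := κ ^ 2 + 2 * κ + l + 7 with hw
  set W := 3 * 2 ^ k + 2 with hW
  have h2lk : 2 ^ l * 2 ^ l ≤ 2 ^ k := by
    rw [← pow_add]
    exact Nat.pow_le_pow_right (by norm_num) (by omega)
  have hGG : (G.length + 1) * 2 ^ l ≤ 2 ^ l * 2 ^ l := Nat.mul_le_mul_right _ (by omega)
  have hGG2 : G.length * 2 ^ l ≤ 2 ^ l * 2 ^ l := Nat.mul_le_mul_right _ (by omega)
  have hseed : ∀ r : Fin (m + 1) → K, Drv w (LgA (BD p D) W) {L | ∃ C ∈ F, L = litL C}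
      (G.length * (3 * 2 ^ (l + 1) + 1) + π.length * (2 ^ l + 1)) {badL l (rho l m r) G} :=
    fun r => seed_lineC l (rho l m r) G F π hder hbot hd hsz' hG1 hG2 (by omega) (by omega) hD1
      (by omega)
  have hmain := asmC (p := p) (n := n) K l m hl G (d := d) (w := w) (W := W) (D := D)
    (k := k) hm _ hGG0 hseed (by omega) (by omega) hD1 hD2 le_rfl (by omega) hYk hR
  obtain ⟨π', h1, h2, h3⟩ := hmain
  have hAd : ∀ L ∈ {L | ∃ C ∈ F, L = litL C}, ∀ e ∈ L, BD p D e := by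
    rintro L ⟨C, _, rfl⟩ e he
    simp only [litL, List.mem_map] at he
    obtain ⟨t, _, rfl⟩ := he
    refine BD_mono ?_ (BD_litA t)
    have : 1 ≤ MM p K ^ d := Nat.one_le_pow _ _ MM_pos
    omega
  obtain ⟨h4, _⟩ := h1.syn hAd
  obtain ⟨π'', g1, g2, g3⟩ := h4
  have eA : pl p '' {L | ∃ C ∈ F, L = litL C} = {L | ∃ C ∈ F, L = C.map (litP p)} := by
    ext L
    constructor
    · rintro ⟨L', ⟨C, hC, rfl⟩, rfl⟩
      exact ⟨C, hC, pl_litL C⟩
    · rintro ⟨C, hC, rfl⟩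
      exact ⟨litL C, ⟨C, hC, rfl⟩, pl_litL C⟩
  rw [eA] at g1
  obtain ⟨g4, g5⟩ := g1.isRes
  have eD : w * D + D = (κ ^ 2 + 2 * κ + l + 8) * D := by rw [hw]; ring
  rw [eD] at g4
  refine ⟨π''.reverse, g4, ?_, ?_, ?_⟩
  · rw [List.mem_reverse]
    exact g3 _ ⟨[], h3 [] rfl, rfl⟩
  · rw [List.length_reverse]
    refine g2.trans ?_
    have e2 : w + 2 = κ ^ 2 + 2 * κ + l + 9 := by rw [hw]
    rw [e2]
    apply Nat.mul_le_mul_right
    refine h2.trans ?_
    -- count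
    have c1 : (G.length * (3 * 2 ^ (l + 1) + 1) + π.length * (2 ^ l + 1)) +
        (G.length * 2 ^ l + 1) ≤ 2 ^ (2 * l + 4) := by
      have e3 : (2 : ℕ) ^ (2 * l + 4) = 16 * (2 ^ l * 2 ^ l) := by
        rw [pow_add, two_mul, pow_add]; ring
      have e4 : (2 : ℕ) ^ (l + 1) = 2 * 2 ^ l := by rw [pow_succ]; ring
      rw [e3, e4]
      set P := (2 : ℕ) ^ l with hP
      have f1 : G.length * (3 * (2 * P) + 1) ≤ P * (3 * (2 * P) + 1) :=
        Nat.mul_le_mul_right _ hGl.le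
      have f2 : π.length * (P + 1) ≤ P * (P + 1) := Nat.mul_le_mul_right _ hπl.le
      have f3 : G.length * P ≤ P * P := hGG2
      nlinarith
    have c2 : Fintype.card K ^ (m + 1) * ((G.length * (3 * 2 ^ (l + 1) + 1) +
        π.length * (2 ^ l + 1)) + (G.length * 2 ^ l + 1)) ≤ 2 ^ ((k + 4) ^ 2) := by
      calc _ ≤ 2 ^ k * 2 ^ (2 * l + 4) := Nat.mul_le_mul hRk c1
        _ = 2 ^ (k + (2 * l + 4)) := by rw [← pow_add]
        _ ≤ 2 ^ ((k + 4) ^ 2) := Nat.pow_le_pow_right (by norm_num) (by nlinarith)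
    calc _ ≤ 2 ^ ((k + 4) ^ 2) + 2 ^ ((k + 4) ^ 2) := Nat.add_le_add_right c2 _
      _ = 2 ^ ((k + 4) ^ 2 + 1) := by rw [pow_succ]; ring
  · intro L hL
    have := g5 L (List.mem_reverse.1 hL)
    omega

end Pool.Agent.Work.MP_c04246_lc.Q
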