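import Mathlib
import Pool.Agent.Work.MP_c04246_lc.Q.CAsm

set_option autoImplicit false
set_option linter.unusedSectionVars false

/-! Polynomials as formulas. -/

namespace Pool.Agent.Work.MP_c04246_lc.Q

open Fml

section basis

variable (p : ℕ) [Fact p.Prime] (n : ℕ)

theorem linInd_mon : LinearIndependent (ZMod p) (fun t : Finset (Fin n) => mon p t) := by
  classical
  rw [Fintype.linearIndependent_iff]
  intro g hg t
  induction t using Finset.strongInduction with
  | H t ih =>
    have h1 := congrFun hg (fun i => decide (i ∈ t))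
    simp only [Finset.sum_apply, Pi.smul_apply, smul_eq_mul, Pi.zero_apply, mon,
      decide_eq_true_eq] at h1
    have h2 : ∀ s ∈ (Finset.univ : Finset (Finset (Fin n))), s ≠ t →
        g s * (if ∀ i ∈ s, i ∈ t then (1 : ZMod p) else 0) = 0 := by
      intro s _ hs
      by_cases h : ∀ i ∈ s, i ∈ t
      · rw [ih s (lt_of_le_of_ne h hs), zero_mul]
      · rw [if_neg h, mul_zero]
    rw [Finset.sum_eq_single t h2 (by simp)] at h1
    simpa using h1

/-- the monomials form a basis -/
noncomputable def bas : Module.Basis (Finset (Fin n)) (ZMod p) ((Fin n → Bool) → ZMod p) :=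
  basisOfLinearIndependentOfCardEqFinrank (linInd_mon p n) (by simp)

variable {p n}

theorem bas_apply (t : Finset (Fin n)) : bas p n t = mon p t := by
  simp [bas]

theorem repr_mon (t : Finset (Fin n)) : (bas p n).repr (mon p t) = Finsupp.single t 1 := by
  rw [← bas_apply, Module.Basis.repr_self]

theorem repr_of_Dg {D : ℕ} {f : (Fin n → Bool) → ZMod p} (hf : f ∈ Dg p n D)
    {t : Finset (Fin n)} (ht : D < t.card) : (bas p n).repr f t = 0 := by
  classical
  unfold Dg at hf
  induction hf using Submodule.span_induction with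
  | mem f hf =>
    obtain ⟨s, hs, rfl⟩ := hf
    rw [repr_mon, Finsupp.single_apply, if_neg]
    rintro rfl
    omega
  | zero => simp
  | add f g _ _ h1 h2 => simp [h1, h2]
  | smul c f _ h => simp [h]

/-- the monomials of `f`, each as often as its coefficient says -/
noncomputable def rep (f : (Fin n → Bool) → ZMod p) : List (Finset (Fin n)) :=
  (Finset.univ : Finset (Finset (Fin n))).toList.flatMap fun t =>
    List.replicate ((bas p n).repr f t).val t

theorem mem_rep {f : (Fin n → Bool) → ZMod p} {t : Finset (Fin n)} :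
    t ∈ rep f ↔ (bas p n).repr f t ≠ 0 := by
  have : NeZero p := ⟨(Fact.out : p.Prime).ne_zero⟩
  simp [rep, List.mem_flatMap, List.mem_replicate, ZMod.val_eq_zero]

theorem card_of_mem_rep {D : ℕ} {f : (Fin n → Bool) → ZMod p} (hf : f ∈ Dg p n D)
    {t : Finset (Fin n)} (ht : t ∈ rep f) : t.card ≤ D := by
  rw [mem_rep] at ht
  by_contra hcon
  exact ht (repr_of_Dg hf (by omega))

theorem sum_rep (f : (Fin n → Bool) → ZMod p) (h : Finset (Fin n) → ZMod p) :
    ((rep f).map h).sum = ∑ t, (bas p n).repr f t * h t := by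
  have : NeZero p := ⟨(Fact.out : p.Prime).ne_zero⟩
  have key : ∀ l : List (Finset (Fin n)),
      ((l.flatMap fun t => List.replicate ((bas p n).repr f t).val t).map h).sum =
      (l.map fun t => (bas p n).repr f t * h t).sum := by
    intro l
    induction l with
    | nil => simp
    | cons a l ih =>
      rw [List.flatMap_cons, List.map_append, List.sum_append, ih, List.map_cons, List.sum_cons,
        List.map_replicate, List.sum_replicate]
      congr 1
      rw [nsmul_eq_mul, ZMod.natCast_zmod_val]
  rw [rep, key]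
  simp

/-- number of monomials of degree at most `D` -/
theorem card_monomials (n D : ℕ) :
    ((Finset.univ : Finset (Finset (Fin n))).filter fun t => t.card ≤ D).card ≤ (n + 1) ^ D := by
  classical
  -- every small set is the image of a function from `Fin D` to `Option (Fin n)`
  let Φ : (Fin D → Option (Fin n)) → Finset (Fin n) := fun u =>
    Finset.univ.filter fun i => ∃ j, u j = some i
  have h1 : ((Finset.univ : Finset (Finset (Fin n))).filter fun t => t.card ≤ D) ⊆
      (Finset.univ : Finset (Fin D → Option (Fin n))).image Φ := by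
    intro t ht
    rw [Finset.mem_filter] at ht
    rw [Finset.mem_image]
    refine ⟨fun j => if h : j.1 < t.card then some (t.equivFin.symm ⟨j.1, h⟩).1 else none,
      Finset.mem_univ _, ?_⟩
    ext i
    simp only [Φ, Finset.mem_filter, Finset.mem_univ, true_and]
    constructor
    · rintro ⟨j, hj⟩
      by_cases h : j.1 < t.card
      · rw [dif_pos h] at hj
        have := Option.some.inj hj
        rw [← this]
        exact (t.equivFin.symm ⟨j.1, h⟩).2
      · rw [dif_neg h] at hj
        exact absurd hj (by simp)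
    · intro hi
      have h2 := (t.equivFin ⟨i, hi⟩).2
      refine ⟨⟨(t.equivFin ⟨i, hi⟩).1, lt_of_lt_of_le h2 ht.2⟩, ?_⟩
      rw [dif_pos h2]
      simp
  calc _ ≤ ((Finset.univ : Finset (Fin D → Option (Fin n))).image Φ).card :=
        Finset.card_le_card h1
    _ ≤ (Finset.univ : Finset (Fin D → Option (Fin n))).card := Finset.card_image_le
    _ = (n + 1) ^ D := by simp

theorem length_rep {D : ℕ} {f : (Fin n → Bool) → ZMod p} (hf : f ∈ Dg p n D) :
    (rep f).length ≤ p * (n + 1) ^ D := by
  classical
  have : NeZero p := ⟨(Fact.out : p.Prime).ne_zero⟩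
  rw [rep, List.length_flatMap]
  simp only [List.length_replicate]
  rw [Finset.sum_map_toList]
  have h1 : ∑ t : Finset (Fin n), ((bas p n).repr f t).val =
      ∑ t ∈ (Finset.univ : Finset (Finset (Fin n))).filter (fun t => t.card ≤ D),
        ((bas p n).repr f t).val := by
    symm
    apply Finset.sum_subset (Finset.filter_subset _ _)
    intro t _ ht
    rw [Finset.mem_filter] at ht
    push Not at ht
    rw [repr_of_Dg hf (ht (Finset.mem_univ _))]
    simp
  rw [h1]
  calc _ ≤ ∑ t ∈ (Finset.univ : Finset (Finset (Fin n))).filter (fun t => t.card ≤ D), p :=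
        Finset.sum_le_sum fun t _ => (ZMod.val_lt _).le
    _ = ((Finset.univ : Finset (Finset (Fin n))).filter (fun t => t.card ≤ D)).card * p := by
        rw [Finset.sum_const, smul_eq_mul]
    _ ≤ (n + 1) ^ D * p := Nat.mul_le_mul_right _ (card_monomials n D)
    _ = _ := mul_comm _ _

end basis

section formulas

variable {p : ℕ} [Fact p.Prime] {n : ℕ}

/-- conjunction of variables -/
def cjl (l : List (Fin n)) : Fml p (Fin n) :=
  l.foldr (fun i φ => .bin false (.var i) φ) (.cst true)

/-- conjunction of the variables in a set -/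
def cj (t : Finset (Fin n)) : Fml p (Fin n) := cjl (t.sort (· ≤ ·))

/-- the number of true members of `l` is `c` modulo `p` -/
def MFl (c : ZMod p) (l : List (Fml p (Fin n))) : Fml p (Fin n) :=
  .mod c l.length fun j => l.get j

/-- the polynomial `f` has the value `c` -/
noncomputable def MR (c : ZMod p) (f : (Fin n → Bool) → ZMod p) : Fml p (Fin n) :=
  MFl c ((rep f).map cj)

/-- number of true members -/
def vsum (v : Fml p (Fin n) → Bool) (l : List (Fml p (Fin n))) : ZMod p :=
  (l.map fun φ => if v φ then (1 : ZMod p) else 0).sum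

/-- the value of `f` if the conjunctions have the values given by `v` -/
noncomputable def VS (v : Fml p (Fin n) → Bool) :
    ((Fin n → Bool) → ZMod p) →ₗ[ZMod p] ZMod p :=
  ∑ t : Finset (Fin n), (if v (cj t) then (1 : ZMod p) else 0) •
    ((Finsupp.lapply t).comp (bas p n).repr.toLinearMap)

theorem VS_apply (v : Fml p (Fin n) → Bool) (f : (Fin n → Bool) → ZMod p) :
    VS v f = ∑ t, (bas p n).repr f t * (if v (cj t) then (1 : ZMod p) else 0) := by
  rw [VS, LinearMap.sum_apply]
  refine Finset.sum_congr rfl fun t _ => ?_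
  by_cases h : v (cj t) = true <;> simp [h]

theorem VS_mon (v : Fml p (Fin n) → Bool) (t : Finset (Fin n)) :
    VS v (mon p t) = if v (cj t) then 1 else 0 := by
  classical
  rw [VS_apply]
  simp only [repr_mon, Finsupp.single_apply, ite_mul, one_mul, zero_mul]
  rw [Finset.sum_ite_eq]
  simp

theorem vsum_cj (v : Fml p (Fin n) → Bool) (L : List (Finset (Fin n))) :
    vsum v (L.map cj) = VS v (L.map (mon p)).sum := by
  induction L with
  | nil => simp [vsum]
  | cons a L ih =>
    simp only [vsum, List.map_cons, List.sum_cons, map_add, VS_mon] at ih ⊢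
    rw [ih]

theorem vsum_rep (v : Fml p (Fin n) → Bool) (f : (Fin n → Bool) → ZMod p) :
    vsum v ((rep f).map cj) = VS v f := by
  rw [vsum, List.map_map, VS_apply]
  exact sum_rep f (fun t => if v (cj t) then (1 : ZMod p) else 0)

theorem sum_map_rep (f : (Fin n → Bool) → ZMod p) : ((rep f).map (mon p)).sum = f := by
  funext x
  have h1 : ((rep f).map (mon p)).sum x = ((rep f).map fun t => mon p t x).sum := by
    induction rep f with
    | nil => simp
    | cons a l ih => simp [ih]
  rw [h1, sum_rep]
  have h2 := congrFun ((bas p n).sum_repr f) x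
  simp only [Finset.sum_apply, Pi.smul_apply, smul_eq_mul, bas_apply] at h2
  exact h2

theorem resp_MFl {v : Fml p (Fin n) → Bool} {c : ZMod p} {l : List (Fml p (Fin n))}
    (h : Resp v (MFl c l)) : v (MFl c l) = decide (vsum v l = c) := by
  have h1 : ∑ j : Fin l.length, (if v (l.get j) then (1 : ZMod p) else 0) = vsum v l := by
    rw [vsum, ← List.sum_ofFn]
    congr 1
    apply List.ext_get
    · simp
    · intro i h1 h2
      simp
  simp only [MFl, Resp] at h ⊢
  rw [h]
  congr 1
  simp only [List.get_eq_getElem] at h1 ⊢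
  rw [h1]

theorem resp_MR {v : Fml p (Fin n) → Bool} {c : ZMod p} {f : (Fin n → Bool) → ZMod p}
    (h : Resp v (MR c f)) : v (MR c f) = decide (VS v f = c) := by
  have := resp_MFl h
  rw [vsum_rep] at this
  exact this

theorem cj_empty : (cj ∅ : Fml p (Fin n)) = .cst true := by
  simp [cj, cjl]

theorem one_eq_mon : (1 : (Fin n → Bool) → ZMod p) = mon p ∅ := by
  ext x; simp [mon]

theorem VS_one (v : Fml p (Fin n) → Bool) (h : v (.cst true) = true) : VS v 1 = 1 := by
  rw [one_eq_mon, VS_mon, cj_empty, h]
  simp

open Classical in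
theorem self_mem_subs' (φ : Fml p (Fin n)) : φ ∈ subs φ := self_mem_subs φ

theorem mem_subs_MFl {c : ZMod p} {l : List (Fml p (Fin n))} {φ ψ : Fml p (Fin n)} (hφ : φ ∈ l)
    (h : ψ ∈ subs φ) : ψ ∈ subs (MFl c l) := by
  classical
  obtain ⟨j, hj, rfl⟩ := List.mem_iff_getElem.1 hφ
  simp only [MFl, subs, Finset.mem_insert, Finset.mem_biUnion, Finset.mem_univ, true_and]
  right
  exact ⟨⟨j, hj⟩, h⟩

theorem mem_subs_MR {c : ZMod p} {f : (Fin n → Bool) → ZMod p} {t : Finset (Fin n)}
    (ht : (bas p n).repr f t ≠ 0) {ψ : Fml p (Fin n)} (h : ψ ∈ subs (cj t)) :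
    ψ ∈ subs (MR c f) :=
  mem_subs_MFl (List.mem_map.2 ⟨t, mem_rep.2 ht, rfl⟩) h

end formulas

end Pool.Agent.Work.MP_c04246_lc.Q
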