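import Mathlib
import Pool.Agent.Work.MP_c04246_lc.Q.FBase

set_option autoImplicit false
set_option linter.unusedSectionVars false

/-! Calculus of cedents. -/

namespace Pool.Agent.Work.MP_c04246_lc.Q

open Fml

section ced

variable {p : ℕ} {n : ℕ}

/-- one inference with premises from `A` -/
def CStp (κ : ℕ) (A : Set (Finset (Fml p (Fin n)))) (G : Finset (Fml p (Fin n))) : Prop :=
  ∃ (k : ℕ) (P : Fin k → Finset (Fml p (Fin n))), (∀ a, P a ∈ A) ∧ CRule κ P G

theorem CStp.mono {κ : ℕ} {A A' : Set (Finset (Fml p (Fin n)))} {G : Finset (Fml p (Fin n))}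
    (h : CStp κ A G) (hA : A ⊆ A') : CStp κ A' G := by
  obtain ⟨k, P, h1, h2⟩ := h
  exact ⟨k, P, fun a => hA (h1 a), h2⟩

open Classical in
/-- the cedent with the active formulas `l` and the context `Γ` -/
noncomputable def ce (l : List (Fml p (Fin n))) (Γ : Finset (Fml p (Fin n))) :
    Finset (Fml p (Fin n)) := l.toFinset ∪ Γ

theorem mem_ce {l : List (Fml p (Fin n))} {Γ : Finset (Fml p (Fin n))} {a : Fml p (Fin n)} :
    a ∈ ce l Γ ↔ a ∈ l ∨ a ∈ Γ := by
  classical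
  rw [ce, Finset.mem_union, List.mem_toFinset]

theorem card_ce (l : List (Fml p (Fin n))) (Γ : Finset (Fml p (Fin n))) :
    (ce l Γ).card ≤ l.length + Γ.card := by
  classical
  rw [ce]
  exact (Finset.card_union_le _ _).trans (Nat.add_le_add_right l.toFinset_card_le _)

theorem cstp {κ : ℕ} {A : Set (Finset (Fml p (Fin n)))} {l : List (Fml p (Fin n))}
    {Γ : Finset (Fml p (Fin n))} (Q : List (List (Fml p (Fin n)) × Finset (Fml p (Fin n))))
    (C : List (Fml p (Fin n))) (hQ : Q.length ≤ κ) (hC : C.length ≤ κ) (hl : l.length ≤ κ)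
    (hA : ∀ q ∈ Q, ce q.1 q.2 ∈ A) (hq : ∀ q ∈ Q, q.1.length ≤ κ)
    (hq2 : ∀ q ∈ Q, ∀ a ∈ q.2, a ∈ l ∨ a ∈ Γ)
    (hCs : ∀ c ∈ C, ∃ a, (a ∈ l ∨ ∃ q ∈ Q, a ∈ q.1) ∧ c ∈ subs a)
    (hs : ∀ v : Fml p (Fin n) → Bool, (∀ c ∈ C, Resp v c) → (∀ a ∈ l, v a = false) →
      ∃ q ∈ Q, ∀ a ∈ q.1, v a = false) : CStp κ A (ce l Γ) := by
  classical
  refine ⟨Q.length, fun i => ce (Q.get i).1 (Q.get i).2, fun i => hA _ (List.get_mem _ _), ?_⟩
  refine ⟨hQ, ?_, C.toFinset, l.toFinset, C.toFinset_card_le.trans hC,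
    l.toFinset_card_le.trans hl, ?_, ?_, ?_⟩
  · intro i
    refine le_trans (Finset.card_le_card (t := (Q.get i).1.toFinset) ?_)
      ((List.toFinset_card_le _).trans (hq _ (List.get_mem _ _)))
    intro a ha
    rw [Finset.mem_sdiff, mem_ce, mem_ce] at ha
    rcases ha.1 with h | h
    · exact List.mem_toFinset.2 h
    · exact absurd (hq2 _ (List.get_mem _ _) a h) ha.2
  · intro a ha
    rw [mem_ce]
    exact Or.inl (List.mem_toFinset.1 ha)
  · intro c hc
    obtain ⟨a, h1, h2⟩ := hCs c (List.mem_toFinset.1 hc)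
    refine ⟨a, ?_, h2⟩
    rcases h1 with h1 | ⟨q, hq, h1⟩
    · exact Or.inl (mem_ce.2 (Or.inl h1))
    · obtain ⟨i, hi, rfl⟩ := List.mem_iff_getElem.1 hq
      exact Or.inr ⟨⟨i, hi⟩, mem_ce.2 (Or.inl h1)⟩
  · intro v hv hl
    obtain ⟨q, hq, h⟩ := hs v (fun c hc => hv c (List.mem_toFinset.2 hc))
      (fun a ha => hl a (List.mem_toFinset.2 ha))
    obtain ⟨i, hi, rfl⟩ := List.mem_iff_getElem.1 hq
    refine ⟨⟨i, hi⟩, fun a ha => ?_⟩
    rw [Finset.mem_sdiff, mem_ce, mem_ce] at ha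
    rcases ha.1 with h1 | h1
    · exact h a h1
    · exact absurd (hq2 _ (List.getElem_mem hi) a h1) ha.2

/-- derivation (latest cedent first) -/
inductive CD (κ : ℕ) (Lg : Finset (Fml p (Fin n)) → Prop) (A : Set (Finset (Fml p (Fin n)))) :
    List (Finset (Fml p (Fin n))) → Prop
  | nil : CD κ Lg A []
  | cons (G : Finset (Fml p (Fin n))) (π : List (Finset (Fml p (Fin n)))) : CD κ Lg A π →
      CStp κ (A ∪ {L | L ∈ π}) G → Lg G → CD κ Lg A (G :: π)

/-- There is a derivation from `A` with at most `N` new cedents; the members of `C` are among them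
or in `A`. -/
def CV (κ : ℕ) (Lg : Finset (Fml p (Fin n)) → Prop) (A : Set (Finset (Fml p (Fin n)))) (N : ℕ)
    (C : Set (Finset (Fml p (Fin n)))) : Prop :=
  ∃ π, CD κ Lg A π ∧ π.length ≤ N ∧ ∀ L ∈ C, L ∈ A ∨ L ∈ π

variable {κ : ℕ} {Lg : Finset (Fml p (Fin n)) → Prop} {A A' C C' : Set (Finset (Fml p (Fin n)))}

theorem CD.mono {π : List (Finset (Fml p (Fin n)))} (h : CD κ Lg A π) (hA : A ⊆ A') :
    CD κ Lg A' π := by
  induction h with
  | nil => exact CD.nil
  | cons B π _ hs hB ih =>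
    exact CD.cons B π ih (hs.mono (Set.union_subset_union_left _ hA)) hB

theorem CD.append {π π' : List (Finset (Fml p (Fin n)))} (h : CD κ Lg A π)
    (hC : ∀ L ∈ C, L ∈ A ∨ L ∈ π) (h' : CD κ Lg (A ∪ C) π') : CD κ Lg A (π' ++ π) := by
  induction h' with
  | nil => exact h
  | cons B π' _ hs hB ih =>
    refine CD.cons B (π' ++ π) ih (hs.mono ?_) hB
    rintro L ((hL | hL) | hL)
    · exact Or.inl hL
    · rcases hC L hL with h | h
      · exact Or.inl h
      · exact Or.inr (List.mem_append_right _ h)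
    · exact Or.inr (List.mem_append_left _ hL)

theorem CV.mono {N N' : ℕ} (h : CV κ Lg A N C) (hA : A ⊆ A') (hN : N ≤ N') (hC : C' ⊆ C) :
    CV κ Lg A' N' C' := by
  obtain ⟨π, h1, h2, h3⟩ := h
  exact ⟨π, h1.mono hA, h2.trans hN, fun L hL => (h3 L (hC hL)).imp_left fun h => hA h⟩

theorem CV.nil (h : C ⊆ A) (N : ℕ) : CV κ Lg A N C := ⟨[], CD.nil, by simp, fun _ hL => Or.inl (h hL)⟩

theorem CV.trans {N N' : ℕ} (h : CV κ Lg A N C) (h' : CV κ Lg (A ∪ C) N' C') :
    CV κ Lg A (N + N') (C ∪ C') := by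
  obtain ⟨π, h1, h2, h3⟩ := h
  obtain ⟨π', h1', h2', h3'⟩ := h'
  refine ⟨π' ++ π, h1.append h3 h1', by rw [List.length_append]; omega, ?_⟩
  have key : ∀ L ∈ C, L ∈ A ∨ L ∈ π' ++ π := fun L hL =>
    (h3 L hL).imp_right fun h => List.mem_append_right _ h
  rintro L (hL | hL)
  · exact key L hL
  · rcases h3' L hL with (h | h) | h
    · exact Or.inl h
    · exact key L h
    · exact Or.inr (List.mem_append_left _ h)

/-- composition, keeping only the new cedents -/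
theorem CV.comp {N N' : ℕ} (h : CV κ Lg A N C) (h' : CV κ Lg (A ∪ C) N' C') :
    CV κ Lg A (N + N') C' :=
  (h.trans h').mono subset_rfl le_rfl Set.subset_union_right

theorem CV.step {G : Finset (Fml p (Fin n))} (h : CStp κ A G) (hG : Lg G) : CV κ Lg A 1 {G} :=
  ⟨[G], CD.cons G [] CD.nil (h.mono Set.subset_union_left) hG, by simp, by simp⟩

/-- composition with one step -/
theorem CV.then {N : ℕ} {G : Finset (Fml p (Fin n))} (h : CV κ Lg A N C)
    (h' : CStp κ (A ∪ C) G) (hG : Lg G) : CV κ Lg A (N + 1) {G} :=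
  h.comp (CV.step h' hG)

/-- families of derivations -/
theorem CV.fam {ι : Type} (l : List ι) (c : ι → Set (Finset (Fml p (Fin n)))) {N : ℕ}
    (h : ∀ i ∈ l, CV κ Lg A N (c i)) : CV κ Lg A (l.length * N) {L | ∃ i ∈ l, L ∈ c i} := by
  induction l with
  | nil => exact CV.nil (by rintro L ⟨i, hi, _⟩; simp at hi) _
  | cons a l ih =>
    have h1 := h a (by simp)
    have h2 := ih fun i hi => h i (by simp [hi])
    refine (h1.trans (h2.mono Set.subset_union_left le_rfl subset_rfl)).mono subset_rfl ?_ ?_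
    · rw [List.length_cons]; ring_nf; omega
    · rintro L ⟨i, hi, hL⟩
      rcases List.mem_cons.1 hi with rfl | hi
      · exact Or.inl hL
      · exact Or.inr ⟨i, hi, hL⟩

theorem CV.union {N N' : ℕ} (h : CV κ Lg A N C) (h' : CV κ Lg A N' C') :
    CV κ Lg A (N + N') (C ∪ C') :=
  h.trans (h'.mono Set.subset_union_left le_rfl subset_rfl)

theorem cstp_weaken {l l' : List (Fml p (Fin n))} {Γ Γ' : Finset (Fml p (Fin n))} (hκ : 1 ≤ κ)
    (h : ce l Γ ∈ A) (hl : ∀ a ∈ l, a ∈ l' ∨ a ∈ Γ') (hΓ : ∀ a ∈ Γ, a ∈ l' ∨ a ∈ Γ') :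
    CStp κ A (ce l' Γ') := by
  classical
  refine ⟨1, fun _ => ce l Γ, fun _ => h, hκ, fun _ => ?_, ∅, ∅, by simp, by simp, by simp,
    by simp, fun v _ _ => ⟨0, fun a ha => ?_⟩⟩
  · have : ce l Γ \ ce l' Γ' = ∅ := by
      rw [Finset.sdiff_eq_empty_iff_subset]
      intro a ha
      rw [mem_ce] at ha ⊢
      rcases ha with ha | ha
      · exact hl a ha
      · exact hΓ a ha
    rw [this]
    simp
  · exfalso
    rw [Finset.mem_sdiff, mem_ce, mem_ce] at ha
    rcases ha.1 with h1 | h1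
    · exact ha.2 (hl a h1)
    · exact ha.2 (hΓ a h1)

end ced

end Pool.Agent.Work.MP_c04246_lc.Q
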