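import Mathlib
import Pool.Agent.Work.MP_c04246_lc.Q.FCalc

set_option autoImplicit false
set_option linter.unusedSectionVars false

/-! Legal cedents and conjunctions. -/

namespace Pool.Agent.Work.MP_c04246_lc.Q

open Fml

section leg

variable {p : ℕ} [Fact p.Prime] {n : ℕ}

/-- legal formula -/
def LF (w Z : ℕ) (φ : Fml p (Fin n)) : Prop := depth φ ≤ 2 ∧ Small w φ ∧ Fml.size φ ≤ Z

/-- legal cedent -/
def Lgc (w Z W : ℕ) (G : Finset (Fml p (Fin n))) : Prop := G.card ≤ W ∧ ∀ φ ∈ G, LF w Z φ

/-- conjunctions of at most `w` variables, and the constant false -/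
def At (w : ℕ) (φ : Fml p (Fin n)) : Prop := (∃ l, l.length ≤ w ∧ φ = cjl l) ∨ φ = .cst false

theorem dpt_cjl_ff (l : List (Fin n)) : dpt (some (some false)) (cjl l : Fml p (Fin n)) = 0 := by
  induction l with
  | nil => rfl
  | cons a l ih =>
    have e : (cjl (a :: l) : Fml p (Fin n)) = .bin false (.var a) (cjl l) := rfl
    rw [e]
    simp [dpt, ih]

theorem dpt_cjl (r : Option (Option Bool)) (l : List (Fin n)) :
    dpt r (cjl l : Fml p (Fin n)) ≤ 1 := by
  cases l with
  | nil => simp [cjl, dpt]
  | cons a l =>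
    have e : (cjl (a :: l) : Fml p (Fin n)) = .bin false (.var a) (cjl l) := rfl
    rw [e]
    simp only [dpt, dpt_cjl_ff]
    split_ifs <;> simp

theorem dpt_At {w : ℕ} (r : Option (Option Bool)) {φ : Fml p (Fin n)} (h : At w φ) :
    dpt r φ ≤ 1 := by
  rcases h with ⟨l, _, rfl⟩ | rfl
  · exact dpt_cjl r l
  · simp [dpt]

theorem card_vars_cjl (l : List (Fin n)) : (vars (cjl l : Fml p (Fin n))).card ≤ l.length := by
  classical
  induction l with
  | nil => simp [cjl, vars]
  | cons a l ih =>
    have e : (cjl (a :: l) : Fml p (Fin n)) = .bin false (.var a) (cjl l) := rfl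
    rw [e]
    simp only [vars]
    refine (@Finset.card_union_le (Fin n) (fun a b => Classical.propDecidable (a = b)) _ _).trans ?_
    simp only [Finset.card_singleton, List.length_cons]
    omega

theorem small_cjl {w : ℕ} {l : List (Fin n)} (h : l.length ≤ w) :
    Small w (cjl l : Fml p (Fin n)) := by
  classical
  induction l with
  | nil =>
    intro c a b hb
    simp [cjl, subs] at hb
  | cons i l ih =>
    have e : (cjl (i :: l) : Fml p (Fin n)) = .bin false (.var i) (cjl l) := rfl
    intro c a b hb
    rw [e] at hb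
    simp only [subs, Finset.mem_insert, Finset.mem_union, Finset.mem_singleton] at hb
    rcases hb with hb | hb | hb
    · rw [hb, ← e]
      exact (card_vars_cjl _).trans h
    · exact absurd hb (by simp)
    · exact ih (by simp at h; omega) c a b hb

theorem small_At {w : ℕ} {φ : Fml p (Fin n)} (h : At w φ) : Small w φ := by
  rcases h with ⟨l, hl, rfl⟩ | rfl
  · exact small_cjl hl
  · intro c a b hb
    simp [subs] at hb

theorem size_cjl (l : List (Fin n)) : Fml.size (cjl l : Fml p (Fin n)) = 2 * l.length + 1 := by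
  induction l with
  | nil => rfl
  | cons a l ih =>
    have e : (cjl (a :: l) : Fml p (Fin n)) = .bin false (.var a) (cjl l) := rfl
    rw [e]
    simp only [Fml.size, ih, List.length_cons]
    omega

theorem size_At {w : ℕ} {φ : Fml p (Fin n)} (h : At w φ) : Fml.size φ ≤ 2 * w + 1 := by
  rcases h with ⟨l, hl, rfl⟩ | rfl
  · rw [size_cjl]
    omega
  · simp [Fml.size]

theorem LF_At {w Z : ℕ} {φ : Fml p (Fin n)} (h : At w φ) (hZ : 2 * w + 1 ≤ Z) : LF w Z φ :=
  ⟨(dpt_At none h).trans (by omega), small_At h, (size_At h).trans hZ⟩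

theorem small_neg {w : ℕ} {φ : Fml p (Fin n)} (h : Small w φ) : Small w (.neg φ) := by
  classical
  intro c a b hb
  simp only [subs, Finset.mem_insert, reduceCtorEq, false_or] at hb
  exact h c a b hb

theorem LF_negAt {w Z : ℕ} {φ : Fml p (Fin n)} (h : At w φ) (hZ : 2 * w + 2 ≤ Z) :
    LF w Z (.neg φ) := by
  refine ⟨?_, small_neg (small_At h), ?_⟩
  · have := dpt_At (some none) h
    simp only [depth, dpt]
    split_ifs <;> omega
  · have := size_At h
    simp only [Fml.size]
    omega

theorem LF_var {w Z : ℕ} (i : Fin n) (hZ : 1 ≤ Z) : LF w Z (.var i : Fml p (Fin n)) := by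
  refine ⟨by simp [depth, dpt], ?_, by simpa [Fml.size] using hZ⟩
  intro c a b hb
  simp [subs] at hb

theorem LF_negvar {w Z : ℕ} (i : Fin n) (hZ : 2 ≤ Z) :
    LF w Z (.neg (.var i) : Fml p (Fin n)) := by
  refine ⟨by simp [depth, dpt], small_neg ?_, by simpa [Fml.size] using hZ⟩
  intro c a b hb
  simp [subs] at hb

theorem LF_MFl {w Z N : ℕ} (c : ZMod p) {l : List (Fml p (Fin n))} (h : ∀ φ ∈ l, At w φ)
    (hl : l.length ≤ N) (hZ : N * (2 * w + 1) + 1 ≤ Z) : LF w Z (MFl c l) := by
  classical
  refine ⟨?_, ?_, ?_⟩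
  · simp only [MFl, depth, dpt]
    have : (Finset.univ.sup fun j => dpt none (l.get j)) ≤ 1 :=
      Finset.sup_le fun j _ => dpt_At none (h _ (List.get_mem _ _))
    omega
  · intro c' a b hb
    simp only [MFl, subs, Finset.mem_insert, Finset.mem_biUnion, Finset.mem_univ, true_and,
      reduceCtorEq, false_or] at hb
    obtain ⟨j, hj⟩ := hb
    exact small_At (h _ (List.get_mem _ _)) c' a b hj
  · simp only [MFl, Fml.size]
    have h1 : ∑ j, Fml.size (l.get j) ≤ ∑ _j : Fin l.length, (2 * w + 1) :=
      Finset.sum_le_sum fun j _ => size_At (h _ (List.get_mem _ _))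
    rw [Finset.sum_const, Finset.card_univ, Fintype.card_fin, smul_eq_mul] at h1
    have h2 : l.length * (2 * w + 1) ≤ N * (2 * w + 1) := Nat.mul_le_mul_right _ hl
    omega

theorem Lgc_ce {w Z W : ℕ} {l : List (Fml p (Fin n))} {Γ : Finset (Fml p (Fin n))}
    (h1 : ∀ φ ∈ l, LF w Z φ) (h2 : ∀ φ ∈ Γ, LF w Z φ) (h3 : l.length + Γ.card ≤ W) :
    Lgc w Z W (ce l Γ) := by
  refine ⟨(card_ce l Γ).trans h3, fun φ hφ => ?_⟩
  rcases mem_ce.1 hφ with h | h
  · exact h1 φ h
  · exact h2 φ h

theorem resp_cst {v : Fml p (Fin n) → Bool} {b : Bool} (h : Resp v (.cst b)) :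
    v (.cst b) = b := h

theorem resp_neg {v : Fml p (Fin n) → Bool} {a : Fml p (Fin n)} (h : Resp v (.neg a)) :
    v (.neg a) = !(v a) := h

theorem resp_cjl {v : Fml p (Fin n) → Bool} {i : Fin n} {l : List (Fin n)}
    (h : Resp v (cjl (i :: l))) : v (cjl (i :: l)) = (v (.var i) && v (cjl l)) := by
  have h' : v (cjl (i :: l)) = if false = true then (v (.var i) || v (cjl l))
      else (v (.var i) && v (cjl l)) := h
  simpa using h'

variable {κ w Z W : ℕ} {A : Set (Finset (Fml p (Fin n)))}

theorem conj_elim (hκ : 3 ≤ κ) (hZ : 2 * w + 2 ≤ Z) (hW : 2 ≤ W) (l : List (Fin n))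
    (hl : l.length ≤ w) {j : Fin n} (hj : j ∈ l) :
    CV κ (Lgc w Z W) A l.length {ce [.neg (cjl l), .var j] ∅} := by
  classical
  induction l with
  | nil => simp at hj
  | cons i l ih =>
    have hl' : l.length ≤ w := by simp at hl; omega
    have hat : At w (cjl (i :: l) : Fml p (Fin n)) := Or.inl ⟨_, hl, rfl⟩
    have hleg : Lgc w Z W (ce [.neg (cjl (i :: l)), .var j] ∅ : Finset (Fml p (Fin n))) := by
      refine Lgc_ce ?_ (by simp) (by simpa using hW)
      intro φ hφ
      simp only [List.mem_cons, List.not_mem_nil, or_false] at hφ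
      rcases hφ with rfl | rfl
      · exact LF_negAt hat hZ
      · exact LF_var _ (by omega)
    have hsub : (cjl (i :: l) : Fml p (Fin n)) ∈ subs (.neg (cjl (i :: l)) : Fml p (Fin n)) := by
      simp [subs, self_mem_subs]
    by_cases hij : j = i
    · subst hij
      refine (CV.step (cstp [] [.neg (cjl (j :: l)), cjl (j :: l)] (by simp)
        (by simp; omega) (by simp; omega) (by simp) (by simp) (by simp) ?_ ?_) hleg).mono
        subset_rfl (by simp) subset_rfl
      · intro c hc
        refine ⟨.neg (cjl (j :: l)), Or.inl (by simp), ?_⟩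
        simp only [List.mem_cons, List.not_mem_nil, or_false] at hc
        rcases hc with rfl | rfl
        · exact self_mem_subs _
        · exact hsub
      · intro v hv hf
        exfalso
        have r1 := resp_neg (hv (.neg (cjl (j :: l))) (by simp))
        have r2 := resp_cjl (hv (cjl (j :: l)) (by simp))
        have f1 := hf (.neg (cjl (j :: l))) (by simp)
        have f2 := hf (.var j) (by simp)
        rw [f1, r2, f2] at r1
        simp at r1
    · have hj' : j ∈ l := by
        rcases List.mem_cons.1 hj with h | h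
        · exact absurd h hij
        · exact h
      refine ((ih hl' hj').then (cstp [([.neg (cjl l), .var j], ∅)]
        [.neg (cjl (i :: l)), cjl (i :: l), .neg (cjl l)] (by simp; omega)
        (by simp; omega) (by simp; omega) (by simp) (by simp; omega) (by simp) ?_ ?_) hleg).mono
        subset_rfl (by simp) subset_rfl
      · intro c hc
        simp only [List.mem_cons, List.not_mem_nil, or_false] at hc
        rcases hc with rfl | rfl | rfl
        · exact ⟨.neg (cjl (i :: l)), Or.inl (by simp), self_mem_subs _⟩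
        · exact ⟨.neg (cjl (i :: l)), Or.inl (by simp), hsub⟩
        · exact ⟨.neg (cjl l), Or.inr ⟨_, List.mem_singleton_self _, by simp⟩, self_mem_subs _⟩
      · intro v hv hf
        refine ⟨_, List.mem_singleton_self _, ?_⟩
        have r1 := resp_neg (hv (.neg (cjl (i :: l))) (by simp))
        have r2 := resp_cjl (hv (cjl (i :: l)) (by simp))
        have r3 := resp_neg (hv (.neg (cjl l)) (by simp))
        have f1 := hf (.neg (cjl (i :: l))) (by simp)
        have f2 := hf (.var j) (by simp)
        intro a ha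
        simp only [List.mem_cons, List.not_mem_nil, or_false] at ha
        rcases ha with rfl | rfl
        · rw [r3]
          rw [f1, r2] at r1
          cases h1 : v (cjl l)
          · rw [h1] at r1
            simp at r1
          · rfl
        · exact f2

theorem conj_intro (hκ : 3 ≤ κ) (hZ : 2 * w + 2 ≤ Z) (hW : 3 ≤ W) (Γ0 : List (Fml p (Fin n)))
    (hΓ0 : Γ0.length ≤ 2) (hΓl : ∀ φ ∈ Γ0, LF w Z φ) (l : List (Fin n))
    (hl : l.length ≤ w) (hA : ∀ j ∈ l, ce (Γ0 ++ [.var j]) ∅ ∈ A) :
    CV κ (Lgc w Z W) A (l.length + 1) {ce (Γ0 ++ [cjl l]) ∅} := by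
  classical
  induction l with
  | nil =>
    refine CV.step (cstp [] [.cst true] (by simp) (by simp; omega) (by simp; omega) (by simp)
      (by simp) (by simp) ?_ ?_) (Lgc_ce ?_ (by simp) (by simp; omega))
    · intro c hc
      refine ⟨cjl [], Or.inl (by simp), ?_⟩
      simp only [List.mem_cons, List.not_mem_nil, or_false] at hc
      rw [hc]
      exact self_mem_subs _
    · intro v hv hf
      exfalso
      have r1 := resp_cst (hv (.cst true) (by simp))
      have f1 := hf (cjl []) (by simp)
      have e : (cjl [] : Fml p (Fin n)) = .cst true := rfl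
      rw [e, r1] at f1
      simp at f1
    · intro φ hφ
      simp only [List.mem_append, List.mem_cons, List.not_mem_nil, or_false] at hφ
      rcases hφ with h | rfl
      · exact hΓl φ h
      · exact LF_At (Or.inl ⟨[], by simp, rfl⟩) (by omega)
  | cons i l ih =>
    have hl' : l.length ≤ w := by simp at hl; omega
    refine ((ih hl' fun j hj => hA j (by simp [hj])).then
      (cstp [(Γ0 ++ [.var i], ∅), (Γ0 ++ [cjl l], ∅)] [cjl (i :: l)] (by simp; omega)
      (by simp; omega) (by simp; omega) ?_ (by simp; omega) (by simp) ?_ ?_)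
      (Lgc_ce ?_ (by simp) (by simp; omega))).mono subset_rfl (by simp) subset_rfl
    · intro q hq
      simp only [List.mem_cons, List.not_mem_nil, or_false] at hq
      rcases hq with rfl | rfl
      · exact Or.inl (hA i (by simp))
      · exact Or.inr rfl
    · intro c hc
      refine ⟨cjl (i :: l), Or.inl (by simp), ?_⟩
      simp only [List.mem_cons, List.not_mem_nil, or_false] at hc
      rw [hc]
      exact self_mem_subs _
    · intro v hv hf
      have r1 := resp_cjl (hv (cjl (i :: l)) (by simp))
      have f1 := hf (cjl (i :: l)) (by simp)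
      rw [f1] at r1
      cases h1 : v (.var i)
      · refine ⟨(Γ0 ++ [.var i], ∅), by simp, ?_⟩
        intro a ha
        simp only [List.mem_append, List.mem_cons, List.not_mem_nil, or_false] at ha
        rcases ha with ha | rfl
        · exact hf a (by simp [ha])
        · exact h1
      · refine ⟨(Γ0 ++ [cjl l], ∅), by simp, ?_⟩
        intro a ha
        simp only [List.mem_append, List.mem_cons, List.not_mem_nil, or_false] at ha
        rcases ha with ha | rfl
        · exact hf a (by simp [ha])
        · rw [h1] at r1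
          simpa using r1.symm
    · intro φ hφ
      simp only [List.mem_append, List.mem_cons, List.not_mem_nil, or_false] at hφ
      rcases hφ with h | rfl
      · exact hΓl φ h
      · exact LF_At (Or.inl ⟨_, hl, rfl⟩) (by omega)

theorem At_cj {w : ℕ} {t : Finset (Fin n)} (h : t.card ≤ w) : At w (cj t : Fml p (Fin n)) :=
  Or.inl ⟨_, by simpa using h, rfl⟩

theorem conj3 (hκ : 3 ≤ κ) (hZ : 2 * w + 2 ≤ Z) (hW : 3 ≤ W) {S T U : Finset (Fin n)}
    (hS : S ⊆ T ∪ U) (hT : T.card ≤ w) (hU : U.card ≤ w) (hSw : S.card ≤ w) :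
    CV κ (Lgc w Z W) A ((w + 2) ^ 2) {ce [.neg (cj T), .neg (cj U), cj S] ∅} := by
  classical
  have hl2 : ∀ φ ∈ ([.neg (cj T), .neg (cj U)] : List (Fml p (Fin n))), LF w Z φ := by
    intro φ hφ
    simp only [List.mem_cons, List.not_mem_nil, or_false] at hφ
    rcases hφ with rfl | rfl
    · exact LF_negAt (At_cj hT) hZ
    · exact LF_negAt (At_cj hU) hZ
  have h1 : ∀ j ∈ S.sort (· ≤ ·), CV κ (Lgc w Z W) A (w + 1)
      {ce ([.neg (cj T), .neg (cj U)] ++ [.var j]) ∅} := by
    intro j hj
    have hj' : j ∈ T ∪ U := hS (by simpa using hj)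
    have hleg : Lgc w Z W (ce ([.neg (cj T), .neg (cj U)] ++ [.var j]) ∅ :
        Finset (Fml p (Fin n))) := by
      refine Lgc_ce ?_ (by simp) (by simpa using hW)
      intro φ hφ
      rcases List.mem_append.1 hφ with h | h
      · exact hl2 φ h
      · rw [List.mem_singleton.1 h]
        exact LF_var _ (by omega)
    rcases Finset.mem_union.1 hj' with h | h
    · have k1 := conj_elim (κ := κ) (W := W) (A := A) hκ hZ (by omega) (T.sort (· ≤ ·))
        (by simpa using hT) (j := j) (by simpa using h)
      refine (k1.then (cstp_weaken (l := [.neg (cj T), .var j]) (Γ := ∅) (by omega)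
        (Or.inr rfl) ?_ (by simp)) hleg).mono subset_rfl (by simpa using hT) subset_rfl
      intro a ha
      simp only [List.mem_append, List.mem_cons, List.not_mem_nil, or_false] at ha ⊢
      tauto
    · have k1 := conj_elim (κ := κ) (W := W) (A := A) hκ hZ (by omega) (U.sort (· ≤ ·))
        (by simpa using hU) (j := j) (by simpa using h)
      refine (k1.then (cstp_weaken (l := [.neg (cj U), .var j]) (Γ := ∅) (by omega)
        (Or.inr rfl) ?_ (by simp)) hleg).mono subset_rfl (by simpa using hU) subset_rfl
      intro a ha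
      simp only [List.mem_append, List.mem_cons, List.not_mem_nil, or_false] at ha ⊢
      tauto
  have h2 := CV.fam (S.sort (· ≤ ·)) (fun j => ({ce ([.neg (cj T), .neg (cj U)] ++ [.var j]) ∅} :
    Set (Finset (Fml p (Fin n))))) h1
  refine (h2.comp (conj_intro hκ hZ hW [.neg (cj T), .neg (cj U)] (by simp) hl2
    (S.sort (· ≤ ·)) (by simpa using hSw) ?_)).mono subset_rfl ?_ ?_
  · intro j hj
    exact Or.inr ⟨j, hj, rfl⟩
  · rw [Finset.length_sort]
    have : S.card * (w + 1) ≤ w * (w + 1) := Nat.mul_le_mul_right _ hSw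
    nlinarith
  · intro L hL
    exact hL

end leg

end Pool.Agent.Work.MP_c04246_lc.Q
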