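import Mathlib
import Pool.Agent.Work.MP_c04246_lc.Q.FConj

set_option autoImplicit false
set_option linter.unusedSectionVars false

/-! Multiplication of polynomials. -/

namespace Pool.Agent.Work.MP_c04246_lc.Q

open Fml

variable {p : ℕ} [Fact p.Prime] {n : ℕ}

theorem vsum_append (v : Fml p (Fin n) → Bool) (l l' : List (Fml p (Fin n))) :
    vsum v (l ++ l') = vsum v l + vsum v l' := by
  simp [vsum]

theorem vsum_cons (v : Fml p (Fin n) → Bool) (a : Fml p (Fin n)) (l : List (Fml p (Fin n))) :
    vsum v (a :: l) = (if v a then 1 else 0) + vsum v l := by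
  simp [vsum]

variable {κ w Z W N : ℕ}

/-- replacement of conjunctions by equivalent ones -/
theorem repl (hκ : 4 ≤ κ) (hZ : N * (2 * w + 1) + 1 ≤ Z) (Γ0 : List (Fml p (Fin n)))
    (hΓ0 : Γ0.length ≤ 1) (hΓl : ∀ φ ∈ Γ0, LF w Z φ) (Γ : Finset (Fml p (Fin n)))
    (hΓ : ∀ φ ∈ Γ, LF w Z φ) (hW : Γ.card + 3 ≤ W) (c : ZMod p) :
    ∀ (as bs pre : List (Fml p (Fin n))) (A : Set (Finset (Fml p (Fin n)))),
    as.length = bs.length → (∀ φ ∈ pre, At w φ) → (∀ φ ∈ as, At w φ) → (∀ φ ∈ bs, At w φ) →
    pre.length + as.length ≤ N →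
    (∀ q ∈ as.zip bs, ce (Γ0 ++ [.neg q.1, q.2]) ∅ ∈ A ∧ ce (Γ0 ++ [.neg q.2, q.1]) ∅ ∈ A) →
    ce (Γ0 ++ [MFl c (pre ++ as)]) Γ ∈ A →
    CV κ (Lgc w Z W) A as.length {ce (Γ0 ++ [MFl c (pre ++ bs)]) Γ} := by
  intro as
  induction as with
  | nil =>
    intro bs pre A h1 _ _ _ _ _ h2
    have : bs = [] := List.length_eq_zero_iff.1 h1.symm
    subst this
    exact CV.nil (by simpa using h2) _
  | cons a as ih =>
    intro bs pre A h1 hpre has hbs hN hq h2
    obtain ⟨b, bs, rfl⟩ : ∃ b bs', bs = b :: bs' := by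
      cases bs with
      | nil => simp at h1
      | cons b bs => exact ⟨b, bs, rfl⟩
    have h1' : as.length = bs.length := by simpa using h1
    obtain ⟨q1, q2⟩ := hq (a, b) (by simp)
    simp only at q1 q2
    have ha : At w a := has a (by simp)
    have hb : At w b := hbs b (by simp)
    have hst : CStp κ A (ce (Γ0 ++ [MFl c (pre ++ b :: as)]) Γ) := by
      refine cstp [(Γ0 ++ [MFl c (pre ++ a :: as)], Γ), (Γ0 ++ [.neg a, b], ∅),
        (Γ0 ++ [.neg b, a], ∅)] [MFl c (pre ++ a :: as), MFl c (pre ++ b :: as), .neg a, .neg b]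
        (by simp; omega) (by simp; omega) (by simp; omega) ?_ ?_ ?_ ?_ ?_
      · intro q hq
        simp only [List.mem_cons, List.not_mem_nil, or_false] at hq
        rcases hq with rfl | rfl | rfl
        · exact h2
        · exact q1
        · exact q2
      · intro q hq
        simp only [List.mem_cons, List.not_mem_nil, or_false] at hq
        rcases hq with rfl | rfl | rfl <;> simp <;> omega
      · intro q hq x hx
        simp only [List.mem_cons, List.not_mem_nil, or_false] at hq
        rcases hq with rfl | rfl | rfl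
        · exact Or.inr hx
        · simp at hx
        · simp at hx
      · intro x hx
        simp only [List.mem_cons, List.not_mem_nil, or_false] at hx
        rcases hx with rfl | rfl | rfl | rfl
        · exact ⟨_, Or.inr ⟨(Γ0 ++ [MFl c (pre ++ a :: as)], Γ), by simp, by simp⟩, self_mem_subs _⟩
        · exact ⟨_, Or.inl (by simp), self_mem_subs _⟩
        · exact ⟨_, Or.inr ⟨(Γ0 ++ [.neg a, b], ∅), by simp, by simp⟩, self_mem_subs _⟩
        · exact ⟨_, Or.inr ⟨(Γ0 ++ [.neg b, a], ∅), by simp, by simp⟩, self_mem_subs _⟩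
      · intro v hv hf
        have r1 := resp_MFl (hv (MFl c (pre ++ a :: as)) (by simp))
        have r2 := resp_MFl (hv (MFl c (pre ++ b :: as)) (by simp))
        have r3 := resp_neg (hv (.neg a) (by simp))
        have r4 := resp_neg (hv (.neg b) (by simp))
        have f0 : ∀ x ∈ Γ0, v x = false := fun x hx => hf x (by simp [hx])
        have f1 := hf (MFl c (pre ++ b :: as)) (by simp)
        by_cases hab : v a = v b
        · refine ⟨(Γ0 ++ [MFl c (pre ++ a :: as)], Γ), by simp, ?_⟩
          intro x hx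
          simp only [List.mem_append, List.mem_cons, List.not_mem_nil, or_false] at hx
          rcases hx with hx | rfl
          · exact f0 x hx
          · rw [r1, ← f1, r2, vsum_append, vsum_append, vsum_cons, vsum_cons, hab]
        · cases hva : v a
          · have hvb : v b = true := by
              cases h : v b
              · exact absurd (hva.trans h.symm) hab
              · rfl
            refine ⟨(Γ0 ++ [.neg b, a], ∅), by simp, ?_⟩
            intro x hx
            simp only [List.mem_append, List.mem_cons, List.not_mem_nil, or_false] at hx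
            rcases hx with hx | rfl | rfl
            · exact f0 x hx
            · rw [r4, hvb]; rfl
            · exact hva
          · have hvb : v b = false := by
              cases h : v b
              · rfl
              · exact absurd (hva.trans h.symm) hab
            refine ⟨(Γ0 ++ [.neg a, b], ∅), by simp, ?_⟩
            intro x hx
            simp only [List.mem_append, List.mem_cons, List.not_mem_nil, or_false] at hx
            rcases hx with hx | rfl | rfl
            · exact f0 x hx
            · rw [r3, hva]; rfl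
            · exact hvb
    have hleg : Lgc w Z W (ce (Γ0 ++ [MFl c (pre ++ b :: as)]) Γ) := by
      refine Lgc_ce ?_ hΓ (by simp; omega)
      intro φ hφ
      rcases List.mem_append.1 hφ with h | h
      · exact hΓl φ h
      · rw [List.mem_singleton.1 h]
        refine LF_MFl c ?_ (N := N) (by simp at hN ⊢; omega) hZ
        intro ψ hψ
        simp only [List.mem_append, List.mem_cons] at hψ
        rcases hψ with h | rfl | h
        · exact hpre ψ h
        · exact hb
        · exact has ψ (by simp [h])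
    have e1 : pre ++ b :: as = (pre ++ [b]) ++ as := by simp
    have e2 : pre ++ b :: bs = (pre ++ [b]) ++ bs := by simp
    have h3 := ih bs (pre ++ [b]) (A ∪ {ce (Γ0 ++ [MFl c (pre ++ b :: as)]) Γ}) h1'
      (by
        intro ψ hψ
        simp only [List.mem_append, List.mem_cons, List.not_mem_nil, or_false] at hψ
        rcases hψ with h | rfl
        · exact hpre ψ h
        · exact hb)
      (fun φ hφ => has φ (by simp [hφ])) (fun φ hφ => hbs φ (by simp [hφ]))
      (by simp at hN ⊢; omega)
      (fun q hq' => by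
        obtain ⟨k1, k2⟩ := hq q (by rw [List.zip_cons_cons]; exact List.mem_cons_of_mem _ hq')
        exact ⟨Or.inl k1, Or.inl k2⟩)
      (Or.inr (by rw [e1]; rfl))
    rw [← e2] at h3
    refine ((CV.step hst hleg).comp h3).mono subset_rfl ?_ subset_rfl
    rw [List.length_cons]
    omega

theorem zip_map_self {α β : Type} (L : List α) (f g : α → β) :
    (L.map f).zip (L.map g) = L.map fun a => (f a, g a) := by
  induction L with
  | nil => rfl
  | cons a L ih => simp [ih]

/-- multiplication by a monomial -/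
theorem mulU (hκ : 4 ≤ κ) (hZ : N * (2 * w + 1) + 1 ≤ Z) (hZ2 : 2 * w + 2 ≤ Z)
    {A : Set (Finset (Fml p (Fin n)))} (Γ : Finset (Fml p (Fin n)))
    (hΓ : ∀ φ ∈ Γ, LF w Z φ) (hW : Γ.card + 3 ≤ W) (M : List (Finset (Fin n)))
    (U : Finset (Fin n)) (hM : ∀ T ∈ M, T.card ≤ w ∧ (U ∪ T).card ≤ w) (hU : U.card ≤ w)
    (hN : M.length ≤ N) (h0 : ce [MFl 0 (M.map cj)] Γ ∈ A) :
    CV κ (Lgc w Z W) A (M.length * (3 * (w + 2) ^ 2 + 5) + 3)
      {ce [MFl 0 (M.map fun T => cj (U ∪ T))] Γ} := by
  classical
  by_cases hM0 : M = []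
  · subst hM0
    exact CV.nil (by simpa using h0) _
  have hUat : At w (cj U : Fml p (Fin n)) := At_cj hU
  have hfat : At w (.cst false : Fml p (Fin n)) := Or.inr rfl
  -- the auxiliary cedents
  have h1 : ∀ T ∈ M, CV κ (Lgc w Z W) A (3 * (w + 2) ^ 2 + 3)
      {ce ([.neg (cj U)] ++ [.neg (cj T), cj (U ∪ T)]) ∅,
        ce ([.neg (cj U)] ++ [.neg (cj (U ∪ T)), cj T]) ∅,
        ce ([cj U] ++ [.neg (.cst false), cj (U ∪ T)]) ∅,
        ce ([cj U] ++ [.neg (cj (U ∪ T)), .cst false]) ∅} := by
    intro T hT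
    obtain ⟨hT1, hT2⟩ := hM T hT
    have k1 := conj3 (κ := κ) (W := W) (A := A) (by omega) hZ2 (by omega) (S := U ∪ T) (T := U)
      (U := T) subset_rfl hU hT1 hT2
    have k2 := conj3 (κ := κ) (W := W) (A := A) (by omega) hZ2 (by omega) (S := T) (T := U ∪ T)
      (U := U ∪ T) (by intro i hi; simp [hi]) hT2 hT2 hT1
    have k3 := conj3 (κ := κ) (W := W) (A := A) (by omega) hZ2 (by omega) (S := U) (T := U ∪ T)
      (U := U ∪ T) (by intro i hi; simp [hi]) hT2 hT2 hU
    have m2 := k2.then (G := ce ([.neg (cj U)] ++ [.neg (cj (U ∪ T)), cj T]) ∅)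
      (cstp_weaken (by omega) (Or.inr rfl) (by simp) (by simp))
      (Lgc_ce (by
        intro φ hφ
        simp only [List.mem_append, List.mem_cons, List.not_mem_nil, or_false] at hφ
        rcases hφ with rfl | rfl | rfl
        · exact LF_negAt hUat hZ2
        · exact LF_negAt (At_cj hT2) hZ2
        · exact LF_At (At_cj hT1) (by omega)) (by simp) (by simp; omega))
    have m3 := k3.then (G := ce ([cj U] ++ [.neg (cj (U ∪ T)), .cst false]) ∅)
      (cstp_weaken (by omega) (Or.inr rfl) (by simp) (by simp))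
      (Lgc_ce (by
        intro φ hφ
        simp only [List.mem_append, List.mem_cons, List.not_mem_nil, or_false] at hφ
        rcases hφ with rfl | rfl | rfl
        · exact LF_At hUat (by omega)
        · exact LF_negAt (At_cj hT2) hZ2
        · exact LF_At hfat (by omega)) (by simp) (by simp; omega))
    have m4 : CV κ (Lgc w Z W) A 1
        {ce ([cj U] ++ [.neg (.cst false), cj (U ∪ T)]) ∅} := by
      refine CV.step (cstp [] [.neg (.cst false), .cst false] (by simp) (by simp; omega)
        (by simp; omega) (by simp) (by simp) (by simp) ?_ ?_) (Lgc_ce ?_ (by simp)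
        (by simp; omega))
      · intro c hc
        refine ⟨.neg (.cst false), Or.inl (by simp), ?_⟩
        simp only [List.mem_cons, List.not_mem_nil, or_false] at hc
        rcases hc with rfl | rfl
        · exact self_mem_subs _
        · simp [subs]
      · intro v hv hf
        exfalso
        have r1 := resp_neg (hv (.neg (.cst false)) (by simp))
        have r2 := resp_cst (hv (.cst false) (by simp))
        have f1 := hf (.neg (.cst false)) (by simp)
        rw [f1, r2] at r1
        simp at r1
      · intro φ hφ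
        simp only [List.mem_append, List.mem_cons, List.not_mem_nil, or_false] at hφ
        rcases hφ with rfl | rfl | rfl
        · exact LF_At hUat (by omega)
        · exact LF_negAt hfat hZ2
        · exact LF_At (At_cj hT2) (by omega)
    refine (((k1.union m2).union m4).union m3).mono subset_rfl (by ring_nf; omega) ?_
    intro L hL
    simp only [Set.mem_insert_iff, Set.mem_singleton_iff] at hL
    simp only [Set.mem_union, Set.mem_singleton_iff]
    rcases hL with rfl | rfl | rfl | rfl
    · exact Or.inl (Or.inl (Or.inl rfl))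
    · exact Or.inl (Or.inl (Or.inr rfl))
    · exact Or.inl (Or.inr rfl)
    · exact Or.inr rfl
  have h2 := CV.fam M _ h1
  set C1 : Set (Finset (Fml p (Fin n))) := {L | ∃ T ∈ M, L ∈
      ({ce ([.neg (cj U)] ++ [.neg (cj T), cj (U ∪ T)]) ∅,
        ce ([.neg (cj U)] ++ [.neg (cj (U ∪ T)), cj T]) ∅,
        ce ([cj U] ++ [.neg (.cst false), cj (U ∪ T)]) ∅,
        ce ([cj U] ++ [.neg (cj (U ∪ T)), .cst false]) ∅} :
        Set (Finset (Fml p (Fin n))))} with hC1
  have hMat : ∀ φ ∈ M.map (cj (p := p)), At w φ := by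
    intro φ hφ
    obtain ⟨T, hT, rfl⟩ := List.mem_map.1 hφ
    exact At_cj (hM T hT).1
  have hMat2 : ∀ φ ∈ M.map (fun T => cj (p := p) (U ∪ T)), At w φ := by
    intro φ hφ
    obtain ⟨T, hT, rfl⟩ := List.mem_map.1 hφ
    exact At_cj (hM T hT).2
  -- the case where the monomial is true
  have h3 : CV κ (Lgc w Z W) (A ∪ C1) (1 + M.length)
      {ce ([.neg (cj U)] ++ [MFl 0 (M.map fun T => cj (U ∪ T))]) Γ} := by
    have s1 : CV κ (Lgc w Z W) (A ∪ C1) 1 {ce ([.neg (cj U)] ++ [MFl 0 (M.map cj)]) Γ} := by
      refine CV.step (cstp_weaken (by omega) (Or.inl h0) (by simp) (by intro a ha; exact Or.inr ha))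
        (Lgc_ce ?_ hΓ (by simp; omega))
      intro φ hφ
      simp only [List.mem_append, List.mem_cons, List.not_mem_nil, or_false] at hφ
      rcases hφ with rfl | rfl
      · exact LF_negAt hUat hZ2
      · exact LF_MFl 0 hMat (by simpa using hN) hZ
    refine s1.comp ?_
    have := repl (p := p) (N := N) (κ := κ) hκ hZ [.neg (cj U)] (by simp)
      (by
        intro φ hφ
        rw [List.mem_singleton.1 hφ]
        exact LF_negAt hUat hZ2) Γ hΓ hW (0 : ZMod p) (M.map cj) (M.map fun T => cj (U ∪ T)) []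
      ((A ∪ C1) ∪ {ce ([.neg (cj U)] ++ [MFl 0 (M.map cj)]) Γ}) (by simp) (by simp) hMat hMat2
      (by simpa using hN) ?_ (Or.inr (by simp))
    · simpa using this
    · intro q hq
      rw [zip_map_self, List.mem_map] at hq
      obtain ⟨T, hT, rfl⟩ := hq
      exact ⟨Or.inl (Or.inr ⟨T, hT, by simp⟩), Or.inl (Or.inr ⟨T, hT, by simp⟩)⟩
  -- the case where the monomial is false
  have h4 : CV κ (Lgc w Z W) (A ∪ C1) (1 + M.length)
      {ce ([cj U] ++ [MFl 0 (M.map fun T => cj (U ∪ T))]) ∅} := by
    have hfl : ∀ φ ∈ M.map (fun _ : Finset (Fin n) => (.cst false : Fml p (Fin n))), At w φ := by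
      intro φ hφ
      obtain ⟨T, hT, rfl⟩ := List.mem_map.1 hφ
      exact hfat
    have s1 : CV κ (Lgc w Z W) (A ∪ C1) 1
        {ce ([cj U] ++ [MFl 0 (M.map fun _ => .cst false)]) ∅} := by
      refine CV.step (cstp [] [MFl 0 (M.map fun _ => .cst false), .cst false] (by simp)
        (by simp; omega) (by simp; omega) (by simp) (by simp) (by simp) ?_ ?_)
        (Lgc_ce ?_ (by simp) (by simp; omega))
      · intro c hc
        refine ⟨MFl 0 (M.map fun _ => .cst false), Or.inl (by simp), ?_⟩
        simp only [List.mem_cons, List.not_mem_nil, or_false] at hc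
        rcases hc with rfl | rfl
        · exact self_mem_subs _
        · obtain ⟨T, hT⟩ := List.exists_mem_of_ne_nil M hM0
          exact mem_subs_MFl (List.mem_map.2 ⟨T, hT, rfl⟩) (self_mem_subs _)
      · intro v hv hf
        exfalso
        have r1 := resp_MFl (hv (MFl 0 (M.map fun _ => .cst false)) (by simp))
        have r2 := resp_cst (hv (.cst false) (by simp))
        have f1 := hf (MFl 0 (M.map fun _ => .cst false)) (by simp)
        rw [f1] at r1
        have : vsum v (M.map fun _ => (.cst false : Fml p (Fin n))) = 0 := by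
          simp [vsum, r2]
        rw [this] at r1
        simp at r1
      · intro φ hφ
        simp only [List.mem_append, List.mem_cons, List.not_mem_nil, or_false] at hφ
        rcases hφ with rfl | rfl
        · exact LF_At hUat (by omega)
        · exact LF_MFl 0 hfl (by simpa using hN) hZ
    refine s1.comp ?_
    have := repl (p := p) (N := N) (κ := κ) hκ hZ [cj U] (by simp)
      (by
        intro φ hφ
        rw [List.mem_singleton.1 hφ]
        exact LF_At hUat (by omega)) ∅ (by simp) (W := W) (by simp; omega) (0 : ZMod p)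
      (M.map fun _ => .cst false) (M.map fun T => cj (U ∪ T)) []
      ((A ∪ C1) ∪ {ce ([cj U] ++ [MFl 0 (M.map fun _ => .cst false)]) ∅}) (by simp) (by simp)
      hfl hMat2 (by simpa using hN) ?_ (Or.inr (by simp))
    · simpa using this
    · intro q hq
      rw [zip_map_self, List.mem_map] at hq
      obtain ⟨T, hT, rfl⟩ := hq
      exact ⟨Or.inl (Or.inr ⟨T, hT, by simp⟩), Or.inl (Or.inr ⟨T, hT, by simp⟩)⟩
  refine ((h2.comp (h3.union h4)).then (cstp [([.neg (cj U)] ++ [MFl 0 (M.map fun T => cj (U ∪ T))],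
    Γ), ([cj U] ++ [MFl 0 (M.map fun T => cj (U ∪ T))], ∅)] [.neg (cj U)] (by simp; omega)
    (by simp; omega) (by simp; omega) ?_ ?_ ?_ ?_ ?_) (Lgc_ce ?_ hΓ (by simp; omega))).mono
    subset_rfl ?_ subset_rfl
  · intro q hq
    simp only [List.mem_cons, List.not_mem_nil, or_false] at hq
    rcases hq with rfl | rfl
    · exact Or.inr (Or.inl rfl)
    · exact Or.inr (Or.inr rfl)
  · intro q hq
    simp only [List.mem_cons, List.not_mem_nil, or_false] at hq
    rcases hq with rfl | rfl <;> simp <;> omega
  · intro q hq x hx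
    simp only [List.mem_cons, List.not_mem_nil, or_false] at hq
    rcases hq with rfl | rfl
    · exact Or.inr hx
    · simp at hx
  · intro x hx
    rw [List.mem_singleton.1 hx]
    exact ⟨_, Or.inr ⟨([.neg (cj U)] ++ [MFl 0 (M.map fun T => cj (U ∪ T))], Γ), by simp,
      by simp⟩, self_mem_subs _⟩
  · intro v hv hf
    have r1 := resp_neg (hv (.neg (cj U)) (by simp))
    have f1 := hf (MFl 0 (M.map fun T => cj (U ∪ T))) (by simp)
    cases h : v (cj U)
    · refine ⟨([cj U] ++ [MFl 0 (M.map fun T => cj (U ∪ T))], ∅), by simp, ?_⟩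
      intro a ha
      simp only [List.mem_append, List.mem_cons, List.not_mem_nil, or_false] at ha
      rcases ha with rfl | rfl
      · exact h
      · exact f1
    · refine ⟨([.neg (cj U)] ++ [MFl 0 (M.map fun T => cj (U ∪ T))], Γ), by simp, ?_⟩
      intro a ha
      simp only [List.mem_append, List.mem_cons, List.not_mem_nil, or_false] at ha
      rcases ha with rfl | rfl
      · rw [r1, h]; rfl
      · exact f1
  · intro φ hφ
    rw [List.mem_singleton.1 hφ]
    exact LF_MFl 0 hMat2 (by simpa using hN) hZ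
  · ring_nf
    omega

/-- multiplication by a sum of monomials -/
theorem mulL (hκ : 4 ≤ κ) (hZ : N * (2 * w + 1) + 1 ≤ Z) (hZ2 : 2 * w + 2 ≤ Z)
    {A : Set (Finset (Fml p (Fin n)))} (Γ : Finset (Fml p (Fin n)))
    (hΓ : ∀ φ ∈ Γ, LF w Z φ) (hW : Γ.card + 3 ≤ W) (M : List (Finset (Fin n)))
    (Us : List (Finset (Fin n))) (hM : ∀ T ∈ M, T.card ≤ w ∧ ∀ U ∈ Us, (U ∪ T).card ≤ w)
    (hU : ∀ U ∈ Us, U.card ≤ w) (hN : M.length ≤ N) (hN2 : Us.length * M.length ≤ N)
    (h0 : ce [MFl 0 (M.map cj)] Γ ∈ A) :
    CV κ (Lgc w Z W) A (Us.length * (M.length * (3 * (w + 2) ^ 2 + 5) + 4) + 1)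
      {ce [MFl 0 ((Us.flatMap fun U => M.map fun T => U ∪ T).map cj)] Γ} := by
  classical
  induction Us with
  | nil =>
    refine (CV.step (cstp [] [MFl 0 []] (by simp) (by simp; omega) (by simp; omega) (by simp)
      (by simp) (by simp) ?_ ?_) (Lgc_ce ?_ hΓ (by simp; omega))).mono subset_rfl (by simp)
      subset_rfl
    · intro x hx
      rw [List.mem_singleton.1 hx]
      exact ⟨_, Or.inl (by simp), self_mem_subs _⟩
    · intro v hv hf
      exfalso
      have r1 := resp_MFl (hv (MFl 0 []) (by simp))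
      have f1 := hf (MFl 0 []) (by simp)
      rw [f1] at r1
      simp [vsum] at r1
    · intro φ hφ
      rw [List.mem_singleton.1 hφ]
      exact LF_MFl 0 (by simp) (Nat.zero_le N) hZ
  | cons U Us ih =>
    have hN2' : Us.length * M.length + M.length ≤ N := by
      rw [List.length_cons] at hN2
      have : (Us.length + 1) * M.length = Us.length * M.length + M.length := by ring
      omega
    have h1 := ih (fun T hT => ⟨(hM T hT).1, fun U hU => (hM T hT).2 U (by simp [hU])⟩)
      (fun U hU' => hU U (by simp [hU'])) (by omega)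
    have h2 := mulU (κ := κ) hκ hZ hZ2 Γ hΓ hW M U
      (fun T hT => ⟨(hM T hT).1, (hM T hT).2 U (by simp)⟩) (hU U (by simp)) hN h0
    set R := Us.flatMap fun U => M.map fun T => U ∪ T with hR
    have e1 : ((U :: Us).flatMap fun U => M.map fun T => U ∪ T) = (M.map fun T => U ∪ T) ++ R :=
      rfl
    have e2 : (((M.map fun T => U ∪ T) ++ R).map cj : List (Fml p (Fin n))) =
        (M.map fun T => cj (U ∪ T)) ++ R.map cj := by
      rw [List.map_append, List.map_map]
      rfl
    have hRl : R.length = Us.length * M.length := by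
      rw [hR]
      simp
    have hRat : ∀ φ ∈ R.map (cj (p := p)), At w φ := by
      intro φ hφ
      obtain ⟨T, hT, rfl⟩ := List.mem_map.1 hφ
      rw [hR, List.mem_flatMap] at hT
      obtain ⟨V, hV, hT⟩ := hT
      obtain ⟨T', hT', rfl⟩ := List.mem_map.1 hT
      exact At_cj ((hM T' hT').2 V (by simp [hV]))
    have hMat2 : ∀ φ ∈ M.map (fun T => cj (p := p) (U ∪ T)), At w φ := by
      intro φ hφ
      obtain ⟨T, hT, rfl⟩ := List.mem_map.1 hφ
      exact At_cj ((hM T hT).2 U (by simp))
    rw [e1, e2]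
    refine ((h1.union h2).then (cstp [([MFl 0 (R.map cj)], Γ),
      ([MFl 0 (M.map fun T => cj (U ∪ T))], Γ)] [MFl 0 (R.map cj),
      MFl 0 (M.map fun T => cj (U ∪ T)), MFl 0 ((M.map fun T => cj (U ∪ T)) ++ R.map cj)]
      (by simp; omega) (by simp; omega) (by simp; omega) ?_ ?_ ?_ ?_ ?_)
      (Lgc_ce ?_ hΓ (by simp; omega))).mono subset_rfl ?_ subset_rfl
    · intro q hq
      simp only [List.mem_cons, List.not_mem_nil, or_false] at hq
      rcases hq with rfl | rfl
      · exact Or.inr (Or.inl rfl)
      · exact Or.inr (Or.inr rfl)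
    · intro q hq
      simp only [List.mem_cons, List.not_mem_nil, or_false] at hq
      rcases hq with rfl | rfl <;> simp <;> omega
    · intro q hq x hx
      simp only [List.mem_cons, List.not_mem_nil, or_false] at hq
      rcases hq with rfl | rfl <;> exact Or.inr hx
    · intro x hx
      simp only [List.mem_cons, List.not_mem_nil, or_false] at hx
      rcases hx with rfl | rfl | rfl
      · exact ⟨_, Or.inr ⟨([MFl 0 (R.map cj)], Γ), by simp, by simp⟩, self_mem_subs _⟩
      · exact ⟨_, Or.inr ⟨([MFl 0 (M.map fun T => cj (U ∪ T))], Γ), by simp, by simp⟩,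
          self_mem_subs _⟩
      · exact ⟨_, Or.inl (by simp), self_mem_subs _⟩
    · intro v hv hf
      have r1 := resp_MFl (hv (MFl 0 (R.map cj)) (by simp))
      have r2 := resp_MFl (hv (MFl 0 (M.map fun T => cj (U ∪ T))) (by simp))
      have r3 := resp_MFl (hv (MFl 0 ((M.map fun T => cj (U ∪ T)) ++ R.map cj)) (by simp))
      have f1 := hf (MFl 0 ((M.map fun T => cj (U ∪ T)) ++ R.map cj)) (by simp)
      rw [f1, vsum_append] at r3
      by_cases h : vsum v (R.map cj) = 0
      · refine ⟨([MFl 0 (M.map fun T => cj (U ∪ T))], Γ), by simp, ?_⟩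
        intro a ha
        rw [List.mem_singleton.1 ha, r2, r3, h, add_zero]
      · refine ⟨([MFl 0 (R.map cj)], Γ), by simp, ?_⟩
        intro a ha
        rw [List.mem_singleton.1 ha, r1]
        simpa using h
    · intro φ hφ
      rw [List.mem_singleton.1 hφ]
      refine LF_MFl 0 ?_ (N := N) ?_ hZ
      · intro ψ hψ
        rcases List.mem_append.1 hψ with h | h
        · exact hMat2 ψ h
        · exact hRat ψ h
      · rw [List.length_append, List.length_map, List.length_map, hRl]
        omega
    · rw [List.length_cons]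
      ring_nf
      omega

theorem sum_flatMap_union (M Us : List (Finset (Fin n))) :
    ((Us.flatMap fun U => M.map fun T => U ∪ T).map (mon p)).sum =
      (Us.map (mon p)).sum * (M.map (mon p)).sum := by
  have h1 : ∀ U : Finset (Fin n), ((M.map fun T => U ∪ T).map (mon p)).sum =
      mon p U * (M.map (mon p)).sum := by
    intro U
    induction M with
    | nil => simp
    | cons T M ih =>
      simp only [List.map_cons, List.sum_cons, mul_add, mon_mul] at ih ⊢
      rw [ih]
  induction Us with
  | nil => simp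
  | cons U Us ih =>
    rw [List.flatMap_cons, List.map_append, List.sum_append, ih, h1, List.map_cons, List.sum_cons]
    ring

theorem At_rep {w D : ℕ} {f : (Fin n → Bool) → ZMod p} (hf : f ∈ Dg p n D) (hD : D ≤ w) :
    ∀ φ ∈ (rep f).map (cj (p := p)), At w φ := by
  intro φ hφ
  obtain ⟨T, hT, rfl⟩ := List.mem_map.1 hφ
  exact At_cj ((card_of_mem_rep hf hT).trans hD)

theorem LF_MR {D : ℕ} {f : (Fin n → Bool) → ZMod p} (c : ZMod p) (hf : f ∈ Dg p n D)
    (hD : D ≤ w) (hN : p * (n + 1) ^ D ≤ N) (hZ : N * (2 * w + 1) + 1 ≤ Z) : LF w Z (MR c f) :=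
  LF_MFl c (At_rep hf hD) (by rw [List.length_map]; exact (length_rep hf).trans hN) hZ

/-- multiplication of polynomials -/
theorem mul {D : ℕ} (hκ : 4 ≤ κ) (hw : w = 2 * D) (hN : (p * (n + 1) ^ D) ^ 2 ≤ N)
    (hZ : N * (2 * w + 1) + 1 ≤ Z) (hZ2 : 2 * w + 2 ≤ Z)
    {A : Set (Finset (Fml p (Fin n)))} (Γ : Finset (Fml p (Fin n)))
    (hΓ : ∀ φ ∈ Γ, LF w Z φ) (hW : Γ.card + 3 ≤ W) {f g : (Fin n → Bool) → ZMod p}
    (hf : f ∈ Dg p n D) (hg : g ∈ Dg p n D) (h0 : ce [MR 0 f] Γ ∈ A) :
    CV κ (Lgc w Z W) A (N * (3 * (w + 2) ^ 2 + 10)) {ce [MR 0 (f * g)] Γ} := by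
  classical
  have hp1 : 1 ≤ p := (Fact.out : p.Prime).one_le
  have h1 : 1 ≤ p * (n + 1) ^ D := Nat.mul_le_mul hp1 (Nat.one_le_pow _ _ (by omega))
  have hlf := length_rep hf
  have hlg := length_rep hg
  set X := p * (n + 1) ^ D with hX
  have hNX : X ≤ N := le_trans (by nlinarith) hN
  have hgf : (rep g).length * (rep f).length ≤ N :=
    (Nat.mul_le_mul hlg hlf).trans (by rw [← pow_two]; exact hN)
  have k1 := mulL (κ := κ) hκ hZ hZ2 Γ hΓ hW (rep f) (rep g)
    (fun T hT => ⟨by have := card_of_mem_rep hf hT; omega, fun U hU => by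
      have h2 := card_of_mem_rep hf hT
      have h3 := card_of_mem_rep hg hU
      exact (Finset.card_union_le _ _).trans (by omega)⟩)
    (fun U hU => by have := card_of_mem_rep hg hU; omega) (hlf.trans hNX) hgf h0
  set B := (rep g).flatMap fun U => (rep f).map fun T => U ∪ T with hB
  have hfgD : f * g ∈ Dg p n (2 * D) := by
    have := mul_mem_Dg hf hg
    have e : 2 * D = D + D := by ring
    rwa [e]
  have hfgN : p * (n + 1) ^ (2 * D) ≤ N := by
    refine le_trans ?_ hN
    have e : X ^ 2 = p * (p * (n + 1) ^ (2 * D)) := by rw [hX]; ring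
    rw [e]
    exact Nat.le_mul_of_pos_left _ (by omega)
  refine (k1.then (cstp [([MFl 0 (B.map cj)], Γ)] [MFl 0 (B.map cj), MR 0 (f * g)]
    (by simp; omega) (by simp; omega) (by simp; omega) ?_ ?_ ?_ ?_ ?_)
    (Lgc_ce ?_ hΓ (by simp; omega))).mono subset_rfl ?_ subset_rfl
  · intro q hq
    rw [List.mem_singleton.1 hq]
    exact Or.inr rfl
  · intro q hq
    rw [List.mem_singleton.1 hq]
    simp
    omega
  · intro q hq x hx
    rw [List.mem_singleton.1 hq] at hx
    exact Or.inr hx
  · intro x hx
    simp only [List.mem_cons, List.not_mem_nil, or_false] at hx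
    rcases hx with rfl | rfl
    · exact ⟨_, Or.inr ⟨_, List.mem_singleton_self _, by simp⟩, self_mem_subs _⟩
    · exact ⟨_, Or.inl (by simp), self_mem_subs _⟩
  · intro v hv hf'
    refine ⟨_, List.mem_singleton_self _, ?_⟩
    intro a ha
    rw [List.mem_singleton.1 ha]
    have r1 := resp_MFl (hv (MFl 0 (B.map cj)) (by simp))
    have r2 := resp_MR (hv (MR 0 (f * g)) (by simp))
    have f1 := hf' (MR 0 (f * g)) (by simp)
    rw [r1, vsum_cj, hB, sum_flatMap_union, sum_map_rep, sum_map_rep, mul_comm g f, ← r2, f1]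
  · intro φ hφ
    rw [List.mem_singleton.1 hφ]
    exact LF_MR 0 hfgD (by omega) hfgN hZ
  · have e1 : (rep g).length * ((rep f).length * (3 * (w + 2) ^ 2 + 5) + 4) + 1 + 1 =
        (rep g).length * (rep f).length * (3 * (w + 2) ^ 2 + 5) + 4 * (rep g).length + 2 := by ring
    rw [e1]
    have e2 : (rep g).length * (rep f).length * (3 * (w + 2) ^ 2 + 5) ≤
        N * (3 * (w + 2) ^ 2 + 5) := Nat.mul_le_mul_right _ hgf
    have e3 : N * (3 * (w + 2) ^ 2 + 10) = N * (3 * (w + 2) ^ 2 + 5) + 5 * N := by ring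
    rw [e3]
    have e4 : 4 * (rep g).length ≤ 4 * X := by omega
    have e5 : 4 * X + 2 ≤ 5 * N := by
      rcases Nat.lt_or_ge X 2 with h | h
      · have : X = 1 := by omega
        -- `p ≥ 2`
        have hp2 : 2 ≤ p := (Fact.out : p.Prime).two_le
        have : 2 ≤ X := by
          rw [hX]
          calc 2 = 2 * 1 := by norm_num
            _ ≤ p * (n + 1) ^ D := Nat.mul_le_mul hp2 (Nat.one_le_pow _ _ (by omega))
        omega
      · have : 2 * X ≤ N := le_trans (by nlinarith) hN
        omega
    omega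

end Pool.Agent.Work.MP_c04246_lc.Q
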