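import Mathlib
import Pool.Agent.Work.MP_c04246_lc.Q.FMul

set_option autoImplicit false
set_option linter.unusedSectionVars false

/-! Simulation of the inferences of resolution over polynomials. -/

namespace Pool.Agent.Work.MP_c04246_lc.Q

open Fml

variable {p : ℕ} [Fact p.Prime] {n : ℕ} {κ w Z W N D : ℕ}

/-- the cedent of a line -/
noncomputable def tr (L : List ((Fin n → Bool) → ZMod p)) : Finset (Fml p (Fin n)) :=
  ce (L.map (MR 0)) ∅

theorem mem_tr {L : List ((Fin n → Bool) → ZMod p)} {a : Fml p (Fin n)} :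
    a ∈ tr L ↔ ∃ f ∈ L, MR 0 f = a := by
  rw [tr, mem_ce, List.mem_map]
  simp

theorem card_tr (L : List ((Fin n → Bool) → ZMod p)) : (tr L).card ≤ L.length := by
  refine (card_ce _ _).trans (by simp)

theorem tr_cons (f : (Fin n → Bool) → ZMod p) (L : List ((Fin n → Bool) → ZMod p)) :
    tr (f :: L) = ce [MR 0 f] (tr L) := by
  ext a
  rw [mem_ce, mem_tr, mem_tr]
  simp only [List.mem_cons, exists_eq_or_imp, List.not_mem_nil, or_false]
  constructor
  · rintro (h | h)
    · exact Or.inl h.symm
    · exact Or.inr h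
  · rintro (h | h)
    · exact Or.inl h.symm
    · exact Or.inr h

theorem tr_nil : tr ([] : List ((Fin n → Bool) → ZMod p)) = ∅ := by
  ext a
  rw [mem_tr]
  simp

theorem ce_nil (Γ : Finset (Fml p (Fin n))) : ce [] Γ = Γ := by
  ext a
  rw [mem_ce]
  simp

/-- the value of `f` minus a constant -/
theorem VS_sub_const (v : Fml p (Fin n) → Bool) (h : v (.cst true) = true)
    (f : (Fin n → Bool) → ZMod p) (a : ZMod p) :
    VS v (f - fun _ => a) = VS v f - a := by
  have e : (fun _ => a : (Fin n → Bool) → ZMod p) = a • 1 := by ext x; simp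
  rw [e, map_sub, map_smul, VS_one v h, smul_eq_mul, mul_one]

/-- the cancellation rule -/
theorem split (hκ : (p + 2) ^ 2 ≤ κ) (hw : w = 2 * D) (hN : (p * (n + 1) ^ D) ^ 2 ≤ N)
    (hZ : N * (2 * w + 1) + 1 ≤ Z) (hZ2 : 2 * w + 2 ≤ Z)
    {A : Set (Finset (Fml p (Fin n)))} (Γ : Finset (Fml p (Fin n)))
    (hΓ : ∀ φ ∈ Γ, LF w Z φ) (hW : Γ.card + p + 3 ≤ W) {f g : (Fin n → Bool) → ZMod p}
    (hf : f ∈ Dg p n D) (hg : g ∈ Dg p n D) (h0 : ce [MR 0 (f * g)] Γ ∈ A) :
    CV κ (Lgc w Z W) A (p * (N * (3 * (w + 2) ^ 2 + 10) + 2) + 1) {ce [MR 0 f, MR 0 g] Γ} := by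
  classical
  have hp2 : 2 ≤ p := (Fact.out : p.Prime).two_le
  have hNe : NeZero p := ⟨by omega⟩
  have hκ4 : p * p + 4 * p + 4 ≤ κ := by
    have : (p + 2) ^ 2 = p * p + 4 * p + 4 := by ring
    omega
  have hp1 : 1 ≤ p := by omega
  have h1 : 1 ≤ p * (n + 1) ^ D := Nat.mul_le_mul hp1 (Nat.one_le_pow _ _ (Nat.succ_pos n))
  have hNX : p * (n + 1) ^ D ≤ N := le_trans (by nlinarith) hN
  have hLF : ∀ (c : ZMod p) {h : (Fin n → Bool) → ZMod p}, h ∈ Dg p n D → LF w Z (MR c h) :=
    fun c h hh => LF_MR c hh (by omega) hNX hZ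
  have hfgD : ∀ {h h' : (Fin n → Bool) → ZMod p}, h ∈ Dg p n D → h' ∈ Dg p n D →
      h * h' ∈ Dg p n (2 * D) := by
    intro h h' hh hh'
    have := mul_mem_Dg hh hh'
    have e : 2 * D = D + D := by ring
    rwa [e]
  -- the list of the other values
  let Lv : ZMod p → List (Fml p (Fin n)) := fun a =>
    ((Finset.univ.filter fun b : ZMod p => b ≠ a).toList).map fun b => MR b f
  have hLv : ∀ a, (Lv a).length + 1 = p := by
    intro a
    simp only [Lv, List.length_map, Finset.length_toList]
    rw [Finset.filter_ne', Finset.card_erase_of_mem (Finset.mem_univ _), Finset.card_univ,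
      ZMod.card]
    omega
  have hmem : ∀ a x, x ∈ Lv a ↔ ∃ b, b ≠ a ∧ MR b f = x := by
    intro a x
    simp [Lv]
  have hLvLF : ∀ a, ∀ φ ∈ Lv a, LF w Z φ := by
    intro a φ hφ
    obtain ⟨b, _, rfl⟩ := (hmem a φ).1 hφ
    exact hLF b hf
  -- one value
  have key : ∀ a ∈ ((Finset.univ.filter fun b : ZMod p => b ≠ 0).toList),
      CV κ (Lgc w Z W) A (N * (3 * (w + 2) ^ 2 + 10) + 2) {ce (MR 0 g :: Lv a) Γ} := by
    intro a ha
    have ha0 : a ≠ 0 := by simpa using ha
    set f' := f - (fun _ => a : (Fin n → Bool) → ZMod p) with hf'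
    have hf'D : f' ∈ Dg p n D := Submodule.sub_mem _ hf (const_mem_Dg D a)
    have s1 : CV κ (Lgc w Z W) A 1 {ce [MR 0 f'] (Lv a).toFinset} := by
      have e : ce [MR 0 f'] (Lv a).toFinset = ce (MR 0 f' :: Lv a) ∅ := by
        ext x
        rw [mem_ce, mem_ce]
        simp
      rw [e]
      have hl := hLv a
      refine CV.step (cstp [] (.cst true :: MR 0 f' :: Lv a) (by simp) (by simp; omega)
        (by simp; omega) (by simp) (by simp) (by simp) ?_ ?_) (Lgc_ce ?_ (by simp)
        (by simp; omega))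
      · intro x hx
        simp only [List.mem_cons] at hx
        rcases hx with rfl | rfl | hx
        · -- the constant is a subformula
          by_cases h2 : (bas p n).repr f' ∅ = 0
          · have h3 : (bas p n).repr f ∅ ≠ 0 := by
              intro h4
              rw [hf'] at h2
              have e2 : (fun _ => a : (Fin n → Bool) → ZMod p) = a • mon p ∅ := by
                ext x; simp [mon]
              rw [e2, map_sub, map_smul, repr_mon, Finsupp.sub_apply, h4, Finsupp.smul_apply,
                Finsupp.single_eq_same] at h2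
              simp at h2
              exact ha0 h2
            refine ⟨MR 0 f, Or.inl ?_, mem_subs_MR h3 (by rw [cj_empty]; exact self_mem_subs _)⟩
            exact List.mem_cons_of_mem _ ((hmem a _).2 ⟨0, fun h => ha0 h.symm, rfl⟩)
          · exact ⟨MR 0 f', Or.inl (by simp), mem_subs_MR h2
              (by rw [cj_empty]; exact self_mem_subs _)⟩
        · exact ⟨_, Or.inl (by simp), self_mem_subs _⟩
        · exact ⟨_, Or.inl (by simp [hx]), self_mem_subs _⟩
      · intro v hv hff
        exfalso
        have r0 := resp_cst (hv (.cst true) (by simp))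
        have r1 := resp_MR (hv (MR 0 f') (by simp))
        have f1 := hff (MR 0 f') (by simp)
        have r2 : VS v f = a := by
          by_contra hcon
          have hx : MR (VS v f) f ∈ Lv a := (hmem a _).2 ⟨_, hcon, rfl⟩
          have r3 := resp_MR (hv (MR (VS v f) f) (by simp [hx]))
          have f2 := hff (MR (VS v f) f) (by simp [hx])
          rw [f2] at r3
          simp at r3
        rw [f1, hf', VS_sub_const v r0, r2, sub_self] at r1
        simp at r1
      · intro φ hφ
        rcases List.mem_cons.1 hφ with rfl | h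
        · exact hLF 0 hf'D
        · exact hLvLF a φ h
    have hLc : (Lv a).toFinset.card ≤ p := by
      have := (Lv a).toFinset_card_le
      have := hLv a
      omega
    have s2 := mul (κ := κ) (W := W) (Z := Z) (A := A ∪ {ce [MR 0 f'] (Lv a).toFinset}) (by omega)
      hw hN hZ hZ2 (Lv a).toFinset
      (fun φ hφ => hLvLF a φ (List.mem_toFinset.1 hφ)) (by omega) hf'D hg (Or.inr rfl)
    refine ((s1.comp s2).then (cstp [([MR 0 (f * g)], Γ), ([MR 0 (f' * g)], (Lv a).toFinset)]
      [MR 0 (f * g), MR 0 (f' * g), MR 0 g] (by simp; omega) (by simp; omega) ?_ ?_ ?_ ?_ ?_ ?_)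
      (Lgc_ce ?_ hΓ ?_)).mono subset_rfl (by omega) subset_rfl
    · have := hLv a
      simp only [List.length_cons]
      omega
    · intro q hq
      simp only [List.mem_cons, List.not_mem_nil, or_false] at hq
      rcases hq with rfl | rfl
      · exact Or.inl h0
      · exact Or.inr rfl
    · intro q hq
      simp only [List.mem_cons, List.not_mem_nil, or_false] at hq
      rcases hq with rfl | rfl <;> simp <;> omega
    · intro q hq x hx
      simp only [List.mem_cons, List.not_mem_nil, or_false] at hq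
      rcases hq with rfl | rfl
      · exact Or.inr hx
      · exact Or.inl (List.mem_cons_of_mem _ (List.mem_toFinset.1 hx))
    · intro x hx
      simp only [List.mem_cons, List.not_mem_nil, or_false] at hx
      rcases hx with rfl | rfl | rfl
      · exact ⟨_, Or.inr ⟨([MR 0 (f * g)], Γ), by simp, by simp⟩, self_mem_subs _⟩
      · exact ⟨_, Or.inr ⟨([MR 0 (f' * g)], (Lv a).toFinset), by simp, by simp⟩,
          self_mem_subs _⟩
      · exact ⟨_, Or.inl (by simp), self_mem_subs _⟩
    · intro v hv hff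
      have r1 := resp_MR (hv (MR 0 (f * g)) (by simp))
      have r2 := resp_MR (hv (MR 0 (f' * g)) (by simp))
      have r3 := resp_MR (hv (MR 0 g) (by simp))
      have f1 := hff (MR 0 g) (by simp)
      have e3 : f' * g = f * g - a • g := by
        rw [hf']
        ext x
        simp [sub_mul]
      rw [e3, map_sub, map_smul, smul_eq_mul] at r2
      by_cases h2 : VS v (f * g) = 0
      · refine ⟨([MR 0 (f' * g)], (Lv a).toFinset), by simp, ?_⟩
        intro x hx
        rw [List.mem_singleton.1 hx, e3, r2, h2, zero_sub, decide_eq_false_iff_not,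
          neg_eq_zero, mul_eq_zero, not_or]
        refine ⟨ha0, ?_⟩
        rw [f1] at r3
        simpa using r3
      · refine ⟨([MR 0 (f * g)], Γ), by simp, ?_⟩
        intro x hx
        rw [List.mem_singleton.1 hx, r1]
        simpa using h2
    · intro φ hφ
      rcases List.mem_cons.1 hφ with rfl | h
      · exact hLF 0 hg
      · exact hLvLF a φ h
    · have := hLv a
      simp only [List.length_cons]
      omega
  have h2 := CV.fam _ (fun a => ({ce (MR 0 g :: Lv a) Γ} : Set (Finset (Fml p (Fin n))))) key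
  set V := (Finset.univ.filter fun b : ZMod p => b ≠ 0).toList with hV
  have hVl : V.length + 1 = p := by
    rw [hV, Finset.length_toList, Finset.filter_ne', Finset.card_erase_of_mem (Finset.mem_univ _),
      Finset.card_univ, ZMod.card]
    omega
  refine (h2.then (cstp (V.map fun a => (MR 0 g :: Lv a, Γ)) (MR 0 f :: V.flatMap Lv) ?_ ?_ ?_
    ?_ ?_ ?_ ?_ ?_) (Lgc_ce ?_ hΓ ?_)).mono subset_rfl ?_ subset_rfl
  · rw [List.length_map]
    have : p ≤ p * p := Nat.le_mul_self p
    omega
  · rw [List.length_cons, List.length_flatMap]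
    have h3 : (V.map fun a => (Lv a).length).sum ≤ V.length * p := by
      refine (List.sum_le_card_nsmul _ p ?_).trans (by simp)
      intro x hx
      obtain ⟨a, _, rfl⟩ := List.mem_map.1 hx
      have := hLv a
      omega
    have h4 : V.length * p ≤ p * p := Nat.mul_le_mul_right _ (by omega)
    omega
  · simp only [List.length_cons, List.length_nil]
    omega
  · intro q hq
    obtain ⟨a, ha, rfl⟩ := List.mem_map.1 hq
    exact Or.inr ⟨a, ha, rfl⟩
  · intro q hq
    obtain ⟨a, ha, rfl⟩ := List.mem_map.1 hq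
    have := hLv a
    simp only [List.length_cons]
    omega
  · intro q hq x hx
    obtain ⟨a, ha, rfl⟩ := List.mem_map.1 hq
    exact Or.inr hx
  · intro x hx
    rcases List.mem_cons.1 hx with rfl | hx
    · exact ⟨_, Or.inl (by simp), self_mem_subs _⟩
    · obtain ⟨a, ha, hx⟩ := List.mem_flatMap.1 hx
      exact ⟨x, Or.inr ⟨(MR 0 g :: Lv a, Γ), List.mem_map.2 ⟨a, ha, rfl⟩, by simp [hx]⟩,
        self_mem_subs _⟩
  · intro v hv hff
    have r1 := resp_MR (hv (MR 0 f) (by simp))
    have f1 := hff (MR 0 f) (by simp)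
    have f2 := hff (MR 0 g) (by simp)
    rw [f1] at r1
    have hb : VS v f ≠ 0 := by simpa using r1
    have hbV : VS v f ∈ V := by rw [hV]; simpa using hb
    refine ⟨(MR 0 g :: Lv (VS v f), Γ), List.mem_map.2 ⟨_, hbV, rfl⟩, ?_⟩
    intro x hx
    rcases List.mem_cons.1 hx with rfl | hx
    · exact f2
    · obtain ⟨b, hb2, rfl⟩ := (hmem _ x).1 hx
      have hmV : MR b f ∈ V.flatMap Lv := List.mem_flatMap.2 ⟨_, hbV, hx⟩
      have r2 := resp_MR (hv (MR b f) (by simp [hmV]))
      rw [r2]
      simpa using fun h => hb2 h.symm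
  · intro φ hφ
    simp only [List.mem_cons, List.not_mem_nil, or_false] at hφ
    rcases hφ with rfl | rfl
    · exact hLF 0 hf
    · exact hLF 0 hg
  · simp only [List.length_cons, List.length_nil]
    omega
  · have : V.length * (N * (3 * (w + 2) ^ 2 + 10) + 2) ≤
        p * (N * (3 * (w + 2) ^ 2 + 10) + 2) := Nat.mul_le_mul_right _ (by omega)
    omega

/-- simulation of one inference -/
theorem sim (hκ : (p + 2) ^ 2 ≤ κ) (hw : w = 2 * D) (hN : (p * (n + 1) ^ D) ^ 2 ≤ N)
    (hZ : N * (2 * w + 1) + 1 ≤ Z) (hZ2 : 2 * w + 2 ≤ Z)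
    {A : Set (Finset (Fml p (Fin n)))} {A0 : Set (List ((Fin n → Bool) → ZMod p))}
    {B : List ((Fin n → Bool) → ZMod p)} (h : Inf p D A0 B) (hB : ∀ f ∈ B, f ∈ Dg p n D)
    (hA0 : ∀ L ∈ A0, ∀ f ∈ L, f ∈ Dg p n D) (hW : B.length + p + 3 ≤ W)
    (hA : ∀ L ∈ A0, tr L ∈ A) :
    CV κ (Lgc w Z W) A (p * (N * (3 * (w + 2) ^ 2 + 10) + 2) + 1) {tr B} := by
  classical
  have hp2 : 2 ≤ p := (Fact.out : p.Prime).two_le
  have hκ4 : p * p + 4 * p + 4 ≤ κ := by
    have : (p + 2) ^ 2 = p * p + 4 * p + 4 := by ring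
    omega
  have hp1 : 1 ≤ p := by omega
  have h1 : 1 ≤ p * (n + 1) ^ D := Nat.mul_le_mul hp1 (Nat.one_le_pow _ _ (Nat.succ_pos n))
  have hNX : p * (n + 1) ^ D ≤ N := le_trans (by nlinarith) hN
  have hLF : ∀ (c : ZMod p) {h : (Fin n → Bool) → ZMod p}, h ∈ Dg p n D → LF w Z (MR c h) :=
    fun c h hh => LF_MR c hh (by omega) hNX hZ
  have hlegB : Lgc w Z W (tr B) := by
    refine ⟨(card_tr B).trans (by omega), fun φ hφ => ?_⟩
    obtain ⟨f, hf, rfl⟩ := mem_tr.1 hφ
    exact hLF 0 (hB f hf)
  have hbig : 1 ≤ p * (N * (3 * (w + 2) ^ 2 + 10) + 2) + 1 := by omega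
  cases h with
  | ax =>
    refine (CV.step ?_ hlegB).mono subset_rfl hbig subset_rfl
    rw [tr_cons, tr_nil]
    refine cstp [] [MR 0 0] (by simp) (by simp; omega) (by simp; omega) (by simp)
      (by simp) (by simp) ?_ ?_
    · intro x hx
      rw [List.mem_singleton.1 hx]
      exact ⟨_, Or.inl (by simp), self_mem_subs _⟩
    · intro v hv hf
      exfalso
      have r1 := resp_MR (hv (MR 0 0) (by simp))
      have f1 := hf (MR 0 0) (by simp)
      rw [f1, map_zero] at r1
      simp at r1
  | weak L _ h2 h3 =>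
    refine (CV.step ?_ hlegB).mono subset_rfl hbig subset_rfl
    have h4 := hA L h2
    have e : tr B = ce (B.map (MR 0)) ∅ := rfl
    rw [e]
    refine cstp_weaken (l := L.map (MR 0)) (Γ := ∅) (by omega) h4 ?_ (by simp)
    intro a ha
    obtain ⟨f, hf, rfl⟩ := List.mem_map.1 ha
    exact Or.inl (List.mem_map.2 ⟨f, h3 f hf, rfl⟩)
  | add f g L h2 h3 =>
    refine (CV.step ?_ hlegB).mono subset_rfl hbig subset_rfl
    have k2 := hA _ h2
    have k3 := hA _ h3
    rw [tr_cons] at k2 k3 ⊢
    refine cstp [([MR 0 f], tr L), ([MR 0 g], tr L)] [MR 0 f, MR 0 g, MR 0 (f + g)]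
      (by simp; omega) (by simp; omega) (by simp; omega) ?_ ?_ ?_ ?_ ?_
    · intro q hq
      simp only [List.mem_cons, List.not_mem_nil, or_false] at hq
      rcases hq with rfl | rfl
      · exact k2
      · exact k3
    · intro q hq
      simp only [List.mem_cons, List.not_mem_nil, or_false] at hq
      rcases hq with rfl | rfl <;> simp <;> omega
    · intro q hq x hx
      simp only [List.mem_cons, List.not_mem_nil, or_false] at hq
      rcases hq with rfl | rfl <;> exact Or.inr hx
    · intro x hx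
      simp only [List.mem_cons, List.not_mem_nil, or_false] at hx
      rcases hx with rfl | rfl | rfl
      · exact ⟨_, Or.inr ⟨([MR 0 f], tr L), by simp, by simp⟩, self_mem_subs _⟩
      · exact ⟨_, Or.inr ⟨([MR 0 g], tr L), by simp, by simp⟩, self_mem_subs _⟩
      · exact ⟨_, Or.inl (by simp), self_mem_subs _⟩
    · intro v hv hff
      have r1 := resp_MR (hv (MR 0 f) (by simp))
      have r2 := resp_MR (hv (MR 0 g) (by simp))
      have r3 := resp_MR (hv (MR 0 (f + g)) (by simp))
      have f1 := hff (MR 0 (f + g)) (by simp)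
      rw [f1, map_add] at r3
      by_cases h4 : VS v f = 0
      · refine ⟨([MR 0 g], tr L), by simp, ?_⟩
        intro x hx
        rw [List.mem_singleton.1 hx, r2, r3, h4, zero_add]
      · refine ⟨([MR 0 f], tr L), by simp, ?_⟩
        intro x hx
        rw [List.mem_singleton.1 hx, r1]
        simpa using h4
  | mul f g L h2 h3 =>
    have k2 := hA _ h2
    rw [tr_cons] at k2 ⊢
    have hL : L.length + 1 = ((f * g) :: L).length := by simp
    refine (mul (κ := κ) (W := W) (Z := Z) (A := A) (by omega) hw hN hZ hZ2 (tr L) ?_ ?_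
      (hA0 _ h2 f (by simp)) h3 k2).mono subset_rfl ?_ subset_rfl
    · intro φ hφ
      obtain ⟨f', hf', rfl⟩ := mem_tr.1 hφ
      exact hLF 0 (hB f' (by simp [hf']))
    · have := card_tr L
      omega
    · have : 1 * (N * (3 * (w + 2) ^ 2 + 10) + 2) ≤ p * (N * (3 * (w + 2) ^ 2 + 10) + 2) :=
        Nat.mul_le_mul_right _ (by omega)
      omega
  | split f g L h2 =>
    have k2 := hA _ h2
    rw [tr_cons] at k2
    have e : tr (f :: g :: L) = ce [MR 0 f, MR 0 g] (tr L) := by
      rw [tr_cons, tr_cons]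
      ext x
      simp only [mem_ce, List.mem_cons, List.not_mem_nil, or_false, or_assoc]
    rw [e]
    refine Q.split (κ := κ) (W := W) (Z := Z) (A := A) hκ hw hN hZ hZ2 (tr L) ?_ ?_
      (hB f (by simp)) (hB g (by simp)) k2
    · intro φ hφ
      obtain ⟨f', hf', rfl⟩ := mem_tr.1 hφ
      exact hLF 0 (hB f' (by simp [hf']))
    · have := card_tr L
      simp only [List.length_cons] at hW
      omega
  | unit _ h2 =>
    refine (CV.step ?_ hlegB).mono subset_rfl hbig subset_rfl
    have k2 := hA _ h2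
    rw [tr_cons] at k2
    rw [← ce_nil (tr B)]
    refine cstp [([MR 0 1], tr B)] [MR 0 1, .cst true] (by simp; omega) (by simp; omega)
      (by simp) ?_ ?_ ?_ ?_ ?_
    · intro q hq
      rw [List.mem_singleton.1 hq]
      exact k2
    · intro q hq
      rw [List.mem_singleton.1 hq]
      simp
      omega
    · intro q hq x hx
      rw [List.mem_singleton.1 hq] at hx
      exact Or.inr hx
    · intro x hx
      simp only [List.mem_cons, List.not_mem_nil, or_false] at hx
      refine ⟨MR 0 1, Or.inr ⟨_, List.mem_singleton_self _, by simp⟩, ?_⟩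
      rcases hx with rfl | rfl
      · exact self_mem_subs _
      · refine mem_subs_MR (t := ∅) ?_ (by rw [cj_empty]; exact self_mem_subs _)
        rw [one_eq_mon, repr_mon, Finsupp.single_eq_same]
        exact one_ne_zero
    · intro v hv hff
      refine ⟨_, List.mem_singleton_self _, ?_⟩
      intro x hx
      have r1 := resp_MR (hv (MR 0 1) (by simp))
      have r2 := resp_cst (hv (.cst true) (by simp))
      rw [List.mem_singleton.1 hx, r1, VS_one v r2]
      simp

end Pool.Agent.Work.MP_c04246_lc.Q
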