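import Mathlib
import Pool.Agent.Work.MP_c04246_lc.Q.FSim

set_option autoImplicit false
set_option linter.unusedSectionVars false

/-! From resolution over polynomials to cedents of formulas of depth two. -/

namespace Pool.Agent.Work.MP_c04246_lc.Q

open Fml

variable {p : ℕ} [Fact p.Prime] {n : ℕ} {κ w Z W N D : ℕ}

theorem cj_singleton (i : Fin n) : (cj {i} : Fml p (Fin n)) = .bin false (.var i) (.cst true) := by
  rw [cj, Finset.sort_singleton]
  rfl

theorem litP_true (i : Fin n) : litP p (i, true) = 1 - mon p {i} := by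
  funext x
  by_cases h : x i = true <;> simp [litP, mon, h]

theorem litP_false (i : Fin n) : litP p (i, false) = mon p {i} := by
  funext x
  by_cases h : x i = true <;> simp [litP, mon, h]

theorem litP_mem (t : Fin n × Bool) (hD : 1 ≤ D) : litP p t ∈ Dg p n D := by
  obtain ⟨i, b⟩ := t
  cases b
  · rw [litP_false]
    exact mon_mem (by simpa using hD)
  · rw [litP_true]
    exact Submodule.sub_mem _ (one_mem_Dg _) (mon_mem (by simpa using hD))

theorem repr_litP (t : Fin n × Bool) : (bas p n).repr (litP p t) {t.1} ≠ 0 := by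
  obtain ⟨i, b⟩ := t
  cases b
  · rw [litP_false, repr_mon, Finsupp.single_eq_same]
    exact one_ne_zero
  · rw [litP_true, one_eq_mon, map_sub, repr_mon, repr_mon, Finsupp.sub_apply,
      Finsupp.single_eq_same, Finsupp.single_eq_of_ne (by simp), zero_sub]
    exact neg_ne_zero.2 one_ne_zero

theorem resp_cj1 {v : Fml p (Fin n) → Bool} {i : Fin n} (h : Resp v (cj {i}))
    (h' : Resp v (.cst true)) : v (cj {i}) = v (.var i) := by
  rw [cj_singleton] at h ⊢
  have h1 : v (.bin false (.var i) (.cst true)) =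
    if false = true then (v (.var i) || v (.cst true)) else (v (.var i) && v (.cst true)) := h
  have h2 : v (.cst true) = true := h'
  rw [h1, h2]
  simp

/-- elimination of literals -/
theorem lit_elim (hκ : 4 ≤ κ) (hLFl : ∀ t : Fin n × Bool, LF w Z (litF t : Fml p (Fin n)))
    (X : List ((Fin n → Bool) → ZMod p)) (hX : ∀ φ ∈ tr X, LF w Z φ) :
    ∀ (S : List (Fin n × Bool)) (A : Set (Finset (Fml p (Fin n)))), (∀ t ∈ S, litP p t ∈ X) →
    S.length + (tr X).card ≤ W → ce (S.map litF) (tr X) ∈ A →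
    CV κ (Lgc w Z W) A S.length {tr X} := by
  classical
  intro S
  induction S with
  | nil =>
    intro A _ _ h
    exact CV.nil (by simpa [ce_nil] using h) _
  | cons t S ih =>
    intro A hS hW h
    set Γ := ce (S.map litF) (tr X) with hΓ
    have e1 : ce ((t :: S).map litF) (tr X) = ce [litF t] Γ := by
      ext x
      simp only [hΓ, mem_ce, List.map_cons, List.mem_cons, List.not_mem_nil, or_false, or_assoc]
    have hmem : MR 0 (litP p t) ∈ Γ := by
      rw [hΓ, mem_ce, mem_tr]
      exact Or.inr ⟨_, hS t (by simp), rfl⟩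
    have e2 : ce [MR 0 (litP p t)] Γ = Γ := by
      ext x
      rw [mem_ce]
      constructor
      · rintro (h | h)
        · rw [List.mem_singleton.1 h]; exact hmem
        · exact h
      · exact fun h => Or.inr h
    have hleg : Lgc w Z W Γ := by
      refine Lgc_ce ?_ hX (by simp at hW ⊢; omega)
      intro φ hφ
      obtain ⟨t', _, rfl⟩ := List.mem_map.1 hφ
      exact hLFl t'
    have hst : CStp κ A Γ := by
      rw [← e2]
      refine cstp [([litF t], Γ)] [MR 0 (litP p t), litF t, cj {t.1}, .cst true]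
        (by simp; omega) (by simp; omega) (by simp; omega) ?_ ?_ ?_ ?_ ?_
      · intro q hq
        rw [List.mem_singleton.1 hq, ← e1]
        exact h
      · intro q hq
        rw [List.mem_singleton.1 hq]
        simp
        omega
      · intro q hq x hx
        rw [List.mem_singleton.1 hq] at hx
        exact Or.inr hx
      · intro x hx
        simp only [List.mem_cons, List.not_mem_nil, or_false] at hx
        rcases hx with rfl | rfl | rfl | rfl
        · exact ⟨_, Or.inl (by simp), self_mem_subs _⟩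
        · exact ⟨_, Or.inr ⟨_, List.mem_singleton_self _, by simp⟩, self_mem_subs _⟩
        · exact ⟨_, Or.inl (List.mem_singleton_self _), mem_subs_MR (repr_litP t)
            (self_mem_subs _)⟩
        · refine ⟨_, Or.inl (List.mem_singleton_self _), mem_subs_MR (repr_litP t) ?_⟩
          rw [cj_singleton]
          simp [subs]
      · intro v hv hf
        refine ⟨_, List.mem_singleton_self _, ?_⟩
        intro x hx
        rw [List.mem_singleton.1 hx]
        have r1 := resp_MR (hv (MR 0 (litP p t)) (by simp))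
        have r2 := resp_cj1 (hv (cj {t.1}) (by simp)) (hv (.cst true) (by simp))
        have r3 : v (.cst true) = true := hv (.cst true) (by simp)
        have r4 := hv (litF t) (by simp)
        have f1 := hf (MR 0 (litP p t)) (by simp)
        rw [f1] at r1
        obtain ⟨i, b⟩ := t
        cases b
        · rw [litP_false, VS_mon, r2] at r1
          have e : (litF (i, false) : Fml p (Fin n)) = .neg (.var i) := by simp [litF]
          rw [e] at r4 ⊢
          rw [resp_neg r4]
          cases h5 : v (.var i)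
          · simp [h5] at r1
          · rfl
        · rw [litP_true, map_sub, VS_one v r3, VS_mon, r2] at r1
          have e : (litF (i, true) : Fml p (Fin n)) = .var i := by simp [litF]
          rw [e]
          cases h5 : v (.var i)
          · rfl
          · simp [h5] at r1
    have h3 := ih (A ∪ {Γ}) (fun t' ht' => hS t' (by simp [ht'])) (by simp at hW; omega)
      (Or.inr rfl)
    refine ((CV.step hst hleg).comp h3).mono subset_rfl ?_ subset_rfl
    rw [List.length_cons]
    omega

theorem LF_litF (hZ : 2 ≤ Z) (t : Fin n × Bool) : LF w Z (litF t : Fml p (Fin n)) := by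
  obtain ⟨i, b⟩ := t
  cases b
  · have e : (litF (i, false) : Fml p (Fin n)) = .neg (.var i) := by simp [litF]
    rw [e]
    exact LF_negvar i hZ
  · have e : (litF (i, true) : Fml p (Fin n)) = .var i := by simp [litF]
    rw [e]
    exact LF_var i (by omega)

/-- translation of clauses -/
theorem clause_tr (hκ : 4 ≤ κ) (hw : w = 2 * D) (hD : 1 ≤ D) (hN : (p * (n + 1) ^ D) ^ 2 ≤ N)
    (hZ : N * (2 * w + 1) + 1 ≤ Z) (hZ2 : 2 * w + 2 ≤ Z) (hW : 4 * n ≤ W)
    {A : Set (Finset (Fml p (Fin n)))} (C : List (Fin n × Bool)) (h : clC C ∈ A) :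
    CV κ (Lgc w Z W) A (2 * n + 1) {tr (C.map (litP p))} := by
  classical
  have hp1 : 1 ≤ p := (Fact.out : p.Prime).one_le
  have h1 : 1 ≤ p * (n + 1) ^ D := Nat.mul_le_mul hp1 (Nat.one_le_pow _ _ (Nat.succ_pos n))
  have hNX : p * (n + 1) ^ D ≤ N := le_trans (by nlinarith) hN
  set X := C.map (litP p) with hX
  set S := C.dedup with hS
  have hSl : S.length ≤ 2 * n := by
    have := List.Nodup.length_le_card (List.nodup_dedup C)
    simpa [mul_comm] using this
  have hXc : (tr X).card ≤ 2 * n := by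
    have e : tr X ⊆ (S.map fun t => MR 0 (litP p t)).toFinset := by
      intro x hx
      obtain ⟨f, hf, rfl⟩ := mem_tr.1 hx
      obtain ⟨t, ht, rfl⟩ := List.mem_map.1 hf
      rw [List.mem_toFinset]
      exact List.mem_map.2 ⟨t, List.mem_dedup.2 ht, rfl⟩
    refine (Finset.card_le_card e).trans ((List.toFinset_card_le _).trans ?_)
    simpa using hSl
  have hXL : ∀ φ ∈ tr X, LF w Z φ := by
    intro φ hφ
    obtain ⟨f, hf, rfl⟩ := mem_tr.1 hφ
    obtain ⟨t, ht, rfl⟩ := List.mem_map.1 hf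
    exact LF_MR 0 (litP_mem t hD) (by omega) hNX hZ
  have s1 : CV κ (Lgc w Z W) A 1 {ce (S.map litF) (tr X)} := by
    have e : (clC C : Finset (Fml p (Fin n))) = ce (C.map litF) ∅ := by
      ext x
      rw [mem_ce, clC, List.mem_toFinset]
      simp
    rw [e] at h
    refine CV.step (cstp_weaken (by omega) h ?_ (by simp)) (Lgc_ce ?_ hXL (by simp; omega))
    · intro a ha
      obtain ⟨t, ht, rfl⟩ := List.mem_map.1 ha
      exact Or.inl (List.mem_map.2 ⟨t, List.mem_dedup.2 ht, rfl⟩)
    · intro φ hφ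
      obtain ⟨t, _, rfl⟩ := List.mem_map.1 hφ
      exact LF_litF (by omega) t
  refine (s1.comp (lit_elim hκ (LF_litF (by omega)) X hXL S _ ?_ (by omega)
    (Or.inr rfl))).mono subset_rfl (by omega) subset_rfl
  intro t ht
  exact List.mem_map.2 ⟨t, List.mem_dedup.1 ht, rfl⟩

/-- an inference has at most two premises -/
theorem Inf.fin {A : Set (List ((Fin n → Bool) → ZMod p))} {B : List ((Fin n → Bool) → ZMod p)}
    (h : Inf p D A B) : ∃ P : List (List ((Fin n → Bool) → ZMod p)), P.length ≤ 2 ∧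
      (∀ L ∈ P, L ∈ A) ∧ Inf p D {L | L ∈ P} B := by
  cases h with
  | ax => exact ⟨[], by simp, by simp, Inf.ax⟩
  | weak L _ h1 h2 => exact ⟨[L], by simp, by simpa using h1, Inf.weak L B (by simp) h2⟩
  | add f g L h1 h2 =>
    exact ⟨[f :: L, g :: L], by simp, by simp [h1, h2], Inf.add f g L (by simp) (by simp)⟩
  | mul f g L h1 h2 => exact ⟨[f :: L], by simp, by simpa using h1, Inf.mul f g L (by simp) h2⟩
  | split f g L h1 => exact ⟨[(f * g) :: L], by simp, by simpa using h1, Inf.split f g L (by simp)⟩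
  | unit _ h1 => exact ⟨[1 :: B], by simp, by simpa using h1, Inf.unit B (by simp)⟩

/-- translation of refutations -/
theorem toCV (hκ : (p + 2) ^ 2 ≤ κ) (hw : w = 2 * D) (hD : 1 ≤ D)
    (hN : (p * (n + 1) ^ D) ^ 2 ≤ N) (hZ : N * (2 * w + 1) + 1 ≤ Z) (hZ2 : 2 * w + 2 ≤ Z)
    {F : Set (List (Fin n × Bool))} {τ : List (List ((Fin n → Bool) → ZMod p))} {W0 : ℕ}
    (hres : IsRes p D F τ) (hlen : ∀ L ∈ τ, L.length ≤ W0) (hW : W0 + 4 * n + p + 3 ≤ W) :
    CV κ (Lgc w Z W) {Γ | ∃ C ∈ F, Γ = clC C}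
      (τ.length * (2 * (2 * n + 1) + (p * (N * (3 * (w + 2) ^ 2 + 10) + 2) + 1)))
      {Γ | ∃ L ∈ τ, Γ = tr L} := by
  classical
  have hκ4 : 4 ≤ κ := by
    have : (p + 2) ^ 2 = p * p + 4 * p + 4 := by ring
    omega
  set A : Set (Finset (Fml p (Fin n))) := {Γ | ∃ C ∈ F, Γ = clC C} with hA
  set T := 2 * (2 * n + 1) + (p * (N * (3 * (w + 2) ^ 2 + 10) + 2) + 1) with hT
  have key : ∀ i ≤ τ.length, CV κ (Lgc w Z W) A (i * T)
      {Γ | ∃ j : Fin τ.length, j.1 < i ∧ Γ = tr (τ.get j)} := by
    intro i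
    induction i with
    | zero =>
      intro _
      refine CV.nil ?_ _
      rintro L ⟨j, hj, _⟩
      exact absurd hj (by omega)
    | succ i ih =>
      intro hi
      have ih := ih (by omega)
      set E : Set (Finset (Fml p (Fin n))) :=
        {Γ | ∃ j : Fin τ.length, j.1 < i ∧ Γ = tr (τ.get j)} with hE
      obtain ⟨g1, g2⟩ := hres ⟨i, by omega⟩
      obtain ⟨P, hP1, hP2, hP3⟩ := g2.fin
      have k1 : ∀ L ∈ P, CV κ (Lgc w Z W) (A ∪ E) (2 * n + 1) {tr L} := by
        intro L hL
        rcases hP2 L hL with ⟨C, hC, rfl⟩ | ⟨j, hj, rfl⟩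
        · exact clause_tr hκ4 hw hD hN hZ hZ2 (by omega) C (Or.inl ⟨C, hC, rfl⟩)
        · refine CV.nil ?_ _
          rintro Γ hΓ
          rw [Set.mem_singleton_iff] at hΓ
          subst hΓ
          exact Or.inr ⟨j, hj, rfl⟩
      have k2 := CV.fam P (fun L => ({tr L} : Set (Finset (Fml p (Fin n))))) k1
      have hlenB : (τ.get ⟨i, by omega⟩).length ≤ W0 := hlen _ (List.get_mem _ _)
      have k3 := sim (κ := κ) (Z := Z) (W := W)
        (A := (A ∪ E) ∪ {L | ∃ i ∈ P, L ∈ ({tr i} : Set (Finset (Fml p (Fin n))))})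
        hκ hw hN hZ hZ2 hP3 g1 ?_ (by omega)
        (by
          intro L hL
          exact Or.inr ⟨L, hL, rfl⟩)
      · refine (ih.trans (k2.comp k3)).mono subset_rfl ?_ ?_
        · have : P.length * (2 * n + 1) ≤ 2 * (2 * n + 1) := Nat.mul_le_mul_right _ hP1
          have e3 : (i + 1) * T = i * T + T := by ring
          rw [e3]
          omega
        · rintro Γ ⟨j, hj, rfl⟩
          by_cases hj2 : j.1 < i
          · exact Or.inl ⟨j, hj2, rfl⟩
          · right
            have : j = ⟨i, by omega⟩ := Fin.ext (by simp only; omega)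
            rw [this]
            rfl
      · intro L hL f hf
        rcases hP2 L hL with ⟨C, hC, rfl⟩ | ⟨j, hj, rfl⟩
        · obtain ⟨t, _, rfl⟩ := List.mem_map.1 hf
          exact litP_mem t hD
        · exact (hres j).1 f hf
  refine (key τ.length le_rfl).mono subset_rfl le_rfl ?_
  rintro Γ ⟨L, hL, rfl⟩
  obtain ⟨j, hj, rfl⟩ := List.mem_iff_getElem.1 hL
  exact ⟨⟨j, hj⟩, hj, rfl⟩

theorem CDer.snoc {A : Set (Finset (Fml p (Fin n)))} {π : List (Finset (Fml p (Fin n)))}
    (h : CDer κ A π) {B : Finset (Fml p (Fin n))}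
    (hB : B ∈ A ∨ ∃ (k : ℕ) (P : Fin k → Finset (Fml p (Fin n))), (∀ a, P a ∈ π) ∧
      CRule κ P B) : CDer κ A (π ++ [B]) := by
  have hlen : (π ++ [B]).length = π.length + 1 := by simp
  have eget : ∀ (j : ℕ) (hj : j < π.length),
      (π ++ [B]).get ⟨j, by omega⟩ = π.get ⟨j, hj⟩ := by
    intro j hj
    simp only [List.get_eq_getElem]
    rw [List.getElem_append_left hj]
  intro i
  have hi : i.1 < π.length + 1 := by
    have := i.2
    omega
  rcases Nat.lt_succ_iff_lt_or_eq.1 hi with hlt | heq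
  · have e1 : (π ++ [B]).get i = π.get ⟨i.1, hlt⟩ := eget i.1 hlt
    rw [e1]
    rcases h ⟨i.1, hlt⟩ with h | ⟨k, P, hP, h⟩
    · exact Or.inl h
    · refine Or.inr ⟨k, fun a => ⟨(P a).1, by have := (P a).2; omega⟩, fun a => hP a, ?_⟩
      have e2 : (fun a => (π ++ [B]).get ⟨(P a).1, by have := (P a).2; omega⟩) =
          fun a => π.get (P a) := by
        funext a
        exact eget (P a).1 (P a).2
      rw [e2]
      exact h
  · have e1 : (π ++ [B]).get i = B := by
      simp only [List.get_eq_getElem]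
      rw [List.getElem_append_right (by omega)]
      simp [heq]
    rw [e1]
    rcases hB with h | ⟨k, P, hP, h⟩
    · exact Or.inl h
    · right
      choose j hj e using fun a => List.mem_iff_getElem.1 (hP a)
      refine ⟨k, fun a => ⟨j a, by have := hj a; omega⟩, fun a => ?_, ?_⟩
      · rw [Fin.lt_def]
        simp only
        have := hj a
        omega
      · have e2 : (fun a => (π ++ [B]).get ⟨j a, by have := hj a; omega⟩) = P := by
          funext a
          rw [eget (j a) (hj a), ← e a]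
          rfl
        rw [e2]
        exact h

theorem CDer.append_ax {A : Set (Finset (Fml p (Fin n)))} {π : List (Finset (Fml p (Fin n)))}
    (h : CDer κ A π) (l : List (Finset (Fml p (Fin n)))) (hl : ∀ Γ ∈ l, Γ ∈ A) :
    CDer κ A (π ++ l) := by
  induction l generalizing π with
  | nil => simpa using h
  | cons B l ih =>
    have e : π ++ B :: l = (π ++ [B]) ++ l := by simp
    rw [e]
    exact ih (h.snoc (Or.inl (hl B (by simp)))) fun Γ hΓ => hl Γ (by simp [hΓ])

/-- from derivations to `CDer` -/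
theorem CD.isCDer {A : Set (Finset (Fml p (Fin n)))} (hA : ∀ Γ ∈ A, ∀ φ ∈ Γ, LF w Z φ)
    {π : List (Finset (Fml p (Fin n)))} (h : CD κ (Lgc w Z W) A π) :
    ∃ π' : List (Finset (Fml p (Fin n))), CDer κ A π' ∧ (∀ Γ ∈ π, Γ ∈ π') ∧
      (∀ Γ ∈ π', Lgc w Z (W + κ) Γ) ∧ π'.length ≤ (κ + 1) * π.length := by
  classical
  induction h with
  | nil => exact ⟨[], fun i => absurd i.2 (by simp), by simp, by simp, by simp⟩
  | cons B π _ hs h1 ih =>
    obtain ⟨π', g1, g2, g3, g4⟩ := ih
    obtain ⟨k, P, hP, hr⟩ := hs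
    set l := (List.ofFn P).filter (fun Γ => decide (Γ ∈ A)) with hl
    have hlA : ∀ Γ ∈ l, Γ ∈ A := by
      intro Γ hΓ
      rw [hl, List.mem_filter] at hΓ
      simpa using hΓ.2
    have hlen : l.length ≤ κ := by
      refine (List.length_filter_le _ _).trans ?_
      rw [List.length_ofFn]
      exact hr.1
    refine ⟨(π' ++ l) ++ [B], (g1.append_ax l hlA).snoc (Or.inr ⟨k, P, fun a => ?_, hr⟩), ?_, ?_,
      ?_⟩
    · rcases hP a with h | h
      · refine List.mem_append_right _ ?_
        rw [hl, List.mem_filter]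
        exact ⟨List.mem_ofFn.2 ⟨a, rfl⟩, by simpa using h⟩
      · exact List.mem_append_left _ (g2 _ h)
    · intro Γ hΓ
      rcases List.mem_cons.1 hΓ with rfl | hΓ
      · simp
      · simp [g2 Γ hΓ]
    · intro Γ hΓ
      simp only [List.mem_append, List.mem_cons, List.not_mem_nil, or_false] at hΓ
      rcases hΓ with (hΓ | hΓ) | rfl
      · exact g3 Γ hΓ
      · refine ⟨?_, hA Γ (hlA Γ hΓ)⟩
        rw [hl, List.mem_filter, List.mem_ofFn] at hΓ
        obtain ⟨⟨a, rfl⟩, _⟩ := hΓ
        have k1 := hr.2.1 a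
        have k2 : (P a).card ≤ (P a \ B).card + B.card := by
          have := Finset.card_sdiff_add_card (P a) B
          have h3 : (P a).card ≤ (P a ∪ B).card := Finset.card_le_card Finset.subset_union_left
          omega
        have k3 := h1.1
        omega
      · exact ⟨h1.1.trans (by omega), h1.2⟩
    · simp only [List.length_append, List.length_cons, List.length_nil]
      have : (κ + 1) * (π.length + 1) = (κ + 1) * π.length + (κ + 1) := by ring
      omega

/-- resolution over polynomials is simulated by cedents of formulas of depth two -/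
theorem toC (hκ : (p + 2) ^ 2 ≤ κ) (hw : w = 2 * D) (hD : 1 ≤ D)
    (hN : (p * (n + 1) ^ D) ^ 2 ≤ N) (hZ : N * (2 * w + 1) + 1 ≤ Z) (hZ2 : 2 * w + 2 ≤ Z)
    {F : Set (List (Fin n × Bool))} {τ : List (List ((Fin n → Bool) → ZMod p))} {W0 : ℕ}
    (hres : IsRes p D F τ) (hbot : [] ∈ τ) (hlen : ∀ L ∈ τ, L.length ≤ W0)
    (hW : W0 + 4 * n + p + 3 ≤ W) :
    ∃ σ : List (Finset (Fml p (Fin n))), CDer κ {Γ | ∃ C ∈ F, Γ = clC C} σ ∧ ∅ ∈ σ ∧
      (∀ Γ ∈ σ, ∀ φ ∈ Γ, depth φ ≤ 2 ∧ Small w φ) ∧
      (σ.map csize).sum ≤ (κ + 1) * (τ.length * (2 * (2 * n + 1) +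
        (p * (N * (3 * (w + 2) ^ 2 + 10) + 2) + 1)) + 1) * (1 + (W + κ) * Z) := by
  classical
  obtain ⟨π, h1, h2, h3⟩ := toCV hκ hw hD hN hZ hZ2 hres hlen hW
  set A : Set (Finset (Fml p (Fin n))) := {Γ | ∃ C ∈ F, Γ = clC C} with hA
  have hAL : ∀ Γ ∈ A, ∀ φ ∈ Γ, LF w Z φ := by
    rintro Γ ⟨C, _, rfl⟩ φ hφ
    rw [clC, List.mem_toFinset] at hφ
    obtain ⟨t, _, rfl⟩ := List.mem_map.1 hφ
    exact LF_litF (by omega) t
  obtain ⟨π', g1, g2, g3, g4⟩ := h1.isCDer hAL
  have hbot' : (∅ : Finset (Fml p (Fin n))) ∈ A ∨ (∅ : Finset (Fml p (Fin n))) ∈ π' := by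
    rcases h3 ∅ ⟨[], hbot, tr_nil.symm⟩ with h | h
    · exact Or.inl h
    · exact Or.inr (g2 _ h)
  have hcs : ∀ Γ : Finset (Fml p (Fin n)), Lgc w Z (W + κ) Γ → csize Γ ≤ 1 + (W + κ) * Z := by
    intro Γ hΓ
    have k1 : ∑ b ∈ Γ, Fml.size b ≤ Γ.card * Z :=
      (Finset.sum_le_card_nsmul _ _ Z fun b hb => (hΓ.2 b hb).2.2).trans (by simp)
    have k2 : Γ.card * Z ≤ (W + κ) * Z := Nat.mul_le_mul_right _ hΓ.1
    simp only [csize]
    omega
  set T := 2 * (2 * n + 1) + (p * (N * (3 * (w + 2) ^ 2 + 10) + 2) + 1) with hT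
  rcases hbot' with hb | hb
  · refine ⟨[∅], ?_, by simp, by simp, ?_⟩
    · intro i
      left
      have hi : i.1 = 0 := by
        have h2 : i.1 < 1 := i.2
        omega
      have : ([∅] : List (Finset (Fml p (Fin n)))).get i = ∅ := by
        simp
      rw [this]
      exact hb
    · have e : ((([∅] : List (Finset (Fml p (Fin n)))).map csize).sum) = 1 := by simp [csize]
      rw [e]
      have a1 : 1 ≤ κ + 1 := by omega
      have a2 : 1 ≤ τ.length * T + 1 := by omega
      have a3 : 1 ≤ 1 + (W + κ) * Z := by omega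
      exact Nat.mul_le_mul (Nat.mul_le_mul a1 a2) a3
  · refine ⟨π', g1, hb, fun Γ hΓ φ hφ => ⟨((g3 Γ hΓ).2 φ hφ).1, ((g3 Γ hΓ).2 φ hφ).2.1⟩, ?_⟩
    have k1 : (π'.map csize).sum ≤ π'.length * (1 + (W + κ) * Z) := by
      refine (List.sum_le_card_nsmul _ (1 + (W + κ) * Z) ?_).trans (by simp)
      intro x hx
      obtain ⟨Γ, hΓ, rfl⟩ := List.mem_map.1 hx
      exact hcs Γ (g3 Γ hΓ)
    refine k1.trans (Nat.mul_le_mul_right _ (g4.trans (Nat.mul_le_mul_left _ (by omega))))

end Pool.Agent.Work.MP_c04246_lc.Q
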