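import Mathlib
import Pool.Agent.Work.MP_c04246_lc.Q.FEnd

set_option autoImplicit false
set_option linter.unusedSectionVars false

/-! Collapse of the depth hierarchy to depth two. -/

namespace Pool.Agent.Work.MP_c04246_lc.Q

open Fml

section pre

variable {p n : ℕ}

theorem CRule.mono' {κ κ' k : ℕ} {P : Fin k → Finset (Fml p (Fin n))}
    {G : Finset (Fml p (Fin n))} (h : CRule κ P G) (hκ : κ ≤ κ') : CRule κ' P G := by
  obtain ⟨h1, h2, C, Δ, h3, h4, h5, h6, h7⟩ := h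
  exact ⟨h1.trans hκ, fun i => (h2 i).trans hκ, C, Δ, h3.trans hκ, h4.trans hκ, h5, h6, h7⟩

theorem CDer.mono' {κ κ' : ℕ} {A A' : Set (Finset (Fml p (Fin n)))}
    {π : List (Finset (Fml p (Fin n)))} (h : CDer κ A π) (hκ : κ ≤ κ') (hA : A ⊆ A') :
    CDer κ' A' π := by
  intro i
  rcases h i with h | ⟨k, P, hP, h⟩
  · exact Or.inl (hA h)
  · exact Or.inr ⟨k, P, hP, CRule.mono' h hκ⟩

theorem sdiff_card_le_one (a : Fml p (Fin n)) (G : Finset (Fml p (Fin n)))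
    [DecidableEq (Fml p (Fin n))] : ({a} \ G : Finset (Fml p (Fin n))).card ≤ 1 :=
  (Finset.card_le_card Finset.sdiff_subset).trans (by simp)

/-- from a proof of the disjunctive normal form to a refutation -/
theorem dnf_to_botC {κ d : ℕ} [Fact p.Prime] (A : Set (Finset (Fml p (Fin n)))) (T : ℕ) :
    ∀ (F : List (List (Fin n × Bool))) (π : List (Finset (Fml p (Fin n)))),
    (∀ B ∈ F, {clF B} ∈ A) → CDer (κ + 2) A π → {dnf F} ∈ π →
    (∀ Γ ∈ π, ∀ φ ∈ Γ, depth φ ≤ d) →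
    depth (dnf F : Fml p (Fin n)) ≤ d → Fml.size (dnf F : Fml p (Fin n)) ≤ T →
    ∃ π' : List (Finset (Fml p (Fin n))), CDer (κ + 2) A π' ∧ ∅ ∈ π' ∧
      (∀ Γ ∈ π', ∀ φ ∈ Γ, depth φ ≤ d) ∧
      (π'.map csize).sum ≤ (π.map csize).sum + F.length * (2 * (1 + T)) + 1 := by
  classical
  intro F
  induction F with
  | nil =>
    intro π _ h1 h2 h3 _ _
    refine ⟨π ++ [∅], CDer.snoc h1 (Or.inr ⟨1, fun _ => {dnf []}, fun _ => h2, ?_⟩), by simp, ?_,
      ?_⟩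
    · refine ⟨by omega, fun _ => (sdiff_card_le_one _ _).trans (by omega), {.cst false}, ∅,
        by simp, by simp, by simp, ?_, ?_⟩
      · intro c hc
        rw [Finset.mem_singleton] at hc
        subst hc
        refine ⟨dnf [], Or.inr ⟨0, by simp⟩, ?_⟩
        have e : (dnf [] : Fml p (Fin n)) = .cst false := rfl
        rw [e]
        exact self_mem_subs _
      · intro v hv _
        refine ⟨0, fun a ha => ?_⟩
        have h4 : a = dnf [] := by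
          have := (Finset.mem_sdiff.1 ha).1
          simpa using this
        rw [h4]
        exact hv (.cst false) (by simp)
    · intro Γ hΓ φ hφ
      simp only [List.mem_append, List.mem_cons, List.not_mem_nil, or_false] at hΓ
      rcases hΓ with hΓ | rfl
      · exact h3 Γ hΓ φ hφ
      · simp at hφ
    · simp [csize]
  | cons B F ih =>
    intro π hA h1 h2 h3 h4 h5
    have e1 : (dnf (B :: F) : Fml p (Fin n)) = .bin true (neg (clF B)) (dnf F) := rfl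
    have hs1 : (clF B : Fml p (Fin n)) ∈ subs (dnf (B :: F) : Fml p (Fin n)) := by
      rw [e1]
      simp [subs, self_mem_subs]
    have hs2 : (dnf F : Fml p (Fin n)) ∈ subs (dnf (B :: F) : Fml p (Fin n)) := by
      rw [e1]
      simp [subs, self_mem_subs]
    have hd1 : depth (clF B : Fml p (Fin n)) ≤ d := (dpt_subs hs1).trans h4
    have hd2 : depth (dnf F : Fml p (Fin n)) ≤ d := (dpt_subs hs2).trans h4
    have hz1 : Fml.size (clF B : Fml p (Fin n)) ≤ T := (size_subs hs1).trans h5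
    have hz2 : Fml.size (dnf F : Fml p (Fin n)) ≤ T := (size_subs hs2).trans h5
    have k1 : CDer (κ + 2) A (π ++ [{clF B}]) := CDer.snoc h1 (Or.inl (hA B (by simp)))
    have k2 : CDer (κ + 2) A ((π ++ [{clF B}]) ++ [{dnf F}]) := by
      refine CDer.snoc k1 (Or.inr ⟨2, ![{dnf (B :: F)}, {clF B}], ?_, ?_⟩)
      · intro a
        fin_cases a
        · exact List.mem_append_left _ h2
        · simp
      · refine ⟨by omega, ?_, {dnf (B :: F), neg (clF B)}, {dnf F},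
          (Finset.card_le_two).trans (by omega), by simp, by simp, ?_, ?_⟩
        · intro a
          fin_cases a <;> exact (sdiff_card_le_one _ _).trans (by omega)
        · intro c hc
          refine ⟨dnf (B :: F), Or.inr ⟨0, by simp⟩, ?_⟩
          rw [Finset.mem_insert, Finset.mem_singleton] at hc
          rcases hc with rfl | rfl
          · exact self_mem_subs _
          · rw [e1]
            simp [subs]
        · intro v hv hD
          have r1 := hv (dnf (B :: F)) (by simp)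
          have r2 := hv (neg (clF B)) (by simp)
          have r3 := hD (dnf F) (by simp)
          rw [e1] at r1
          simp only [Resp] at r1 r2
          rw [r3, r2] at r1
          cases h6 : v (clF B)
          · refine ⟨1, fun a ha => ?_⟩
            have h7 : a = clF B := by
              have := (Finset.mem_sdiff.1 ha).1
              simpa using this
            rw [h7]
            exact h6
          · refine ⟨0, fun a ha => ?_⟩
            have h7 : a = dnf (B :: F) := by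
              have := (Finset.mem_sdiff.1 ha).1
              simpa using this
            rw [h7, e1, r1, h6]
            rfl
    obtain ⟨π', g1, g2, g3, g4⟩ := ih ((π ++ [{clF B}]) ++ [{dnf F}])
      (fun B' hB' => hA B' (by simp [hB'])) k2 (by simp) (by
        intro Γ hΓ φ hφ
        simp only [List.mem_append, List.mem_cons, List.not_mem_nil, or_false] at hΓ
        rcases hΓ with (hΓ | rfl) | rfl
        · exact h3 Γ hΓ φ hφ
        · rw [Finset.mem_singleton.1 hφ]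
          exact hd1
        · rw [Finset.mem_singleton.1 hφ]
          exact hd2) hd2 hz2
    refine ⟨π', g1, g2, g3, g4.trans ?_⟩
    simp only [List.map_append, List.map_cons, List.map_nil, List.sum_append, List.sum_cons,
      List.sum_nil, List.length_cons, csize, Finset.sum_singleton]
    have : (F.length + 1) * (2 * (1 + T)) = F.length * (2 * (1 + T)) + 2 * (1 + T) := by ring
    have e2 : (List.map (fun G : Finset (Fml p (Fin n)) => 1 + ∑ b ∈ G, Fml.size b) π).sum =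
      (List.map csize π).sum := rfl
    omega

end pre

/-- collapse to resolution over polynomials, for cedents -/
theorem collapseC (p : ℕ) [Fact p.Prime] (K : ℕ) (d n S : ℕ)
    (F : Set (List (Fin n × Bool))) (π : List (Finset (Fml p (Fin n))))
    (hder : CDer K {Γ | ∃ B ∈ F, Γ = clC B ∨ Γ = {clF B}} π) (hbot : ∅ ∈ π)
    (hd : ∀ Γ ∈ π, ∀ φ ∈ Γ, depth φ ≤ d) (hsz : (π.map csize).sum ≤ S) :
    ∃ σ : List (List ((Fin n → Bool) → ZMod p)),
      IsRes p ((64 * p ^ 2 * (2 * (K ^ 2 + K) + 9) * (Nat.log 2 S + 1)) ^ (d + 5)) F σ ∧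
      [] ∈ σ ∧ σ.length ≤
        2 ^ (64 * p ^ 2 * (2 * (K ^ 2 + K) + 9) * (d + 1) ^ 2 * (Nat.log 2 S + 1) ^ 4) ∧
      ∀ L ∈ σ, L.length ≤
        2 ^ (64 * p ^ 2 * (2 * (K ^ 2 + K) + 9) * (d + 1) * (Nat.log 2 S + 1) ^ 2) := by
  have hp := (Fact.out : p.Prime)
  have hl : 1 ≤ Nat.log 2 S + 1 := by omega
  have hsz' : (π.map csize).sum < 2 ^ (Nat.log 2 S + 1) :=
    lt_of_le_of_lt hsz (Nat.lt_pow_succ_log_self (by norm_num) S)
  obtain ⟨σ, h1, h2, h3, h4⟩ := collapse0C p K d n _ hl F π hder hbot hd hsz'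
  set l := Nat.log 2 S + 1 with hldef
  set κ := K ^ 2 + K with hκ
  have hκ2 : K ^ 2 + 2 * K ≤ 2 * κ := by omega
  have n1 : (K ^ 2 + 2 * K + l + 8) * (4 * (4 * p * (d + 1) * l ^ 2) ^ 2 * (4 * p * l) ^ d) ≤
      (64 * p ^ 2 * (2 * κ + 9) * l) ^ (d + 5) :=
    (Nat.mul_le_mul_right _ (by omega)).trans (num1 p κ d l hp.two_le hl)
  refine ⟨σ, h1.mono n1, h2, h3.trans ?_, fun L hL => (h4 L hL).trans ?_⟩
  · refine le_trans (Nat.mul_le_mul_left _ (Nat.mul_le_mul_left _ (Nat.pow_le_pow_left ?_ 2)))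
      (num2 p κ d l hp.two_le hl)
    omega
  · refine le_trans (Nat.add_le_add_left ?_ _) (num3 p κ d l hp.two_le hl)
    omega

/-- size estimate -/
theorem num4 (p n D l x W0 t κ N w Z W : ℕ) (hp : 2 ≤ p) (hD : 1 ≤ D) (hl : 1 ≤ l)
    (hn : n < 2 ^ l) (hx : x = l * D + p) (hκ : κ = (p + 2) ^ 2)
    (hN : N = (p * (n + 1) ^ D) ^ 2) (hw : w = 2 * D) (hZ : Z = N * (2 * w + 1) + 2 * w + 2)
    (hW : W = W0 + 4 * n + p + 3) (hW0 : W0 ≤ 2 ^ x) (ht : t ≤ 2 ^ x) :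
    (κ + 1) * (t * (2 * (2 * n + 1) + (p * (N * (3 * (w + 2) ^ 2 + 10) + 2) + 1)) + 1) *
      (1 + (W + κ) * Z) ≤ 2 ^ (31 * x) := by
  set y := 2 ^ x with hy
  have hlD : l ≤ l * D := Nat.le_mul_of_pos_right _ hD
  have hDl : D ≤ l * D := Nat.le_mul_of_pos_left _ hl
  have y1 : 2 ≤ y := by
    rw [hy]
    calc 2 = 2 ^ 1 := by norm_num
      _ ≤ 2 ^ x := Nat.pow_le_pow_right (by norm_num) (by omega)
  have yp : p ≤ y := (Nat.lt_two_pow_self).le.trans (Nat.pow_le_pow_right (by norm_num) (by omega))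
  have yD : D ≤ y := (Nat.lt_two_pow_self).le.trans (Nat.pow_le_pow_right (by norm_num) (by omega))
  have yn : n ≤ y := hn.le.trans (Nat.pow_le_pow_right (by norm_num) (by omega))
  have yN : p * (n + 1) ^ D ≤ y := by
    calc p * (n + 1) ^ D ≤ 2 ^ p * (2 ^ l) ^ D :=
          Nat.mul_le_mul (Nat.lt_two_pow_self).le (Nat.pow_le_pow_left hn D)
      _ = 2 ^ x := by rw [← pow_mul, ← pow_add, hx, add_comm]
  have hN' : N ≤ y ^ 2 := by rw [hN]; exact Nat.pow_le_pow_left yN 2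
  have hw' : w ≤ 2 * y := by omega
  have hw2 : w + 2 ≤ 4 * y := by omega
  have y3 : y ≤ y ^ 3 := Nat.le_self_pow (by norm_num) _
  have hZ' : Z ≤ 11 * y ^ 3 := by
    rw [hZ]
    have a1 : N * (2 * w + 1) ≤ y ^ 2 * (5 * y) := Nat.mul_le_mul hN' (by omega)
    have a2 : y ^ 2 * (5 * y) = 5 * y ^ 3 := by ring
    omega
  have hW' : W ≤ 9 * y := by omega
  have hκ' : κ ≤ 9 * y ^ 2 := by
    rw [hκ]
    calc (p + 2) ^ 2 ≤ (3 * y) ^ 2 := Nat.pow_le_pow_left (by omega) 2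
      _ = 9 * y ^ 2 := by ring
  have y2 : y ≤ y ^ 2 := Nat.le_self_pow (by norm_num) _
  have y5 : y ≤ y ^ 5 := Nat.le_self_pow (by norm_num) _
  have y6 : 1 ≤ y ^ 6 := Nat.one_le_pow _ _ (by omega)
  have hT : 2 * (2 * n + 1) + (p * (N * (3 * (w + 2) ^ 2 + 10) + 2) + 1) ≤ 66 * y ^ 5 := by
    have a1 : (w + 2) ^ 2 ≤ 16 * y ^ 2 := by
      calc (w + 2) ^ 2 ≤ (4 * y) ^ 2 := Nat.pow_le_pow_left hw2 2
        _ = 16 * y ^ 2 := by ring
    have y21 : 1 ≤ y ^ 2 := Nat.one_le_pow _ _ (by omega)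
    have a2 : 3 * (w + 2) ^ 2 + 10 ≤ 58 * y ^ 2 := by omega
    have a3 : N * (3 * (w + 2) ^ 2 + 10) ≤ y ^ 2 * (58 * y ^ 2) := Nat.mul_le_mul hN' a2
    have a4 : p * (N * (3 * (w + 2) ^ 2 + 10) + 2) ≤ y * (y ^ 2 * (58 * y ^ 2) + 2) :=
      Nat.mul_le_mul yp (by omega)
    have a5 : y * (y ^ 2 * (58 * y ^ 2) + 2) = 58 * y ^ 5 + 2 * y := by ring
    omega
  have b1 : κ + 1 ≤ 10 * y ^ 2 := by omega
  have b2 : t * (2 * (2 * n + 1) + (p * (N * (3 * (w + 2) ^ 2 + 10) + 2) + 1)) + 1 ≤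
      67 * y ^ 6 := by
    have : t * (2 * (2 * n + 1) + (p * (N * (3 * (w + 2) ^ 2 + 10) + 2) + 1)) ≤
        y * (66 * y ^ 5) := Nat.mul_le_mul ht hT
    have e : y * (66 * y ^ 5) = 66 * y ^ 6 := by ring
    omega
  have b3 : 1 + (W + κ) * Z ≤ 199 * y ^ 5 := by
    have a1 : W + κ ≤ 18 * y ^ 2 := by omega
    have a2 : (W + κ) * Z ≤ 18 * y ^ 2 * (11 * y ^ 3) := Nat.mul_le_mul a1 hZ'
    have e : 18 * y ^ 2 * (11 * y ^ 3) = 198 * y ^ 5 := by ring
    omega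
  calc _ ≤ 10 * y ^ 2 * (67 * y ^ 6) * (199 * y ^ 5) := Nat.mul_le_mul (Nat.mul_le_mul b1 b2) b3
    _ = 133330 * y ^ 13 := by ring
    _ ≤ 2 ^ 18 * y ^ 13 := Nat.mul_le_mul_right _ (by norm_num)
    _ ≤ y ^ 18 * y ^ 13 := Nat.mul_le_mul_right _ (Nat.pow_le_pow_left y1 18)
    _ = y ^ 31 := by rw [← pow_add]
    _ = 2 ^ (31 * x) := by rw [hy, ← pow_mul, mul_comm]

/-- both collapses, for refutations -/
theorem two (p : ℕ) [Fact p.Prime] (K : ℕ) : ∃ C : ℕ, ∀ (d n S : ℕ)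
    (F : Set (List (Fin n × Bool))) (π : List (Finset (Fml p (Fin n)))),
    CDer K {Γ | ∃ B ∈ F, Γ = clC B ∨ Γ = {clF B}} π → ∅ ∈ π →
    (∀ Γ ∈ π, ∀ φ ∈ Γ, depth φ ≤ d) → n ≤ S → (π.map csize).sum ≤ S →
    (∃ τ : List (List ((Fin n → Bool) → ZMod p)),
      IsRes p ((C * (Nat.log 2 S + 1)) ^ (d + 5)) F τ ∧ [] ∈ τ ∧
      τ.length ≤ 2 ^ (C * (d + 1) ^ 2 * (Nat.log 2 S + 1) ^ 4) ∧
      ∀ L ∈ τ, L.length ≤ 2 ^ (C * (d + 1) * (Nat.log 2 S + 1) ^ 2)) ∧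
    ∃ σ : List (Finset (Fml p (Fin n))), CDer ((p + 2) ^ 2) {Γ | ∃ B ∈ F, Γ = clC B} σ ∧ ∅ ∈ σ ∧
      (∀ Γ ∈ σ, ∀ φ ∈ Γ, depth φ ≤ 2 ∧ Small ((C * (Nat.log 2 S + 1)) ^ (d + 5)) φ) ∧
      (σ.map csize).sum ≤ 2 ^ ((C * (Nat.log 2 S + 1)) ^ (d + 6)) := by
  have hp := (Fact.out : p.Prime)
  have hp2 := hp.two_le
  set C1 := 64 * p ^ 2 * (2 * (K ^ 2 + K) + 9) with hC1
  have hC4 : 4 ≤ C1 := by
    have : 1 ≤ p ^ 2 := Nat.one_le_pow _ _ (by omega)
    nlinarith [Nat.zero_le (p ^ 2 * (K ^ 2 + K))]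
  refine ⟨31 * (p + 1) * C1, fun d n S F π hder hbot hd hn hsz => ?_⟩
  set C := 31 * (p + 1) * C1 with hC
  obtain ⟨τ, t1, t2, t3, t4⟩ := collapseC p K d n S F π hder hbot hd hsz
  rw [← hC1] at t1 t3 t4
  set l := Nat.log 2 S + 1 with hl
  have hl1 : 1 ≤ l := by omega
  have hCC : C1 ≤ C := by
    rw [hC]
    exact Nat.le_mul_of_pos_left _ (by omega)
  have hCC2 : 2 * C1 ≤ C := by
    rw [hC]
    exact Nat.mul_le_mul_right _ (by omega)
  refine ⟨⟨τ, t1.mono (Nat.pow_le_pow_left (Nat.mul_le_mul_right _ hCC) _), t2, t3.trans ?_,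
    fun L hL => (t4 L hL).trans ?_⟩, ?_⟩
  · apply Nat.pow_le_pow_right (by norm_num)
    exact Nat.mul_le_mul_right _ (Nat.mul_le_mul_right _ hCC)
  · apply Nat.pow_le_pow_right (by norm_num)
    exact Nat.mul_le_mul_right _ (Nat.mul_le_mul_right _ hCC)
  set D := (C1 * l) ^ (d + 5) with hD
  have hD1 : 1 ≤ D := Nat.one_le_pow _ _ (Nat.mul_pos (by omega) (by omega))
  have hnl : n < 2 ^ l := lt_of_le_of_lt hn (Nat.lt_pow_succ_log_self (by norm_num) S)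
  -- exponents
  have hd1 : d + 1 ≤ 2 ^ d := Nat.lt_two_pow_self
  have hd2 : (d + 1) ^ 2 ≤ C1 ^ d := by
    calc (d + 1) ^ 2 ≤ (2 ^ d) ^ 2 := Nat.pow_le_pow_left hd1 2
      _ = 4 ^ d := by rw [← pow_mul, mul_comm, pow_mul]; norm_num
      _ ≤ C1 ^ d := Nat.pow_le_pow_left hC4 d
  have e1 : C1 * (d + 1) ^ 2 * l ^ 4 ≤ D := by
    calc C1 * (d + 1) ^ 2 * l ^ 4 ≤ C1 ^ 5 * C1 ^ d * l ^ (d + 5) := by
          apply Nat.mul_le_mul (Nat.mul_le_mul (Nat.le_self_pow (by norm_num) _) hd2)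
          exact Nat.pow_le_pow_right hl1 (by omega)
      _ = D := by rw [hD, mul_pow C1 l (d + 5), ← pow_add C1 5 d, add_comm 5 d]
  have e2 : C1 * (d + 1) * l ^ 2 ≤ D := by
    refine le_trans ?_ e1
    apply Nat.mul_le_mul
    · apply Nat.mul_le_mul_left
      exact Nat.le_self_pow (by norm_num) _
    · exact Nat.pow_le_pow_right hl1 (by omega)
  have hDl : D ≤ l * D := Nat.le_mul_of_pos_left _ hl1
  set x := l * D + p with hx
  have g1 : 2 ^ (C1 * (d + 1) ^ 2 * l ^ 4) ≤ 2 ^ x :=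
    Nat.pow_le_pow_right (by norm_num) (by omega)
  have g2 : 2 ^ (C1 * (d + 1) * l ^ 2) ≤ 2 ^ x :=
    Nat.pow_le_pow_right (by norm_num) (by omega)
  obtain ⟨σ, s1, s2, s3, s4⟩ := toC (p := p) (n := n) (κ := (p + 2) ^ 2) (w := 2 * D)
    (Z := (p * (n + 1) ^ D) ^ 2 * (2 * (2 * D) + 1) + 2 * (2 * D) + 2)
    (W := 2 ^ (C1 * (d + 1) * l ^ 2) + 4 * n + p + 3)
    (N := (p * (n + 1) ^ D) ^ 2) (D := D) (F := F) (τ := τ) (W0 := 2 ^ (C1 * (d + 1) * l ^ 2))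
    le_rfl rfl hD1 le_rfl (by omega) (by omega) t1 t2 t4 le_rfl
  refine ⟨σ, s1, s2, fun Γ hΓ φ hφ => ⟨(s3 Γ hΓ φ hφ).1, fun c a b hb =>
    ((s3 Γ hΓ φ hφ).2 c a b hb).trans ?_⟩, s4.trans ?_⟩
  · calc 2 * D ≤ 2 ^ (d + 5) * D := Nat.mul_le_mul_right _ (Nat.le_self_pow (by omega) _)
      _ = (2 * C1 * l) ^ (d + 5) := by rw [hD, ← mul_pow]; ring_nf
      _ ≤ (C * l) ^ (d + 5) := Nat.pow_le_pow_left (Nat.mul_le_mul_right _ hCC2) _
  · refine (num4 p n D l x (2 ^ (C1 * (d + 1) * l ^ 2)) τ.length ((p + 2) ^ 2)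
      ((p * (n + 1) ^ D) ^ 2) (2 * D)
      ((p * (n + 1) ^ D) ^ 2 * (2 * (2 * D) + 1) + 2 * (2 * D) + 2)
      (2 ^ (C1 * (d + 1) * l ^ 2) + 4 * n + p + 3) hp2 hD1 hl1 hnl hx rfl rfl rfl rfl rfl g2
      (t3.trans g1)).trans ?_
    apply Nat.pow_le_pow_right (by norm_num)
    have h1 : x ≤ (p + 1) * (l * D) := by
      rw [hx]
      have : 1 ≤ l * D := Nat.mul_pos (by omega) (by omega)
      nlinarith
    calc 31 * x ≤ 31 * ((p + 1) * (l * D)) := Nat.mul_le_mul_left _ h1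
      _ = D * (31 * (p + 1) * l) := by ring
      _ ≤ (C * l) ^ (d + 5) * (C * l) := by
          apply Nat.mul_le_mul
          · exact Nat.pow_le_pow_left (Nat.mul_le_mul_right _ hCC) _
          · apply Nat.mul_le_mul_right
            rw [hC]
            exact Nat.le_mul_of_pos_right _ (by omega)
      _ = (C * l) ^ (d + 6) := by rw [← pow_succ]

/-- both collapses, for refutations and for proofs -/
theorem final (p : ℕ) [Fact p.Prime] (K : ℕ) : ∃ C : ℕ, ∀ (d n S : ℕ)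
    (F : List (List (Fin n × Bool))) (π : List (Finset (Fml p (Fin n)))),
    CDer K {Γ | ∃ B ∈ F, Γ = clC B ∨ Γ = {clF B}} π → (∅ ∈ π ∨ {dnf F} ∈ π) →
    (∀ Γ ∈ π, ∀ φ ∈ Γ, depth φ ≤ d) → n ≤ S → (π.map csize).sum ≤ S →
    (∃ τ : List (List ((Fin n → Bool) → ZMod p)),
      IsRes p ((C * (Nat.log 2 S + 1)) ^ (d + 5)) {B | B ∈ F} τ ∧ [] ∈ τ ∧
      τ.length ≤ 2 ^ (C * (d + 1) ^ 2 * (Nat.log 2 S + 1) ^ 4) ∧
      ∀ L ∈ τ, L.length ≤ 2 ^ (C * (d + 1) * (Nat.log 2 S + 1) ^ 2)) ∧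
    ∃ σ : List (Finset (Fml p (Fin n))), CDer ((p + 2) ^ 2) {Γ | ∃ B ∈ F, Γ = clC B} σ ∧ ∅ ∈ σ ∧
      (∀ Γ ∈ σ, ∀ φ ∈ Γ, depth φ ≤ 2 ∧ Small ((C * (Nat.log 2 S + 1)) ^ (d + 5)) φ) ∧
      (σ.map csize).sum ≤ 2 ^ ((C * (Nat.log 2 S + 1)) ^ (d + 6)) := by
  classical
  obtain ⟨C, hC⟩ := two p (K + 2)
  refine ⟨C * 256, fun d n S F π hder hfin hd hn hsz => ?_⟩
  set l := Nat.log 2 S + 1 with hl
  have hl1 : 1 ≤ l := by omega
  have hS1 : 1 ≤ S := by
    have h0 : ∃ Γ, Γ ∈ π := by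
      rcases hfin with h | h
      · exact ⟨_, h⟩
      · exact ⟨_, h⟩
    obtain ⟨Γ, hΓ⟩ := h0
    have h1 : csize Γ ≤ (π.map csize).sum :=
      List.single_le_sum (by simp) _ (List.mem_map.2 ⟨Γ, hΓ, rfl⟩)
    have h2 : 1 ≤ csize Γ := by simp [csize]
    omega
  -- a refutation of size at most `6 S ^ 2`
  obtain ⟨π', h1, h2, h3, h4⟩ : ∃ π' : List (Finset (Fml p (Fin n))),
      CDer (K + 2) {Γ | ∃ B ∈ {B | B ∈ F}, Γ = clC B ∨ Γ = {clF B}} π' ∧ ∅ ∈ π' ∧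
      (∀ Γ ∈ π', ∀ φ ∈ Γ, depth φ ≤ d) ∧ (π'.map csize).sum ≤ 4 * S ^ 2 := by
    rcases hfin with hbot | hdnf
    · refine ⟨π, hder.mono' (by omega) subset_rfl, hbot, hd, hsz.trans ?_⟩
      nlinarith
    · have h5 : csize {(dnf F : Fml p (Fin n))} ≤ S :=
        (List.single_le_sum (by simp) _ (List.mem_map.2 ⟨_, hdnf, rfl⟩)).trans hsz
      simp only [csize, Finset.sum_singleton] at h5
      obtain ⟨π', g1, g2, g3, g4⟩ := dnf_to_botC (κ := K) (d := d)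
        {Γ | ∃ B ∈ {B | B ∈ F}, Γ = clC B ∨ Γ = {clF B}} (S - 1) F π
        (fun B hB => ⟨B, hB, Or.inr rfl⟩) (hder.mono' (by omega) subset_rfl) hdnf hd
        (hd _ hdnf _ (by simp)) (by omega)
      refine ⟨π', g1, g2, g3, g4.trans ?_⟩
      have h6 : F.length ≤ S := (length_le_size_dnf (p := p) F).trans (by omega)
      have e : 1 + (S - 1) = S := by omega
      rw [e]
      have h7 : F.length * (2 * S) ≤ S * (2 * S) := Nat.mul_le_mul_right _ h6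
      nlinarith
  obtain ⟨⟨τ, k1, k2, k3, k4⟩, σ, m1, m2, m3, m4⟩ := hC d n (4 * S ^ 2) {B | B ∈ F} π' h1 h2 h3
    (by nlinarith) h4
  set l' := Nat.log 2 (4 * S ^ 2) + 1 with hl'
  have hll : l' ≤ 4 * l := by
    have h8 : S < 2 ^ l := Nat.lt_pow_succ_log_self (by norm_num) S
    have h9 : 4 * S ^ 2 < 2 ^ (2 * l + 2) := by
      have : S ^ 2 < (2 ^ l) ^ 2 := Nat.pow_lt_pow_left h8 (by norm_num)
      calc 4 * S ^ 2 < 4 * (2 ^ l) ^ 2 := by omega
        _ = 2 ^ (2 * l + 2) := by rw [← pow_mul, pow_add, mul_comm l 2]; ring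
    have h10 : Nat.log 2 (4 * S ^ 2) < 2 * l + 2 := by
      apply Nat.log_lt_of_lt_pow' _ h9
      omega
    omega
  have hCl : C * l' ≤ C * 256 * l := by
    calc C * l' ≤ C * (4 * l) := Nat.mul_le_mul_left _ hll
      _ ≤ C * 256 * l := by nlinarith [Nat.zero_le (C * l)]
  refine ⟨⟨τ, IsRes.mono k1 (Nat.pow_le_pow_left hCl _), k2, k3.trans ?_,
    fun L hL => (k4 L hL).trans ?_⟩, σ, m1, m2, fun Γ hΓ φ hφ => ⟨(m3 Γ hΓ φ hφ).1,
    fun c a b hb => ((m3 Γ hΓ φ hφ).2 c a b hb).trans (Nat.pow_le_pow_left hCl _)⟩,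
    m4.trans (Nat.pow_le_pow_right (by norm_num) (Nat.pow_le_pow_left hCl _))⟩
  · apply Nat.pow_le_pow_right (by norm_num)
    calc C * (d + 1) ^ 2 * l' ^ 4 ≤ C * (d + 1) ^ 2 * (4 * l) ^ 4 :=
          Nat.mul_le_mul_left _ (Nat.pow_le_pow_left hll 4)
      _ = C * 256 * (d + 1) ^ 2 * l ^ 4 := by ring
  · apply Nat.pow_le_pow_right (by norm_num)
    calc C * (d + 1) * l' ^ 2 ≤ C * (d + 1) * (4 * l) ^ 2 :=
          Nat.mul_le_mul_left _ (Nat.pow_le_pow_left hll 2)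
      _ = C * 16 * (d + 1) * l ^ 2 := by ring
      _ ≤ C * 256 * (d + 1) * l ^ 2 := by
          apply Nat.mul_le_mul_right
          apply Nat.mul_le_mul_right
          omega

end Pool.Agent.Work.MP_c04246_lc.Q
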